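import Mathlib.Order.Filter.Basic
import Mathlib.Data.Fintype.Lattice
import Mathlib.Algebra.Notation.Lemmas
import Mathlib.Tactic.Monotonicity.Lemmas
import Mathlib.Order.CompletePartialOrder
import Mathlib.SetTheory.ZFC.Ordinal

/-! Codes, countable models, the club filter, ranked towers of models, generic conditions. -/

open Filter

namespace Pool.Agent.Ctry

/-- the universe of codes -/
abbrev U : Type 1 := ZFSet.{0}

/-- an injective coding of a type by sets -/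
class Cd (X : Type*) where
  cd : X → U
  inj : Function.Injective cd

export Cd (cd)

instance : Cd U := ⟨id, fun _ _ h => h⟩

noncomputable instance : Cd Ordinal.{0} := ⟨Ordinal.toZFSet, Ordinal.toZFSet_injective⟩

instance {X Y : Type*} [Cd X] [Cd Y] : Cd (X × Y) :=
  ⟨fun z => ZFSet.pair (cd z.1) (cd z.2), fun _ _ h =>
    Prod.ext (Cd.inj (ZFSet.pair_inj.1 h).1) (Cd.inj (ZFSet.pair_inj.1 h).2)⟩

instance {X : Type*} [Cd X] {p : X → Prop} : Cd (Subtype p) :=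
  ⟨fun x => cd x.1, fun _ _ h => Subtype.ext (Cd.inj h)⟩

instance : Cd Unit := ⟨fun _ => ∅, fun _ _ _ => rfl⟩

/-- code of a list -/
def cdL {X : Type*} [Cd X] : List X → U
  | [] => ∅
  | a :: l => ZFSet.pair (cd a) (cdL l)

theorem pair_ne_empty (x y : U) : ZFSet.pair x y ≠ ∅ := fun h => by
  have : ({x} : U) ∈ ZFSet.pair x y := by simp [ZFSet.pair]
  rw [h] at this
  exact ZFSet.notMem_empty _ this

instance {X : Type*} [Cd X] : Cd (List X) :=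
  ⟨cdL, fun l => by
    induction l with
    | nil => intro l' h; cases l' with
      | nil => rfl
      | cons a l' => exact absurd h.symm (pair_ne_empty _ _)
    | cons a l ih => intro l' h; cases l' with
      | nil => exact absurd h (pair_ne_empty _ _)
      | cons a' l' => rw [Cd.inj (ZFSet.pair_inj.1 h).1, ih (ZFSet.pair_inj.1 h).2]⟩

/-- a coding of an arbitrary small type -/
@[reducible] noncomputable def cdSmall (X : Type) : Cd X :=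
  ⟨fun x => cd (Ordinal.typein (WellOrderingRel : X → X → Prop) x),
    fun _ _ h => Ordinal.typein_injective _ (Cd.inj h)⟩

noncomputable instance : Cd ℕ := cdSmall ℕ
noncomputable instance : Cd Bool := cdSmall Bool

theorem cd_U (x : U) : cd x = x := rfl
theorem cd_prod {X Y : Type*} [Cd X] [Cd Y] (x : X) (y : Y) :
    cd (x, y) = ZFSet.pair (cd x) (cd y) := rfl
theorem cd_sub {X : Type*} [Cd X] {p : X → Prop} (x : Subtype p) : cd x = cd x.1 := rfl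

theorem exists_code {X : Type*} [Cd X] (s : Set X) [Small.{0} s] :
    ∃ u : U, (∀ x, cd x ∈ u ↔ x ∈ s) ∧ ∀ y ∈ u, ∃ x ∈ s, cd x = y :=
  ⟨ZFSet.range fun x : s => cd x.1, fun x => by
    rw [ZFSet.mem_range]
    exact ⟨fun ⟨i, h⟩ => Cd.inj h ▸ i.2, fun h => ⟨⟨x, h⟩, rfl⟩⟩, fun y h => by
    obtain ⟨i, h⟩ := ZFSet.mem_range.1 h
    exact ⟨i.1, i.2, h⟩⟩

theorem exists_code_ctble {X : Type*} [Cd X] {s : Set X} (h : s.Countable) :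
    ∃ u : U, (u : Set U).Countable ∧ ∀ x, cd x ∈ u ↔ x ∈ s := by
  have := h.to_subtype
  obtain ⟨u, h1, h2⟩ := exists_code s
  exact ⟨u, (h.image cd).mono fun y hy => h2 y hy, h1⟩

/-- basic closure properties of a countable model -/
structure Mod0 (N : U) : Prop where
  ctble : (N : Set U).Countable
  emp : ∅ ∈ N
  pair : ∀ x y, ZFSet.pair x y ∈ N ↔ x ∈ N ∧ y ∈ N
  sub : ∀ u ∈ N, (u : Set U).Countable → u ⊆ N

theorem Mod0.prod {N : U} (h : Mod0 N) {X Y : Type*} [Cd X] [Cd Y] {x : X} {y : Y} :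
    cd (x, y) ∈ N ↔ cd x ∈ N ∧ cd y ∈ N := h.pair _ _

theorem Mod0.unit {N : U} (h : Mod0 N) : cd () ∈ N := h.emp

theorem Mod0.list {N : U} (h : Mod0 N) {X : Type*} [Cd X] {l : List X} :
    cd l ∈ N ↔ ∀ x ∈ l, cd x ∈ N := by
  induction l with
  | nil => exact iff_of_true h.emp (by simp)
  | cons a l ih => exact (h.pair _ _).trans (by simp only [List.forall_mem_cons]; exact and_congr_right fun _ => ih)

theorem Mod0.sub' {N M : U} (h : Mod0 N) (h' : Mod0 M) (hm : M ∈ N) : M ⊆ N := h.sub M hm h'.ctble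

theorem Mod0.enum {N : U} (h : Mod0 N) : ∃ e : ℕ → U, (∀ n, e n ∈ N) ∧ ∀ x ∈ N, ∃ n, e n = x := by
  obtain ⟨e, he⟩ := h.ctble.exists_eq_range ⟨∅, h.emp⟩
  exact ⟨e, fun n => (he ▸ ⟨n, rfl⟩ : e n ∈ (N : Set U)), fun x hx => (he ▸ hx : x ∈ Set.range e)⟩

theorem Mod0.ctble' {N : U} (h : Mod0 N) (X : Type*) [Cd X] : {x : X | cd x ∈ N}.Countable :=
  h.ctble.preimage Cd.inj

/-- a model closed under countably many functions -/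
def Cl (F : ℕ → U → U) (N : U) : Prop := Mod0 N ∧ ∀ n, ∀ x ∈ N, F n x ∈ N

theorem cl_iUnion {F : ℕ → U → U} {N : ℕ → U} (h : ∀ n, Cl F (N n)) (hm : ∀ n, N n ⊆ N (n + 1)) :
    Cl F (ZFSet.iUnion N) := by
  have hm' : ∀ {n m}, n ≤ m → N n ⊆ N m := fun {n m} h => monotone_nat_of_le_succ (f := N) hm h
  refine ⟨⟨?_, ?_, fun x y => ?_, fun u hu hc => ?_⟩, fun n x hx => ?_⟩
  · rw [ZFSet.coe_iUnion]
    exact Set.countable_iUnion fun n => (h n).1.ctble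
  · exact ZFSet.mem_iUnion.2 ⟨0, (h 0).1.emp⟩
  · simp only [ZFSet.mem_iUnion]
    exact ⟨fun ⟨n, hn⟩ => ⟨⟨n, (((h n).1.pair x y).1 hn).1⟩, n, (((h n).1.pair x y).1 hn).2⟩,
      fun ⟨⟨n, hn⟩, m, hm⟩ => ⟨max n m, ((h _).1.pair x y).2
        ⟨hm' (le_max_left n m) hn, hm' (le_max_right n m) hm⟩⟩⟩
  · obtain ⟨n, hn⟩ := ZFSet.mem_iUnion.1 hu
    exact fun y hy => ZFSet.mem_iUnion.2 ⟨n, (h n).1.sub u hn hc hy⟩
  · obtain ⟨m, hm⟩ := ZFSet.mem_iUnion.1 hx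
    exact ZFSet.mem_iUnion.2 ⟨m, (h m).2 n x hm⟩

/-- one closure step -/
def hullStep (F : ℕ → U → U) (A : Set U) : Set U :=
  {y | y ∈ A ∨ y = ∅ ∨ (∃ a ∈ A, ∃ b ∈ A, ZFSet.pair a b = y) ∨
    (∃ z ∈ A, ∃ b, ZFSet.pair y b = z) ∨ (∃ z ∈ A, ∃ a, ZFSet.pair a y = z) ∨
    (∃ u ∈ A, (u : Set U).Countable ∧ y ∈ u) ∨ ∃ n, ∃ x ∈ A, F n x = y}

theorem hullStep_ctble (F : ℕ → U → U) {A : Set U} (hA : A.Countable) :
    (hullStep F A).Countable := by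
  have key : ∀ f : U → Set U, (∀ z, (f z).Countable) → {y | ∃ z ∈ A, y ∈ f z}.Countable :=
    fun f hf => (hA.biUnion fun z _ => hf z).mono fun y ⟨z, h1, h2⟩ => Set.mem_biUnion h1 h2
  have h1 : {y : U | y = ∅}.Countable := Set.countable_singleton _
  have h2 : {y | ∃ a ∈ A, ∃ b ∈ A, ZFSet.pair a b = y}.Countable := hA.image2 hA _
  have h3 := key (fun z => {y | ∃ b, ZFSet.pair y b = z}) fun z => Set.Subsingleton.countable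
    fun a ⟨b, h⟩ a' ⟨b', h'⟩ => (ZFSet.pair_inj.1 (h.trans h'.symm)).1
  have h4 := key (fun z => {y | ∃ a, ZFSet.pair a y = z}) fun z => Set.Subsingleton.countable
    fun a ⟨b, h⟩ a' ⟨b', h'⟩ => (ZFSet.pair_inj.1 (h.trans h'.symm)).2
  have h5 := key (fun u => {y | (u : Set U).Countable ∧ y ∈ u}) fun u => by
    by_cases h : (u : Set U).Countable
    · exact h.mono fun y hy => hy.2
    · exact Set.countable_empty.mono fun y hy => h hy.1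
  have h6 : {y | ∃ n, ∃ x ∈ A, F n x = y}.Countable :=
    (Set.countable_iUnion fun n => hA.image (F n)).mono fun y ⟨n, h⟩ => Set.mem_iUnion.2 ⟨n, h⟩
  exact hA.union (h1.union (h2.union (h3.union (h4.union (h5.union h6)))))

theorem exists_cl (F : ℕ → U → U) (x : U) : ∃ N, Cl F N ∧ x ∈ N := by
  let A : ℕ → Set U := fun n => (hullStep F)^[n] {x}
  have hA : ∀ n, A (n + 1) = hullStep F (A n) := fun n => Function.iterate_succ_apply' _ _ _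
  have hc : ∀ n, (A n).Countable := fun n => by
    induction n with
    | zero => exact Set.countable_singleton x
    | succ n ih => exact hA n ▸ hullStep_ctble F ih
  have hm : Monotone A := monotone_nat_of_le_succ fun n y hy => hA n ▸ Or.inl hy
  obtain ⟨N, h1, h2⟩ := exists_code_ctble (Set.countable_iUnion hc)
  simp only [cd_U, Set.mem_iUnion] at h2
  have up : ∀ {y} (n), y ∈ hullStep F (A n) → y ∈ N := fun n h => (h2 _).2 ⟨n + 1, hA n ▸ h⟩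
  refine ⟨N, ⟨⟨h1, up 0 (Or.inr (Or.inl rfl)), fun a b => ⟨fun h => ?_, fun ⟨ha, hb⟩ => ?_⟩,
    fun u hu hc y hy => ?_⟩, fun k y hy => ?_⟩, (h2 x).2 ⟨0, rfl⟩⟩
  · obtain ⟨n, hn⟩ := (h2 _).1 h
    exact ⟨up n (Or.inr (Or.inr (Or.inr (Or.inl ⟨_, hn, b, rfl⟩)))),
      up n (Or.inr (Or.inr (Or.inr (Or.inr (Or.inl ⟨_, hn, a, rfl⟩)))))⟩
  · obtain ⟨n, hn⟩ := (h2 _).1 ha
    obtain ⟨m, hm'⟩ := (h2 _).1 hb
    exact up (max n m) (Or.inr (Or.inr (Or.inl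
      ⟨a, hm (le_max_left n m) hn, b, hm (le_max_right n m) hm', rfl⟩)))
  · obtain ⟨n, hn⟩ := (h2 _).1 hu
    exact up n (Or.inr (Or.inr (Or.inr (Or.inr (Or.inr (Or.inl ⟨u, hn, hc, hy⟩))))))
  · obtain ⟨n, hn⟩ := (h2 _).1 hy
    exact up n (Or.inr (Or.inr (Or.inr (Or.inr (Or.inr (Or.inr ⟨k, y, hn, rfl⟩))))))

/-- the club filter on countable models -/
def club : Filter U where
  sets := {S | ∃ F, ∀ N, Cl F N → N ∈ S}
  univ_sets := ⟨fun _ x => x, fun _ _ => trivial⟩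
  sets_of_superset := fun ⟨F, h⟩ h' => ⟨F, fun N hN => h' (h N hN)⟩
  inter_sets := fun ⟨F, h⟩ ⟨G, h'⟩ => ⟨fun n => if n % 2 = 0 then F (n / 2) else G (n / 2),
    fun N hN => ⟨h N ⟨hN.1, fun n x hx => by simpa using hN.2 (2 * n) x hx⟩,
      h' N ⟨hN.1, fun n x hx => by
        have := hN.2 (2 * n + 1) x hx
        dsimp only at this
        rwa [if_neg (by omega), show (2 * n + 1) / 2 = n by omega] at this⟩⟩⟩

theorem ev_iff {Q : U → Prop} : (∀ᶠ N in club, Q N) ↔ ∃ F, ∀ N, Cl F N → Q N := Iff.rfl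

theorem ev_mod0 : ∀ᶠ N in club, Mod0 N := ⟨fun _ x => x, fun _ h => h.1⟩

theorem ev_const {X : Type*} [Cd X] (x : X) : ∀ᶠ N in club, cd x ∈ N :=
  ⟨fun _ _ => cd x, fun _ h => h.2 0 ∅ h.1.emp⟩

theorem ev_diag {Y : Type*} [Cd Y] {Q : Y → U → Prop} (h : ∀ y, ∀ᶠ N in club, Q y N) :
    ∀ᶠ N in club, ∀ y, cd y ∈ N → Q y N := by
  classical
  choose F hF using fun y => ev_iff.1 (h y)
  refine ⟨fun n z => if h : ∃ w : Y × U, cd w = z then F h.choose.1 n h.choose.2 else ∅,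
    fun N hN y hy => hF y N ⟨hN.1, fun n x hx => ?_⟩⟩
  have h1 : ∃ w : Y × U, cd w = cd (y, x) := ⟨_, rfl⟩
  have h2 := hN.2 n (cd (y, x)) (hN.1.prod.2 ⟨hy, hx⟩)
  dsimp only at h2
  rwa [dif_pos h1, Cd.inj h1.choose_spec] at h2

theorem ev_ctble {ι : Type*} [Countable ι] {Q : ι → U → Prop} (h : ∀ i, ∀ᶠ N in club, Q i N) :
    ∀ᶠ N in club, ∀ i, Q i N := by
  cases isEmpty_or_nonempty ι
  · exact .of_forall fun _ i => isEmptyElim i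
  obtain ⟨e, he⟩ := exists_surjective_nat ι
  choose F hF using fun i => ev_iff.1 (h i)
  refine ⟨fun n => F (e n.unpair.1) n.unpair.2, fun N hN i => hF i N ⟨hN.1, fun n x hx => ?_⟩⟩
  obtain ⟨k, rfl⟩ := he i
  simpa using hN.2 (Nat.pair k n) x hx

theorem ev_exists {Q : U → Prop} (h : ∀ᶠ N in club, Q N) (x : U) : ∃ N, Q N ∧ x ∈ N :=
  let ⟨F, hF⟩ := h
  let ⟨N, h1, h2⟩ := exists_cl F x
  ⟨N, hF N h1, h2⟩

/-- `N` contains witnesses for `φ` -/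
def El {X Y : Type*} [Cd X] [Cd Y] (φ : X → Y → Prop) (N : U) : Prop :=
  ∀ x, cd x ∈ N → (∃ y, φ x y) → ∃ y, cd y ∈ N ∧ φ x y

theorem ev_el {X Y : Type*} [Cd X] [Cd Y] (φ : X → Y → Prop) : ∀ᶠ N in club, El φ N :=
  ev_diag fun x => by
    by_cases h : ∃ y, φ x y
    · obtain ⟨y, hy⟩ := h
      exact (ev_const y).mono fun N hN _ => ⟨y, hN, hy⟩
    · exact .of_forall fun _ h' => absurd h' h

theorem ev_fun {X Y : Type*} [Cd X] [Cd Y] (f : X → Y) :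
    ∀ᶠ N in club, ∀ x, cd x ∈ N → cd (f x) ∈ N := ev_diag fun x => ev_const (f x)

/-- a model containing `x` contains all members of the countable set `f x` -/
theorem ev_set {X Y : Type*} [Cd X] [Cd Y] (f : X → Set Y) (hf : ∀ x, (f x).Countable) :
    ∀ᶠ N in club, ∀ x, cd x ∈ N → ∀ y ∈ f x, cd y ∈ N := ev_diag fun x => by
  have := (hf x).to_subtype
  exact (ev_ctble fun y : f x => ev_const y.1).mono fun N h y hy => h ⟨y, hy⟩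

/-! ### ranked towers -/

/-- `N` has rank at least `β` in the family `B` (only ranks coded in `S` count) -/
def Rk (S : U) (β : Ordinal.{0}) (B N : U) : Prop :=
  N ∈ B ∧ (∀ M ∈ B, M ⊆ N) ∧ ∀ β' (_ : β' < β), cd β' ∈ S → ∀ x ∈ N,
    ∃ N' B' : U, N' ∈ N ∧ B' ∈ N ∧ x ∈ N' ∧ B' ⊆ B ∧ Rk S β' B' N'
termination_by β

theorem rk_iff {S : U} {β : Ordinal.{0}} {B N : U} : Rk S β B N ↔
    N ∈ B ∧ (∀ M ∈ B, M ⊆ N) ∧ ∀ β' < β, cd β' ∈ S → ∀ x ∈ N,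
      ∃ N' B' : U, N' ∈ N ∧ B' ∈ N ∧ x ∈ N' ∧ B' ⊆ B ∧ Rk S β' B' N' := by
  rw [Rk]

section

variable {S B N : U} {β β' : Ordinal.{0}}

theorem Rk.mem (h : Rk S β B N) : N ∈ B := (rk_iff.1 h).1
theorem Rk.sub (h : Rk S β B N) {M : U} (hM : M ∈ B) : M ⊆ N := (rk_iff.1 h).2.1 M hM
theorem Rk.wit (h : Rk S β B N) (h1 : β' < β) (h2 : cd β' ∈ S) {x : U} (hx : x ∈ N) :
    ∃ N' B' : U, N' ∈ N ∧ B' ∈ N ∧ x ∈ N' ∧ B' ⊆ B ∧ Rk S β' B' N' :=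
  (rk_iff.1 h).2.2 β' h1 h2 x hx

theorem Rk.mono (h : Rk S β B N) (hβ : β' ≤ β) : Rk S β' B N :=
  rk_iff.2 ⟨h.mem, fun _ => h.sub, fun _ h1 h2 _ hx => h.wit (h1.trans_le hβ) h2 hx⟩

theorem rk_zero (S N : U) : Rk S 0 {N} N :=
  rk_iff.2 ⟨by simp, fun M hM => by rw [ZFSet.mem_singleton.1 hM], fun _ h => absurd h (by simp)⟩

/-- restriction to the models containing `x` -/
theorem Rk.restrict (h : Rk S β B N) {x : U} (hx : x ∈ N) (h0 : ∀ M ∈ B, Mod0 M)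
    (h1 : ∀ M ∈ B, ∀ B' ∈ M, x ∈ M → B'.sep (x ∈ ·) ∈ M) : Rk S β (B.sep (x ∈ ·)) N := by
  induction β using WellFoundedLT.induction generalizing B N with
  | _ β ih =>
    refine rk_iff.2 ⟨ZFSet.mem_sep.2 ⟨h.mem, hx⟩, fun M hM => h.sub (ZFSet.mem_sep.1 hM).1,
      fun β' h2 h3 y hy => ?_⟩
    obtain ⟨N', B', k1, k2, k3, k4, k5⟩ := h.wit h2 h3 (((h0 N h.mem).pair x y).2 ⟨hx, hy⟩)
    obtain ⟨k6, k7⟩ := ((h0 N' (k4 k5.mem)).pair x y).1 k3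
    exact ⟨N', _, k1, h1 N h.mem B' k2 hx, k7, fun M hM => ZFSet.mem_sep.2
      ⟨k4 (ZFSet.mem_sep.1 hM).1, (ZFSet.mem_sep.1 hM).2⟩,
      ih β' h2 k5 k6 (fun M hM => h0 M (k4 hM)) fun M hM => h1 M (k4 hM)⟩

theorem ev_restrict : ∀ᶠ M in club, ∀ x ∈ M, ∀ B' ∈ M, B'.sep (x ∈ ·) ∈ M := by
  filter_upwards [ev_fun fun z : U × U => z.2.sep (z.1 ∈ ·), ev_mod0] with M h h0 x hx B' hB
  exact h (x, B') (h0.prod.2 ⟨hx, hB⟩)

/-- finite additivity of the rank for closed, locally coded pieces -/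
theorem Rk.add {ι : Type*} [Finite ι] (Q : ι → U → Prop) (h : Rk S β B N) (h0 : ∀ M ∈ B, Mod0 M)
    (hcov : ∀ M ∈ B, ∃ k, Q k M)
    (hcl : ∀ k, ∀ M ∈ B, (∀ x ∈ M, ∃ M' ∈ B, M' ∈ M ∧ x ∈ M' ∧ Q k M') → Q k M)
    (hcd : ∀ k, ∀ M ∈ B, ∀ N' ∈ B, ∀ B' ∈ M, N' ∈ M → B' ⊆ B → (∀ M' ∈ B', M' ⊆ N') →
      B'.sep (Q k) ∈ M) : ∃ k, Rk S β (B.sep (Q k)) N := by
  suffices H : ∀ (β : Ordinal.{0}) (B' N : U), B' ⊆ B → Rk S β B' N →
      ∃ k, Rk S β (B'.sep (Q k)) N from H β B N (fun _ h => h) h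
  clear h
  intro β
  induction β using WellFoundedLT.induction with
  | _ β ih =>
    intro B' N hB h
    have hN := hB h.mem
    by_cases hS : ∃ β₀ < β, cd β₀ ∈ S
    swap
    · obtain ⟨k, hk⟩ := hcov N hN
      exact ⟨k, rk_iff.2 ⟨ZFSet.mem_sep.2 ⟨h.mem, hk⟩, fun M hM => h.sub (ZFSet.mem_sep.1 hM).1,
        fun β' h1 h2 => absurd ⟨β', h1, h2⟩ hS⟩⟩
    obtain ⟨β₀, hβ₀, hβ₀'⟩ := hS
    by_contra hn
    have h1 : ∀ k, ∃ β' < β, cd β' ∈ S ∧ ∃ x ∈ N, ∀ N' B'' : U, N' ∈ N → B'' ∈ N → x ∈ N' →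
        B'' ⊆ B'.sep (Q k) → ¬ Rk S β' B'' N' := fun k => by
      by_contra hc
      push Not at hc
      refine hn ⟨k, rk_iff.2 ⟨ZFSet.mem_sep.2 ⟨h.mem, hcl k N hN fun x hx => ?_⟩,
        fun M hM => h.sub (ZFSet.mem_sep.1 hM).1, hc⟩⟩
      obtain ⟨N', B'', k1, -, k3, k4, k5⟩ := hc β₀ hβ₀ hβ₀' x hx
      exact ⟨N', hB (ZFSet.mem_sep.1 (k4 k5.mem)).1, k1, k3, (ZFSet.mem_sep.1 (k4 k5.mem)).2⟩
    choose b hb1 hb2 x hx1 hx2 using h1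
    obtain ⟨k₀, -⟩ := hcov N hN
    have : Nonempty ι := ⟨k₀⟩
    obtain ⟨k₁, hk₁⟩ := Finite.exists_max b
    have := Fintype.ofFinite ι
    obtain ⟨N', B'', k1, k2, k3, k4, k5⟩ := h.wit (hb1 k₁) (hb2 k₁)
      ((h0 N hN).list (l := Finset.univ.toList.map x).2 (by simpa [cd_U] using hx1))
    have k6 : B'' ⊆ B := fun _ h => hB (k4 h)
    obtain ⟨k, hk⟩ := ih _ (hb1 k₁) B'' N' k6 k5
    exact hx2 k N' _ k1 (hcd k N hN N' (k6 k5.mem) B'' k2 k1 k6 fun _ => k5.sub)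
      ((h0 N' (k6 k5.mem)).list.1 k3 (x k) (by simp))
      (fun M hM => ZFSet.mem_sep.2 ⟨k4 (ZFSet.mem_sep.1 hM).1, (ZFSet.mem_sep.1 hM).2⟩)
      (hk.mono (hk₁ k))

end

theorem rec_choice {σ : Type*} (Inv : ℕ → σ → Prop) (Rel : ℕ → σ → σ → Prop) (s₀ : σ)
    (h0 : Inv 0 s₀) (hs : ∀ n s, Inv n s → ∃ s', Inv (n + 1) s' ∧ Rel n s s') :
    ∃ f : ℕ → σ, f 0 = s₀ ∧ ∀ n, Inv n (f n) ∧ Rel n (f n) (f (n + 1)) := by
  choose g hg using hs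
  let F : ∀ n, {s // Inv n s} := fun n => Nat.rec ⟨s₀, h0⟩ (fun n s => ⟨g n s.1 s.2, (hg n s.1 s.2).1⟩) n
  exact ⟨fun n => (F n).1, rfl, fun n => ⟨(F n).2, (hg n _ (F n).2).2⟩⟩

/-- towers of every rank exist in every club -/
theorem exists_tower {Q : U → Prop} (h : ∀ᶠ N in club, Q N) {S : U} (hS : (S : Set U).Countable)
    (β : Ordinal.{0}) (x : U) : ∃ B N, Rk S β B N ∧ ∀ M ∈ B, Q M ∧ x ∈ M := by
  obtain ⟨F, hF⟩ := h
  suffices H : ∃ B N, Rk S β B N ∧ ∀ M ∈ B, Cl F M ∧ x ∈ M from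
    let ⟨B, N, h1, h2⟩ := H; ⟨B, N, h1, fun M hM => ⟨hF M (h2 M hM).1, (h2 M hM).2⟩⟩
  induction β using WellFoundedLT.induction generalizing x with
  | _ β ih =>
    by_cases h0 : ∃ β₀ < β, cd β₀ ∈ S
    swap
    · obtain ⟨N, h1, h2⟩ := exists_cl F x
      exact ⟨{N}, N, rk_iff.2 ⟨by simp, fun M hM => by rw [ZFSet.mem_singleton.1 hM],
        fun β' k1 k2 => absurd ⟨β', k1, k2⟩ h0⟩, fun M hM => ZFSet.mem_singleton.1 hM ▸ ⟨h1, h2⟩⟩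
    obtain ⟨e, he⟩ := ((hS.preimage (Cd.inj (X := Ordinal.{0}))).mono
      (s₁ := {β' | β' < β ∧ cd β' ∈ S}) fun _ h => h.2).exists_eq_range h0
    have he' : ∀ n, e n < β := fun n => (he ▸ ⟨n, rfl⟩ : e n ∈ {β' | β' < β ∧ cd β' ∈ S}).1
    obtain ⟨B₀, N₀, h1⟩ := ih _ (he' (Nat.unpair 0).1) x
    obtain ⟨f, -, hf⟩ := rec_choice (σ := U × U)
      (fun n z => Rk S (e n.unpair.1) z.1 z.2 ∧ ∀ M ∈ z.1, Cl F M ∧ x ∈ M)
      (fun _ z z' => z.1 ∈ z'.2 ∧ z.2 ∈ z'.2) (B₀, N₀) h1 fun n z _ => by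
        obtain ⟨B, N, k1, k2⟩ := ih _ (he' (n + 1).unpair.1) (cd (x, z.1, z.2))
        have := fun M hM => (k2 M hM).1.1.prod.1 (k2 M hM).2
        exact ⟨(B, N), ⟨k1, fun M hM => ⟨(k2 M hM).1, (this M hM).1⟩⟩,
          (k2 N k1.mem).1.1.prod.1 (this N k1.mem).2⟩
    have c : ∀ n, Cl F (f n).2 := fun n => ((hf n).1.2 _ (hf n).1.1.mem).1
    have m : ∀ n, (f n).2 ⊆ (f (n + 1)).2 := fun n => (c _).1.sub' (c n).1 (hf n).2.2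
    have m' : ∀ {n k}, n ≤ k → (f n).2 ⊆ (f k).2 := fun {n k} h =>
      monotone_nat_of_le_succ (f := fun n => (f n).2) m h
    have s : ∀ n, (f n).2 ⊆ ZFSet.iUnion fun n => (f n).2 := fun n =>
      ZFSet.subset_iUnion (fun n => (f n).2) n
    refine ⟨insert (ZFSet.iUnion fun n => (f n).2) (ZFSet.iUnion fun n => (f n).1), _,
      rk_iff.2 ⟨ZFSet.mem_insert _ _, fun M hM => ?_, fun β' k1 k2 y hy => ?_⟩, fun M hM => ?_⟩
    · rcases ZFSet.mem_insert_iff.1 hM with rfl | hM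
      · exact fun _ h => h
      · obtain ⟨n, hn⟩ := ZFSet.mem_iUnion.1 hM
        exact fun _ h => s n ((hf n).1.1.sub hn h)
    · obtain ⟨n, hn⟩ := ZFSet.mem_iUnion.1 hy
      obtain ⟨k, rfl⟩ : β' ∈ Set.range e := he ▸ ⟨k1, k2⟩
      refine ⟨(f (Nat.pair k n)).2, (f (Nat.pair k n)).1, s _ (hf _).2.2, s _ (hf _).2.1,
        m' (Nat.right_le_pair k n) hn, fun M hM => ZFSet.mem_insert_of_mem _
          (ZFSet.mem_iUnion.2 ⟨_, hM⟩), ?_⟩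
      simpa using (hf (Nat.pair k n)).1.1
    · rcases ZFSet.mem_insert_iff.1 hM with rfl | hM
      · exact ⟨cl_iUnion c m, s 0 ((hf 0).1.2 _ (hf 0).1.1.mem).2⟩
      · obtain ⟨n, hn⟩ := ZFSet.mem_iUnion.1 hM
        exact (hf n).1.2 M hn

/-! ### generic conditions for a set `P` of conditions in a preorder -/

section

variable {X : Type*} [Preorder X] (P : Set X)

/-- compatible in `P` -/
def Cmp (a b : X) : Prop := ∃ c ∈ P, c ≤ a ∧ c ≤ b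

/-- dense in `P` -/
def Dns (D : X → Prop) : Prop := ∀ q ∈ P, ∃ w ∈ P, w ≤ q ∧ D w

/-- countably many sets that are open and dense below `p` have a common member below `p` -/
def Dist : Prop := ∀ p ∈ P, ∀ D : ℕ → X → Prop, (∀ n q, ∀ q' ∈ P, q' ≤ q → D n q → D n q') →
  (∀ n, ∀ q ∈ P, q ≤ p → ∃ q' ∈ P, q' ≤ q ∧ D n q') → ∃ q ∈ P, q ≤ p ∧ ∀ n, D n q

variable [Cd X]

/-- totally generic -/
def TG (a : X) (M : U) : Prop :=
  ∀ u ∈ M, Dns P (fun w => cd w ∈ u) → ∃ w ∈ P, cd w ∈ u ∧ cd w ∈ M ∧ a ≤ w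

/-- generic -/
def Gen (q : X) (M : U) : Prop :=
  ∀ u ∈ M, Dns P (fun w => cd w ∈ u) → ∀ q' ∈ P, q' ≤ q → ∃ w ∈ P, cd w ∈ u ∧ cd w ∈ M ∧ Cmp P q' w

/-- `a` decides all conditions in `M` -/
def Dec (a : X) (M : U) : Prop := ∀ p ∈ P, cd p ∈ M → a ≤ p ∨ ¬ Cmp P a p

/-- `r` is below all conditions of `N` that are above `g` -/
def LB (N : U) (r g : X) : Prop := ∀ p ∈ P, cd p ∈ N → g ≤ p → r ≤ p

/-- `M` captures the dense sets defined by `ψ` -/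
def Cap {Y Z : Type*} [Cd Y] [Cd Z] (ψ : Y → X → Z → Prop) (M : U) : Prop :=
  ∀ y, cd y ∈ M → Dns P (fun q => ∃ z, ψ y q z) → ∃ u ∈ M, Dns P (fun w => cd w ∈ u) ∧
    ∀ w ∈ P, cd w ∈ u → cd w ∈ M → ∃ z, cd z ∈ M ∧ ψ y w z

/-- `M` captures the sets defined by `ψ` that are dense below a condition -/
def CapB {Y Z : Type*} [Cd Y] [Cd Z] (ψ : Y → X → Z → Prop) (M : U) : Prop :=
  ∀ y b, cd y ∈ M → cd b ∈ M → (∀ q ∈ P, q ≤ b → ∃ q' ∈ P, q' ≤ q ∧ ∃ z, ψ y q' z) →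
    ∃ u ∈ M, Dns P (fun w => cd w ∈ u) ∧
      ∀ w ∈ P, cd w ∈ u → cd w ∈ M → Cmp P w b → ∃ z, cd z ∈ M ∧ ψ y w z

theorem ev_cap [Small.{0} P] {Y Z : Type*} [Cd Y] [Cd Z] (ψ : Y → X → Z → Prop) :
    ∀ᶠ M in club, Cap P ψ M := by
  refine ev_diag fun y => ?_
  have : Small.{0} {w | w ∈ P ∧ ∃ z, ψ y w z} := small_subset (Set.sep_subset P _)
  obtain ⟨u, hu, -⟩ := exists_code {w | w ∈ P ∧ ∃ z, ψ y w z}
  filter_upwards [ev_const u, ev_el (ψ y)] with M h1 h2 h3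
  exact ⟨u, h1, fun q hq => let ⟨w, k1, k2, k3⟩ := h3 q hq; ⟨w, k1, k2, (hu w).2 ⟨k1, k3⟩⟩,
    fun w _ k1 k2 => h2 w k2 ((hu w).1 k1).2⟩

theorem ev_capB [Small.{0} P] {Y Z : Type*} [Cd Y] [Cd Z] (ψ : Y → X → Z → Prop) :
    ∀ᶠ M in club, CapB P ψ M := by
  have h : ∀ y b, ∀ᶠ M in club, (∀ q ∈ P, q ≤ b → ∃ q' ∈ P, q' ≤ q ∧ ∃ z, ψ y q' z) →
      ∃ u ∈ M, Dns P (fun w => cd w ∈ u) ∧
        ∀ w ∈ P, cd w ∈ u → cd w ∈ M → Cmp P w b → ∃ z, cd z ∈ M ∧ ψ y w z := fun y b => by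
    have : Small.{0} {w | w ∈ P ∧ (Cmp P w b → ∃ z, ψ y w z)} := small_subset (Set.sep_subset P _)
    obtain ⟨u, hu, -⟩ := exists_code {w | w ∈ P ∧ (Cmp P w b → ∃ z, ψ y w z)}
    filter_upwards [ev_const u, ev_el (ψ y)] with M h1 h2 h3
    refine ⟨u, h1, fun q hq => ?_, fun w _ k1 k2 k3 => h2 w k2 (((hu w).1 k1).2 k3)⟩
    by_cases hc : Cmp P q b
    · obtain ⟨c, k1, k2, k3⟩ := hc
      obtain ⟨w, k4, k5, k6⟩ := h3 c k1 k3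
      exact ⟨w, k4, k5.trans k2, (hu w).2 ⟨k4, fun _ => k6⟩⟩
    · exact ⟨q, hq, le_rfl, (hu q).2 ⟨hq, fun h => absurd h hc⟩⟩
  filter_upwards [ev_diag fun y => ev_diag (h y)] with M hM y b hy hb
  exact hM y hy b hb

variable {P} {Y Z : Type*} [Cd Y] [Cd Z] {ψ : Y → X → Z → Prop} {a a' b q g : X} {M N : U} {y : Y}

theorem TG.use0 (h : TG P a M) (hc : Cap P ψ M) (hy : cd y ∈ M)
    (hd : Dns P fun q => ∃ z, ψ y q z) :
    ∃ w ∈ P, cd w ∈ M ∧ a ≤ w ∧ ∃ z, cd z ∈ M ∧ ψ y w z :=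
  let ⟨u, h1, h2, h3⟩ := hc y hy hd
  let ⟨w, k1, k2, k3, k4⟩ := h u h1 h2
  ⟨w, k1, k3, k4, h3 w k1 k2 k3⟩

theorem TG.use (h : TG P a M) (hc : CapB P ψ M) (ha : a ∈ P) (hy : cd y ∈ M) (hb : cd b ∈ M)
    (hab : a ≤ b) (hd : ∀ q ∈ P, q ≤ b → ∃ q' ∈ P, q' ≤ q ∧ ∃ z, ψ y q' z) :
    ∃ w ∈ P, cd w ∈ M ∧ a ≤ w ∧ ∃ z, cd z ∈ M ∧ ψ y w z :=
  let ⟨u, h1, h2, h3⟩ := hc y b hy hb hd
  let ⟨w, k1, k2, k3, k4⟩ := h u h1 h2
  ⟨w, k1, k3, k4, h3 w k1 k2 k3 ⟨a, ha, k4, hab⟩⟩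

theorem Gen.use0 (h : Gen P q M) (hc : Cap P ψ M) (hy : cd y ∈ M)
    (hd : Dns P fun q => ∃ z, ψ y q z) (ha : a ∈ P) (haq : a ≤ q) :
    ∃ w ∈ P, cd w ∈ M ∧ Cmp P a w ∧ ∃ z, cd z ∈ M ∧ ψ y w z :=
  let ⟨u, h1, h2, h3⟩ := hc y hy hd
  let ⟨w, k1, k2, k3, k4⟩ := h u h1 h2 a ha haq
  ⟨w, k1, k3, k4, h3 w k1 k2 k3⟩

theorem Gen.use (h : Gen P q M) (hc : CapB P ψ M) (ha : a ∈ P) (haq : a ≤ q) (hy : cd y ∈ M)
    (hb : cd b ∈ M) (hab : a ≤ b) (hd : ∀ q ∈ P, q ≤ b → ∃ q' ∈ P, q' ≤ q ∧ ∃ z, ψ y q' z) :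
    ∃ w ∈ P, cd w ∈ M ∧ Cmp P a w ∧ ∃ z, cd z ∈ M ∧ ψ y w z :=
  let ⟨u, h1, h2, h3⟩ := hc y b hy hb hd
  let ⟨w, k1, k2, k3, c, k4, k5, k6⟩ := h u h1 h2 a ha haq
  ⟨w, k1, k3, ⟨c, k4, k5, k6⟩, h3 w k1 k2 k3 ⟨c, k4, k6, k5.trans hab⟩⟩

theorem TG.mono (h : TG P a M) (h' : a' ≤ a) : TG P a' M := fun u h1 h2 =>
  let ⟨w, k1, k2, k3, k4⟩ := h u h1 h2
  ⟨w, k1, k2, k3, h'.trans k4⟩

theorem Gen.mono (h : Gen P a M) (h' : a' ≤ a) : Gen P a' M := fun u h1 h2 q hq h3 =>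
  h u h1 h2 q hq (h3.trans h')

theorem TG.gen (h : TG P a M) : Gen P a M := fun u h1 h2 q hq h3 =>
  let ⟨w, k1, k2, k3, k4⟩ := h u h1 h2
  ⟨w, k1, k2, k3, q, hq, le_rfl, h3.trans k4⟩

theorem Dec.mono (h : Dec P a M) (h' : a' ≤ a) : Dec P a' M := fun p h1 h2 =>
  (h p h1 h2).imp h'.trans fun k ⟨c, k1, k2, k3⟩ => k ⟨c, k1, k2.trans h', k3⟩

theorem Dec.anti (h : Dec P a M) (h' : N ⊆ M) : Dec P a N := fun p h1 h2 => h p h1 (h' h2)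

theorem Dec.le (h : Dec P a M) (hb : b ∈ P) (hm : cd b ∈ M) (hc : Cmp P a b) : a ≤ b :=
  (h b hb hm).resolve_right fun k => k hc

/-- a deciding condition compatible with a generic one is totally generic -/
theorem Dec.tg (h : Dec P a M) (hN : N ⊆ M) (hq : Gen P q N) (hc : Cmp P a q) : TG P a N := by
  intro u h1 h2
  obtain ⟨c, k1, k2, k3⟩ := hc
  obtain ⟨w, k4, k5, k6, d, k7, k8, k9⟩ := hq u h1 h2 c k1 k3
  exact ⟨w, k4, k5, k6, h.le k4 (hN k6) ⟨d, k7, k8.trans k2, k9⟩⟩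

theorem Dec.lb (h : Dec P b M) (ha : a ∈ P) (hab : a ≤ b) : LB P M b a := fun _ h1 h2 h3 =>
  h.le h1 h2 ⟨a, ha, hab, h3⟩

theorem LB.mono (h : LB P N a g) (h' : a' ≤ a) : LB P N a' g := fun p h1 h2 h3 =>
  h'.trans (h p h1 h2 h3)

theorem LB.anti (h : LB P N a g) (h' : M ⊆ N) : LB P M a g := fun p h1 h2 => h p h1 (h' h2)

theorem LB.trans (h : LB P N a b) (h' : LB P N b g) : LB P N a g := fun p h1 h2 h3 =>
  h p h1 h2 (h' p h1 h2 h3)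

theorem LB.of_le (h : a ≤ g) : LB P N a g := fun _ _ _ h' => h.trans h'

theorem LB.tg (h : LB P N a g) (hM : M ⊆ N) (hg : TG P g M) : TG P a M := fun u h1 h2 =>
  let ⟨w, k1, k2, k3, k4⟩ := hg u h1 h2
  ⟨w, k1, k2, k3, h w k1 (hM k3) k4⟩

variable (P) in
/-- the predicate behind the dense set of conditions deciding `p` -/
def psiCmp (p w : X) (_ : Unit) : Prop := w ≤ p ∨ ¬ Cmp P w p

omit [Cd X] in
theorem dns_cmp (p : X) : Dns P fun w => ∃ z, psiCmp P p w z := fun q hq => by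
  by_cases h : Cmp P q p
  · exact let ⟨c, k1, k2, k3⟩ := h; ⟨c, k1, k2, (), Or.inl k3⟩
  · exact ⟨q, hq, le_rfl, (), Or.inr h⟩

theorem TG.dec (h : TG P a M) (hc : Cap P (psiCmp P) M) : Dec P a M := fun p _ h2 => by
  obtain ⟨w, -, -, k1, _, -, k2⟩ := h.use0 hc h2 (dns_cmp p)
  exact k2.imp k1.trans fun k ⟨c, k3, k4, k5⟩ => k ⟨c, k3, k4.trans k1, k5⟩

theorem LB.symm (h : LB P N a g) (ha : a ∈ P) (hg : TG P g N) (hc : Cap P (psiCmp P) N) :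
    LB P N g a := fun p _ h2 h3 => by
  obtain ⟨w, k0, k, k1, _, -, k2⟩ := hg.use0 hc h2 (dns_cmp p)
  exact k1.trans (k2.resolve_right fun k' => k' ⟨a, ha, h w k0 k k1, h3⟩)

omit [Cd X] in
theorem Dist.ctble (h : Dist P) {ι : Type*} [Countable ι] {p : X} (hp : p ∈ P) (D : ι → X → Prop)
    (h1 : ∀ n q, ∀ q' ∈ P, q' ≤ q → D n q → D n q')
    (h2 : ∀ n, ∀ q ∈ P, q ≤ p → ∃ q' ∈ P, q' ≤ q ∧ D n q') : ∃ q ∈ P, q ≤ p ∧ ∀ n, D n q := by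
  cases isEmpty_or_nonempty ι
  · exact ⟨p, hp, le_rfl, fun i => isEmptyElim i⟩
  obtain ⟨e, he⟩ := exists_surjective_nat ι
  obtain ⟨q, k1, k2, k3⟩ := h p hp (fun n => D (e n)) (fun n => h1 _) fun n => h2 _
  exact ⟨q, k1, k2, he.forall.2 k3⟩

omit [Cd X] in
theorem Dist.set (h : Dist P) {ι : Type*} {s : Set ι} (hs : s.Countable) {p : X} (hp : p ∈ P)
    (D : ι → X → Prop) (h1 : ∀ n ∈ s, ∀ q, ∀ q' ∈ P, q' ≤ q → D n q → D n q')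
    (h2 : ∀ n ∈ s, ∀ q ∈ P, q ≤ p → ∃ q' ∈ P, q' ≤ q ∧ D n q') :
    ∃ q ∈ P, q ≤ p ∧ ∀ n ∈ s, D n q := by
  have := hs.to_subtype
  obtain ⟨q, k1, k2, k3⟩ := h.ctble hp (fun i : s => D i.1) (fun i => h1 _ i.2) fun i => h2 _ i.2
  exact ⟨q, k1, k2, fun n hn => k3 ⟨n, hn⟩⟩

theorem Dist.dec (h : Dist P) (hM : (M : Set U).Countable) : Dns P fun w => Dec P w M := by
  intro q hq
  obtain ⟨w, k1, k2, k3⟩ := h.set (hM.preimage (Cd.inj (X := X))) hq (fun p w => psiCmp P p w ())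
    (fun p _ w w' _ k1 k2 => k2.imp k1.trans fun k ⟨c, k3, k4, k5⟩ => k ⟨c, k3, k4.trans k1, k5⟩)
    fun p _ w hw _ => let ⟨c, k1, k2, _, k3⟩ := dns_cmp p w hw; ⟨c, k1, k2, k3⟩
  exact ⟨w, k1, k2, fun p _ hp => k3 p hp⟩

variable (P) in
/-- the predicate behind the dense set of conditions deciding a model -/
def psiDec (M : U) (w : X) (_ : Unit) : Prop := Dec P w M

/-- a totally generic condition is below a condition in the model deciding a smaller model -/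
theorem TG.exists_dec (h : TG P a N) (hD : Dist P) (hc : Cap P (psiDec P) N) (hM : M ∈ N)
    (hM' : (M : Set U).Countable) : ∃ b ∈ P, cd b ∈ N ∧ a ≤ b ∧ Dec P b M :=
  let ⟨w, k1, k2, k3, _, _, k4⟩ := h.use0 hc hM fun q hq =>
    let ⟨w, k1, k2, k3⟩ := hD.dec hM' q hq; ⟨w, k1, k2, (), k3⟩
  ⟨w, k1, k2, k3, k4⟩

omit [Cd X] in
/-- an open relation contains a functional open relation with the same density -/
theorem exists_fnl {W : Type*} (A : X → W → Prop)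
    (h : ∀ a w, ∀ a' ∈ P, a' ≤ a → A a w → A a' w) :
    ∃ A' : X → W → Prop, (∀ a w, A' a w → a ∈ P ∧ A a w) ∧
      (∀ a w, ∀ a' ∈ P, a' ≤ a → A' a w → A' a' w) ∧ (∀ a w w', A' a w → A' a w' → w = w') ∧
      ∀ a ∈ P, ∀ w, A a w → ∃ a' ∈ P, a' ≤ a ∧ ∃ w', A' a' w' := by
  refine ⟨fun a w => a ∈ P ∧ A a w ∧ ∀ w', WellOrderingRel w' w → ∀ a' ∈ P, a' ≤ a → ¬ A a' w',
    fun a w k => ⟨k.1, k.2.1⟩, fun a w a' k1 k2 k3 => ⟨k1, h a w a' k1 k2 k3.2.1,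
      fun w' k4 a'' k5 k6 => k3.2.2 w' k4 a'' k5 (k6.trans k2)⟩, fun a w w' k k' => ?_,
    fun a ha w hw => ?_⟩
  · rcases trichotomous_of WellOrderingRel w w' with e | e | e
    · exact absurd k.2.1 (k'.2.2 w e a k.1 le_rfl)
    · exact e
    · exact absurd k'.2.1 (k.2.2 w' e a k.1 le_rfl)
  · obtain ⟨w', ⟨a', k1, k2, k3⟩, k4⟩ := (WellOrderingRel.isWellOrder (α := W)).wf.has_min
      {w' | ∃ a' ∈ P, a' ≤ a ∧ A a' w'} ⟨w, a, ha, le_rfl, hw⟩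
    exact ⟨a', k1, k2, w', k1, k3, fun w'' k5 a'' k6 k7 k8 => k4 w'' ⟨a'', k6, k7.trans k2, k8⟩ k5⟩

omit [Cd X] in
/-- dependent choice along a distributive forcing -/
theorem Dist.rec (h : Dist P) {σ : Type*} (R : ℕ → X → σ → σ → Prop)
    (hR : ∀ n a s s', ∀ a' ∈ P, a' ≤ a → R n a s s' → R n a' s s') {p : X} (hp : p ∈ P) (s₀ : σ)
    (h0 : ∀ q ∈ P, q ≤ p → ∃ q' ∈ P, q' ≤ q ∧ ∃ s, R 0 q' s₀ s)
    (hs : ∀ n, ∀ q ∈ P, q ≤ p → ∀ s s', R n q s s' → ∃ q' ∈ P, q' ≤ q ∧ ∃ s'', R (n + 1) q' s' s'') :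
    ∃ q ∈ P, q ≤ p ∧ ∃ f : ℕ → σ, f 0 = s₀ ∧ ∀ n, R n q (f n) (f (n + 1)) := by
  let Inv : ℕ → (X → σ → Prop) → Prop := fun n A =>
    (∀ a w, ∀ a' ∈ P, a' ≤ a → A a w → A a' w) ∧ (∀ a w w', A a w → A a w' → w = w') ∧
    (∀ q ∈ P, q ≤ p → ∃ q' ∈ P, q' ≤ q ∧ ∃ s, A q' s) ∧ (n = 0 → ∀ a s, A a s → s = s₀) ∧
    ∀ q ∈ P, q ≤ p → ∀ s, A q s → ∃ q' ∈ P, q' ≤ q ∧ ∃ s', R n q' s s'
  obtain ⟨A, -, hA⟩ := rec_choice Inv (fun n A A' => ∀ a s', A' a s' → ∃ s, A a s ∧ R n a s s')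
    (fun _ s => s = s₀) ⟨fun _ _ _ _ _ h => h, fun _ _ _ h h' => h.trans h'.symm,
      fun q hq _ => ⟨q, hq, le_rfl, s₀, rfl⟩, fun _ _ _ h => h, fun q k1 k2 s k3 => k3 ▸ h0 q k1 k2⟩
    fun n A ⟨i1, _, i3, _, i5⟩ => by
      obtain ⟨A', j1, j2, j3, j4⟩ := exists_fnl (P := P) (fun a s' => ∃ s, A a s ∧ R n a s s')
        fun a w a' k1 k2 ⟨s, k3, k4⟩ => ⟨s, i1 a s a' k1 k2 k3, hR n a s w a' k1 k2 k4⟩
      refine ⟨A', ⟨j2, j3, fun q k1 k2 => ?_, fun h => absurd h (Nat.succ_ne_zero n),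
        fun q k1 k2 s' k3 => ?_⟩, fun a s' k => (j1 a s' k).2⟩
      · obtain ⟨q1, k3, k4, s, k5⟩ := i3 q k1 k2
        obtain ⟨q2, k6, k7, s', k8⟩ := i5 q1 k3 (k4.trans k2) s k5
        obtain ⟨q3, k9, k10, k11⟩ := j4 q2 k6 s' ⟨s, i1 q1 s q2 k6 k7 k5, k8⟩
        exact ⟨q3, k9, k10.trans (k7.trans k4), k11⟩
      · obtain ⟨-, s, -, k4⟩ := j1 q s' k3
        exact hs n q k1 k2 s s' k4
  obtain ⟨q, k1, k2, k3⟩ := h p hp (fun n q => ∃ s, A n q s)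
    (fun n q q' k1 k2 ⟨s, k3⟩ => ⟨s, (hA n).1.1 q s q' k1 k2 k3⟩) fun n => (hA n).1.2.2.1
  choose f hf using k3
  refine ⟨q, k1, k2, f, (hA 0).1.2.2.2.1 rfl q _ (hf 0), fun n => ?_⟩
  obtain ⟨s, k4, k5⟩ := (hA n).2 q _ (hf (n + 1))
  rwa [(hA n).1.2.1 q _ _ (hf n) k4]

end

end Pool.Agent.Ctry
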