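import Mathlib.Data.Set.Finite.Lattice
import Mathlib.Order.Interval.Finset.Nat
import Mathlib.SetTheory.Cardinal.Aleph
import Mathlib.Data.Int.ConditionallyCompleteOrder
import Mathlib.Data.Finsupp.Encodable
import Pool.Agent.MP_77405c_lc.Base

/-! The first uncountable ordinal, sequences, the full coherent tree and its tuples. -/

open Filter

namespace Pool.Agent.Ctry

/-- the first uncountable ordinal as a type -/
def Om : Type := (Cardinal.aleph 1).ord.ToType

noncomputable instance : LinearOrder Om := inferInstanceAs (LinearOrder (Ordinal.ToType _))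
instance : WellFoundedLT Om := inferInstanceAs (WellFoundedLT (Ordinal.ToType _))
noncomputable instance : Cd Om := cdSmall Om

theorem mk_Om : Cardinal.mk Om = Cardinal.aleph 1 := Cardinal.mk_ord_toType _

theorem ctble_Iio (a : Om) : (Set.Iio a).Countable :=
  Cardinal.le_aleph0_iff_set_countable.1 (Cardinal.lt_aleph_one_iff.1
    (mk_Om ▸ Cardinal.mk_Iio_lt a (by rw [mk_Om]; exact (Ordinal.type_toType _).symm)))

theorem ctble_Iic (a : Om) : (Set.Iic a).Countable := by
  rw [← Set.Iio_insert]
  exact (ctble_Iio a).insert a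

instance : Uncountable Om := Cardinal.aleph0_lt_mk_iff.1 (mk_Om ▸ Cardinal.aleph0_lt_aleph_one)

theorem exists_bound {s : Set Om} (h : s.Countable) : ∃ b, ∀ a ∈ s, a < b := by
  by_contra hn
  push Not at hn
  exact Set.not_countable_univ ((h.biUnion fun a _ => ctble_Iic a).mono fun b _ =>
    let ⟨a, h1, h2⟩ := hn b; Set.mem_biUnion h1 h2)

instance : NoMaxOrder Om := ⟨fun a => let ⟨b, h⟩ := exists_bound (Set.countable_singleton a)
  ⟨b, h a rfl⟩⟩

noncomputable instance : OrderBot Om := WellFoundedLT.toOrderBot _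
noncomputable instance : SuccOrder Om := SuccOrder.ofLinearWellFoundedLT _

/-- the least ordinal whose code is not in `M` -/
noncomputable def del (M : U) : Om := by
  classical exact if h : {a : Om | cd a ∉ M}.Nonempty then wellFounded_lt.min _ h else ⊥

theorem ev_del : ∀ᶠ M in club, ∀ a : Om, cd a ∈ M ↔ a < del M := by
  filter_upwards [ev_mod0, ev_set Set.Iio ctble_Iio] with M h1 h2 a
  have h : {a : Om | cd a ∉ M}.Nonempty := by
    by_contra hn
    exact Set.not_countable_univ ((h1.ctble' Om).mono fun a _ => by_contra fun h => hn ⟨a, h⟩)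
  rw [del, dif_pos h]
  refine ⟨fun k => lt_of_not_ge fun k' => wellFounded_lt.min_mem _ h ?_,
    fun k => by_contra fun k' => wellFounded_lt.not_lt_min _ k' k⟩
  rcases k'.eq_or_lt with e | e
  · exact e ▸ k
  · exact h2 a k _ e

/-- trees of height `ω₁` given by a height and restriction maps -/
class Tr (Y : Type) where
  ht : Y → Om
  res : Y → Om → Y
  ht_res : ∀ y g, ht (res y g) = min (ht y) g
  res_res : ∀ y g g', res (res y g) g' = res y (min g g')
  res_ht : ∀ y, res y (ht y) = y

export Tr (ht res ht_res res_res res_ht)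

section

variable {Y : Type} [Tr Y] {x y z : Y} {g g' : Om}

theorem ht_res_of_le (h : g ≤ ht y) : ht (res y g) = g := by rw [ht_res, min_eq_right h]

theorem res_res_of_le (y : Y) (h : g' ≤ g) : res (res y g) g' = res y g' := by
  rw [res_res, min_eq_right h]

theorem res_of_le (h : ht y ≤ g) : res y g = y := by
  rw [← res_ht y, res_res, min_eq_left h]

/-- `x` is an initial segment of `y` -/
def Below (x y : Y) : Prop := res y (ht x) = x

theorem Below.refl (x : Y) : Below x x := res_ht x

theorem Below.ht_le (h : Below x y) : ht x ≤ ht y := by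
  rw [← h, ht_res]; exact min_le_left _ _

theorem Below.trans (h : Below x y) (h' : Below y z) : Below x z := by
  rw [Below, ← res_res_of_le z h.ht_le, h', h]

theorem below_res (y : Y) (g : Om) : Below (res y g) y := by
  rw [Below, ht_res, ← res_res, res_ht]

theorem Below.res_eq (h : Below x y) (hg : g ≤ ht x) : res y g = res x g := by
  rw [← h, res_res_of_le y hg]

theorem Below.eq_of_ht (h : Below x z) (h' : Below y z) (e : ht x = ht y) : x = y := by
  rw [← h, e, h']

theorem Below.of_le (h : Below x z) (h' : Below y z) (e : ht x ≤ ht y) : Below x y := by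
  rw [Below, ← h'.res_eq e, h]

theorem Below.eq (h : Below x y) (e : ht y ≤ ht x) : x = y := by rw [← h, res_of_le e]

theorem Below.res_of (h : Below x y) (hg : ht x ≤ g) : Below x (res y g) := by
  rw [Below, res_res_of_le y hg, h]

/-- comparable nodes -/
def Cp (x y : Y) : Prop := Below x y ∨ Below y x

theorem Cp.cut (h : Cp x y) (g : Om) : Cp x (res y g) := by
  rcases h with h | h
  · rcases le_total (ht x) g with e | e
    · exact Or.inl (h.res_of e)
    · exact Or.inr (by rw [h.res_eq e]; exact below_res x g)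
  · exact Or.inr ((below_res y g).trans h)

theorem Cp.below (h : Cp x y) (e : ht x ≤ ht y) : Below x y :=
  h.elim id fun k => k.eq e ▸ Below.refl _

end

/-- integer sequences of countable length -/
@[ext] structure Seq where
  ht : Om
  f : Om → ℤ
  z : ∀ x, ht ≤ x → f x = 0

noncomputable instance : Cd Seq := cdSmall Seq

noncomputable instance : Tr Seq where
  ht := Seq.ht
  res s g := ⟨min s.ht g, fun x => if x < g then s.f x else 0, fun x h => by
    split_ifs with k
    · exact s.z x ((min_le_iff.1 h).resolve_right k.not_ge)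
    · rfl⟩
  ht_res _ _ := rfl
  res_res s g g' := Seq.ext (min_assoc _ _ _) (funext fun x => by
    by_cases h : x < g <;> by_cases h' : x < g' <;> simp [h, h'])
  res_ht s := Seq.ext (min_self _) (funext fun x => by
    by_cases h : x < s.ht
    · simp [h]
    · simp [h, s.z x (not_lt.1 h)])

theorem Seq.ht_eq (s : Seq) : s.ht = Tr.ht s := rfl

theorem res_f (s : Seq) {g x : Om} (h : x < g) : (res s g).f x = s.f x := if_pos h

theorem Below.f_eq {s t : Seq} (h : Below s t) {x : Om} (hx : x < ht s) : s.f x = t.f x := by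
  rw [← h, res_f _ hx]

theorem seq_ext {s t : Seq} (h : ht s = ht t) (h' : ∀ x < ht s, s.f x = t.f x) : s = t :=
  Seq.ext h (funext fun x => by
    rcases lt_or_ge x (ht s) with k | k
    · exact h' x k
    · rw [s.z x k, t.z x (h.ge.trans k)])

/-- `s` and `t` are incomparable with meet `w`, and `s` is lexicographically smaller -/
def Sp (s t w : Seq) : Prop :=
  ∃ x < ht s, x < ht t ∧ s.f x < t.f x ∧ (∀ y < x, s.f y = t.f y) ∧ w = res s x

/-- `s` and `t` are incomparable and `s` is lexicographically smaller -/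
def Lx (s t : Seq) : Prop := ∃ w, Sp s t w

section

variable {s t s' t' w w' : Seq} {g g' : Om}

theorem Sp.ht_lt (h : Sp s t w) : ht w < ht s ∧ ht w < ht t := by
  obtain ⟨x, h1, h2, -, -, rfl⟩ := h
  rw [ht_res_of_le h1.le]
  exact ⟨h1, h2⟩

theorem Sp.lt (h : Sp s t w) : s.f (ht w) < t.f (ht w) := by
  obtain ⟨x, h1, h2, h3, -, rfl⟩ := h
  rwa [ht_res_of_le h1.le]

theorem Sp.below (h : Sp s t w) : Below w s ∧ Below w t := by
  obtain ⟨x, h1, h2, -, h4, rfl⟩ := h
  refine ⟨below_res _ _, ?_⟩
  rw [Below, ht_res_of_le h1.le]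
  exact seq_ext (by rw [ht_res_of_le h1.le, ht_res_of_le h2.le]) fun y hy => by
    rw [ht_res_of_le h2.le] at hy
    rw [res_f _ hy, res_f _ hy, h4 y hy]

theorem sp_of (h1 : Below w s) (h2 : Below w t) (h3 : ht w < ht s) (h4 : ht w < ht t)
    (h5 : s.f (ht w) < t.f (ht w)) : Sp s t w :=
  ⟨ht w, h3, h4, h5, fun _ hy => (h1.f_eq hy).symm.trans (h2.f_eq hy), h1.symm⟩

theorem Sp.ext (h : Sp s t w) (hs : Below s s') (ht' : Below t t') : Sp s' t' w :=
  sp_of (h.below.1.trans hs) (h.below.2.trans ht') (h.ht_lt.1.trans_le hs.ht_le)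
    (h.ht_lt.2.trans_le ht'.ht_le) (by rw [← hs.f_eq h.ht_lt.1, ← ht'.f_eq h.ht_lt.2]; exact h.lt)

theorem Sp.cut (h : Sp s t w) (h1 : ht w < g) (h2 : ht w < g') : Sp (res s g) (res t g') w :=
  sp_of (h.below.1.res_of h1.le) (h.below.2.res_of h2.le)
    (by rw [ht_res]; exact lt_min h.ht_lt.1 h1) (by rw [ht_res]; exact lt_min h.ht_lt.2 h2)
    (by rw [res_f _ h1, res_f _ h2]; exact h.lt)

theorem Sp.unique (h : Sp s t w) (h' : Sp s t w') : w = w' := by
  have key : ∀ {w w'}, Sp s t w → Sp s t w' → ¬ ht w < ht w' := fun h h' k =>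
    h.lt.ne ((h'.below.1.f_eq k).symm.trans (h'.below.2.f_eq k))
  exact h.below.1.eq_of_ht h'.below.1 (le_antisymm (not_lt.1 (key h' h)) (not_lt.1 (key h h')))

theorem Sp.asymm (h : Sp s t w) (h' : Sp t s w') : False := by
  rcases lt_trichotomy (ht w) (ht w') with k | k | k
  · exact h.lt.ne ((h'.below.2.f_eq k).symm.trans (h'.below.1.f_eq k))
  · exact h.lt.asymm (k ▸ h'.lt)
  · exact h'.lt.ne ((h.below.2.f_eq k).symm.trans (h.below.1.f_eq k))

theorem Sp.not_cp (h : Sp s t w) : ¬ Cp s t := fun k =>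
  h.lt.ne (k.elim (fun k => k.f_eq h.ht_lt.1) fun k => (k.f_eq h.ht_lt.2).symm)

theorem Lx.ext (h : Lx s t) (hs : Below s s') (ht' : Below t t') : Lx s' t' :=
  let ⟨w, h⟩ := h; ⟨w, h.ext hs ht'⟩

theorem Lx.asymm (h : Lx s t) (h' : Lx t s) : False :=
  let ⟨_, h⟩ := h; let ⟨_, h'⟩ := h'; h.asymm h'

theorem lx_of_not_cp (h : ¬ Cp s t) : Lx s t ∨ Lx t s := by
  have hne : {x | x < ht s ∧ x < ht t ∧ s.f x ≠ t.f x}.Nonempty := by
    by_contra hn
    have : ∀ x, x < ht s → x < ht t → s.f x = t.f x := fun x h1 h2 =>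
      by_contra fun h3 => hn ⟨x, h1, h2, h3⟩
    rcases le_total (ht s) (ht t) with e | e
    · exact h (Or.inl (seq_ext (ht_res_of_le e) fun x hx => by
        rw [ht_res_of_le e] at hx
        rw [res_f _ hx, this x hx (hx.trans_le e)]))
    · exact h (Or.inr (seq_ext (ht_res_of_le e) fun x hx => by
        rw [ht_res_of_le e] at hx
        rw [res_f _ hx, this x (hx.trans_le e) hx]))
  obtain ⟨x, ⟨h1, h2, h3⟩, h4⟩ := wellFounded_lt.has_min _ hne
  have h5 : ∀ y < x, s.f y = t.f y := fun y hy => by_contra fun k =>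
    h4 y ⟨hy.trans h1, hy.trans h2, k⟩ hy
  exact h3.lt_or_gt.imp (fun k => ⟨_, x, h1, h2, k, h5, rfl⟩)
    fun k => ⟨_, x, h2, h1, k, fun y hy => (h5 y hy).symm, rfl⟩

theorem lx_of_ne (h : s ≠ t) (e : ht s = ht t) : Lx s t ∨ Lx t s :=
  lx_of_not_cp fun k => h ((k.below e.le).eq e.ge)

end

theorem exists_coherent : ∃ e : Om → Om → ℕ, (∀ b n, {x | x < b ∧ e b x ≤ n}.Finite) ∧
    ∀ a b, {x | x < a ∧ x < b ∧ e a x ≠ e b x}.Finite := by
  classical
  have h1 : ∀ b : Om, ∃ m : ℕ → Om, ∃ k : Om → ℕ, ∀ x < b, x ≤ m (k x) ∧ m (k x) < b ∧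
      ∀ n, x ≤ m n → k x ≤ n := fun b => by
    rcases (Set.Iio b).eq_empty_or_nonempty with h | h
    · exact ⟨fun _ => b, fun _ => 0, fun x hx => absurd hx (h ▸ Set.notMem_empty x :
        x ∉ Set.Iio b)⟩
    obtain ⟨a, ha⟩ := (ctble_Iio b).exists_eq_range h
    have h2 : ∀ x < b, ∃ n, x ≤ a n := fun x hx =>
      let ⟨n, hn⟩ := (ha ▸ hx : x ∈ Set.range a); ⟨n, hn.ge⟩
    exact ⟨a, fun x => if h : x < b then Nat.find (h2 x h) else 0, fun x hx => by
      simp only [dif_pos hx]
      exact ⟨Nat.find_spec (h2 x hx), (ha ▸ ⟨_, rfl⟩ : a _ ∈ Set.Iio b),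
        fun n hn => Nat.find_min' _ hn⟩⟩
  choose m k hk using h1
  let e : Om → Om → ℕ := wellFounded_lt.fix fun b e x =>
    if h : x < b then max (k b x) (e (m b (k b x)) (hk b x h).2.1 x) else 0
  have he : ∀ b x, x < b → e b x = max (k b x) (e (m b (k b x)) x) := fun b x h => by
    have := congrFun (wellFounded_lt.fix_eq (fun b (e : ∀ y, y < b → Om → ℕ) x =>
      if h : x < b then max (k b x) (e (m b (k b x)) (hk b x h).2.1 x) else 0) b) x
    rwa [dif_pos h] at this
  have f1 : ∀ b n, {x | x < b ∧ e b x ≤ n}.Finite := fun b => by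
    induction b using WellFoundedLT.induction with
    | _ b ih =>
      intro n
      refine ((Set.finite_Iic n).biUnion (t := fun j => {x | x < b ∧ k b x = j ∧ e (m b j) x ≤ n})
        fun j _ => ?_).subset fun x ⟨h1, h2⟩ => ?_
      · by_cases h : m b j < b
        · refine ((ih _ h n).insert (m b j)).subset fun x ⟨h1, h2, h3⟩ => ?_
          exact (h2 ▸ (hk b x h1).1 : x ≤ m b j).eq_or_lt.imp id fun k => ⟨k, h3⟩
        · exact Set.finite_empty.subset fun x ⟨h1, h2, _⟩ => h (h2 ▸ (hk b x h1).2.1)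
      · rw [he b x h1, max_le_iff] at h2
        exact Set.mem_biUnion h2.1 ⟨h1, rfl, h2.2⟩
  have f2 : ∀ a b, (∀ a' < a, {x | x < a' ∧ x < a ∧ e a' x ≠ e a x}.Finite) →
      (∀ a' < b, {x | x < a' ∧ x < b ∧ e a' x ≠ e b x}.Finite) →
      {x | x < a ∧ x < b ∧ e a x ≠ e b x}.Finite := fun a b h1 h2 => by
    rcases lt_trichotomy a b with h | rfl | h
    · exact h2 a h
    · simp
    · exact (h1 b h).subset fun x h => ⟨h.2.1, h.1, h.2.2.symm⟩
  have H : ∀ b, ∀ a < b, {x | x < a ∧ x < b ∧ e a x ≠ e b x}.Finite := fun b => by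
    induction b using WellFoundedLT.induction with
    | _ b ih =>
      intro a ha
      refine ((Set.finite_Iic (k b a)).biUnion
        (t := fun j => {x | x < a ∧ k b x = j ∧ e a x ≠ max j (e (m b j) x)})
        fun j _ => ?_).subset fun x ⟨h1, h2, h3⟩ => ?_
      · by_cases h : m b j < b
        · refine (((f1 (m b j) j).union (f2 a (m b j) (ih a ha) (ih _ h))).insert (m b j)).subset
            fun x ⟨h1, h2, h3⟩ => ?_
          refine (h2 ▸ (hk b x (h1.trans ha)).1 : x ≤ m b j).eq_or_lt.imp id fun k => ?_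
          rcases le_total (e (m b j) x) j with k' | k'
          · exact Or.inl ⟨k, k'⟩
          · exact Or.inr ⟨h1, k, by rwa [max_eq_right k'] at h3⟩
        · exact Set.finite_empty.subset fun x ⟨h1, h2, _⟩ =>
            h (h2 ▸ (hk b x (h1.trans ha)).2.1)
      · exact Set.mem_biUnion ((hk b x h2).2.2 _ (h1.le.trans (hk b a ha).1))
          ⟨h1, rfl, by rwa [he b x h2] at h3⟩
  exact ⟨e, f1, fun a b => f2 a b (H a) (H b)⟩

/-- a coherent sequence of finite to one maps -/
noncomputable def ee : Om → Om → ℕ := exists_coherent.choose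

theorem ee_fin (b : Om) (n : ℕ) : {x | x < b ∧ ee b x ≤ n}.Finite := exists_coherent.choose_spec.1 b n

theorem ee_coh (a b : Om) : {x | x < a ∧ x < b ∧ ee a x ≠ ee b x}.Finite :=
  exists_coherent.choose_spec.2 a b

/-- the full coherent tree -/
@[ext] structure T : Type where
  val : Seq
  fin : {x | x < ht val ∧ val.f x ≠ ee (ht val) x}.Finite

noncomputable instance : Cd T := cdSmall T

noncomputable instance : Tr T where
  ht t := ht t.1
  res t g := ⟨res t.1 g, (t.2.union (ee_coh (ht t.1) (ht (res t.1 g)))).subset fun x ⟨h1, h2⟩ => by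
    have h3 := lt_min_iff.1 (ht_res t.1 g ▸ h1)
    rw [res_f _ h3.2] at h2
    by_cases h : t.1.f x = ee (ht t.1) x
    · exact Or.inr ⟨h3.1, h1, fun k => h2 (h.trans (by rw [k]))⟩
    · exact Or.inl ⟨h3.1, h⟩⟩
  ht_res t g := ht_res t.1 g
  res_res t g g' := T.ext (res_res t.1 g g')
  res_ht t := T.ext (res_ht t.1)

theorem T.ht_val (t : T) : ht t.1 = ht t := rfl
theorem T.res_val (t : T) (g : Om) : (res t g).1 = res t.1 g := rfl
theorem T.below_iff {s t : T} : Below s t ↔ Below s.1 t.1 := T.ext_iff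
theorem T.cp_iff {s t : T} : Cp s t ↔ Cp s.1 t.1 := or_congr T.below_iff T.below_iff

theorem Sp.exists_T {s : T} {t w : Seq} (h : Sp s.1 t w) : ∃ w' : T, w'.1 = w :=
  ⟨res s (ht w), h.below.1⟩

/-- the group of finitely supported integer sequences -/
abbrev G : Type := Om →₀ ℤ

noncomputable instance : Cd G := cdSmall G

/-- translation of a node -/
noncomputable def T.add (t : T) (d : G) : T :=
  ⟨⟨ht t, fun x => if x < ht t then t.1.f x + d x else 0, fun _ h => if_neg h.not_gt⟩,
    (t.2.union d.hasFiniteSupport).subset fun x ⟨h1, h2⟩ => by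
      by_cases h : d x = 0
      · refine Or.inl ⟨h1, fun k => h2 ?_⟩
        change (if x < ht t then t.1.f x + d x else 0) = ee (ht t) x
        rw [if_pos (show x < ht t from h1), h, add_zero]
        exact k
      · exact Or.inr h⟩

theorem T.ht_add (t : T) (d : G) : ht (t.add d) = ht t := rfl

theorem T.add_f (t : T) (d : G) {x : Om} (h : x < ht t) : (t.add d).1.f x = t.1.f x + d x := if_pos h

theorem T.ext' {s t : T} (h : ht s = ht t) (h' : ∀ x < ht s, s.1.f x = t.1.f x) : s = t :=
  T.ext (seq_ext h h')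

theorem T.add_zero (t : T) : t.add 0 = t := T.ext' rfl fun x hx => by
  rw [t.add_f _ hx]; simp

theorem T.add_add (t : T) (d d' : G) : (t.add d).add d' = t.add (d + d') := T.ext' rfl fun x hx => by
  rw [(t.add d).add_f _ hx, t.add_f _ hx, t.add_f _ hx, Finsupp.add_apply, add_assoc]

theorem T.res_add (t : T) (d : G) (g : Om) : res (t.add d) g = (res t g).add d :=
  T.ext' rfl fun x hx => by
    have h := lt_min_iff.1 (ht_res (t.add d) g ▸ hx)
    rw [(res t g).add_f _ hx, T.res_val, T.res_val, res_f _ h.2, res_f _ h.2, t.add_f _ h.1]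

theorem T.add_inj {s t : T} {d : G} (h : s.add d = t.add d) : s = t := by
  rw [← s.add_zero, ← add_neg_cancel d, ← T.add_add, h, T.add_add, add_neg_cancel, T.add_zero]

theorem T.sp_add {s t w : T} (h : Sp s.1 t.1 w.1) (d : G) :
    Sp (s.add d).1 (t.add d).1 (w.add d).1 := by
  have h1 := T.below_iff.2 h.below.1
  have h2 := T.below_iff.2 h.below.2
  refine sp_of (T.below_iff.1 ?_) (T.below_iff.1 ?_) h.ht_lt.1 h.ht_lt.2 ?_
  · rw [Below, T.res_add, T.ht_add, h1]
  · rw [Below, T.res_add, T.ht_add, h2]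
  · have := h.lt
    change (s.add d).1.f (ht w.1) < (t.add d).1.f (ht w.1)
    rw [s.add_f _ h.ht_lt.1, t.add_f _ h.ht_lt.2]
    exact add_lt_add_left this _

/-- the group acts transitively on each level -/
theorem T.exists_add {s t : T} (h : ht s = ht t) : ∃ d, s.add d = t := by
  classical
  have : (Function.support fun x => t.1.f x - s.1.f x).Finite := (s.2.union t.2).subset fun x hx => by
    have h1 : x < ht s := lt_of_not_ge fun k => hx (by simp [s.1.z x k, t.1.z x (h.ge.trans k)])
    by_contra hn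
    simp only [Set.mem_union, Set.mem_ofPred_eq, not_or, not_and, not_not] at hn
    exact hx (by dsimp only; rw [hn.1 h1, hn.2 (h1.trans_eq h), T.ht_val, T.ht_val, h, sub_self])
  exact ⟨Finsupp.ofSupportFinite _ this, T.ext' h fun x hx => by
    rw [s.add_f _ hx, Finsupp.ofSupportFinite_coe]; simp⟩

theorem T.exists_ht (g : Om) : ∃ t : T, ht t = g :=
  ⟨⟨⟨g, fun x => if x < g then ee g x else 0, fun _ h => if_neg h.not_gt⟩,
    Set.finite_empty.subset fun _ ⟨h1, h2⟩ => h2 (if_pos h1)⟩, rfl⟩

theorem T.ctble_level (g : Om) : {t : T | ht t = g}.Countable := by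
  classical
  obtain ⟨s, hs⟩ := T.exists_ht g
  have := (ctble_Iio g).to_subtype
  refine (Set.countable_range fun d : Set.Iio g →₀ ℤ => s.add (d.mapDomain (↑))).mono
    fun t ht' => ?_
  obtain ⟨d, rfl⟩ := T.exists_add (hs.trans ht'.symm)
  refine ⟨d.subtypeDomain _, T.ext' rfl fun x hx => ?_⟩
  rw [s.add_f _ hx, s.add_f _ hx]
  have := Finsupp.mapDomain_apply (f := ((↑) : Set.Iio g → Om)) Subtype.val_injective
    (d.subtypeDomain fun x => x ∈ Set.Iio g) ⟨x, hx.trans_eq hs⟩
  exact congrArg _ this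

/-- pairs of a node of `T` and a sequence of the same height -/
@[ext] structure TT where
  pi : T
  rho : Seq
  h : ht rho = ht pi

noncomputable instance : Cd TT := cdSmall TT
noncomputable instance : Cd (Set TT) := cdSmall _

noncomputable instance : Tr TT where
  ht x := ht x.pi
  res x g := ⟨res x.pi g, res x.rho g, by rw [ht_res, ht_res, x.h]⟩
  ht_res x g := ht_res x.pi g
  res_res x g g' := TT.ext (res_res _ g g') (res_res _ g g')
  res_ht x := TT.ext (res_ht _) (res_of_le x.h.le)

theorem TT.ht_pi (x : TT) : ht x.pi = ht x := rfl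
theorem TT.ht_rho (x : TT) : ht x.rho = ht x := x.h
theorem TT.res_pi (x : TT) (g : Om) : (res x g).pi = res x.pi g := rfl
theorem TT.res_rho (x : TT) (g : Om) : (res x g).rho = res x.rho g := rfl
theorem Below.pi {x y : TT} (h : Below x y) : Below x.pi y.pi := congrArg TT.pi h
theorem Below.rho {x y : TT} (h : Below x y) : Below x.rho y.rho := by
  rw [Below, x.h]; exact congrArg TT.rho h

/-- a node of `T` (the base) with a list of nodes of the same height -/
@[ext] structure Fam (Y : Type) [Tr Y] where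
  base : T
  l : List Y
  h : ∀ x ∈ l, ht x = ht base

noncomputable instance {Y : Type} [Tr Y] : Tr (Fam Y) where
  ht x := ht x.base
  res x g := ⟨res x.base g, x.l.map (res · g), fun y hy => by
    obtain ⟨z, hz, rfl⟩ := List.mem_map.1 hy
    rw [ht_res, ht_res, x.h z hz]⟩
  ht_res x g := ht_res x.base g
  res_res x g g' := Fam.ext (res_res _ g g') (by simp [res_res])
  res_ht x := Fam.ext (res_ht _) (by
    conv_rhs => rw [← List.map_id x.l]
    exact List.map_congr_left fun y hy => by rw [← x.h y hy]; exact res_ht y)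

noncomputable instance {Y : Type} [Tr Y] [Cd Y] : Cd (Fam Y) :=
  ⟨fun x => cd (x.base, x.l), fun _ _ h =>
    Fam.ext (congrArg Prod.fst (Cd.inj h)) (congrArg Prod.snd (Cd.inj h))⟩

section

variable {Y : Type} [Tr Y]

theorem Fam.ht_base (x : Fam Y) : ht x.base = ht x := rfl
theorem Fam.res_base (x : Fam Y) (g : Om) : (res x g).base = res x.base g := rfl
theorem Fam.res_l (x : Fam Y) (g : Om) : (res x g).l = x.l.map (res · g) := rfl
theorem Fam.ht_mem (x : Fam Y) {y : Y} (h : y ∈ x.l) : ht y = ht x := x.h y h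

theorem Mod0.fam [Cd Y] {N : U} (h : Mod0 N) {x : Fam Y} :
    cd x ∈ N ↔ cd x.base ∈ N ∧ ∀ y ∈ x.l, cd y ∈ N := h.prod.trans (and_congr_right fun _ => h.list)

/-- concatenation, keeping the first base (junk if the heights differ) -/
noncomputable def Fam.app (x y : Fam Y) : Fam Y := by
  classical exact if h : ht y = ht x then ⟨x.base, x.l ++ y.l, fun z hz =>
    (List.mem_append.1 hz).elim (x.h z) fun k => (y.h z k).trans h⟩ else x

theorem Fam.app_base (x y : Fam Y) : (x.app y).base = x.base := by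
  rw [Fam.app]; split_ifs <;> rfl

theorem Fam.ht_app (x y : Fam Y) : ht (x.app y) = ht x := congrArg (ht (Y := T)) (x.app_base y)

theorem Fam.app_l {x y : Fam Y} (h : ht y = ht x) : (x.app y).l = x.l ++ y.l := by
  rw [Fam.app, dif_pos h]

theorem Fam.res_app {x y : Fam Y} (h : ht y = ht x) (g : Om) :
    res (x.app y) g = (res x g).app (res y g) := Fam.ext
  (by rw [Fam.res_base, Fam.app_base, Fam.app_base, Fam.res_base])
  (by rw [Fam.res_l, Fam.app_l h, Fam.app_l (by rw [ht_res, ht_res, h]), List.map_append]; rfl)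

/-- levels of families over a countable set of entries are countable -/
theorem Fam.ctble {W : Set Y} (hW : W.Countable) (g : Om) :
    {x : Fam Y | ht x = g ∧ ∀ y ∈ x.l, y ∈ W}.Countable := by
  have := hW.to_subtype
  have h1 : {l : List Y | ∀ y ∈ l, y ∈ W}.Countable :=
    (Set.countable_range fun l : List W => l.map Subtype.val).mono fun l hl =>
      Set.mem_range.2 ⟨l.attachWith _ hl, by simp⟩
  exact (((T.ctble_level g).prod h1).preimage (f := fun x : Fam Y => (x.base, x.l))
    fun _ _ h => Fam.ext (congrArg Prod.fst h) (congrArg Prod.snd h)).mono fun _ h => h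

end

/-- tuples -/
abbrev Tup : Type := Fam TT

end Pool.Agent.Ctry
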