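import Mathlib.Order.Interval.Set.Infinite
import Pool.Agent.MP_77405c_lc.Tree

/-! Definitions and module statements of PROJECT CTRY. -/

open Filter Set

namespace Pool.Agent.Ctry

/-! ### names for subsets of trees -/

section Names

variable {P : Type*} [LE P]

/-- an open name -/
def Opn {Y : Type*} (Γ : Y → P → Prop) : Prop := ∀ y p q, q ≤ p → Γ y p → Γ y q

/-- `p` forces an inclusion -/
def Sub {Y : Type*} (p : P) (Γ Γ' : Y → P → Prop) : Prop := ∀ q ≤ p, ∀ y, Γ y q → ∃ q' ≤ q, Γ' y q'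

/-- `p` forces that a set of countable ordinals is unbounded -/
def UnbO (p : P) (A : Om → P → Prop) : Prop := ∀ q ≤ p, ∀ g, ∃ q' ≤ q, ∃ a, g ≤ a ∧ A a q'

variable {Y : Type} [Tr Y]

/-- downward closed -/
def Dc (Γ : Y → P → Prop) : Prop := ∀ y p g, Γ y p → Γ (res y g) p

/-- `p` forces that there are nodes of every height -/
def Unb (p : P) (Γ : Y → P → Prop) : Prop := ∀ q ≤ p, ∀ g, ∃ q' ≤ q, ∃ y, ht y = g ∧ Γ y q'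

/-- `p` forces that every node extends to every higher level -/
def Prn (p : P) (Γ : Y → P → Prop) : Prop :=
  ∀ q ≤ p, ∀ y, Γ y q → ∀ g, ht y ≤ g → ∃ q' ≤ q, ∃ y', ht y' = g ∧ Below y y' ∧ Γ y' q'

/-- `p` forces that the levels are countable -/
def CL (p : P) (Γ : Y → P → Prop) : Prop := ∀ q ≤ p, ∀ g, ∃ q' ≤ q, ∃ W : Set Y, W.Countable ∧
  ∀ r ≤ q', ∀ y, Γ y r → ht y = g → y ∈ W

/-- `p` forces that there is no uncountable branch -/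
def NoBr (p : P) (Γ : Y → P → Prop) : Prop := ∀ q ≤ p, ∀ B : Y → P → Prop, Opn B → Dc B → Unb q B →
  (∀ r ≤ q, ∀ y, B y r → Γ y r) → (∀ r ≤ q, ∀ x y, B x r → B y r → ht x = ht y → x = y) → False

end Names

/-- the name coded by a set -/
def nm {P Y : Type*} [Cd P] [Cd Y] (g : U) (y : Y) (p : P) : Prop := cd (y, p) ∈ g

/-- `chi` covers the square of the lexicographic order by countably many chains -/
def ChiStmt : Prop := ∃ chi : T → T → ℕ, ∀ a b c d, chi a b = chi c d → Lx a.1 c.1 → Lx d.1 b.1 → False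

/-- `T` is special on the successor levels -/
def SpecStmt : Prop := ∃ col : T → ℕ, ∀ s t b b', ht s = Order.succ b → ht t = Order.succ b' →
  Below s t → col s = col t → s = t

/-- a distributive forcing adds no branch to `T` -/
def BrStmt : Prop := ∀ (P : Type 1) [Preorder P], Dist (univ : Set P) → ∀ p : P,
  NoBr p fun (_ : T) _ => True

/-- the pruned part of a tree with countable levels -/
def PruneStmt : Prop := ∀ (P : Type 1) [Preorder P], Dist (univ : Set P) → ∀ (Y : Type) [Tr Y]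
  (Γ : Y → P → Prop) (p : P), Opn Γ → Dc Γ → CL p Γ → Unb p Γ →
    ∃ Γ' : Y → P → Prop, Opn Γ' ∧ Dc Γ' ∧ (∀ y q, Γ' y q → Γ y q) ∧ Unb p Γ' ∧ Prn p Γ'

/-! ### the schema of promise forcings -/

/-- values of pairs of nodes and legitimate promises -/
structure Dat (P : Type 1) where
  V : P → TT → TT → Bool → Prop
  Leg : P → (Tup → P → Prop) → Prop

section Schema

variable {P : Type 1} [Preorder P] (D : Dat P)

/-- `a` and `b` split and the pair has a value -/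
def GS (p : P) (a b : TT) : Prop :=
  (Lx a.pi.1 b.pi.1 ∧ ∃ e, D.V p a b e) ∨ (Lx b.pi.1 a.pi.1 ∧ ∃ e, D.V p b a e)

/-- the tree of tuples `τ` that can be extended by a member of `R` inside all `Y k` -/
def Lnk (R : Fam Tup → P → Prop) (d : G) (Y : ℕ → Tup → P → Prop) (τ : Tup) (q : P) : Prop :=
  ∃ ρ, R ρ q ∧ ρ.base = τ.base.add d ∧ ∀ k (h : k < ρ.l.length), Y k (τ.app ρ.l[k]) q

/-- the requirements of the schema -/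
structure Ax : Prop where
  V_mono : ∀ p q a b e, q ≤ p → D.V p a b e → D.V q a b e
  V_ext : ∀ p a b a' b' e, D.V p a b e → Lx a.pi.1 b.pi.1 → Below a a' → Below b b' → D.V p a' b' e
  mono : ∀ p q Γ, q ≤ p → D.Leg p Γ → D.Leg q Γ
  tree : ∀ p Γ, D.Leg p Γ → Opn Γ ∧ Dc Γ ∧ Unb p Γ ∧ Prn p Γ ∧ CL p Γ
  split : ∀ p Γ z, D.Leg p Γ → Γ z p → ∃ q ≤ p, ∃ x w, Γ x q ∧ Γ w q ∧ ht x = ht w ∧ Below z x ∧
    Below z w ∧ ∀ i (h1 : i < x.l.length) (h2 : i < w.l.length), GS D q x.l[i] w.l[i]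
  zero : ∀ p Γ, Opn Γ → Dc Γ → Unb p (fun τ q => Γ τ q ∧ τ.l = []) →
    ∃ q ≤ p, ∃ Γ', D.Leg q Γ' ∧ Sub q Γ' Γ
  new : ∀ p Γ a, D.Leg p Γ → Γ a p → ∃ q ≤ p, ∃ (m : ℕ) (R : Fam Tup → P → Prop),
    Opn R ∧ Dc R ∧ Unb q R ∧ (∀ ρ r, R ρ r → ρ.l.length = m ∧ ∀ τ ∈ ρ.l, Γ τ r ∧ Cp a τ) ∧
    ∀ (d : G) (Y : ℕ → Tup → P → Prop), (∀ k, Opn (Y k) ∧ Dc (Y k)) → ∀ r ≤ q, ∀ Γ', D.Leg r Γ' →
      Sub r Γ' (Lnk R d Y) → ∃ r' ≤ r, ∃ k < m, ∃ Γ'', D.Leg r' Γ'' ∧ Sub r' Γ'' (Y k)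

/-- pairs with the same meet have a common value -/
def OK (p : P) (u : Set TT) : Prop := ∀ a ∈ u, ∀ b ∈ u, ∀ c ∈ u, ∀ d ∈ u, ∀ w,
  Sp a.pi.1 b.pi.1 w → Sp c.pi.1 d.pi.1 w → ∃ e, D.V p a b e ∧ D.V p c d e

/-- the first coordinates of the entries are distinct -/
def Inj (τ : Tup) : Prop := (τ.l.map TT.pi).Nodup

/-- preconditions: a height, a set of nodes and a set of codes of promises -/
structure Pc : Type 1 where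
  α : Om
  u : Set TT
  G : U

noncomputable instance : Cd Pc := ⟨fun c => cd (c.α, c.u, c.G), fun c c' h => by
  cases c; cases c'; simpa using Cd.inj h⟩

instance : Preorder Pc where
  le c' c := c.α ≤ c'.α ∧ c.u ⊆ c'.u ∧ (∀ x ∈ c'.u, ht x ≤ c.α → x ∈ c.u) ∧ c.G ⊆ c'.G
  le_refl _ := ⟨le_rfl, subset_rfl, fun _ h _ => h, fun _ h => h⟩
  le_trans _ _ _ h h' := ⟨h'.1.trans h.1, h'.2.1.trans h.2.1,
    fun x k k' => h'.2.2.1 x (h.2.2.1 x k (k'.trans h'.1)) k', fun _ k => h.2.2.2 (h'.2.2.2 k)⟩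

variable [Cd P]

variable (P) in
/-- `g` consists of codes of pairs (tuple, condition) -/
def Can (g : U) : Prop := ∀ y ∈ g, ∃ z : Tup × P, cd z = y

/-- `p` forces that `c` is a condition -/
def Val (p : P) (c : Pc) : Prop := c.u.Countable ∧ (∀ x ∈ c.u, ht x ≤ c.α) ∧ OK D p c.u ∧
  (c.G : Set U).Countable ∧ ∀ g ∈ c.G, Can P g ∧ D.Leg p (nm g) ∧ ∀ F : Set T, F.Finite →
    ∃ τ : Tup, ht τ = c.α ∧ nm g τ p ∧ Inj τ ∧ ∀ x ∈ τ.l, x ∈ c.u ∧ x.pi ∉ F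

end Schema

/-- adding one extension above distinct maximal nodes keeps `OK` -/
def OkStmt : Prop := ∀ (P : Type 1) [Preorder P] (D : Dat P), Ax D → ∀ (p : P) (u v : Set TT)
  (φ : TT → TT), OK D p u →
    (∀ a ∈ v, φ a ∈ u ∧ Below (φ a) a ∧ ∀ b ∈ u, Below (φ a).pi b.pi → b.pi = (φ a).pi) →
    (∀ a ∈ v, ∀ b ∈ v, (φ a).pi = (φ b).pi → a = b) → OK D p (u ∪ v)

/-- extension to a higher level -/
def ExtStmt : Prop := ∀ (P : Type 1) [Preorder P] [Cd P], Dist (univ : Set P) → ∀ D : Dat P, Ax D →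
  ∀ p c g, Val D p c → c.α < g → ∃ p' ≤ p, ∃ c' ≤ c, c'.α = g ∧ Val D p' c'

/-- adding a promise above one tuple of the top level -/
def CombStmt : Prop := ∀ (P : Type 1) [Preorder P] [Cd P], Dist (univ : Set P) → ∀ D : Dat P, Ax D →
  ∀ p c g (z : Tup), Val D p c → Can P g → D.Leg p (nm g) → nm g z p → ht z = c.α → Inj z →
    (∀ x ∈ z.l, x ∈ c.u) → ∃ p' ≤ p, ∃ c' ≤ c, Val D p' c' ∧ g ∈ c'.G

/-- weak properness and finite completeness of one step -/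
def SP (P C : Type 1) [Preorder P] [Cd P] [Preorder C] [Cd C] (Val : P → C → Prop) : Prop :=
  ∃ Q : U → Prop, (∀ᶠ N in club, Q N) ∧ ∀ (S : U) (β : Ordinal.{0}) (B N N' : U) (A : List P)
    (h₀ : P) (c₀ : C), (S : Set U).Countable → S ∈ N → Rk S β B N → (∀ M ∈ B, Q M) → Q N' →
    N ∈ N' → A ≠ [] → (∀ a ∈ A, TG univ a N' ∧ (∀ M ∈ B, TG univ a M) ∧ a ≤ h₀ ∧
      ∀ a' ∈ A, LB univ N a a') → cd h₀ ∈ N → cd c₀ ∈ N → Val h₀ c₀ →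
    ∃ B' ⊆ B, Rk S β B' N ∧ ∃ c ≤ c₀, (∀ a ∈ A, Val a c) ∧ ∀ M ∈ B', ∀ u ∈ M,
      (∀ p c, Val p c → ∃ p' ≤ p, ∃ c' ≤ c, Val p' c' ∧ cd (p', c') ∈ u) →
      ∃ h c', cd (h, c') ∈ u ∧ cd h ∈ M ∧ cd c' ∈ M ∧ c ≤ c' ∧ ∀ a ∈ A, a ≤ h

def SchStmt : Prop := ∀ (P : Type 1) [Preorder P] [Cd P] [Small.{0} P], Dist (univ : Set P) →
  ∀ D : Dat P, Ax D → SP P Pc (Val D)

/-- the data of the forcing embedding part of `T'` into `T` -/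
def IsoP {P : Type 1} [Preorder P] (T' : Seq → P → Prop) (D : Dat P) : Prop :=
  (∀ p a b e, D.V p a b e → bif e then Lx a.rho b.rho else Lx b.rho a.rho) ∧
  ∀ p, Opn T' → Dc T' → CL p T' → NoBr p T' → Unb p T' →
    ∃ Γ, D.Leg p Γ ∧ ∀ τ q, Γ τ q → ∃ x, τ.l = [x] ∧ T' x.rho q

def IsoStmt : Prop := ∀ (P : Type 1) [Preorder P], Dist (univ : Set P) → ∀ T' : Seq → P → Prop,
  ∃ D : Dat P, Ax D ∧ IsoP T' D

/-- the data of the forcing adding a homogeneous subtree of `Ub` -/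
def KP {P : Type 1} [Preorder P] (Ub K : T → P → Prop) (D : Dat P) : Prop :=
  ∀ p, Opn Ub → Dc Ub → Opn K → Unb p Ub → ∃ q ≤ p, ∃ e : Bool,
    (∀ r ≤ q, ∀ a b e' (w : T), D.V r a b e' → Sp a.pi.1 b.pi.1 w.1 →
      bif e then K w r else ∀ r' ≤ r, ¬ K w r') ∧
    ∃ Γ, D.Leg q Γ ∧ ∀ τ, ∀ r ≤ q, Γ τ r → ∃ x, τ.l = [x] ∧ ∃ r' ≤ r, Ub x.pi r'

def KStmt : Prop := ∀ (P : Type 1) [Preorder P], Dist (univ : Set P) → ∀ Ub K : T → P → Prop,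
  ∃ D : Dat P, Ax D ∧ KP Ub K D

/-! ### iterations -/

/-- a countable support iteration along the ordinals -/
class Itr (X : Type 1) [Preorder X] where
  rs : X → Ordinal.{0} → X
  amal : Ordinal.{0} → X → X → X
  supp : X → Set Ordinal.{0}
  ne : Nonempty X
  le_rs : ∀ p ξ, p ≤ rs p ξ
  rs_mono : ∀ {p q} ξ, p ≤ q → rs p ξ ≤ rs q ξ
  rs_rs : ∀ p η ξ, rs (rs p η) ξ = rs p (min η ξ)
  rs_zero : ∀ p q, rs p 0 = rs q 0
  rs_amal_le : ∀ {ξ η} q r, η ≤ ξ → rs (amal ξ q r) η = rs q η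
  rs_amal_ge : ∀ {ξ η} q r, ξ ≤ η → rs (amal ξ q r) η = amal ξ q (rs r η)
  amal_amal : ∀ {ξ ξ'} a q r, ξ' ≤ ξ → amal ξ a (amal ξ' q r) = amal ξ a r
  amal_le : ∀ {ξ q r}, rs q ξ ≤ rs r ξ → amal ξ q r ≤ r
  le_amal : ∀ {ξ q r r'}, r' ≤ rs q ξ → r' ≤ r → r' ≤ amal ξ q r
  reg : ∀ ξ r p, rs r ξ ≤ rs p ξ → (∀ q, rs q ξ = q → q ≤ rs r ξ →
    ∃ q', rs q' ξ = q' ∧ q' ≤ q ∧ amal ξ q' r ≤ p) → r ≤ p
  supp_ctble : ∀ p, (supp p).Countable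
  le_of_supp : ∀ r p, (∀ ζ ∈ supp p, rs r (ζ + 1) ≤ rs p (ζ + 1)) → r ≤ p
  rs_eq_iff : ∀ p ξ, rs p ξ = p ↔ ∀ ζ ∈ supp p, ζ < ξ
  lim : ∀ (γ : ℕ → Ordinal.{0}) (q : ℕ → X), Monotone γ → (∀ n, rs (q n) (γ n) = q n) →
    (∀ n, rs (q (n + 1)) (γ n) = q n) →
    ∃ r, (∀ n, rs r (γ n) = q n) ∧ ∀ ζ ∈ supp r, ∃ n, ζ < γ n
  mix : ∀ ζ (A : X → X → Prop), (∀ a r, A a r → rs a ζ = a ∧ rs r (ζ + 1) = r ∧ a ≤ rs r ζ) →
    (∀ a r a', rs a' ζ = a' → a' ≤ a → A a r → A a' r) → (∀ a r r', A a r → A a r' → r = r') →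
    ∃ w, rs w (ζ + 1) = w ∧ ∀ a r, A a r → amal ζ a w ≤ r
  small : ∀ ξ, Small.{0} {p | rs p ξ = p}

export Itr (rs amal supp)

section Iter

variable (X : Type 1) [Preorder X] [Itr X]

/-- the iteration up to `ξ` -/
def PP (ξ : Ordinal.{0}) : Set X := {p | rs p ξ = p}

instance (ξ : Ordinal.{0}) : Small.{0} (PP X ξ) := Itr.small ξ

/-- dense sets reflect to unboundedly many stages -/
def Refl : Prop := ∀ D : Om → X → Prop, (∀ g, Dns univ (D g)) → ∀ ξ, ∃ ζ, ξ ≤ ζ ∧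
  ∀ g, Dns (PP X ζ) (D g)

variable [Cd X]

/-- the single step hypothesis -/
def Succ : Prop := ∀ ζ, Dist (PP X ζ) → ∃ Q : U → Prop, (∀ᶠ N in club, Q N) ∧
  ∀ (S : U) (β : Ordinal.{0}) (B N N' : U) (A : List X) (p : X), (S : Set U).Countable → S ∈ N →
    Rk S β B N → (∀ M ∈ B, Q M) → Q N' → N ∈ N' → A ≠ [] →
    (∀ a ∈ A, a ∈ PP X ζ ∧ TG (PP X ζ) a N' ∧ (∀ M ∈ B, TG (PP X ζ) a M) ∧ a ≤ rs p ζ ∧
      ∀ a' ∈ A, LB (PP X ζ) N a a') → p ∈ PP X (ζ + 1) → cd p ∈ N →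
    ∃ B' ⊆ B, Rk S β B' N ∧ ∃ r : X → X,
      (∀ a ∈ A, r a ∈ PP X (ζ + 1) ∧ rs (r a) ζ = a ∧ r a ≤ p) ∧
      ∀ M ∈ B', ∀ u ∈ M, Dns (PP X (ζ + 1)) (fun w => cd w ∈ u) →
        ∃ w ∈ PP X (ζ + 1), cd w ∈ u ∧ cd w ∈ M ∧ ∀ a ∈ A, r a ≤ w

/-- total properness of a quotient for the model `N` -/
def KL0 (ξ η : Ordinal.{0}) (N : U) : Prop := ∀ a ∈ PP X ξ, ∀ p ∈ PP X η, cd p ∈ N →
  TG (PP X ξ) a N → a ≤ rs p ξ → ∃ r ∈ PP X η, r ≤ p ∧ rs r ξ ≤ a ∧ TG (PP X η) r N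

/-- the properness extension lemma for the model `N` -/
def AP (ξ η : Ordinal.{0}) (N : U) : Prop := ∀ q ∈ PP X ξ, Gen (PP X ξ) q N → ∀ A : X → X → Prop,
  (∀ a p, A a p → a ∈ PP X ξ ∧ a ≤ q ∧ p ∈ PP X η ∧ cd p ∈ N ∧ a ≤ rs p ξ) →
  (∀ a p, ∀ a' ∈ PP X ξ, a' ≤ a → A a p → A a' p) → (∀ a p p', A a p → A a p' → p = p') →
  (∀ a ∈ PP X ξ, a ≤ q → ∃ a' ∈ PP X ξ, a' ≤ a ∧ ∃ p, A a' p) →
  ∃ q' ∈ PP X η, rs q' ξ = q ∧ Gen (PP X η) q' N ∧ ∀ a p, A a p → amal ξ a q' ≤ p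

variable {X}

/-- `b` assigns to each set finitely many of its members in `P` and `M` -/
def Bd (P : Set X) (M : U) (b : U → Set X) : Prop :=
  ∀ u, (b u).Finite ∧ ∀ w ∈ b u, w ∈ P ∧ cd w ∈ u ∧ cd w ∈ M

/-- the finite sets given by `b` are predense below `q` -/
def FG (P : Set X) (q : X) (b : U → Set X) (M : U) : Prop :=
  ∀ u ∈ M, Dns P (fun w => cd w ∈ u) → ∀ q' ∈ P, q' ≤ q → ∃ w ∈ b u, Cmp P q' w

end Iter

def ReflStmt : Prop := ∀ (X : Type 1) [Preorder X] [Itr X], Refl X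

def AStmt : Prop := ∀ (X : Type 1) [Preorder X] [Itr X] [Cd X], ∀ᶠ N in club, ∀ η, cd η ∈ N →
  (∀ ζ < η, cd ζ ∈ N → Dist (PP X ζ) ∧ KL0 X ζ (ζ + 1) N) → ∀ ξ ≤ η, cd ξ ∈ N → AP X ξ η N

def CStmt : Prop := ∀ (X : Type 1) [Preorder X] [Itr X] [Cd X], ∃ Q : U → Prop,
  (∀ᶠ N in club, Q N) ∧ ∀ (N₂ N₃ : U) (ξ η : Ordinal.{0}), Q N₂ → Q N₃ → N₂ ∈ N₃ → ξ ≤ η →
    cd ξ ∈ N₂ → cd η ∈ N₂ → Dist (PP X ξ) → KL0 X ξ η N₂ → AP X ξ η N₃ →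
    ∀ b, Bd (PP X ξ) N₂ b → ∀ Δ : Set X, Δ.Finite → (∀ p ∈ Δ, p ∈ PP X η ∧ cd p ∈ N₂) →
    ∃ b', Bd (PP X η) N₂ b' ∧ ∀ q ∈ PP X ξ, FG (PP X ξ) q b N₂ → Gen (PP X ξ) q N₃ →
      (∀ a ∈ PP X ξ, a ≤ q → ∃ p ∈ Δ, Cmp (PP X ξ) a (rs p ξ)) →
      ∃ q' ∈ PP X η, rs q' ξ = q ∧ Gen (PP X η) q' N₃ ∧ FG (PP X η) q' b' N₂ ∧
        ∀ a ∈ PP X ξ, a ≤ q → ∃ a' ∈ PP X ξ, a' ≤ a ∧ ∃ p ∈ Δ, amal ξ a' q' ≤ p

/-- the iteration theorem -/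
def IterStmt : Prop := ∀ (X : Type 1) [Preorder X] [Itr X] [Cd X], Succ X → ∀ η, Dist (PP X η)

/-- the stages of an iteration of forcings consisting of valid preconditions -/
class Gnr (X C : Type 1) [Preorder X] [Itr X] [Cd X] [Preorder C] where
  St : Ordinal.{0} → Type 1
  [pre : ∀ ζ, Preorder (St ζ)]
  [cdS : ∀ ζ, Cd (St ζ)]
  ι : ∀ {ζ}, St ζ → X
  ι_le : ∀ {ζ} {a b : St ζ}, ι a ≤ ι b ↔ a ≤ b
  ι_range : ∀ {ζ x}, x ∈ PP X ζ ↔ ∃ a : St ζ, ι a = x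
  ι_cd : ∀ {ζ} (a : St ζ), cd (ι a) = cd a
  Val : ∀ {ζ}, St ζ → C → Prop
  small_val : ∀ ζ, Small.{0} {z : St ζ × C | Val z.1 z.2}
  cond : ∀ {ζ}, St ζ → C → X
  cond_mem : ∀ {ζ} {a : St ζ} {c}, Val a c → cond a c ∈ PP X (ζ + 1)
  rs_cond : ∀ {ζ} {a : St ζ} {c}, Val a c → rs (cond a c) ζ = ι a
  cond_mono : ∀ {ζ} {a a' : St ζ} {c c'}, Val a c → Val a' c' → a ≤ a' → c ≤ c' →
    cond a c ≤ cond a' c'
  exists_cond : ∀ {ζ} (q : St ζ) p, ι q ≤ rs p ζ →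
    ∃ a ≤ q, ∃ c, Val a c ∧ cond a c ≤ rs p (ζ + 1)
  dir : ∀ {ζ} (q : St ζ) {a₁ a₂ : St ζ} {c₁ c₂} p, Val a₁ c₁ → Val a₂ c₂ → p ≤ cond a₁ c₁ →
    p ≤ cond a₂ c₂ → ι q ≤ rs p ζ →
    ∃ a ≤ q, ∃ c, c ≤ c₁ ∧ c ≤ c₂ ∧ Val a c ∧ cond a c ≤ rs p (ζ + 1)
  cond_triv : ∀ {ζ} {a : St ζ} {c} p, ζ ∉ supp p → Val a c → ι a ≤ rs p ζ →
    cond a c ≤ rs p (ζ + 1)

attribute [instance_reducible, instance] Gnr.pre Gnr.cdS

def BridgeStmt : Prop := ∀ (X C : Type 1) [Preorder X] [Itr X] [Cd X] [Preorder C] [Cd C]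
  [g : Gnr X C], (∀ ζ, Dist (univ : Set (g.St ζ)) → SP (g.St ζ) C g.Val) → Succ X

/-- construction of the iteration from a stage functional -/
def ConcStmt : Prop := ∀ (C : Type 1) [Preorder C] [Cd C]
  (Φ : Ordinal.{0} → ∀ (P : Type 1) [Preorder P] [Cd P], P → C → Prop),
  (∀ ζ (P : Type 1) [Preorder P] [Cd P] (p q : P) c, q ≤ p → Φ ζ P p c → Φ ζ P q c) →
  (∀ ζ (P : Type 1) [Preorder P] [Cd P] (p : P), ∃ c, Φ ζ P p c) →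
  (∀ ζ (P : Type 1) [Preorder P] [Cd P], Small.{0} P → Small.{0} {z : P × C | Φ ζ P z.1 z.2}) →
  ∃ (X : Type 1) (_ : Preorder X) (_ : Itr X) (_ : Cd X) (g : Gnr X C),
    ∀ ζ (a : g.St ζ) c, g.Val a c ↔ Φ ζ (g.St ζ) a c

/-! ### lines -/

section Lines

variable {X : Type 1} [Preorder X]

/-- `p` forces that `lt` is a strict linear order on `ω₁` -/
structure Lin (lt : Om → Om → X → Prop) (p : X) : Prop where
  opn : ∀ a, Opn (lt a)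
  irr : ∀ q ≤ p, ∀ a, ¬ lt a a q
  trans : ∀ q ≤ p, ∀ a b c, lt a b q → lt b c q → lt a c q
  total : ∀ q ≤ p, ∀ a b, a ≠ b → ∃ q' ≤ q, lt a b q' ∨ lt b a q'

/-- no increasing `ω₁`-sequence -/
def NoInc (lt : Om → Om → X → Prop) (p : X) : Prop := ∀ q ≤ p, ∀ A, Opn A → UnbO q A →
  (∀ r ≤ q, ∀ a b, a < b → A a r → A b r → lt a b r) → False

/-- no uncountable separable suborder -/
def NoSep (lt : Om → Om → X → Prop) (p : X) : Prop := ∀ q ≤ p, ∀ A (D : Set Om), D.Countable →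
  Opn A → UnbO q A → (∀ d ∈ D, A d q) →
  (∀ r ≤ q, ∀ a x b, A a r → A x r → A b r → lt a x r → lt x b r →
    ∃ r' ≤ r, ∃ d ∈ D, lt a d r' ∧ lt d b r') →
  (∀ r ≤ q, ∀ x b, A x r → A b r → lt x b r → ∃ r' ≤ r, ∃ d ∈ D, lt d b r') →
  (∀ r ≤ q, ∀ a x, A a r → A x r → lt a x r → ∃ r' ≤ r, ∃ d ∈ D, lt a d r') → False

/-- some condition below `p` forces a Countryman suborder -/
def HasC (lt : Om → Om → X → Prop) (p : X) : Prop := ∃ q ≤ p, ∃ (A : Om → X → Prop)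
  (col : Om → Om → ℕ → X → Prop), Opn A ∧ (∀ a b, Opn (col a b)) ∧ UnbO q A ∧
    (∀ a b n r, col a b n r → A a r ∧ A b r) ∧
    (∀ r ≤ q, ∀ a b, A a r → A b r → ∃ r' ≤ r, ∃ n, col a b n r') ∧
    ∀ r ≤ q, ∀ a b c d n, col a b n r → col c d n r → lt a c r → lt d b r → False

variable (X) in
/-- every Aronszajn line on `ω₁` is forced to contain a Countryman line -/
def Linef : Prop := ∀ (lt : Om → Om → X → Prop) (p : X), Lin lt p → NoInc lt p →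
  NoInc (fun a b => lt b a) p → NoSep lt p → HasC lt p

variable (X) in
/-- a name for a map from a subset of `ω₁` onto the ground model reals -/
def CHf : Prop := ∃ R : Om → (ℕ → Prop) → X → Prop, (∀ a, Opn (R a)) ∧
  (∀ a r r' p, R a r p → R a r' p → r = r') ∧ ∀ r p, ∃ q ≤ p, ∃ a, R a r q

end Lines

/-- the tree of cuts of a line -/
def LineStmt : Prop := ∀ (X : Type 1) [Preorder X], Dist (univ : Set X) →
  ∀ (lt : Om → Om → X → Prop) (p : X), Lin lt p → NoInc lt p → NoInc (fun a b => lt b a) p →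
    NoSep lt p → ∃ T' : Seq → X → Prop, Opn T' ∧ Dc T' ∧ Unb p T' ∧ CL p T' ∧ NoBr p T' ∧
      ∀ x q, T' x q → ∃ ν, ht x ≤ ν ∧ ∀ μ < ht x, (x.f μ = 1 ∧ lt μ ν q) ∨ (x.f μ = 0 ∧ lt ν μ q)

/-- from a monotone or antitone relation between `T` and the line to a Countryman suborder -/
def SelStmt : Prop := ∀ (X : Type 1) [Preorder X], Dist (univ : Set X) →
  ∀ (lt : Om → Om → X → Prop) (p : X), Lin lt p → ∀ (W : T → Om → X → Prop) (e : Bool),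
    (∀ y, Opn (W y)) → (∀ y ν r, W y ν r → ht y ≤ ν) →
    (∀ r ≤ p, ∀ g, ∃ r' ≤ r, ∃ y ν, g ≤ ht y ∧ W y ν r') →
    (∀ r ≤ p, ∀ y y' ν ν', W y ν r → W y' ν' r → Lx y.1 y'.1 →
      ∃ r' ≤ r, bif e then lt ν ν' r' else lt ν' ν r') → HasC lt p

/-- the bookkeeping properties of the iteration -/
def Book (X : Type 1) [Preorder X] [Itr X] [Cd X] (g : Gnr X Pc) : Prop :=
  (∀ ξ (T' : Seq → X → Prop), Opn T' → (∀ x q, T' x q → T' x (rs q ξ)) → ∀ ξ', ∃ ζ, ξ' ≤ ζ ∧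
    ∃ D : Dat (g.St ζ), Ax D ∧ (∀ a c, g.Val a c ↔ Val D a c) ∧
      IsoP (fun x a => T' x (g.ι a)) D) ∧
  (∀ ξ (Ub K : T → X → Prop), Opn Ub → Opn K → (∀ x q, Ub x q → Ub x (rs q ξ)) →
    (∀ x q, K x q → K x (rs q ξ)) → ∀ ξ', ∃ ζ, ξ' ≤ ζ ∧
    ∃ D : Dat (g.St ζ), Ax D ∧ (∀ a c, g.Val a c ↔ Val D a c) ∧
      KP (fun x a => Ub x (g.ι a)) (fun x a => K x (g.ι a)) D) ∧
  ∃ ζ, ∃ D : Dat (g.St ζ), Ax D ∧ (∀ a c, g.Val a c ↔ Val D a c) ∧ ∀ p a b, D.V p a b true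

def BookStmt : Prop := ∃ (X : Type 1) (_ : Preorder X) (_ : Itr X) (_ : Cd X) (g : Gnr X Pc),
  (∀ η, Dist (PP X η)) ∧ Book X g

def TwoStmt : Prop := ∀ (X : Type 1) [Preorder X] [Itr X] [Cd X] (g : Gnr X Pc),
  (∀ η, Dist (PP X η)) → Dist (univ : Set X) → Refl X → Book X g → Linef X

def CHStmt : Prop := ∀ (X : Type 1) [Preorder X] [Itr X] [Cd X] (g : Gnr X Pc),
  (∀ η, Dist (PP X η)) → Book X g → CHf X

/-- the name free main theorem -/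
def MainStmt : Prop := ∃ (X : Type 1) (_ : Preorder X) (t : X), (∀ p, p ≤ t) ∧
  Dist (univ : Set X) ∧ CHf X ∧ Linef X

/-! ### basic facts on iterations and the assembly -/

section

variable {X : Type 1} [Preorder X] [Itr X] {p q r a : X} {ξ η : Ordinal.{0}}

theorem rs_mem (p : X) (ξ : Ordinal.{0}) : rs p ξ ∈ PP X ξ := by
  rw [PP, mem_ofPred_eq, Itr.rs_rs, min_self]

theorem rs_rs_le (p : X) (h : ξ ≤ η) : rs (rs p η) ξ = rs p ξ := by rw [Itr.rs_rs, min_eq_right h]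

theorem pp_eq (h : p ∈ PP X ξ) : rs p ξ = p := h

theorem pp_mono (h : p ∈ PP X ξ) (h' : ξ ≤ η) : p ∈ PP X η := by
  rw [PP, mem_ofPred_eq, ← pp_eq h, Itr.rs_rs, min_eq_left h']

theorem le_rs_of_le (h : r ≤ p) (ξ : Ordinal.{0}) : r ≤ rs p ξ := h.trans (Itr.le_rs p ξ)

theorem rs_le_of_le (h : r ≤ p) (hp : p ∈ PP X ξ) : rs r ξ ≤ p := pp_eq hp ▸ Itr.rs_mono ξ h

theorem rs_le_rs_of_le (h : r ≤ rs p ξ) : rs r ξ ≤ rs p ξ := rs_le_of_le h (rs_mem p ξ)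

theorem rs_anti (p : X) (h : ξ ≤ η) : rs p η ≤ rs p ξ := rs_rs_le p h ▸ Itr.le_rs _ ξ

theorem rs_amal (ha : a ∈ PP X ξ) (r : X) : rs (amal ξ a r) ξ = a := by
  rw [Itr.rs_amal_le _ _ le_rfl, pp_eq ha]

theorem amal_mem (a : X) (hr : r ∈ PP X η) (h : ξ ≤ η) : amal ξ a r ∈ PP X η := by
  rw [PP, mem_ofPred_eq, Itr.rs_amal_ge _ _ h, pp_eq hr]

theorem amal_le_left (ha : a ∈ PP X ξ) (r : X) : amal ξ a r ≤ a :=
  (Itr.le_rs _ ξ).trans (rs_amal ha r).le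

theorem amal_le_right (h : a ≤ rs r ξ) : amal ξ a r ≤ r := Itr.amal_le (rs_le_rs_of_le h)

theorem le_amal' (ha : a ∈ PP X ξ) (h : q ≤ a) (h' : q ≤ r) : q ≤ amal ξ a r :=
  Itr.le_amal ((pp_eq ha).symm ▸ h) h'

/-- monotonicity of amalgamation in the second argument -/
theorem amal_mono (ha : a ∈ PP X ξ) (h : a ≤ rs r ξ) (h' : r ≤ p) : amal ξ a r ≤ amal ξ a p :=
  le_amal' ha (amal_le_left ha r) ((amal_le_right h).trans h')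

theorem cmp_rs (hq : q ∈ PP X ξ) (ha : a ∈ PP X ξ) (h1 : r ≤ q) (h2 : r ≤ a) : Cmp (PP X ξ) q a :=
  ⟨rs r ξ, rs_mem r ξ, rs_le_of_le h1 hq, rs_le_of_le h2 ha⟩

theorem exists_mem_PP (p : X) : ∃ ξ, p ∈ PP X ξ := by
  have := (Itr.supp_ctble p).to_subtype
  exact ⟨⨆ ζ : supp p, ζ.1 + 1, (Itr.rs_eq_iff p _).2 fun ζ h => (lt_add_one ζ).trans_le
    (Ordinal.le_iSup (fun ζ : supp p => ζ.1 + 1) ⟨ζ, h⟩)⟩

theorem dist_univ (h : ∀ η, Dist (PP X η)) (hR : Refl X) : Dist (univ : Set X) := by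
  intro p _ D h1 h2
  obtain ⟨e, he⟩ : ∃ e : Om → ℕ, Function.Surjective e :=
    ⟨_, Function.invFun_surjective (Infinite.natEmbedding Om).injective⟩
  obtain ⟨ξ, hξ⟩ := exists_mem_PP p
  obtain ⟨ζ, k1, k2⟩ := hR (fun g q => D (e g) q ∨ ¬ Cmp univ q p) (fun g q _ => by
    by_cases hc : Cmp univ q p
    · obtain ⟨c, -, k1, k2⟩ := hc
      obtain ⟨w, -, k3, k4⟩ := h2 (e g) c trivial k2
      exact ⟨w, trivial, k3.trans k1, Or.inl k4⟩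
    · exact ⟨q, trivial, le_rfl, Or.inr hc⟩) ξ
  obtain ⟨q, -, k3, k4⟩ := h ζ p (pp_mono hξ k1) D (fun n q q' _ => h1 n q q' trivial)
    fun n q hq k => by
      obtain ⟨g, rfl⟩ := he n
      obtain ⟨w, k3, k4, k5⟩ := k2 g q hq
      exact ⟨w, k3, k4, k5.resolve_right fun k' => k' ⟨w, trivial, le_rfl, k4.trans k⟩⟩
  exact ⟨q, trivial, k3, k4⟩

variable [Cd X] {C : Type 1} [Preorder C] (g : Gnr X C)

theorem Gnr.ι_inj (ζ : Ordinal.{0}) : Function.Injective (g.ι : g.St ζ → X) := fun a b h =>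
  Cd.inj (by rw [← g.ι_cd, h, g.ι_cd])

instance (ζ : Ordinal.{0}) : Small.{0} (g.St ζ) :=
  small_of_injective (f := fun a => (⟨g.ι a, g.ι_range.2 ⟨a, rfl⟩⟩ : PP X ζ))
    fun _ _ h => g.ι_inj ζ (congrArg Subtype.val h)

theorem Gnr.ι_mem {ζ : Ordinal.{0}} (a : g.St ζ) : g.ι a ∈ PP X ζ := g.ι_range.2 ⟨a, rfl⟩

theorem Gnr.dist_iff {ζ : Ordinal.{0}} : Dist (univ : Set (g.St ζ)) ↔ Dist (PP X ζ) := by
  refine ⟨fun h p hp D h1 h2 => ?_, fun h p _ D h1 h2 => ?_⟩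
  · obtain ⟨p, rfl⟩ := g.ι_range.1 hp
    obtain ⟨q, -, k1, k2⟩ := h p trivial (fun n a => D n (g.ι a))
      (fun n q q' _ k => h1 n _ _ (g.ι_mem _) (g.ι_le.2 k)) fun n q _ k => by
        obtain ⟨w, k1, k2, k3⟩ := h2 n _ (g.ι_mem q) (g.ι_le.2 k)
        obtain ⟨w, rfl⟩ := g.ι_range.1 k1
        exact ⟨w, trivial, g.ι_le.1 k2, k3⟩
    exact ⟨_, g.ι_mem q, g.ι_le.2 k1, k2⟩
  · obtain ⟨q, k0, k1, k2⟩ := h _ (g.ι_mem p) (fun n x => ∃ a, g.ι a = x ∧ D n a)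
      (fun n q q' k0 k ⟨a, k1, k2⟩ => by
        obtain ⟨w, rfl⟩ := g.ι_range.1 k0
        exact ⟨w, rfl, h1 n a w trivial (g.ι_le.1 (k1 ▸ k)) k2⟩) fun n q k0 k => by
        obtain ⟨q, rfl⟩ := g.ι_range.1 k0
        obtain ⟨w, -, k2, k3⟩ := h2 n q trivial (g.ι_le.1 k)
        exact ⟨_, g.ι_mem w, g.ι_le.2 k2, w, rfl, k3⟩
    obtain ⟨q, rfl⟩ := g.ι_range.1 k0
    exact ⟨q, trivial, g.ι_le.1 k1, fun n => let ⟨a, k3, k4⟩ := k2 n; g.ι_inj ζ k3 ▸ k4⟩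

end

theorem main_of (h1 : BookStmt) (h2 : ReflStmt) (h3 : TwoStmt) (h4 : CHStmt) : MainStmt := by
  obtain ⟨X, i1, i2, i3, g, k1, k2⟩ := h1
  obtain ⟨p⟩ := Itr.ne (X := X)
  exact ⟨X, i1, rs p 0, fun q => Itr.rs_zero q p ▸ Itr.le_rs q 0, dist_univ k1 (h2 X),
    h4 X g k1 k2, h3 X g k1 (dist_univ k1 (h2 X)) (h2 X) k2⟩

end Pool.Agent.Ctry
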