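import Pool.Agent.MP_77405c_lc.Model
import Pool.Agent.MP_77405c_lc.Spec

/-! The notions of the problem as formulas, names for pairs, relations and ordinals, and the
statements of the link modules. -/

open Set

namespace Pool.Agent.Ctry.Fc

namespace Fml

variable {V : Type 2}

def func (f : V) : Fml V := all fun a => all fun b => all fun b' =>
  imp (app f a b) (imp (app f a b') (eq b b'))
def ctble (w x : V) : Fml V := ex fun f => and (func f) (allIn x fun y => exIn w fun n => app f n y)
def omega1 (w o : V) : Fml V :=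
  and (all fun x => all fun y => imp (mem x y) (imp (mem y o) (mem x o)))
    (and (all fun x => all fun y => imp (mem x o) (imp (mem y o) (or (mem x y) (or (eq x y) (mem y x)))))
      (and (neg (ctble w o)) (allIn o fun x => ctble w x)))
def ch (w o : V) : Fml V := ex fun f => and (func f)
  (all fun x => imp (sub x w) (exIn o fun a => app f a x))
def lin (L r : V) : Fml V := and (allIn L fun x => neg (app r x x))
  (and (all fun x => all fun y => all fun z => imp (mem x L) (imp (mem y L) (imp (mem z L)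
      (imp (app r x y) (imp (app r y z) (app r x z))))))
    (all fun x => all fun y => imp (mem x L) (imp (mem y L) (or (app r x y) (or (eq x y) (app r y x))))))
def inc (o L r : V) : Fml V := ex fun f => and (func f)
  (and (allIn o fun a => exIn L fun x => app f a x) (all fun a => all fun b => all fun x => all fun y =>
    imp (mem a b) (imp (mem b o) (imp (app f a x) (imp (app f b y) (app r x y))))))
def dec (o L r : V) : Fml V := ex fun f => and (func f)
  (and (allIn o fun a => exIn L fun x => app f a x) (all fun a => all fun b => all fun x => all fun y =>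
    imp (mem a b) (imp (mem b o) (imp (app f a x) (imp (app f b y) (app r y x))))))
def sep (w A r : V) : Fml V := ex fun D => and (sub D A) (and (ctble w D)
  (and (all fun a => all fun x => all fun b => imp (mem a A) (imp (mem x A) (imp (mem b A)
      (imp (app r a x) (imp (app r x b) (exIn D fun d => and (app r a d) (app r d b)))))))
    (and (all fun x => all fun b => imp (mem x A) (imp (mem b A) (imp (app r x b)
        (exIn D fun d => app r d b))))
      (all fun a => all fun x => imp (mem a A) (imp (mem x A) (imp (app r a x)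
        (exIn D fun d => app r a d)))))))
def aron (w o L r : V) : Fml V := and (lin L r) (and (neg (ctble w L)) (and (neg (inc o L r))
  (and (neg (dec o L r)) (all fun A => imp (sub A L) (imp (neg (ctble w A)) (neg (sep w A r)))))))
def leq (r x y : V) : Fml V := or (eq x y) (app r x y)
def chain (r K : V) : Fml V := all fun x => all fun y => all fun x' => all fun y' =>
  imp (app K x y) (imp (app K x' y')
    (or (and (leq r x x') (leq r y y')) (and (leq r x' x) (leq r y' y))))
def ctry (w C r : V) : Fml V := and (neg (ctble w C)) (ex fun s => and (func s)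
  (and (all fun n => all fun K => imp (mem n w) (imp (app s n K) (and (chain r K)
      (all fun x => all fun y => imp (app K x y) (and (mem x C) (mem y C))))))
    (all fun x => all fun y => imp (mem x C) (imp (mem y C)
      (ex fun n => ex fun K => and (mem n w) (and (app s n K) (app K x y)))))))
def sentence : Fml V := ex fun w => ex fun o => and (omega w) (and (omega1 w o) (and (ch w o)
  (all fun L => all fun r => imp (aron w o L r) (ex fun C => and (sub C L) (ctry w C r)))))

end Fml

open Fml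

variable {X : Type 1} [Preorder X]

/-- the order on conditions -/
def cle (X : Type 1) [Preorder X] (q p : X) : Prop := q ≤ p

instance : Pre (cle X) := ⟨fun p => le_refl p, fun h h' => le_trans h h'⟩

/-- names -/
abbrev Nm (X : Type 1) : Type 2 := Name X

/-- forcing -/
abbrev Fo (a : Fml (Nm X)) (p : X) : Prop := Forces (cle X) a p
abbrev fE (a b : Nm X) (p : X) : Prop := fEq (cle X) a b p
abbrev fM (a b : Nm X) (p : X) : Prop := fMem (cle X) a b p

variable [OrderTop X]

def nn (n : ℕ) : Nm X := natName ⊤ n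
def om : Nm X := omegaName ⊤
def upN (a b : Nm X) : Nm X := .mk (ULift.{1} Bool) (fun i => cond i.down a b) fun _ => ⊤
def opN (a b : Nm X) : Nm X := upN (upN a a) (upN a b)
def relN (I : Type 1) (a b : I → Nm X) (c : I → X) : Nm X := .mk I (fun i => opN (a i) (b i)) c

/-- check names of the countable ordinals -/
noncomputable def ordN : Om → Nm X :=
  (wellFounded_lt (α := Om)).fix fun a ih =>
    .mk (ULift.{1} (Iio a)) (fun i => ih i.down.1 i.down.2) fun _ => ⊤

theorem ordN_eq (a : Om) :
    (ordN a : Nm X) = .mk (ULift.{1} (Iio a)) (fun i => ordN i.down.1) fun _ => ⊤ := by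
  unfold ordN
  rw [WellFounded.fix_eq]

/-- the check name of `ω₁` -/
noncomputable def oN : Nm X := .mk (ULift.{1} Om) (fun i => ordN i.down) fun _ => ⊤

variable {p q : X} {a b a' b' z s : Nm X}

theorem htop (p : X) : cle X p ⊤ := le_top

theorem Fo.mono {φ : Fml (Nm X)} (h : Fo φ p) (hq : q ≤ p) : Fo φ q := Forces.mono hq h
theorem fE.mono (h : fE a b p) (hq : q ≤ p) : fE a b q := fEq_mono hq h
theorem fM.mono (h : fM a b p) (hq : q ≤ p) : fM a b q := fMem_mono hq h
theorem fE.symm (h : fE a b p) : fE b a p := fEq_symm h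
theorem fE.trans (h : fE a b p) (h' : fE b z p) : fE a z p := fEq_trans h h'
theorem fE.rfl : fE a a p := fEq_refl a p
theorem fM.left (h : fM a z p) (h' : fE a b p) : fM b z p := fMem_congr_left h' h
theorem fM.right (h : fM z a p) (h' : fE a b p) : fM z b p := fMem_congr_right h' h

theorem mem_upN : fM z (upN a b) p ↔ ∀ q ≤ p, ∃ r ≤ q, fE a z r ∨ fE b z r := by
  refine fMem_mk_iff.trans (forall₂_congr fun q _ => exists_congr fun r => and_congr_right
    fun _ => ?_)
  simp only [Bool.exists_bool, cond_false, cond_true, htop, true_and, ULift.exists]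
  exact or_comm

theorem left_mem_upN : fM a (upN a b) p := mem_upN.2 fun q _ => ⟨q, le_rfl, Or.inl fE.rfl⟩
theorem right_mem_upN : fM b (upN a b) p := mem_upN.2 fun q _ => ⟨q, le_rfl, Or.inr fE.rfl⟩

theorem upN_congr (h : fE a a' p) (h' : fE b b' p) : fE (upN a b) (upN a' b') p := by
  have key : ∀ {a b a' b' : Nm X}, fE a a' p → fE b b' p → ∀ z, ∀ q ≤ p,
      fM z (upN a b) q → fM z (upN a' b') q := fun h h' z q hq hz => mem_upN.2 fun r hr => by
    obtain ⟨t, ht, h1⟩ := mem_upN.1 hz r hr
    have h2 := ht.trans (hr.trans hq)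
    exact ⟨t, ht, h1.imp (h.mono h2).symm.trans (h'.mono h2).symm.trans⟩
  exact fEq_of_ext fun z q hq => ⟨key h h' z q hq, key h.symm h'.symm z q hq⟩

theorem opN_congr (h : fE a a' p) (h' : fE b b' p) : fE (opN a b) (opN a' b') p :=
  upN_congr (upN_congr h h) (upN_congr h h')

theorem forces_pair : Fo (pair a b z) p ↔ fE z (upN a b) p := by
  have key : ∀ t q, Fo (or (eq t a) (eq t b)) q ↔ fM t (upN a b) q := fun t q =>
    forces_or.trans (mem_upN.trans (forall₂_congr fun _ _ => exists_congr fun _ =>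
      and_congr_right fun _ => ⟨fun h => h.imp fE.symm fE.symm,
        fun h => h.imp fE.symm fE.symm⟩)).symm
  constructor
  · intro h
    exact fEq_of_ext fun t q hq => (forces_iff.1 (h t) q hq).trans (key t q)
  · intro h t
    exact forces_iff.2 fun q hq => Iff.trans
      ⟨fun h' => fM.right h' (h.mono hq), fun h' => fM.right h' (h.mono hq).symm⟩ (key t q).symm

theorem forces_app : Fo (app s a b) p ↔ fM (opN a b) s p := by
  constructor
  · intro h
    refine fMem_dense fun q hq => ?_
    obtain ⟨r, hr, z, h1, h2⟩ := forces_exIn.1 h q hq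
    obtain ⟨r1, hr1, u, h3⟩ := forces_ex.1 h2 r le_rfl
    obtain ⟨r2, hr2, v, h4, h5, h6⟩ := forces_ex.1 h3 r1 le_rfl
    exact ⟨r2, hr2.trans (hr1.trans hr), fM.left (fM.mono h1 (hr2.trans hr1))
      ((forces_pair.1 h6).trans (upN_congr (forces_pair.1 h4) (forces_pair.1 h5)))⟩
  · intro h
    exact forces_exIn_of _ h (forces_ex_of (upN a a) (forces_ex_of (upN a b)
      ⟨forces_pair.2 fE.rfl, forces_pair.2 fE.rfl, forces_pair.2 fE.rfl⟩))

theorem eq_of_mem_sing (h : fM z (upN a a) p) : fE a z p := fEq_dense fun q hq =>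
  let ⟨r, hr, h1⟩ := mem_upN.1 h q hq; ⟨r, hr, h1.elim id id⟩

theorem opN_inj (h : fE (opN a b) (opN a' b') p) : fE a a' p ∧ fE b b' p := by
  have key : ∀ {a b a' b' : Nm X} {p : X}, fE (opN a b) (opN a' b') p → fE a a' p := by
    intro a b a' b' p h
    refine fEq_dense fun q hq => ?_
    obtain ⟨r, hr, h1 | h1⟩ := mem_upN.1 (fM.right left_mem_upN h) q hq
    · exact ⟨r, hr, eq_of_mem_sing (fM.right left_mem_upN h1)⟩
    · exact ⟨r, hr, eq_of_mem_sing (fM.right left_mem_upN h1)⟩
  have key2 : ∀ {a b a' b' : Nm X} {p : X}, fE (opN a b) (opN a' b') p →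
      ∀ q ≤ p, ∃ r ≤ q, fE a' b r ∨ fE b' b r := by
    intro a b a' b' p h q hq
    obtain ⟨r, hr, h1 | h1⟩ := mem_upN.1 (fM.right right_mem_upN h) q hq
    · exact ⟨r, hr, Or.inl (eq_of_mem_sing (fM.right right_mem_upN h1.symm))⟩
    · obtain ⟨t, ht, h2⟩ := mem_upN.1 (fM.right right_mem_upN h1.symm) r le_rfl
      exact ⟨t, ht.trans hr, h2⟩
  refine ⟨key h, fEq_dense fun q hq => ?_⟩
  obtain ⟨r, hr, h1 | h1⟩ := key2 h q hq
  · obtain ⟨t, ht, h2 | h2⟩ := key2 h.symm r (hr.trans hq)
    · exact ⟨t, ht.trans hr, (h1.mono ht).symm.trans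
        (((key h).mono (ht.trans (hr.trans hq))).symm.trans h2)⟩
    · exact ⟨t, ht.trans hr, h2⟩
  · exact ⟨r, hr, h1.symm⟩

theorem app_rel {I : Type 1} {f g : I → Nm X} {c : I → X} :
    Fo (app (relN I f g c) a b) p ↔
      ∀ q ≤ p, ∃ r ≤ q, ∃ i, r ≤ c i ∧ fE (f i) a r ∧ fE (g i) b r :=
  forces_app.trans (fMem_mk_iff.trans (forall₂_congr fun _ _ => exists_congr fun _ =>
    and_congr_right fun _ => exists_congr fun _ => and_congr_right fun _ =>
      ⟨opN_inj, fun h => opN_congr h.1 h.2⟩))

theorem app_rel_of {I : Type 1} {f g : I → Nm X} {c : I → X} (i : I) (h : p ≤ c i) :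
    Fo (app (relN I f g c) (f i) (g i)) p :=
  app_rel.2 fun q hq => ⟨q, le_rfl, i, hq.trans h, fE.rfl, fE.rfl⟩

theorem app_congr {s' : Nm X} (h : Fo (app s a b) p) (hs : fE s s' p) (ha : fE a a' p)
    (hb : fE b b' p) : Fo (app s' a' b') p :=
  forces_app.2 (fM.right (fM.left (forces_app.1 h) (opN_congr ha hb)) hs)

theorem nn_inj {m n : ℕ} (h : fE (nn m) (nn n) p) : m = n := natName_inj htop h

theorem nn_mem_om (n : ℕ) : fM (nn n) om p := natName_mem_omega htop n p

theorem mem_om (h : fM z om p) : ∃ r ≤ p, ∃ n, fE (nn n) z r :=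
  (fMem_omegaName htop).1 h p le_rfl

theorem mem_nn {n : ℕ} (h : fM z (nn n) p) : ∃ r ≤ p, ∃ j < n, fE (nn j) z r :=
  (fMem_natName htop).1 h p le_rfl

theorem nn_mem_nn {m n : ℕ} : fM (nn m) (nn n) p ↔ m < n := by
  constructor
  · intro h
    obtain ⟨r, -, j, hj, h1⟩ := mem_nn h
    rwa [← nn_inj h1]
  · exact fun h => (fMem_natName htop).2 fun q _ => ⟨q, le_rfl, m, h, fE.rfl⟩

theorem nn_sub_nn {m n : ℕ} (h : m ≤ n) : Fo (sub (nn m) (nn n)) p :=
  forces_sub.2 fun z q _ hz => fMem_dense fun r hr => by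
    obtain ⟨t, ht, j, hj, h1⟩ := mem_nn (fM.mono hz hr)
    exact ⟨t, ht, fM.left (nn_mem_nn.2 (hj.trans_le h)) h1⟩

theorem mem_ordN {c : Om} : fM z (ordN c) p ↔ ∀ q ≤ p, ∃ r ≤ q, ∃ b < c, fE (ordN b) z r := by
  rw [ordN_eq]
  refine fMem_mk_iff.trans (forall₂_congr fun q _ => exists_congr fun r => and_congr_right
    fun _ => ?_)
  constructor
  · rintro ⟨i, -, h⟩
    exact ⟨i.down.1, i.down.2, h⟩
  · rintro ⟨b, hb, h⟩
    exact ⟨⟨⟨b, hb⟩⟩, htop _, h⟩

theorem mem_oN : fM z oN p ↔ ∀ q ≤ p, ∃ r ≤ q, ∃ b : Om, fE (ordN b) z r := by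
  refine fMem_mk_iff.trans (forall₂_congr fun q _ => exists_congr fun r => and_congr_right
    fun _ => ?_)
  constructor
  · rintro ⟨i, -, h⟩
    exact ⟨i.down, h⟩
  · rintro ⟨b, h⟩
    exact ⟨⟨b⟩, htop _, h⟩

theorem ordN_mem_oN (c : Om) : fM (ordN c) oN p :=
  mem_oN.2 fun q _ => ⟨q, le_rfl, c, fE.rfl⟩

theorem ordN_mem_of_lt {b c : Om} (h : b < c) : fM (ordN b) (ordN c) p :=
  mem_ordN.2 fun q _ => ⟨q, le_rfl, b, h, fE.rfl⟩

theorem ordN_inj {b c : Om} : ∀ {p : X}, fE (ordN b) (ordN c) p → b = c := by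
  induction b using (wellFounded_lt (α := Om)).induction generalizing c with
  | _ b ih =>
  have key : ∀ {d : Om} {p : X}, d < b → fE (ordN b) (ordN d) p → False := fun {d p} hd h => by
    obtain ⟨r, -, e, he, h1⟩ := mem_ordN.1 (fM.right (ordN_mem_of_lt hd) h) p le_rfl
    exact he.ne' (ih d hd h1.symm)
  intro p h
  rcases lt_trichotomy b c with h1 | h1 | h1
  · obtain ⟨r, -, e, he, h2⟩ := mem_ordN.1 (fM.right (ordN_mem_of_lt h1) h.symm) p le_rfl
    exact (he.ne (ih e he h2)).elim
  · exact h1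
  · exact (key h1 h).elim

theorem ordN_mem_ordN {b c : Om} : fM (ordN b) (ordN c) p ↔ b < c := by
  refine ⟨fun h => ?_, ordN_mem_of_lt⟩
  obtain ⟨r, -, e, he, h1⟩ := mem_ordN.1 h p le_rfl
  rwa [← ordN_inj h1]

theorem func_eq {f i : Nm X} (h : Fo (func f) p) (h1 : Fo (app f i a) p) (h2 : Fo (app f i b) p) :
    fE a b p := forces_imp.1 (forces_imp.1 (h i a b) p le_rfl h1) p le_rfl h2

theorem func_of {f : Nm X} (h : ∀ i a b, ∀ q ≤ p, Fo (app f i a) q → Fo (app f i b) q →
    ∃ r ≤ q, fE a b r) : Fo (func f) p := fun i a b => forces_imp.2 fun q hq h1 =>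
  forces_imp.2 fun q' hq' h2 => fEq_dense fun r hr => h i a b r (le_trans hr (le_trans hq' hq))
    (Fo.mono h1 (le_trans hr hq')) (Fo.mono h2 hr)

theorem func_rel {I : Type 1} {f g : I → Nm X} {c : I → X}
    (h : ∀ i j, ∀ q ≤ p, q ≤ c i → q ≤ c j → fE (f i) (f j) q → ∃ r ≤ q, fE (g i) (g j) r) :
    Fo (func (relN I f g c)) p := func_of fun _ a b q hq h1 h2 => by
  obtain ⟨r, k1, i, k2, k3, k4⟩ := app_rel.1 h1 q le_rfl
  obtain ⟨t, k5, j, k6, k7, k8⟩ := app_rel.1 h2 r k1
  obtain ⟨u, k9, k10⟩ := h i j t (k5.trans (k1.trans hq)) (k5.trans k2) k6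
    ((k3.mono k5).trans k7.symm)
  exact ⟨u, k9.trans (k5.trans k1), (k4.mono (k9.trans k5)).symm.trans (k10.trans (k8.mono k9))⟩

/-- formulas which respect forced equality -/
def Cong (f : Nm X → Fml (Nm X)) : Prop :=
  ∀ p x y, fE x y p → Sim (fun a b => fE a b p) (f x) (f y)

theorem Cong.fo {f : Nm X → Fml (Nm X)} (hf : Cong f) (h : fE a b p) (h' : Fo (f a) p) :
    Fo (f b) p := ((hf p a b h).forces p le_rfl).1 h'

theorem allIn_om {f : Nm X → Fml (Nm X)} (hf : Cong f) (h : ∀ n, Fo (f (nn n)) p) :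
    Fo (allIn om f) p := forces_allIn.2 fun _ q hq hx => Forces.dense fun r hr => by
  obtain ⟨t, ht, n, h1⟩ := mem_om (fM.mono hx hr)
  exact ⟨t, ht, hf.fo h1 (Fo.mono (h n) (ht.trans (hr.trans hq)))⟩

theorem allIn_om' {f : Nm X → Fml (Nm X)} (h : Fo (allIn om f) p) (n : ℕ) : Fo (f (nn n)) p :=
  forces_allIn.1 h _ p le_rfl (nn_mem_om n)

theorem exIn_om {f : Nm X → Fml (Nm X)} (hf : Cong f) (h : Fo (exIn om f) p) :
    ∃ r ≤ p, ∃ n, Fo (f (nn n)) r := by
  obtain ⟨r, hr, x, h1, h2⟩ := forces_exIn.1 h p le_rfl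
  obtain ⟨t, ht, n, h3⟩ := mem_om h1
  exact ⟨t, ht.trans hr, n, hf.fo h3.symm (Fo.mono h2 ht)⟩

theorem exIn_om_of {f : Nm X → Fml (Nm X)} (n : ℕ) (h : Fo (f (nn n)) p) : Fo (exIn om f) p :=
  forces_exIn_of _ (nn_mem_om n) h

theorem cong_app1 (s b : Nm X) : Cong fun x => app s x b := fun _ _ _ h =>
  Sim.app (fun _ => fE.rfl) fE.rfl h fE.rfl

/-- `ω₁` is preserved -/
def Om1Stmt : Prop := ∀ (X : Type 1) [Preorder X] [OrderTop X], Dist (univ : Set X) →
  ∀ p : X, Fo (omega1 om oN) p

/-- the continuum hypothesis is forced -/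
def ChFStmt : Prop := ∀ (X : Type 1) [Preorder X] [OrderTop X], Dist (univ : Set X) → CHf X →
  ∀ p : X, Fo (ch om oN) p

/-- an Aronszajn line contains `ω₁` points on which the name free hypotheses hold -/
def AronStmt : Prop := ∀ (X : Type 1) [Preorder X] [OrderTop X], Dist (univ : Set X) →
  ∀ (L r : Nm X) (p : X), Fo (aron om oN L r) p → ∃ x : Om → Nm X, (∀ a, fM (x a) L p) ∧
    (∀ a b, ∀ q ≤ p, fE (x a) (x b) q → a = b) ∧
    Lin (fun a b q => Fo (app r (x a) (x b)) q) p ∧
    NoInc (fun a b q => Fo (app r (x a) (x b)) q) p ∧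
    NoInc (fun a b q => Fo (app r (x b) (x a)) q) p ∧
    NoSep (fun a b q => Fo (app r (x a) (x b)) q) p

/-- the name free Countryman suborder gives a forced one -/
def CtryStmt : Prop := ∀ (X : Type 1) [Preorder X] [OrderTop X], Dist (univ : Set X) →
  ∀ (L r : Nm X) (p : X) (x : Om → Nm X), (∀ a, fM (x a) L p) →
    (∀ a b, ∀ q ≤ p, fE (x a) (x b) q → a = b) → Lin (fun a b q => Fo (app r (x a) (x b)) q) p →
    HasC (fun a b q => Fo (app r (x a) (x b)) q) p →
    ∃ q ≤ p, ∃ C, Fo (and (sub C L) (ctry om C r)) q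

section

variable {V W : Type 2} {R : V → W → Prop} {a b c d : V} {a' b' c' d' : W}

theorem par_func (h1 : R a a') : Par R (func a) (func a') := by
  repeat' first | assumption | with_reducible apply par_app | constructor | intro _ _ _

theorem par_ctble (h1 : R a a') (h2 : R b b') : Par R (ctble a b) (ctble a' b') := by
  repeat' first
    | assumption | with_reducible apply par_app | with_reducible apply par_func | constructor
    | intro _ _ _

theorem par_chain (h1 : R a a') (h2 : R b b') : Par R (chain a b) (chain a' b') := by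
  repeat' first | assumption | with_reducible apply par_app | constructor | intro _ _ _

theorem par_aron (h1 : R a a') (h2 : R b b') (h3 : R c c') (h4 : R d d') :
    Par R (aron a b c d) (aron a' b' c' d') := by
  repeat' first
    | assumption | with_reducible apply par_app | with_reducible apply par_func
    | with_reducible apply par_ctble | constructor | intro _ _ _

theorem par_sentence : Par R sentence sentence := by
  repeat' first
    | assumption | with_reducible apply par_app | with_reducible apply par_func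
    | with_reducible apply par_ctble | with_reducible apply par_chain
    | with_reducible apply par_aron | with_reducible apply par_omega | constructor | intro _ _ _

end

theorem final_of (h : MainStmt) (h1 : Om1Stmt) (h2 : ChFStmt) (h3 : AronStmt) (h4 : CtryStmt) :
    ∃ (M : Type 2) (E : M → M → Prop), ZFC E ∧ ∃ w o, IOmega E w ∧ IOmega1 E w o ∧ ICH E w o ∧
      ∀ L r, IAron E w o L r → ∃ C, ISub E C L ∧ ICtry E w C r := by
  obtain ⟨X, _, t, k1, k2, k3, k4⟩ := h
  let _ : OrderTop X := { top := t, le_top := k1 }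
  obtain ⟨M, E, e1, e2⟩ := exists_model (le := cle X) htop sentence (fun _ _ _ => par_sentence)
    fun p => forces_ex_of om (forces_ex_of oN ⟨forces_omega htop p, h1 X k2 p, h2 X k2 k3 p,
      fun L r => forces_imp.2 fun q _ hq => forces_ex.2 fun q' hq' => by
        obtain ⟨x, j1, j2, j3, j4, j5, j6⟩ := h3 X k2 L r q' (Fo.mono hq hq')
        exact h4 X k2 L r q' x j1 j2 j3 (k4 _ q' j3 j4 j5 j6)⟩)
  refine ⟨M, E, e1, ?_⟩
  simpa only [sentence, omega1, ch, aron, lin, inc, dec, sep, ctry, chain, leq, ctble, func,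
    IOmega1, ICH, IAron, ILin, IInc, IDec, ISep, ICtry, IChain, ILe, ICtble, IFunc, sat_ex,
    sat_and, sat_omega, sat_all, sat_imp, sat_allIn, sat_exIn, sat_sub, sat_app, sat_neg, sat_mem,
    sat_eq, sat_or] using e2

end Pool.Agent.Ctry.Fc
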