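import Mathlib.Algebra.Order.Archimedean.Basic
import Mathlib.Data.Set.Card
import Mathlib.Data.Int.Star
import Mathlib.Algebra.Order.Ring.Star
import Mathlib.SetTheory.ZFC.VonNeumann
import Pool.Agent.MP_77405c_lc.Spec
import Pool.Agent.MP_77405c_lc.Names

-- ======== part 0: formerly Pool.Agent.MP_77405c_lc.Chi
section MrgPart0

/-! Colourings of the full coherent tree, branches and pruning. -/

open Set

namespace Pool.Agent.Ctry.Chi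

/-- the nodes of `T` are finite to one -/
theorem fin_le (t : T) (n : ℕ) : {x | x < ht t ∧ |t.1.f x| ≤ n}.Finite :=
  (t.2.union (ee_fin (ht t) n)).subset fun x ⟨h1, h2⟩ => by
    by_cases h : t.1.f x = ee (ht t) x
    · refine Or.inr ⟨h1, ?_⟩
      rw [h, Nat.abs_cast] at h2
      exact_mod_cast h2
    · exact Or.inl ⟨h1, h⟩

/-- two nodes of `T` differ in finitely many places -/
theorem fin_ne (a b : T) : {x | x < ht a ∧ x < ht b ∧ a.1.f x ≠ b.1.f x}.Finite :=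
  ((a.2.union b.2).union (ee_coh (ht a) (ht b))).subset fun x ⟨h1, h2, h3⟩ => by
    by_cases k1 : a.1.f x = ee (ht a) x
    · by_cases k2 : b.1.f x = ee (ht b) x
      · exact Or.inr ⟨h1, h2, fun k => h3 (by rw [k1, k2, k])⟩
      · exact Or.inl (Or.inr ⟨h2, k2⟩)
    · exact Or.inl (Or.inl ⟨h1, k1⟩)

theorem exists_bd (a b : T) : ∃ n : ℕ, ∀ x, x < ht a → x < ht b → a.1.f x ≠ b.1.f x →
    |a.1.f x| ≤ n ∧ |b.1.f x| ≤ n := by
  obtain ⟨n, hn⟩ := ((fin_ne a b).image fun x => max (a.1.f x).natAbs (b.1.f x).natAbs).bddAbove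
  refine ⟨n, fun x h1 h2 h3 => ?_⟩
  have h4 : max (a.1.f x).natAbs (b.1.f x).natAbs ≤ n := hn ⟨x, ⟨h1, h2, h3⟩, rfl⟩
  rw [max_le_iff] at h4
  rw [Int.abs_eq_natAbs, Int.abs_eq_natAbs]
  exact ⟨by exact_mod_cast h4.1, by exact_mod_cast h4.2⟩

/-- the places where one of the two nodes is small -/
def FF (n : ℕ) (a b : T) : Set Om :=
  {x | x < ht a ∧ x < ht b ∧ (|a.1.f x| ≤ n ∨ |b.1.f x| ≤ n)}

theorem FF_fin (n : ℕ) (a b : T) : (FF n a b).Finite :=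
  ((fin_le a n).union (fin_le b n)).subset fun _ ⟨h1, h2, h3⟩ =>
    h3.imp (fun k => ⟨h1, k⟩) fun k => ⟨h2, k⟩

theorem ncard_lt {F : Set Om} (hF : F.Finite) {x y : Om} (hx : x ∈ F) (h : x < y) :
    (F ∩ Iio x).ncard < (F ∩ Iio y).ncard :=
  ncard_lt_ncard ⟨fun _ k => ⟨k.1, k.2.trans h⟩, fun k => lt_irrefl x (k ⟨hx, h⟩).2⟩
    (hF.subset inter_subset_left)

theorem ncard_inj {F : Set Om} (hF : F.Finite) {x y : Om} (hx : x ∈ F) (hy : y ∈ F)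
    (h : (F ∩ Iio x).ncard = (F ∩ Iio y).ncard) : x = y := by
  rcases lt_trichotomy x y with k | k | k
  · exact absurd h (ncard_lt hF hx k).ne
  · exact k
  · exact absurd h.symm (ncard_lt hF hy k).ne

theorem chi : ChiStmt := by
  classical
  choose n hn using exists_bd
  let φ : T → T → Om → ℕ × ℤ × ℤ := fun a b x =>
    ((FF (n a b) a b ∩ Iio x).ncard, a.1.f x, b.1.f x)
  let χ : T → T → ℕ × Finset (ℕ × ℤ × ℤ) := fun a b =>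
    (n a b, (FF_fin (n a b) a b).toFinset.image (φ a b))
  obtain ⟨e, he⟩ := exists_injective_nat (ℕ × Finset (ℕ × ℤ × ℤ))
  refine ⟨fun a b => e (χ a b), fun a b c d h ⟨w, hw⟩ ⟨w', hw'⟩ => ?_⟩
  obtain ⟨e1, e2⟩ := Prod.ext_iff.1 (he h)
  dsimp only [χ] at e1 e2
  obtain ⟨m, m1, m2, m3⟩ : ∃ m, m ≤ ht w ∧ m ≤ ht w' ∧ (m = ht w ∨ m = ht w') :=
    ⟨min (ht w) (ht w'), min_le_left _ _, min_le_right _ _, min_choice _ _⟩
  have ha : m < ht a := m1.trans_lt hw.ht_lt.1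
  have hc : m < ht c := m1.trans_lt hw.ht_lt.2
  have hd : m < ht d := m2.trans_lt hw'.ht_lt.1
  have hb : m < ht b := m2.trans_lt hw'.ht_lt.2
  have k1 : ∀ x < ht w, a.1.f x = c.1.f x := fun x hx =>
    (hw.below.1.f_eq hx).symm.trans (hw.below.2.f_eq hx)
  have k2 : ∀ x < ht w', d.1.f x = b.1.f x := fun x hx =>
    (hw'.below.1.f_eq hx).symm.trans (hw'.below.2.f_eq hx)
  have l1 : a.1.f m ≤ c.1.f m := m1.eq_or_lt.elim (fun k => k ▸ hw.lt.le) fun k => (k1 m k).le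
  have l2 : d.1.f m ≤ b.1.f m := m2.eq_or_lt.elim (fun k => k ▸ hw'.lt.le) fun k => (k2 m k).le
  have l3 : a.1.f m < c.1.f m ∨ d.1.f m < b.1.f m :=
    m3.imp (fun k : m = ht w => k ▸ hw.lt) fun k : m = ht w' => k ▸ hw'.lt
  have b1 := hn a b m ha hb
  have b2 := hn c d m hc hd
  rw [← e1] at b2
  by_cases c1 : |a.1.f m| ≤ n a b ∨ |b.1.f m| ≤ n a b
  · by_cases c2 : |c.1.f m| ≤ n a b ∨ |d.1.f m| ≤ n a b
    · have f1 : φ a b m ∈ (FF_fin (n c d) c d).toFinset.image (φ c d) :=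
        e2 ▸ Finset.mem_image_of_mem _ ((FF_fin _ a b).mem_toFinset.2 ⟨ha, hb, c1⟩)
      obtain ⟨x, f2, f3⟩ := Finset.mem_image.1 f1
      rw [Finite.mem_toFinset] at f2
      have f4 : FF (n a b) a b ∩ Iio m = FF (n c d) c d ∩ Iio m := by
        ext y
        simp only [FF, mem_inter_iff, mem_ofPred_eq, mem_Iio]
        refine and_congr_left fun hy => ?_
        rw [k1 y (hy.trans_le m1), k2 y (hy.trans_le m2), e1]
        exact ⟨fun k => ⟨hy.trans hc, hy.trans hd, k.2.2⟩, fun k => ⟨hy.trans ha, hy.trans hb, k.2.2⟩⟩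
      simp only [φ, Prod.mk.injEq] at f3
      obtain rfl : x = m := ncard_inj (FF_fin _ c d) f2 ⟨hc, hd, e1 ▸ c2⟩ (by rw [f3.1, f4])
      omega
    · simp only [abs_le] at b1 b2 c2
      omega
  · simp only [abs_le] at b1 b2 c1
    omega

theorem spec : SpecStmt := by
  classical
  have h0 : ∀ t : T, ∃ b₀ : Om, ∀ b, ht t = Order.succ b → b₀ = b := fun t => by
    by_cases h : ∃ b, ht t = Order.succ b
    · obtain ⟨b, hb⟩ := h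
      exact ⟨b, fun b' hb' => Order.succ_injective (hb.symm.trans hb')⟩
    · exact ⟨⊥, fun b hb => absurd ⟨b, hb⟩ h⟩
  choose pr hpr using h0
  obtain ⟨e, he⟩ := exists_injective_nat (ℤ × ℕ)
  refine ⟨fun t => e (t.1.f (pr t), {x | x < ht t ∧ t.1.f x = t.1.f (pr t)}.ncard),
    fun s t b b' hs ht' hst h => hst.eq (not_lt.1 fun k => ?_)⟩
  obtain ⟨e1, e2⟩ := Prod.ext_iff.1 (he h)
  dsimp only at e1 e2
  rw [hpr s b hs, hpr t b' ht'] at e1 e2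
  rw [e1] at e2
  have h1 : ht s ≤ b' := Order.lt_succ_iff.1 (ht' ▸ k)
  refine (ncard_lt_ncard (s := {x | x < ht s ∧ s.1.f x = t.1.f b'})
    (t := {x | x < ht t ∧ t.1.f x = t.1.f b'})
    ⟨fun x hx => ⟨hx.1.trans k, ?_⟩, fun k' => ?_⟩ ?_).ne e2
  · rw [← (T.below_iff.1 hst).f_eq hx.1]
    exact hx.2
  · exact (k' ⟨ht' ▸ Order.lt_succ b', rfl⟩).1.not_ge h1
  · exact (fin_le t (t.1.f b').natAbs).subset fun x hx =>
      ⟨hx.1, by rw [hx.2, Int.abs_eq_natAbs]⟩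

theorem br (h : SpecStmt) : BrStmt := by
  intro P _ hD p q _ B hB1 hB2 hB3 _ hB4
  obtain ⟨col, hcol⟩ := h
  obtain ⟨r, -, hr, k⟩ := hD q trivial (fun n r => ∃ x : T,
      ((∃ b, ht x = Order.succ b) ∧ col x = n ∧ B x r) ∨
        ∀ r' ≤ r, ∀ y b, ht y = Order.succ b → col y = n → ¬ B y r')
    (fun n r r' _ k ⟨x, hx⟩ => ⟨x, hx.imp (fun j => ⟨j.1, j.2.1, hB1 _ _ _ k j.2.2⟩)
      fun j r'' k' => j r'' (k'.trans k)⟩) fun n r _ _ => by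
      by_cases hc : ∀ r' ≤ r, ∀ y b, ht y = Order.succ b → col y = n → ¬ B y r'
      · exact ⟨r, trivial, le_rfl, (T.exists_ht ⊥).choose, Or.inr hc⟩
      · push Not at hc
        obtain ⟨r', k1, y, b, k2, k3, k4⟩ := hc
        exact ⟨r', trivial, k1, y, Or.inl ⟨⟨b, k2⟩, k3, k4⟩⟩
  choose f hf using k
  obtain ⟨g, hg⟩ := exists_bound (countable_range fun n => ht (f n))
  obtain ⟨r', k1, y, k2, k3⟩ := hB3 r hr (Order.succ g)
  obtain ⟨⟨b, k4⟩, k5, k6⟩ := (hf (col y)).resolve_right fun j => j r' k1 y g k2 rfl k3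
  have k7 : ht (f (col y)) < ht y := k2 ▸ (hg _ ⟨_, rfl⟩).trans (Order.lt_succ g)
  have k8 : Below (f (col y)) y := hB4 r' (k1.trans hr) _ _ (hB2 _ _ _ k3) (hB1 _ _ _ k1 k6)
    (ht_res_of_le k7.le)
  exact k7.ne (congrArg ht (hcol _ _ b g k4 k2 k8 k5))

section

variable {P : Type 1} [Preorder P] {Y : Type} [Tr Y]

theorem cp_of_below {x y z : Y} (h : Below x z) (h' : Below y z) : Cp x y :=
  (le_total (ht x) (ht y)).imp (h.of_le h') (h'.of_le h)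

theorem key (hD : Dist (univ : Set P)) {Γ Γ₀ : Y → P → Prop} {p q : P} (hC : CL p Γ) (hq : q ≤ p)
    (h2 : Dc Γ₀) (h3 : ∀ y r, Γ₀ y r → Γ y r) (h4 : Unb q Γ₀) (g : Om) :
    ∃ r ≤ q, ∃ w, ht w = g ∧ Γ₀ w r ∧ Unb r fun y s => Γ₀ y s ∧ Cp w y := by
  obtain ⟨q', k1, W, k2, k3⟩ := hC q hq g
  obtain ⟨r, -, k4, k5⟩ := hD.set k2 (p := q') trivial (fun w r => ∃ h : Om,
      Unb r (fun y s => Γ₀ y s ∧ Cp w y) ∨ ∀ r' ≤ r, ∀ y, ht y = h → Γ₀ y r' → ¬ Cp w y)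
    (fun w _ r r' _ k ⟨h, hh⟩ => ⟨h, hh.imp (fun j s k' => j s (k'.trans k))
      fun j s k' => j s (k'.trans k)⟩) fun w _ r _ _ => by
      by_cases hc : Unb r (fun y s => Γ₀ y s ∧ Cp w y)
      · exact ⟨r, trivial, le_rfl, ⊥, Or.inl hc⟩
      · simp only [Unb, not_forall, not_exists, not_and] at hc
        obtain ⟨r', j1, h, j2⟩ := hc
        exact ⟨r', trivial, j1, h, Or.inr j2⟩
  choose! f hf using k5
  obtain ⟨h, hh⟩ := exists_bound (k2.image f)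
  obtain ⟨r', j1, y, j2, j3⟩ := h4 r (k4.trans k1) (max g h)
  have j4 : ht (res y g) = g := ht_res_of_le (j2 ▸ le_max_left g h)
  have j5 : res y g ∈ W := k3 r' (j1.trans k4) _ (h3 _ _ (h2 _ _ g j3)) j4
  refine ⟨r', j1.trans (k4.trans k1), res y g, j4, h2 _ _ g j3, fun s hs => ?_⟩
  refine ((hf _ j5).resolve_right fun j => ?_) s (hs.trans j1)
  exact j r' j1 (res y (f (res y g)))
    (ht_res_of_le (j2 ▸ (hh _ ⟨_, j5, rfl⟩).le.trans (le_max_right g h))) (h2 _ _ _ j3)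
    (cp_of_below (below_res _ _) (below_res _ _))

end

theorem prune : PruneStmt := by
  intro P _ hD Y _ Γ p h1 h2 h3 h4
  refine ⟨fun y q => Γ y q ∧ Unb q fun y' r => Γ y' r ∧ Cp y y',
    fun y q q' k j => ⟨h1 _ _ _ k j.1, fun s hs => j.2 s (hs.trans k)⟩,
    fun y q g j => ⟨h2 _ _ g j.1, fun s hs g' => ?_⟩, fun _ _ j => j.1, fun q hq g => ?_,
    fun q hq y j g hg => ?_⟩
  · obtain ⟨s', k1, y', k2, k3, k4⟩ := j.2 s hs g'
    exact ⟨s', k1, y', k2, k3, (Cp.cut (Or.symm k4) g).symm⟩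
  · exact key hD h3 hq h2 (fun _ _ k => k) (fun s hs => h4 s (hs.trans hq)) g
  · obtain ⟨r, k1, w, k2, k3, k4⟩ := key hD (Γ₀ := fun y' r => Γ y' r ∧ Cp y y') h3 hq
      (fun y' r g' k => ⟨h2 _ _ g' k.1, k.2.cut g'⟩) (fun _ _ k => k.1) j.2 g
    refine ⟨r, k1, w, k2, k3.2.below (k2 ▸ hg), k3.1, fun s hs g' => ?_⟩
    obtain ⟨s', k5, y', k6, k7, k8⟩ := k4 s hs g'
    exact ⟨s', k5, y', k6, k7.1, k8⟩

end Pool.Agent.Ctry.Chi

end MrgPart0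

-- ======== part 1: formerly Pool.Agent.MP_77405c_lc.Iso
section MrgPart1

/-! Module ISO of PROJECT CTRY: the data of the forcing that embeds part of a tree into `T`. -/

open Set

namespace Pool.Agent.Ctry.Iso

variable {P : Type 1} [Preorder P]

section General

variable {Y Z : Type} [Tr Y] [Tr Z] {Γ Γ' : Y → P → Prop} {p q : P}

theorem unb_mono (h : Unb p Γ) (k : q ≤ p) : Unb q Γ := fun r hr => h r (hr.trans k)

theorem prn_mono (h : Prn p Γ) (k : q ≤ p) : Prn q Γ := fun r hr => h r (hr.trans k)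

theorem cl_mono (h : CL p Γ) (k : q ≤ p) : CL q Γ := fun r hr => h r (hr.trans k)

theorem nobr_mono (h : NoBr p Γ) (k : q ≤ p) : NoBr q Γ := fun r hr => h r (hr.trans k)

theorem cl_sub (h : CL p Γ) (k : ∀ y q, Γ' y q → Γ y q) : CL p Γ' := fun q hq g =>
  let ⟨q', h1, W, h2, h3⟩ := h q hq g
  ⟨q', h1, W, h2, fun r hr y hy => h3 r hr y (k y r hy)⟩

/-- `f` preserves heights and the tree order above `z` -/
def Hom (z : Y) (f : Y → Z) : Prop :=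
  ∀ x, Below z x → ht (f x) = ht x ∧ ∀ x', Below x x' → Below (f x) (f x')

/-- above every node of `Γ` above `z` there are two nodes with different values of `f` -/
def Spl (p : P) (Γ : Y → P → Prop) (z : Y) (f : Y → Z) : Prop :=
  ∀ q ≤ p, ∀ y, Below z y → Γ y q → ∃ q' ≤ q, ∃ x w, Γ x q' ∧ Γ w q' ∧ ht x = ht w ∧ Below y x ∧
    Below y w ∧ f x ≠ f w

theorem spl {S : Z → P → Prop} {z : Y} {f : Y → Z} (h1 : Opn Γ) (h2 : Dc Γ) (h3 : Prn p Γ)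
    (hf : Hom z f) (hS : Dc S) (hb : NoBr p S) (hm : ∀ q ≤ p, ∀ x, Below z x → Γ x q → S (f x) q) :
    Spl p Γ z f := by
  intro q hq y hzy hy
  by_contra hn
  have key : ∀ r ≤ q, ∀ x w, Γ x r → Γ w r → Below y x → Below y w → ht x ≤ ht w →
      Below (f x) (f w) := fun r hr x w k1 k2 k3 k4 k5 => by
    have e : f x = f (res w (ht x)) := by_contra fun k =>
      hn ⟨r, hr, x, res w (ht x), k1, h2 _ _ _ k2, (ht_res_of_le k5).symm, k3, k4.res_of k3.ht_le, k⟩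
    rw [e]
    exact (hf _ (hzy.trans (k4.res_of k3.ht_le))).2 _ (below_res _ _)
  refine hb q hq (fun s r => r ≤ q ∧ ∃ x, Γ x r ∧ Below y x ∧ Below s (f x))
    (fun s r r' k ⟨k1, x, k2, k3⟩ => ⟨k.trans k1, x, h1 _ _ _ k k2, k3⟩)
    (fun s r g ⟨k1, x, k2, k3, k4⟩ => ⟨k1, x, k2, k3, (below_res s g).trans k4⟩)
    (fun r hr g => ?_) (fun r hr s ⟨_, x, k2, k3, k4⟩ => ?_)
    fun r hr s s' ⟨_, x, k2, k3, k4⟩ ⟨_, w, k5, k6, k7⟩ e => ?_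
  · obtain ⟨r', k1, x, k2, k3, k4⟩ := h3 r (hr.trans hq) y (h1 _ _ _ hr hy) (max (ht y) g)
      (le_max_left _ _)
    refine ⟨r', k1, res (f x) g, ht_res_of_le ?_, k1.trans hr, x, k4, k3, below_res _ _⟩
    rw [(hf x (hzy.trans k3)).1, k2]
    exact le_max_right _ _
  · rw [← k4]
    exact hS _ _ _ (hm r (hr.trans hq) x (hzy.trans k3) k2)
  · rcases le_total (ht x) (ht w) with k | k
    · exact (k4.trans (key r hr x w k2 k5 k3 k6 k)).eq_of_ht k7 e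
    · exact k4.eq_of_ht (k7.trans (key r hr w x k5 k2 k6 k3 k)) e

theorem Hom.ne {z x w x' w' : Y} {f : Y → Z} (hf : Hom z f) (h1 : Below z x) (h2 : Below z w)
    (e : ht x = ht w) (h3 : Below x x') (h4 : Below w w') (h : f x ≠ f w) : f x' ≠ f w' :=
  fun k => h (((hf x h1).2 x' h3).eq_of_ht (k ▸ (hf w h2).2 w' h4)
    (by rw [(hf x h1).1, (hf w h2).1, e]))

theorem multi {z : Y} (h1 : Opn Γ) (h3 : Prn p Γ) (hz : Γ z p) (L : List (Y → Z))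
    (hL : ∀ f ∈ L, Hom z f ∧ Spl p Γ z f) : ∃ q ≤ p, ∃ x w, Γ x q ∧ Γ w q ∧ ht x = ht w ∧
      Below z x ∧ Below z w ∧ ∀ f ∈ L, f x ≠ f w := by
  induction L with
  | nil => exact ⟨p, le_rfl, z, z, hz, hz, rfl, Below.refl z, Below.refl z, by simp⟩
  | cons f L ih =>
    obtain ⟨q, k1, x, w, k2, k3, k4, k5, k6, k7⟩ := ih fun f hf => hL f (List.mem_cons_of_mem _ hf)
    obtain ⟨q', m1, x', x'', m2, m3, m4, m5, m6, m7⟩ := (hL f List.mem_cons_self).2 q k1 x k5 k2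
    obtain ⟨r, n1, w', n2, n3, n4⟩ := h3 q' (m1.trans k1) w (h1 _ _ _ m1 k3) (ht x')
      (k4 ▸ m5.ht_le)
    have H : ∀ v, Γ v q' → ht v = ht x' → Below x v → f v ≠ f w' → ∃ q ≤ p, ∃ x w, Γ x q ∧ Γ w q ∧
        ht x = ht w ∧ Below z x ∧ Below z w ∧ ∀ f' ∈ f :: L, f' x ≠ f' w := fun v a1 a2 a3 a4 =>
      ⟨r, n1.trans (m1.trans k1), v, w', h1 _ _ _ n1 a1, n4, a2.trans n2.symm, k5.trans a3,
        k6.trans n3, fun f' hf' => by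
          rcases List.mem_cons.1 hf' with rfl | hf'
          · exact a4
          · exact (hL f' (List.mem_cons_of_mem _ hf')).1.ne k5 k6 k4 a3 n3 (k7 f' hf')⟩
    by_cases e : f x' = f w'
    · exact H x'' m3 m4.symm m6 fun k => m7 (e.trans k.symm)
    · exact H x' m2 rfl m5 e

end General

theorem below_len {z x : Tup} (h : Below z x) : x.l.length = z.l.length := by
  rw [← h, Fam.res_l, List.length_map]

theorem below_get {z x : Tup} (h : Below z x) {i : ℕ} (h1 : i < z.l.length) (h2 : i < x.l.length) :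
    Below z.l[i] x.l[i] := by
  have e : z.l = x.l.map (res · (ht z)) := congrArg Fam.l h.symm
  rw [Below, z.ht_mem (List.getElem_mem h1)]
  simp [e]

/-- the entry with number `i` -/
def ent (z : Tup) (i : Fin z.l.length) (x : Tup) : TT := x.l.getD i z.l[i]

theorem ent_eq {z : Tup} (i : Fin z.l.length) {x : Tup} (h : i.1 < x.l.length) :
    ent z i x = x.l[i.1] := List.getD_eq_getElem _ _ h

theorem ent_mem {z : Tup} (i : Fin z.l.length) {x : Tup} (h : Below z x) : ent z i x ∈ x.l := by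
  rw [ent_eq i (i.2.trans_eq (below_len h).symm)]
  exact List.getElem_mem _

theorem hom_ent (z : Tup) (i : Fin z.l.length) : Hom z (ent z i) := fun x hx =>
  ⟨x.ht_mem (ent_mem i hx), fun x' hx' => by
    have e1 := i.2.trans_eq (below_len hx).symm
    have e2 := e1.trans_eq (below_len hx').symm
    rw [ent_eq i e1, ent_eq i e2]
    exact below_get hx' e1 e2⟩

/-- the data -/
def dat (T' : Seq → P → Prop) : Dat P where
  V _ a b e := bif e then Lx a.rho b.rho else Lx b.rho a.rho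
  Leg p Γ := (Opn Γ ∧ Dc Γ ∧ Unb p Γ ∧ Prn p Γ ∧ CL p Γ) ∧
    ∀ q ≤ p, ∀ τ, Γ τ q → ∀ x ∈ τ.l, (Dc T' ∧ NoBr p T') ∧ T' x.rho q

theorem gs (T' : Seq → P → Prop) (p : P) {a b : TT} (e : ht a = ht b) (h1 : a.pi.1 ≠ b.pi.1)
    (h2 : a.rho ≠ b.rho) : GS (dat T') p a b := by
  have k := lx_of_ne h2 (by rw [a.ht_rho, b.ht_rho, e])
  exact (lx_of_ne h1 e).imp (fun h => ⟨h, k.elim (fun k => ⟨true, k⟩) fun k => ⟨false, k⟩⟩)
    fun h => ⟨h, k.elim (fun k => ⟨false, k⟩) fun k => ⟨true, k⟩⟩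

theorem split (h2 : BrStmt) (hD : Dist (univ : Set P)) (T' : Seq → P → Prop) (p : P)
    (Γ : Tup → P → Prop) (z : Tup) (h : (dat T').Leg p Γ) (hz : Γ z p) :
    ∃ q ≤ p, ∃ x w, Γ x q ∧ Γ w q ∧ ht x = ht w ∧ Below z x ∧ Below z w ∧
      ∀ i (h1 : i < x.l.length) (h2 : i < w.l.length), GS (dat T') q x.l[i] w.l[i] := by
  obtain ⟨⟨a1, a2, -, a4, -⟩, a6⟩ := h
  have hpi : ∀ i, Hom z fun x => (ent z i x).pi := fun i x hx =>
    ⟨(hom_ent z i x hx).1, fun x' hx' => ((hom_ent z i x hx).2 x' hx').pi⟩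
  have hrho : ∀ i, Hom z fun x => (ent z i x).rho := fun i x hx =>
    ⟨(TT.ht_rho _).trans (hom_ent z i x hx).1, fun x' hx' => ((hom_ent z i x hx).2 x' hx').rho⟩
  obtain ⟨q, k1, x, w, k2, k3, k4, k5, k6, k7⟩ := multi (Z := Seq) a1 a4 hz
    ((List.ofFn fun i x => (ent z i x).pi.1) ++ List.ofFn fun i x => (ent z i x).rho)
    fun f hf => by
      rcases List.mem_append.1 hf with hf | hf
      · obtain ⟨i, rfl⟩ := List.mem_ofFn.1 hf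
        refine ⟨fun x hx => ⟨(hpi i x hx).1, fun x' hx' => T.below_iff.1 ((hpi i x hx).2 x' hx')⟩,
          fun q hq y b1 b2 => ?_⟩
        obtain ⟨q', c1, x, w, c2, c3, c4, c5, c6, c7⟩ := spl a1 a2 a4 (hpi i)
          (fun _ _ _ _ => trivial) (h2 P hD p) (fun _ _ _ _ _ => trivial) q hq y b1 b2
        exact ⟨q', c1, x, w, c2, c3, c4, c5, c6, fun k => c7 (T.ext k)⟩
      · obtain ⟨i, rfl⟩ := List.mem_ofFn.1 hf
        have b := (a6 p le_rfl z hz _ (List.getElem_mem i.2)).1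
        exact ⟨hrho i, spl a1 a2 a4 (hrho i) b.1 b.2
          fun q hq x c1 c2 => (a6 q hq x c2 _ (ent_mem i c1)).2⟩
  refine ⟨q, k1, x, w, k2, k3, k4, k5, k6, fun i b1 b2 => ?_⟩
  have b3 : i < z.l.length := b1.trans_eq (below_len k5)
  have c1 := k7 _ (List.mem_append_left _ (List.mem_ofFn.2 ⟨⟨i, b3⟩, rfl⟩))
  have c2 := k7 _ (List.mem_append_right _ (List.mem_ofFn.2 ⟨⟨i, b3⟩, rfl⟩))
  simp only [ent_eq ⟨i, b3⟩ b1, ent_eq ⟨i, b3⟩ b2] at c1 c2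
  exact gs T' q (by rw [x.ht_mem (List.getElem_mem b1), w.ht_mem (List.getElem_mem b2), k4]) c1 c2

/-- the pruned part of a tree with entries in `T'` is legitimate -/
theorem leg (h1 : PruneStmt) (hD : Dist (univ : Set P)) (T' : Seq → P → Prop) (p : P)
    (Γ : Tup → P → Prop) (a1 : Opn Γ) (a2 : Dc Γ) (a3 : CL p Γ) (a4 : Unb p Γ)
    (a5 : ∀ q ≤ p, ∀ τ, Γ τ q → ∀ x ∈ τ.l, (Dc T' ∧ NoBr p T') ∧ T' x.rho q) :
    ∃ Γ', (dat T').Leg p Γ' ∧ ∀ τ q, Γ' τ q → Γ τ q := by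
  obtain ⟨Γ', b1, b2, b3, b4, b5⟩ := h1 P hD Tup Γ p a1 a2 a3 a4
  exact ⟨Γ', ⟨⟨b1, b2, b4, b5, cl_sub a3 b3⟩, fun q hq τ h => a5 q hq τ (b3 τ q h)⟩, b3⟩

theorem zero (h1 : PruneStmt) (hD : Dist (univ : Set P)) (T' : Seq → P → Prop) (p : P)
    (Γ : Tup → P → Prop) (a1 : Opn Γ) (a2 : Dc Γ) (a3 : Unb p fun τ q => Γ τ q ∧ τ.l = []) :
    ∃ q ≤ p, ∃ Γ', (dat T').Leg q Γ' ∧ Sub q Γ' Γ := by
  obtain ⟨Γ', b1, b2⟩ := leg h1 hD T' p _ (fun τ q q' k h => ⟨a1 _ _ _ k h.1, h.2⟩)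
    (fun τ q g h => ⟨a2 _ _ _ h.1, by rw [Fam.res_l, h.2, List.map_nil]⟩)
    (fun q _ g => ⟨q, le_rfl, _, Fam.ctble countable_empty g, fun r _ τ h e =>
      ⟨e, by simp [h.2]⟩⟩) a3 fun q _ τ h => by simp [h.2]
  exact ⟨p, le_rfl, Γ', b1, fun q _ τ h => ⟨q, le_rfl, (b2 τ q h).1⟩⟩

theorem new (h1 : PruneStmt) (hD : Dist (univ : Set P)) (T' : Seq → P → Prop) (p : P)
    (Γ : Tup → P → Prop) (a : Tup) (h : (dat T').Leg p Γ) (ha : Γ a p) :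
    ∃ q ≤ p, ∃ (m : ℕ) (R : Fam Tup → P → Prop), Opn R ∧ Dc R ∧ Unb q R ∧
      (∀ ρ r, R ρ r → ρ.l.length = m ∧ ∀ τ ∈ ρ.l, Γ τ r ∧ Cp a τ) ∧
      ∀ (d : G) (Y : ℕ → Tup → P → Prop), (∀ k, Opn (Y k) ∧ Dc (Y k)) → ∀ r ≤ q, ∀ Γ',
        (dat T').Leg r Γ' → Sub r Γ' (Lnk R d Y) →
        ∃ r' ≤ r, ∃ k < m, ∃ Γ'', (dat T').Leg r' Γ'' ∧ Sub r' Γ'' (Y k) := by
  obtain ⟨⟨a1, a2, -, a4, a5⟩, a6⟩ := h
  refine ⟨p, le_rfl, 1, fun ρ r => ∃ τ, ρ.l = [τ] ∧ Γ τ r ∧ Cp a τ,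
    fun ρ r r' k ⟨τ, k1, k2, k3⟩ => ⟨τ, k1, a1 _ _ _ k k2, k3⟩,
    fun ρ r g ⟨τ, k1, k2, k3⟩ => ⟨res τ g, by rw [Fam.res_l, k1]; rfl, a2 _ _ _ k2, k3.cut g⟩,
    fun q hq g => ?_, fun ρ r ⟨τ, k1, k2, k3⟩ => ⟨by rw [k1]; rfl, by simpa [k1] using ⟨k2, k3⟩⟩,
    fun d Y hY r hr Γ' ⟨⟨b1, b2, b3, _, b5⟩, b6⟩ hs => ?_⟩
  · obtain ⟨q', k1, τ, k2, k3, k4⟩ := a4 q hq a (a1 _ _ _ hq ha) (max (ht a) g) (le_max_left _ _)
    exact ⟨q', k1, ⟨(res τ g).base, [res τ g], fun x hx => by rw [List.mem_singleton.1 hx]; rfl⟩,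
      ht_res_of_le (y := τ) (k2 ▸ le_max_right _ _), res τ g, rfl, a2 _ _ _ k4,
      Cp.cut (Or.inl k3) g⟩
  obtain ⟨Γ'', c1, c2⟩ := leg h1 hD T' r
    (fun σ q => (∃ τ s, Γ' τ q ∧ Γ s q ∧ ht s = ht τ ∧ σ = τ.app s) ∧ Y 0 σ q)
    (fun σ q q' k ⟨⟨τ, s, k1, k2, k3⟩, k4⟩ =>
      ⟨⟨τ, s, b1 _ _ _ k k1, a1 _ _ _ k k2, k3⟩, (hY 0).1 _ _ _ k k4⟩)
    (fun σ q g ⟨⟨τ, s, k1, k2, k3, k4⟩, k5⟩ => ⟨⟨res τ g, res s g, b2 _ _ _ k1, a2 _ _ _ k2,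
      by rw [ht_res, ht_res, k3], by rw [k4, Fam.res_app k3]⟩, (hY 0).2 _ _ _ k5⟩)
    (fun q hq g => by
      obtain ⟨q', k1, W, k2, k3⟩ := b5 q hq g
      obtain ⟨q'', k4, W', k5, k6⟩ := a5 q' (k1.trans (hq.trans hr)) g
      refine ⟨q'', k4.trans k1, _, k2.image2 k5 Fam.app, ?_⟩
      rintro q₃ k7 _ ⟨⟨τ, s, m1, m2, m3, rfl⟩, -⟩ e
      rw [Fam.ht_app] at e
      exact mem_image2_of_mem (k3 q₃ (k7.trans k4) τ m1 e) (k6 q₃ k7 s m2 (m3.trans e)))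
    (fun q hq g => by
      obtain ⟨q', k1, τ, k2, k3⟩ := b3 q hq g
      obtain ⟨q'', k4, ρ, ⟨s, k5, k6, -⟩, k7, k8⟩ := hs q' (k1.trans hq) τ k3
      have e : ht s = ht τ := by
        rw [ρ.ht_mem (y := s) (by simp [k5]), ← ρ.ht_base, k7, T.ht_add, τ.ht_base]
      have k9 := k8 0 (by simp [k5])
      simp only [k5, List.getElem_cons_zero] at k9
      exact ⟨q'', k4.trans k1, τ.app s, (τ.ht_app s).trans k2,
        ⟨τ, s, b1 _ _ _ k4 k3, k6, e, rfl⟩, k9⟩)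
    (by
      rintro q hq _ ⟨⟨τ, s, m1, m2, m3, rfl⟩, -⟩ x hx
      rw [Fam.app_l m3] at hx
      rcases List.mem_append.1 hx with hx | hx
      · exact b6 q hq τ m1 x hx
      · have := a6 q (hq.trans hr) s m2 x hx
        exact ⟨⟨this.1.1, nobr_mono this.1.2 hr⟩, this.2⟩)
  exact ⟨r, le_rfl, 0, one_pos, Γ'', c1, fun q _ σ k => ⟨q, le_rfl, (c2 σ q k).2⟩⟩

theorem ax (h1 : PruneStmt) (h2 : BrStmt) (hD : Dist (univ : Set P)) (T' : Seq → P → Prop) :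
    Ax (dat T') where
  V_mono _ _ _ _ _ _ h := h
  V_ext _ _ _ _ _ e h _ k1 k2 := by
    cases e
    · exact Lx.ext h k2.rho k1.rho
    · exact Lx.ext h k1.rho k2.rho
  mono _ _ _ k h := ⟨⟨h.1.1, h.1.2.1, unb_mono h.1.2.2.1 k, prn_mono h.1.2.2.2.1 k,
    cl_mono h.1.2.2.2.2 k⟩, fun r hr τ k1 x k2 =>
      let ⟨⟨m1, m2⟩, m3⟩ := h.2 r (hr.trans k) τ k1 x k2; ⟨⟨m1, nobr_mono m2 k⟩, m3⟩⟩
  tree _ _ h := h.1
  split := split h2 hD T'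
  zero := zero h1 hD T'
  new := new h1 hD T'

theorem isoP (h1 : PruneStmt) (hD : Dist (univ : Set P)) (T' : Seq → P → Prop) :
    IsoP T' (dat T') := by
  refine ⟨fun _ _ _ _ h => h, fun p a1 a2 a3 a4 a5 => ?_⟩
  refine leg h1 hD T' p (fun τ q => ∃ x, τ.l = [x] ∧ T' x.rho q)
    (fun τ q q' k ⟨x, k1, k2⟩ => ⟨x, k1, a1 _ _ _ k k2⟩)
    (fun τ q g ⟨x, k1, k2⟩ => ⟨res x g, by rw [Fam.res_l, k1]; rfl, a2 _ _ _ k2⟩)
    (fun q hq g => ?_) (fun q hq g => ?_) fun q _ τ ⟨x, k1, k2⟩ y hy => ?_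
  · obtain ⟨q', k1, W, k2, k3⟩ := a3 q hq g
    have hW : {x : TT | ht x.pi = g ∧ x.rho ∈ W}.Countable :=
      (((T.ctble_level g).prod k2).preimage (f := fun x : TT => (x.pi, x.rho))
        fun _ _ h => TT.ext (congrArg Prod.fst h) (congrArg Prod.snd h)).mono fun _ h => h
    refine ⟨q', k1, _, Fam.ctble hW g, fun r hr τ ⟨x, m1, m2⟩ e => ⟨e, fun y hy => ?_⟩⟩
    have e' := (τ.ht_mem hy).trans e
    rw [m1, List.mem_singleton] at hy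
    subst hy
    exact ⟨e', k3 r hr _ m2 (y.ht_rho.trans e')⟩
  · obtain ⟨q', k1, y, k2, k3⟩ := a5 q hq g
    obtain ⟨t, ht'⟩ := T.exists_ht g
    exact ⟨q', k1, ⟨t, [⟨t, y, k2.trans ht'.symm⟩], fun x hx => by
      rw [List.mem_singleton.1 hx]; rfl⟩, ht', _, rfl, k3⟩
  · rw [k1, List.mem_singleton] at hy
    exact ⟨⟨a2, a4⟩, hy ▸ k2⟩

theorem iso (h1 : PruneStmt) (h2 : BrStmt) : IsoStmt := fun _ _ hD T' =>
  ⟨dat T', ax h1 h2 hD T', isoP h1 hD T'⟩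

end Pool.Agent.Ctry.Iso

end MrgPart1

-- ======== part 2: formerly Pool.Agent.MP_77405c_lc.Ap
section MrgPart2

/-! Reflection of dense sets and the properness extension lemma. -/

open Filter Set

namespace Pool.Agent.Ctry.Ap

section

variable {X : Type 1} [Preorder X] [Itr X]

theorem exists_F (D : Om → X → Prop) (hD : ∀ g, Dns univ (D g)) (η : Ordinal.{0}) :
    ∃ ζ, η ≤ ζ ∧ ∀ g, ∀ q ∈ PP X η, ∃ w ∈ PP X ζ, w ≤ q ∧ D g w := by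
  choose w _ h1 h2 using fun z : Om × PP X η => hD z.1 z.2.1 trivial
  choose o ho using fun z => exists_mem_PP (w z)
  obtain ⟨b, hb⟩ := Ordinal.bddAbove_of_small (s := range o)
  exact ⟨max η b, le_max_left _ _, fun g q hq => ⟨w (g, ⟨q, hq⟩),
    pp_mono (ho _) ((hb ⟨_, rfl⟩).trans (le_max_right _ _)), h1 _, h2 (g, ⟨q, hq⟩)⟩⟩

end

theorem refl : ReflStmt := by
  intro X _ _ D hD ξ
  choose F h1 h2 using exists_F D hD
  let e : Om → Ordinal.{0} := wellFounded_lt.fix fun i r => max ξ (⨆ j : Iio i, F (r j.1 j.2))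
  have he : ∀ i, e i = max ξ (⨆ j : Iio i, F (e j.1)) := fun i => WellFounded.fix_eq _ _ i
  have h3 : ∀ {i j}, j < i → F (e j) ≤ e i := fun {i j} h => he i ▸
    (Ordinal.le_iSup (fun j : Iio i => F (e j.1)) ⟨j, h⟩).trans (le_max_right _ _)
  have h4 : ∀ i, e i ≤ ⨆ i, e i := Ordinal.le_iSup e
  refine ⟨⨆ i, e i, (he ⊥ ▸ le_max_left _ _).trans (h4 ⊥), fun g q hq => ?_⟩
  choose! f hf using fun z (h : z ∈ supp q) =>
    Ordinal.lt_iSup_iff.1 ((Itr.rs_eq_iff q _).1 hq z h)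
  obtain ⟨b, hb⟩ := exists_bound ((Itr.supp_ctble q).image f)
  obtain ⟨w, k1, k2⟩ := h2 (e b) g q ((Itr.rs_eq_iff q _).2 fun z h =>
    (hf z h).trans_le ((h1 _).trans (h3 (hb _ ⟨z, h, rfl⟩))))
  exact ⟨w, pp_mono k1 ((h3 (Order.lt_succ b)).trans (h4 _)), k2⟩

section

variable {X : Type 1} [Preorder X] [Itr X] [Cd X] {ξ ζ η : Ordinal.{0}} {N : U} {q : X}
  {A : X → X → Prop}

/-- the hypotheses of the extension lemma -/
structure Hyp (ξ η : Ordinal.{0}) (N : U) (q : X) (A : X → X → Prop) : Prop where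
  mem : q ∈ PP X ξ
  gen : Gen (PP X ξ) q N
  dom : ∀ a p, A a p → a ∈ PP X ξ ∧ a ≤ q ∧ p ∈ PP X η ∧ cd p ∈ N ∧ a ≤ rs p ξ
  opn : ∀ a p, ∀ a' ∈ PP X ξ, a' ≤ a → A a p → A a' p
  fnl : ∀ a p p', A a p → A a p' → p = p'
  dns : ∀ a ∈ PP X ξ, a ≤ q → ∃ a' ∈ PP X ξ, a' ≤ a ∧ ∃ p, A a' p

theorem ap_iff : AP X ξ η N ↔ ∀ q A, Hyp ξ η N q A →
    ∃ q' ∈ PP X η, rs q' ξ = q ∧ Gen (PP X η) q' N ∧ ∀ a p, A a p → amal ξ a q' ≤ p :=
  ⟨fun h q A k => h q k.1 k.2 A k.3 k.4 k.5 k.6, fun h q h1 h2 A h3 h4 h5 h6 =>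
    h q A ⟨h1, h2, h3, h4, h5, h6⟩⟩

theorem Hyp.next (h : Hyp ξ η N q A) (hA : AP X ξ ζ N) (h1 : ξ ≤ ζ)
    (hN : ∀ p : X, cd p ∈ N → cd (rs p ζ) ∈ N) :
    ∃ q', rs q' ξ = q ∧ Hyp ζ η N q' (fun b p => b ∈ PP X ζ ∧ b ≤ q' ∧ A (rs b ξ) p) ∧
      ∀ a p, A a p → amal ξ a q' ≤ rs p ζ := by
  obtain ⟨q', k1, k2, k3, k4⟩ := ap_iff.1 hA q (fun a p' => ∃ p, A a p ∧ p' = rs p ζ)
    ⟨h.mem, h.gen, fun a p' ⟨p, j, e⟩ => let ⟨j1, j2, _, j4, j5⟩ := h.dom a p j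
      ⟨j1, j2, e ▸ rs_mem p ζ, e ▸ hN p j4, by rwa [e, rs_rs_le p h1]⟩,
      fun a p' a' j1 j2 ⟨p, j, e⟩ => ⟨p, h.opn a p a' j1 j2 j, e⟩,
      fun a p₁ p₂ ⟨p, j, e⟩ ⟨p', j', e'⟩ => by rw [e, e', h.fnl a p p' j j'],
      fun a j1 j2 => let ⟨a', j3, j4, p, j5⟩ := h.dns a j1 j2; ⟨a', j3, j4, _, p, j5, rfl⟩⟩
  have k5 : ∀ a p, A a p → amal ξ a q' ≤ rs p ζ := fun a p j => k4 a _ ⟨p, j, rfl⟩
  refine ⟨q', k2, ⟨k1, k3, fun b p ⟨j1, j2, j3⟩ => ?_, fun b p b' j1 j2 ⟨_, j3, j4⟩ =>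
    ⟨j1, j2.trans j3, h.opn _ _ _ (rs_mem _ _) (Itr.rs_mono ξ j2) j4⟩,
    fun b p p' j j' => h.fnl _ _ _ j.2.2 j'.2.2, fun b j1 j2 => ?_⟩, k5⟩
  · obtain ⟨-, -, j4, j5, -⟩ := h.dom _ _ j3
    exact ⟨j1, j2, j4, j5, (le_amal' (rs_mem b ξ) (Itr.le_rs b ξ) j2).trans (k5 _ _ j3)⟩
  · obtain ⟨a', j3, j4, p, j5⟩ := h.dns (rs b ξ) (rs_mem b ξ) (k2 ▸ Itr.rs_mono ξ j2)
    exact ⟨amal ξ a' b, amal_mem a' j1 h1, amal_le_right j4, p, amal_mem a' j1 h1,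
      (amal_le_right j4).trans j2, (rs_amal j3 b).symm ▸ j5⟩

theorem ap_self : AP X ξ ξ N := ap_iff.2 fun q _ h => ⟨q, h.mem, h.mem, h.gen, fun a p k =>
  let ⟨j1, _, j3, _, j5⟩ := h.dom a p k
  (amal_le_left j1 q).trans (pp_eq j3 ▸ j5)⟩

theorem ap_trans (h : AP X ξ ζ N) (h' : AP X ζ η N) (h1 : ξ ≤ ζ)
    (hN : ∀ p : X, cd p ∈ N → cd (rs p ζ) ∈ N) : AP X ξ η N := ap_iff.2 fun q A k => by
  obtain ⟨q1, k1, k2, -⟩ := k.next h h1 hN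
  obtain ⟨q', k3, k4, k5, k6⟩ := ap_iff.1 h' q1 _ k2
  have k7 : rs q' ξ = q := by rw [← rs_rs_le q' h1, k4, k1]
  refine ⟨q', k3, k7, k5, fun a p j => ?_⟩
  obtain ⟨j1, j2, -⟩ := k.dom a p j
  have j3 := amal_mem a k2.mem h1
  refine (le_amal' j3 (amal_mono j1 (k7 ▸ j2) (k4 ▸ Itr.le_rs q' ζ))
    (amal_le_right (k7 ▸ j2))).trans (k6 _ p ⟨j3, amal_le_right (k1 ▸ j2), ?_⟩)
  rwa [rs_amal j1]

theorem ap_succ (hN : (N : Set U).Countable) (hD : Dist (PP X ζ)) (hK : KL0 X ζ (ζ + 1) N) :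
    AP X ζ (ζ + 1) N := ap_iff.2 fun q A h => by
  obtain ⟨B, j1, j2, j3, j4⟩ := exists_fnl (P := PP X ζ) (fun b r => b ≤ rs r ζ ∧
      r ∈ PP X (ζ + 1) ∧ TG (PP X (ζ + 1)) r N ∧ ∃ p, A b p ∧ r ≤ p)
    fun b r b' k1 k2 ⟨k3, k4, k5, p, k6, k7⟩ => ⟨k2.trans k3, k4, k5, p, h.opn b p b' k1 k2 k6, k7⟩
  have j5 : ∀ b ∈ PP X ζ, b ≤ q → ∃ b' ∈ PP X ζ, b' ≤ b ∧ ∃ r, B b' r := fun b k1 k2 => by
    obtain ⟨b1, k3, k4, p, k5⟩ := h.dns b k1 k2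
    obtain ⟨b2, k6, k7, k8⟩ := hD.dec hN b1 k3
    obtain ⟨-, k9, k10, k11, k12⟩ := h.dom b1 p k5
    obtain ⟨r, i1, i2, i3, i4⟩ := hK b2 k6 p k10 k11
      (k8.tg (fun _ h => h) h.gen ⟨b2, k6, le_rfl, k7.trans k9⟩) (k7.trans k12)
    obtain ⟨b', i5, i6, i7⟩ := j4 (rs r ζ) (rs_mem r ζ) r
      ⟨le_rfl, i1, i4, p, h.opn b1 p _ (rs_mem r ζ) (i3.trans k7) k5, i2⟩
    exact ⟨b', i5, i6.trans (i3.trans (k7.trans k4)), i7⟩
  obtain ⟨w, k1, k2⟩ := Itr.mix ζ B (fun a r k => ⟨(j1 a r k).1, (j1 a r k).2.2.1, (j1 a r k).2.1⟩)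
    (fun a r a' k => j2 a r a' k) j3
  have k3 := rs_amal h.mem w
  have k4 := (lt_add_one ζ).le
  refine ⟨amal ζ q w, amal_mem q k1 k4, k3, fun u i1 i2 c i3 i4 => ?_, fun a p i => ?_⟩
  · obtain ⟨b, i5, i6, r, i7⟩ := j5 (rs c ζ) (rs_mem c ζ) (k3 ▸ Itr.rs_mono ζ i4)
    obtain ⟨w', i8, i9, i10, i11⟩ := (j1 b r i7).2.2.2.1 u i1 i2
    refine ⟨w', i8, i9, i10, amal ζ b c, amal_mem b i3 k4, amal_le_right i6,
      (amal_mono i5 i6 i4).trans ?_⟩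
    rw [Itr.amal_amal _ _ _ le_rfl]
    exact (k2 b r i7).trans i11
  · obtain ⟨i1, i2, -, -, i3⟩ := h.dom a p i
    refine Itr.reg ζ _ _ (by rwa [rs_amal i1]) fun c i4 i5 => ?_
    rw [rs_amal i1] at i5
    obtain ⟨b, i6, i7, r, i8⟩ := j5 c i4 (i5.trans i2)
    obtain ⟨-, -, -, -, p', i9, i10⟩ := j1 b r i8
    refine ⟨b, i6, i7, ?_⟩
    rw [Itr.amal_amal _ _ _ le_rfl, Itr.amal_amal _ _ _ le_rfl,
      h.fnl b p p' (h.opn a p b i6 (i7.trans i5) i) i9]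
    exact (k2 b r i8).trans i10

/-- the relation captured at limit steps -/
def psi (γ : Ordinal.{0}) (y : Ordinal.{0} × X × U) (w p' : X) : Prop :=
  p' ∈ PP X y.1 ∧ p' ≤ y.2.1 ∧ (Dns (PP X y.1) (fun w => cd w ∈ y.2.2) → cd p' ∈ y.2.2) ∧
    w ≤ rs p' γ

theorem Hyp.shrink (h : Hyp ξ η N q A) (h0 : Mod0 N) (h1 : ξ ≤ η) (hη : cd η ∈ N)
    (hN : ∀ p : X, cd p ∈ N → cd (rs p ξ) ∈ N) (hc : CapB (PP X ξ) (psi ξ) N) {u : U}
    (hu : u ∈ N) : ∃ A', Hyp ξ η N q A' ∧ ∀ a p', A' a p' → ∃ p, A a p ∧ p' ≤ p ∧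
      (Dns (PP X η) (fun w => cd w ∈ u) → cd p' ∈ u) := by
  obtain ⟨B, j1, j2, j3, j4⟩ := exists_fnl (P := PP X ξ)
    (fun a p' => cd p' ∈ N ∧ ∃ p, A a p ∧ psi ξ (η, p, u) a p')
    fun a p' a' k1 k2 ⟨k3, p, k4, k5, k6, k7, k8⟩ =>
      ⟨k3, p, h.opn a p a' k1 k2 k4, k5, k6, k7, k2.trans k8⟩
  refine ⟨B, ⟨h.mem, h.gen, fun a p' k => ?_, j2, j3, fun a k1 k2 => ?_⟩, fun a p' k => ?_⟩
  · obtain ⟨k1, k2, p, k3, k4, -, -, k5⟩ := j1 a p' k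
    exact ⟨k1, (h.dom a p k3).2.1, k4, k2, k5⟩
  · obtain ⟨a1, k3, k4, p, k5⟩ := h.dns a k1 k2
    obtain ⟨-, k6, k7, k8, k9⟩ := h.dom a1 p k5
    obtain ⟨w, -, -, ⟨c, i1, i2, i3⟩, p', i4, i5, i6, i7, i8⟩ := h.gen.use hc k3 k6 (y := (η, p, u))
      (h0.prod.2 ⟨hη, h0.prod.2 ⟨k8, hu⟩⟩) (hN p k8) k9 fun w i1 i2 => by
        by_cases hd : Dns (PP X η) (fun w => cd w ∈ u)
        · obtain ⟨p', i3, i4, i5⟩ := hd _ (amal_mem w k7 h1)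
          exact ⟨rs p' ξ, rs_mem _ _, rs_le_of_le (i4.trans (amal_le_left i1 p)) i1, p', i3,
            i4.trans (amal_le_right i2), fun _ => i5, le_rfl⟩
        · exact ⟨w, i1, le_rfl, p, k7, le_rfl, fun k => absurd k hd, i2⟩
    obtain ⟨a', i9, i10, i11⟩ := j4 c i1 p' ⟨i4, p, h.opn a1 p c i1 i2 k5, i5, i6, i7, i3.trans i8⟩
    exact ⟨a', i9, i10.trans (i2.trans k4), i11⟩
  · obtain ⟨-, -, p, k3, -, k4, k5, -⟩ := j1 a p' k
    exact ⟨p, k3, k4, k5⟩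

theorem ap_lim (h0 : Mod0 N) (hη : cd η ∈ N) (γ : ℕ → Ordinal.{0}) (hγ : Monotone γ)
    (h1 : ∀ n, γ n ≤ η) (h2 : ∀ p ∈ PP X η, cd p ∈ N → ∀ z ∈ supp p, ∃ n, z < γ n)
    (hN : ∀ n (p : X), cd p ∈ N → cd (rs p (γ n)) ∈ N)
    (hc : ∀ n, CapB (PP X (γ n)) (psi (γ n)) N) (hA : ∀ n, AP X (γ n) (γ (n + 1)) N) :
    AP X (γ 0) η N := ap_iff.2 fun q A h => by
  obtain ⟨u, hu, hu'⟩ := h0.enum
  obtain ⟨f, hf0, hf⟩ := rec_choice (σ := X × (X → X → Prop)) (fun n s => Hyp (γ n) η N s.1 s.2)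
    (fun n s s' => rs s'.1 (γ n) = s.1 ∧ (∀ b p', s'.2 b p' → ∃ p, s.2 (rs b (γ n)) p ∧ p' ≤ p ∧
        (Dns (PP X η) (fun w => cd w ∈ u n) → cd p' ∈ u n)) ∧
      ∀ c ∈ PP X (γ n), c ≤ s.1 → ∃ c' ∈ PP X (γ n), c' ≤ c ∧ ∃ p, s.2 c' p ∧
        amal (γ n) c' s'.1 ≤ rs p (γ (n + 1))) (q, A) h fun n s k => by
      obtain ⟨A', k1, k2⟩ := k.shrink h0 (h1 n) hη (hN n) (hc n) (hu n)
      obtain ⟨q', k3, k4, k5⟩ := k1.next (hA n) (hγ n.le_succ) (hN (n + 1))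
      refine ⟨(q', _), k4, k3, fun b p' j => k2 _ _ j.2.2, fun c j1 j2 => ?_⟩
      obtain ⟨c', j3, j4, p', j5⟩ := k1.dns c j1 j2
      obtain ⟨p, j6, j7, -⟩ := k2 c' p' j5
      exact ⟨c', j3, j4, p, j6, (k5 c' p' j5).trans (Itr.rs_mono _ j7)⟩
  obtain ⟨r, k1, k2⟩ := Itr.lim γ (fun n => (f n).1) hγ (fun n => (hf n).1.mem) fun n => (hf n).2.1
  have k3 : r ∈ PP X η := (Itr.rs_eq_iff r η).2 fun z hz =>
    let ⟨n, hn⟩ := k2 z hz; hn.trans_le (h1 n)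
  have chain : ∀ n m, n ≤ m → ∀ c p', (f m).2 c p' → ∃ p, (f n).2 (rs c (γ n)) p ∧ p' ≤ p := by
    intro n m hm
    induction hm with
    | refl => exact fun c p' k => ⟨p', (pp_eq ((hf n).1.dom c p' k).1).symm ▸ k, le_rfl⟩
    | @step m hm ih =>
      intro c p' k
      obtain ⟨p1, j1, j2, -⟩ := (hf m).2.2.1 c p' k
      obtain ⟨p, j3, j4⟩ := ih _ p1 j1
      exact ⟨p, rs_rs_le c (hγ hm) ▸ j3, j2.trans j4⟩
  have claim0 : ∀ n a p, (f n).2 a p → ∀ m, n ≤ m → amal (γ n) a (f m).1 ≤ rs p (γ m) := by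
    intro n a p k m hm
    obtain ⟨j1, j2, -, -, j3⟩ := (hf n).1.dom a p k
    induction hm with
    | refl => exact (amal_le_left j1 _).trans j3
    | @step m hm ih =>
      have e : rs (amal (γ n) a (f (m + 1)).1) (γ m) = amal (γ n) a (f m).1 := by
        rw [Itr.rs_amal_ge _ _ (hγ hm), (hf m).2.1]
      refine Itr.reg (γ m) _ _ (by rwa [e, rs_rs_le p (hγ m.le_succ)]) fun c i1 i2 => ?_
      rw [e] at i2
      have i3 : a ≤ rs (f m).1 (γ n) := by rwa [← k1 m, rs_rs_le r (hγ hm), k1 n]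
      obtain ⟨c', i4, i5, p1, i6, i7⟩ := (hf m).2.2.2 c i1 (i2.trans (amal_le_right i3))
      obtain ⟨p2, i8, i9⟩ := chain n m hm c' p1 i6
      obtain rfl := (hf n).1.fnl _ _ _ i8 ((hf n).1.opn a p _ (rs_mem _ _)
        (rs_le_of_le (i5.trans (i2.trans (amal_le_left j1 _))) j1) k)
      refine ⟨c', i4, i5, ?_⟩
      rw [Itr.amal_amal _ _ _ (hγ hm)]
      exact i7.trans (Itr.rs_mono _ i9)
  have claim1 : ∀ n a p, (f n).2 a p → amal (γ n) a r ≤ p := fun n a p k =>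
    Itr.le_of_supp _ _ fun z hz => by
      obtain ⟨-, -, j1, j2, -⟩ := (hf n).1.dom a p k
      obtain ⟨m, hm⟩ := h2 p j1 j2 z hz
      have j3 : z + 1 ≤ γ (max n m) := (Order.add_one_le_of_lt hm).trans (hγ (le_max_right n m))
      have j4 := Itr.rs_mono (z + 1) (claim0 n a p k _ (le_max_left n m))
      rwa [rs_rs_le p j3, ← k1, ← Itr.rs_amal_ge _ _ (hγ (le_max_left n m)), rs_rs_le _ j3] at j4
  refine ⟨r, k3, by rw [k1 0, hf0], fun v i1 i2 c i3 i4 => ?_, fun a p k =>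
    claim1 0 a p (by rwa [hf0])⟩
  obtain ⟨n, rfl⟩ := hu' v i1
  obtain ⟨b, j1, j2, p', j3⟩ := (hf (n + 1)).1.dns (rs c _) (rs_mem c _)
    (k1 (n + 1) ▸ Itr.rs_mono _ i4)
  obtain ⟨-, -, j4, j5, -⟩ := (hf (n + 1)).1.dom b p' j3
  obtain ⟨p, -, -, j6⟩ := (hf n).2.2.1 b p' j3
  exact ⟨p', j4, j6 i2, j5, amal _ b c, amal_mem b i3 (h1 _), amal_le_right j2,
    (amal_mono j1 j2 i4).trans (claim1 _ b p' j3)⟩

end

theorem ap : AStmt := by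
  intro X _ _ _
  filter_upwards [ev_mod0, ev_fun fun z : X × Ordinal.{0} => rs z.1 z.2,
    ev_fun fun z : Ordinal.{0} => z + 1, ev_el fun z z' : Ordinal.{0} => z = z' + 1,
    ev_set (supp : X → _) Itr.supp_ctble,
    ev_diag fun γ => ev_capB (PP X γ) (psi (X := X) γ)] with N h0 h1 h2 h3 h4 h5 η
  have h1' : ∀ z, cd z ∈ N → ∀ p : X, cd p ∈ N → cd (rs p z) ∈ N := fun z hz p hp =>
    h1 (p, z) (h0.prod.2 ⟨hp, hz⟩)
  induction η using WellFoundedLT.induction with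
  | _ η ih =>
    intro hη H ξ hξ hξN
    rcases hξ.eq_or_lt with rfl | hlt
    · exact ap_self
    by_cases hs : ∃ z, η = z + 1
    · obtain ⟨z, hz, rfl⟩ := h3 η hη hs
      have hz' := lt_add_one z
      have k := Order.lt_add_one_iff.1 hlt
      exact ap_trans (ih z hz' hz (fun ζ h => H ζ (h.trans hz')) ξ k hξN)
        (ap_succ h0.ctble (H z hz' hz).1 (H z hz' hz).2) k (h1' z hz)
    have hl : ∀ z < η, z + 1 < η := fun z hz =>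
      (Order.add_one_le_of_lt hz).lt_of_ne fun e => hs ⟨z, e.symm⟩
    obtain ⟨o, ho⟩ := ((h0.ctble' Ordinal.{0}).mono (s₁ := {z | z < η ∧ cd z ∈ N})
      fun _ h => h.2).exists_eq_range ⟨ξ, hlt, hξN⟩
    have ho' : ∀ n, o n < η ∧ cd (o n) ∈ N := fun n =>
      (ho ▸ ⟨n, rfl⟩ : o n ∈ {z | z < η ∧ cd z ∈ N})
    let γ : ℕ → Ordinal.{0} := fun n => Nat.rec ξ (fun n g => max g (o n + 1)) n
    have g1 : Monotone γ := monotone_nat_of_le_succ fun n => le_max_left _ _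
    have g2 : ∀ n, γ n < η ∧ cd (γ n) ∈ N := fun n => by
      induction n with
      | zero => exact ⟨hlt, hξN⟩
      | succ n k =>
        rcases max_choice (γ n) (o n + 1) with e | e <;> rw [show γ (n + 1) = _ from e]
        exacts [k, ⟨hl _ (ho' n).1, h2 _ (ho' n).2⟩]
    refine ap_lim h0 hη γ g1 (fun n => (g2 n).1.le) (fun p j1 j2 z j3 => ?_)
      (fun n => h1' _ (g2 n).2) (fun n => h5 _ (g2 n).2) fun n =>
        ih _ (g2 _).1 (g2 _).2 (fun ζ h => H ζ (h.trans (g2 _).1)) _ (g1 n.le_succ) (g2 n).2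
    obtain ⟨n, rfl⟩ : z ∈ range o := ho ▸ ⟨(Itr.rs_eq_iff p η).1 j1 z j3, h4 p j2 z j3⟩
    exact ⟨n + 1, (lt_add_one _).trans_le (le_max_right _ _)⟩

end Pool.Agent.Ctry.Ap

end MrgPart2

-- ======== part 3: formerly Pool.Agent.MP_77405c_lc.Cs
section MrgPart3

/-! The finite bounding lemma. -/

open Filter Set

namespace Pool.Agent.Ctry

namespace Cs

variable {X : Type 1} [Preorder X] [Itr X] [Cd X]

/-- an extension inside a dense set -/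
def psi1 (ξ : Ordinal.{0}) (y : Ordinal.{0} × U × X) (w p : X) : Prop :=
  w ≤ rs p ξ ∧ p ∈ PP X y.1 ∧ p ≤ y.2.2 ∧ (Dns (PP X y.1) (fun w => cd w ∈ y.2.1) → cd p ∈ y.2.1)

/-- a totally generic extension -/
def psi3 (y : Ordinal.{0} × Ordinal.{0} × U × X × X) (r : X) : Prop :=
  r ∈ PP X y.2.1 ∧ r ≤ y.2.2.2.2 ∧ y.2.2.2.1 ≤ rs r y.1 ∧ TG (PP X y.2.1) r y.2.2.1

/-- candidates -/
def psi2 (ξ : Ordinal.{0}) (y : Ordinal.{0} × U) (w : X) (_ : Unit) : Prop :=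
  Dec (PP X ξ) w y.2 ∧ (TG (PP X ξ) w y.2 → ∀ p ∈ PP X y.1, cd p ∈ y.2 → w ≤ rs p ξ →
    ∃ r, psi3 (ξ, y.1, y.2, w, p) r)

variable (X) in
/-- closure properties of a model -/
structure Gd (M : U) : Prop where
  m0 : Mod0 M
  rs : ∀ z : X × Ordinal.{0}, cd z ∈ M → cd (rs z.1 z.2) ∈ M
  c1 : ∀ ξ, cd ξ ∈ M → CapB (PP X ξ) (psi1 ξ) M
  c2 : ∀ ξ, cd ξ ∈ M → Cap (PP X ξ) (psi2 ξ) M
  el : El (psi3 (X := X)) M

theorem ev_gd : ∀ᶠ M in club, Gd X M := by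
  filter_upwards [ev_mod0, ev_fun fun z : X × Ordinal.{0} => rs z.1 z.2,
    ev_diag fun ξ => ev_capB (PP X ξ) (psi1 ξ), ev_diag fun ξ => ev_cap (PP X ξ) (psi2 ξ),
    ev_el (psi3 (X := X))] with M h0 h1 h2 h3 h4
  exact ⟨h0, h1, h2, h3, h4⟩

variable {N : U} {ξ η : Ordinal.{0}}

theorem dns2 (hN : (N : Set U).Countable) (hD : Dist (PP X ξ)) (hK : KL0 X ξ η N) :
    Dns (PP X ξ) fun w => ∃ z, psi2 ξ (η, N) w z := fun q hq => by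
  obtain ⟨w, k1, k2, k3⟩ := hD.dec hN q hq
  by_cases ht : TG (PP X ξ) w N
  swap
  · exact ⟨w, k1, k2, (), k3, fun h => absurd h ht⟩
  obtain ⟨w', j1, j2, j3⟩ := hD.set (s := {p | p ∈ PP X η ∧ cd p ∈ N})
    ((hN.preimage (Cd.inj (X := X))).mono fun _ h => h.2) k1
    (fun p v => ¬ Cmp (PP X ξ) v (rs p ξ) ∨ ∃ r, psi3 (ξ, η, N, v, p) r)
    (fun p _ v v' _ l1 l2 => l2.imp (fun l ⟨c, l3, l4, l5⟩ => l ⟨c, l3, l4.trans l1, l5⟩)
      fun ⟨r, l3, l4, l5, l6⟩ => ⟨r, l3, l4, l1.trans l5, l6⟩)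
    fun p hp v hv l1 => by
      by_cases hc : Cmp (PP X ξ) v (rs p ξ)
      · obtain ⟨c, l2, l3, l4⟩ := hc
        obtain ⟨r, l5, l6, l7, l8⟩ := hK c l2 p hp.1 hp.2 (ht.mono (l3.trans l1)) l4
        exact ⟨_, rs_mem r ξ, l7.trans l3, Or.inr ⟨r, l5, l6, le_rfl, l8⟩⟩
      · exact ⟨v, hv, le_rfl, Or.inl hc⟩
  exact ⟨w', j1, j2.trans k2, (), k3.mono j2, fun _ p l1 l2 l3 =>
    (j3 p ⟨l1, l2⟩).resolve_left fun l => l ⟨w', j1, le_rfl, l3⟩⟩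

theorem level (g : Gd X N) (hξ : ξ ≤ η) (h1 : cd ξ ∈ N) (h2 : cd η ∈ N) {b : U → Set X}
    (hb : Bd (PP X ξ) N b) {u : U} (hu : u ∈ N) {Δ : Set X} (hΔ : Δ.Finite)
    (h3 : ∀ p ∈ Δ, p ∈ PP X η ∧ cd p ∈ N) : ∃ Δ' : Set X,
      (Δ'.Finite ∧ ∀ p ∈ Δ', p ∈ PP X η ∧ cd p ∈ N) ∧
      (∀ p' ∈ Δ', (∃ p ∈ Δ, p' ≤ p) ∧ (Dns (PP X η) (fun w => cd w ∈ u) → cd p' ∈ u)) ∧
      ∀ q, FG (PP X ξ) q b N → ∀ a, a ≤ q → (∃ p ∈ Δ, Cmp (PP X ξ) a (rs p ξ)) →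
        ∃ p ∈ Δ', Cmp (PP X ξ) a (rs p ξ) := by
  have := Itr.ne (X := X)
  have key : ∀ p ∈ Δ, ∃ v ∈ N, Dns (PP X ξ) (fun w => cd w ∈ v) ∧ ∀ w ∈ PP X ξ, cd w ∈ v →
      cd w ∈ N → Cmp (PP X ξ) w (rs p ξ) → ∃ z, cd z ∈ N ∧ psi1 ξ (η, u, p) w z := fun p hp =>
    g.c1 ξ h1 (η, u, p) (rs p ξ) (by simpa only [g.m0.prod, cd_U] using ⟨h2, hu, (h3 p hp).2⟩)
      (g.rs (p, ξ) (g.m0.prod.2 ⟨(h3 p hp).2, h1⟩)) fun q hq k => by
        by_cases hd : Dns (PP X η) fun w => cd w ∈ u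
        · obtain ⟨w, i1, i2, i3⟩ := hd _ (amal_mem q (h3 p hp).1 hξ)
          exact ⟨_, rs_mem w ξ, rs_le_of_le (i2.trans (amal_le_left hq p)) hq, w, le_rfl, i1,
            i2.trans (amal_le_right k), fun _ => i3⟩
        · exact ⟨q, hq, le_rfl, p, k, (h3 p hp).1, le_rfl, fun h => absurd h hd⟩
  choose! v v1 v2 v3 using key
  choose! t t1 t2 using v3
  have mem : ∀ p ∈ Δ, ∀ w ∈ b (v p), Cmp (PP X ξ) w (rs p ξ) →
      cd (t p w) ∈ N ∧ psi1 ξ (η, u, p) w (t p w) := fun p hp w hw hc =>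
    let ⟨l1, l2, l3⟩ := (hb _).2 w hw
    ⟨t1 p hp w l1 l2 l3 hc, t2 p hp w l1 l2 l3 hc⟩
  refine ⟨⋃ p ∈ Δ, t p '' {w ∈ b (v p) | Cmp (PP X ξ) w (rs p ξ)},
    ⟨hΔ.biUnion fun p _ => ((hb _).1.subset fun _ k => k.1).image _, fun z hz => ?_⟩,
    fun z hz => ?_, fun q hq a ha ⟨p, hp, c, k1, k2, k3⟩ => ?_⟩
  · obtain ⟨p, hp, w, ⟨k1, k2⟩, rfl⟩ := mem_iUnion₂.1 hz
    exact ⟨(mem p hp w k1 k2).2.2.1, (mem p hp w k1 k2).1⟩
  · obtain ⟨p, hp, w, ⟨k1, k2⟩, rfl⟩ := mem_iUnion₂.1 hz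
    exact ⟨⟨p, hp, (mem p hp w k1 k2).2.2.2.1⟩, (mem p hp w k1 k2).2.2.2.2⟩
  · obtain ⟨w, k4, d, k5, k6, k7⟩ := hq _ (v1 p hp) (v2 p hp) c k1 (k2.trans ha)
    have k8 : Cmp (PP X ξ) w (rs p ξ) := ⟨d, k5, k7, k6.trans k3⟩
    exact ⟨t p w, mem_iUnion₂.2 ⟨p, hp, w, ⟨k4, k8⟩, rfl⟩, d, k5, k6.trans k2,
      k7.trans (mem p hp w k4 k8).2.1⟩

end Cs

open Cs in
theorem cs : CStmt := by
  intro X _ _ _
  refine ⟨Gd X, ev_gd, fun N K ξ η g g' hN hξ h1 h2 hD hK hA b hb Δ₀ hΔ₀ hΔ₀' => ?_⟩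
  have := Itr.ne (X := X)
  have s := g'.m0.sub' g.m0 hN
  obtain ⟨e, e1, e2⟩ := g.m0.enum
  choose! idx hidx using e2
  obtain ⟨Δ, rfl, hΔ⟩ := rec_choice (σ := Set X)
    (fun _ Δ => Δ.Finite ∧ ∀ p ∈ Δ, p ∈ PP X η ∧ cd p ∈ N) (fun n Δ Δ' =>
      (∀ p' ∈ Δ', (∃ p ∈ Δ, p' ≤ p) ∧ (Dns (PP X η) (fun w => cd w ∈ e n) → cd p' ∈ e n)) ∧
      ∀ q, FG (PP X ξ) q b N → ∀ a, a ≤ q → (∃ p ∈ Δ, Cmp (PP X ξ) a (rs p ξ)) →
        ∃ p ∈ Δ', Cmp (PP X ξ) a (rs p ξ)) Δ₀ ⟨hΔ₀, hΔ₀'⟩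
    fun n Δ h => level g hξ h1 h2 hb (e1 n) h.1 h.2
  have up : ∀ k l, k ≤ l → ∀ p ∈ Δ l, ∃ p' ∈ Δ k, p ≤ p' := fun k l h => by
    induction l, h using Nat.le_induction with
    | base => exact fun p hp => ⟨p, hp, le_rfl⟩
    | succ l _ ih =>
      intro p hp
      obtain ⟨p₁, k1, k2⟩ := ((hΔ l).2.1 p hp).1
      obtain ⟨p₂, k3, k4⟩ := ih p₁ k1
      exact ⟨p₂, k3, k2.trans k4⟩
  obtain ⟨c, hc⟩ := countable_iff_exists_subset_range.1 (g'.m0.ctble' X)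
  have hr : ∀ l p, (∃ r, cd r ∈ K ∧ psi3 (ξ, η, N, c l, p) r) →
      ∃ r, cd r ∈ K ∧ psi3 (ξ, η, N, c l, p) r := fun _ _ h => h
  choose! r r1 r2 using hr
  have hw : ∀ l p (u : U), (∃ w ∈ PP X η, cd w ∈ u ∧ cd w ∈ N ∧ r l p ≤ w) →
      ∃ w, (w ∈ PP X η ∧ cd w ∈ u ∧ cd w ∈ N) ∧ r l p ≤ w :=
    fun _ _ _ ⟨w, k1, k2, k3, k4⟩ => ⟨w, ⟨k1, k2, k3⟩, k4⟩
  choose! t t1 t2 using hw
  refine ⟨fun u => {w ∈ Δ (idx u + 1) ∪ ⋃ l ∈ Iic (idx u), (t l · u) '' Δ l |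
    w ∈ PP X η ∧ cd w ∈ u ∧ cd w ∈ N}, fun u => ⟨((hΔ _).1.1.union ((finite_Iic _).biUnion
      fun l _ => (hΔ l).1.1.image _)).subset fun _ k => k.1, fun _ k => k.2⟩,
    fun q hq h3 h4 h5 => ?_⟩
  have pre : ∀ l, ∀ a ∈ PP X ξ, a ≤ q → ∃ p ∈ Δ l, Cmp (PP X ξ) a (rs p ξ) := fun l a ha k => by
    induction l with
    | zero => exact h5 a ha k
    | succ l ih => exact (hΔ l).2.2 q h3 a k ih
  have gen : Gen (PP X ξ) q N := fun u k1 k2 a k3 k4 =>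
    let ⟨w, k5, k6⟩ := h3 u k1 k2 a k3 k4
    let ⟨l1, l2, l3⟩ := (hb u).2 w k5
    ⟨w, l1, l2, l3, k6⟩
  obtain ⟨A, a1, a2, a3, a4⟩ := exists_fnl (P := PP X ξ) (fun a p' => a ≤ q ∧ ∃ l, ∃ p ∈ Δ l,
      a ≤ c l ∧ (∃ r, cd r ∈ K ∧ psi3 (ξ, η, N, c l, p) r) ∧ p' = r l p)
    fun a p' a' _ k1 ⟨k2, l, p, k3, k4, k5⟩ => ⟨k1.trans k2, l, p, k3, k1.trans k4, k5⟩
  have dn : ∀ a ∈ PP X ξ, a ≤ q → ∃ a' ∈ PP X ξ, a' ≤ a ∧ ∃ p, A a' p := fun a ha k => by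
    obtain ⟨w, -, k2, ⟨d, k3, k4, k5⟩, _, -, k6, k7⟩ := h4.use0 (g'.c2 ξ (s h1)) (y := (η, N))
      (g'.m0.prod.2 ⟨s h2, hN⟩) (dns2 g.m0.ctble hD hK) ha k
    obtain ⟨l, rfl⟩ := hc k2
    obtain ⟨p, j1, d', j2, j3, j4⟩ := pre l d k3 (k4.trans k)
    obtain ⟨j5, j6⟩ := (hΔ l).1.2 p j1
    obtain ⟨a', j7, j8, j9⟩ := a4 d' j2 _ ⟨j3.trans (k4.trans k), l, p, j1, j3.trans k5,
      g'.el _ (by simpa only [g'.m0.prod, cd_U] using ⟨s h1, s h2, hN, k2, s j6⟩)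
        (k7 (Dec.tg k6 (fun _ h => h) gen ⟨d, k3, k5, k4.trans k⟩) p j5 j6
          (Dec.le k6 (rs_mem _ _) (g.rs (p, ξ) (g.m0.prod.2 ⟨j6, h1⟩))
            ⟨d', j2, j3.trans k5, j4⟩)), rfl⟩
    exact ⟨a', j7, j8.trans (j3.trans k4), j9⟩
  obtain ⟨q', k1, k2, k3, k4⟩ := hA q hq h4 A (fun a p' h => by
    obtain ⟨j1, j2, l, p, -, j3, j4, rfl⟩ := a1 a p' h
    exact ⟨j1, j2, (r2 l p j4).1, r1 l p j4, j3.trans (r2 l p j4).2.2.1⟩) a2 a3 dn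
  refine ⟨q', k1, k2, k3, fun u j1 j2 d j3 j4 => ?_, fun a ha k => ?_⟩
  · obtain ⟨a, i1, i2, p', i3⟩ := dn _ (rs_mem d ξ) (k2 ▸ Itr.rs_mono ξ j4)
    have i4 := (amal_mono i1 i2 j4).trans (k4 a p' i3)
    obtain ⟨-, -, l, p, i5, -, i6, rfl⟩ := a1 a p' i3
    rcases le_or_gt l (idx u) with h | h
    · have i7 := (r2 l p i6).2.2.2 u j1 j2
      exact ⟨t l p u, ⟨Or.inr (mem_iUnion₂.2 ⟨l, h, p, i5, rfl⟩), t1 l p u i7⟩, _,
        amal_mem a j3 hξ, amal_le_right i2, i4.trans (t2 l p u i7)⟩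
    · obtain ⟨p₁, i7, i8⟩ := up _ l h p i5
      have i9 := ((hΔ _).2.1 p₁ i7).2
      rw [hidx u j1] at i9
      exact ⟨p₁, ⟨Or.inl i7, ((hΔ _).1.2 p₁ i7).1, i9 j2, ((hΔ _).1.2 p₁ i7).2⟩, _,
        amal_mem a j3 hξ, amal_le_right i2, i4.trans ((r2 l p i6).2.1.trans i8)⟩
  · obtain ⟨a', i1, i2, p', i3⟩ := dn a ha k
    have i4 := k4 a' p' i3
    obtain ⟨-, -, l, p, i5, -, i6, rfl⟩ := a1 a' p' i3
    obtain ⟨p₁, i7, i8⟩ := up 0 l l.zero_le p i5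
    exact ⟨a', i1, i2, p₁, i7, i4.trans ((r2 l p i6).2.1.trans i8)⟩

end Pool.Agent.Ctry

end MrgPart3

-- ======== part 4: formerly Pool.Agent.MP_77405c_lc.Bridge
section MrgPart4

/-! From the schema to the single step hypothesis; the continuum hypothesis. -/

open Filter Set

namespace Pool.Agent.Ctry.Bridge

section

variable {X C : Type 1} [Preorder X] [Itr X] [Cd X] [Preorder C] (g : Gnr X C) {ζ : Ordinal.{0}}

theorem exists_inv (ζ : Ordinal.{0}) : ∃ iv : X → g.St ζ, ∀ a, g.ι (iv a) = rs a ζ := by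
  choose iv h using fun a : X => g.ι_range.1 (rs_mem a ζ)
  exact ⟨iv, h⟩

theorem tg_st {a : g.St ζ} {M : U} (h : TG (PP X ζ) (g.ι a) M) : TG univ a M := fun u h1 h2 => by
  obtain ⟨w, k1, k2, k3, k4⟩ := h u h1 fun q hq => by
    obtain ⟨q, rfl⟩ := g.ι_range.1 hq
    obtain ⟨w, -, k1, k2⟩ := h2 q trivial
    exact ⟨g.ι w, g.ι_mem w, g.ι_le.2 k1, by rwa [← g.ι_cd w] at k2⟩
  obtain ⟨w, rfl⟩ := g.ι_range.1 k1
  exact ⟨w, trivial, g.ι_cd w ▸ k2, g.ι_cd w ▸ k3, g.ι_le.1 k4⟩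

theorem lb_st {a a' : g.St ζ} {M : U} (h : LB (PP X ζ) M (g.ι a) (g.ι a')) : LB univ M a a' :=
  fun p _ h1 h2 => g.ι_le.1 (h _ (g.ι_mem p) ((g.ι_cd p).symm ▸ h1) (g.ι_le.2 h2))

end

theorem bridge : BridgeStmt := by
  intro X C _ _ _ _ _ g H ζ hD
  obtain ⟨Q, hQ, H⟩ := H ζ (g.dist_iff.2 hD)
  obtain ⟨iv, hiv⟩ := exists_inv g ζ
  have hiv' : ∀ a ∈ PP X ζ, g.ι (iv a) = a := fun a h => (hiv a).trans h
  have hF : ∀ u : U, ∃ u' : U, ∀ z : g.St ζ × C, cd z ∈ u' ↔ g.Val z.1 z.2 ∧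
      ∃ w, w ∈ PP X (ζ + 1) ∧ cd w ∈ u ∧ g.cond z.1 z.2 ≤ w := fun u => by
    have := g.small_val ζ
    have : Small.{0} {z : g.St ζ × C | g.Val z.1 z.2 ∧
        ∃ w, w ∈ PP X (ζ + 1) ∧ cd w ∈ u ∧ g.cond z.1 z.2 ≤ w} :=
      small_subset (s := {z : g.St ζ × C | g.Val z.1 z.2}) fun _ h => h.1
    exact (exists_code {z : g.St ζ × C | g.Val z.1 z.2 ∧
      ∃ w, w ∈ PP X (ζ + 1) ∧ cd w ∈ u ∧ g.cond z.1 z.2 ≤ w}).imp fun _ h => h.1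
  choose F hF using hF
  let ψ : X → X → C → Prop := fun p w c =>
    ∃ h : g.St ζ, g.ι h = w ∧ g.Val h c ∧ g.cond h c ≤ rs p (ζ + 1)
  let φ : (g.St ζ × C) × U → X → Prop := fun z w =>
    w ∈ PP X (ζ + 1) ∧ cd w ∈ z.2 ∧ g.cond z.1.1 z.1.2 ≤ w
  refine ⟨fun N => Q N ∧ Mod0 N ∧ CapB (PP X ζ) ψ N ∧ (∀ p : X, cd p ∈ N → cd (rs p ζ) ∈ N) ∧
    (∀ u : U, cd u ∈ N → cd (F u) ∈ N) ∧ El φ N, hQ.and (ev_mod0.and ((ev_capB _ _).and
      ((ev_fun _).and ((ev_fun _).and (ev_el _))))),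
    fun S β B N N' A p h1 h2 h3 h4 h5 h6 h7 h8 h9 h10 => ?_⟩
  obtain ⟨a₀, ha₀⟩ := List.exists_mem_of_ne_nil A h7
  obtain ⟨-, -, j1, j2, -⟩ := h4 N h3.mem
  obtain ⟨i1, -, i2, i3, -⟩ := h8 a₀ ha₀
  obtain ⟨_, -, k1, k2, c₀, k3, h₀, rfl, k4, k5⟩ := (i2 N h3.mem).use j1 i1 h10 (j2 p h10) i3
    fun q hq k => by
      obtain ⟨q, rfl⟩ := g.ι_range.1 hq
      obtain ⟨a, k1, c, k2, k3⟩ := g.exists_cond q p k
      exact ⟨g.ι a, g.ι_mem a, g.ι_le.2 k1, c, a, rfl, k2, k3⟩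
  have k6 : ∀ a ∈ A, iv a ≤ h₀ := fun a ha => g.ι_le.1 ((hiv' a (h8 a ha).1).symm ▸
    (h8 a ha).2.2.2.2 a₀ ha₀ _ (g.ι_mem h₀) k1 k2)
  obtain ⟨B', l1, l2, c, l3, l4, l5⟩ := H S β B N N' (A.map iv) h₀ c₀ h1 h2 h3
    (fun M hM => (h4 M hM).1) h5.1 h6 (by simpa using h7) (List.forall_mem_map.2 fun a ha => by
      obtain ⟨m1, m2, m3, -, m4⟩ := h8 a ha
      refine ⟨tg_st g ((hiv' a m1).symm ▸ m2), fun M hM => tg_st g ((hiv' a m1).symm ▸ m3 M hM),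
        k6 a ha, List.forall_mem_map.2 fun a' ha' => lb_st g ?_⟩
      rw [hiv' a m1, hiv' a' (h8 a' ha').1]
      exact m4 a' ha') (g.ι_cd h₀ ▸ k1) k3 k4
  have l6 : ∀ a ∈ A, g.Val (iv a) c := List.forall_mem_map.1 l4
  refine ⟨B', l1, l2, fun a => g.cond (iv a) c, fun a ha => ⟨g.cond_mem (l6 a ha),
    (g.rs_cond (l6 a ha)).trans (hiv' a (h8 a ha).1),
    (g.cond_mono (l6 a ha) k4 (k6 a ha) l3).trans (pp_eq h9 ▸ k5)⟩, fun M hM u hu hd => ?_⟩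
  obtain ⟨-, m1, -, -, m2, m3⟩ := h4 M (l1 hM)
  obtain ⟨h, c', n1, n2, n3, n4, n5⟩ := l5 M hM (F u) (m2 u hu) fun p₁ c₁ v => by
    obtain ⟨w, n1, n2, n3⟩ := hd _ (g.cond_mem v)
    obtain ⟨a, n4, c', n5, -, n6, n7⟩ := g.dir (iv w) w v v n2 n2 (hiv w).le
    refine ⟨a, n4.trans (g.ι_le.1 ?_), c', n5, n6, (hF u (a, c')).2 ⟨n6, w, n1, n3, pp_eq n1 ▸ n7⟩⟩
    rw [hiv w, ← g.rs_cond v]
    exact Itr.rs_mono ζ n2
  obtain ⟨n6, n7⟩ := (hF u (h, c')).1 n1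
  obtain ⟨w, o1, o2, o3, o4⟩ := m3 ((h, c'), u) (m1.prod.2 ⟨m1.prod.2 ⟨n2, n3⟩, hu⟩) n7
  exact ⟨w, o2, o3, o1, fun a ha =>
    (g.cond_mono (l6 a ha) n6 (n5 _ (List.mem_map_of_mem ha)) n4).trans o4⟩

theorem exists_node {a : Om} (ha : ⊥ < a) : ∃ x : ℕ → TT, ∀ n, ht (x n) = a ∧ (x n).rho.f ⊥ = n := by
  obtain ⟨t, e⟩ := T.exists_ht a
  exact ⟨fun n => ⟨t, ⟨a, fun x => if x < a then n else 0, fun _ h => if_neg h.not_gt⟩, e.symm⟩,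
    fun n => ⟨e, if_pos ha⟩⟩

theorem ch (h : ExtStmt) : CHStmt := by
  intro X _ _ _ g hD ⟨_, _, ζ, D, hA, hV, hT⟩
  obtain ⟨iv, hiv⟩ := exists_inv g ζ
  refine ⟨fun a s r => ∃ (b : g.St ζ) (c : Pc), g.Val b c ∧ r ≤ g.cond b c ∧ a ≤ c.α ∧
    ∀ n : ℕ, s n ↔ ∃ x ∈ c.u, ht x = a ∧ x.rho.f ⊥ = n,
    fun a s p q k ⟨b, c, k1, k2, k3⟩ => ⟨b, c, k1, k.trans k2, k3⟩,
    fun a s s' p ⟨b, c, k1, k2, k3, k4⟩ ⟨b', c', j1, j2, j3, j4⟩ => ?_, fun s p => ?_⟩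
  · obtain ⟨-, -, d, i1, i2, -⟩ := g.dir (iv p) p k1 j1 k2 j2 (hiv p).le
    refine funext fun n => propext ((k4 n).trans (Iff.trans ?_ (j4 n).symm))
    exact ⟨fun ⟨x, h1, h2⟩ => ⟨x, i2.2.2.1 x (i1.2.1 h1) (h2.1.trans_le j3), h2⟩,
      fun ⟨x, h1, h2⟩ => ⟨x, i1.2.2.1 x (i2.2.1 h1) (h2.1.trans_le k3), h2⟩⟩
  · obtain ⟨b, -, c, k1, k2⟩ := g.exists_cond (iv p) p (hiv p).le
    obtain ⟨a, ha⟩ := exists_gt c.α
    obtain ⟨γ, hγ⟩ := exists_gt a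
    obtain ⟨b', k3, c', k4, k5, k6, k7, -, k8, k9⟩ := h (g.St ζ) (g.dist_iff.2 (hD ζ)) D hA b c γ
      ((hV b c).1 k1) (ha.trans hγ)
    obtain ⟨x, hx⟩ := exists_node (bot_le.trans_lt ha)
    let c'' : Pc := ⟨c'.α, {y | y ∈ c'.u ∧ ht y ≠ a} ∪ x '' {n | s n}, c'.G⟩
    have j1 : g.Val b' c'' := (hV b' c'').2 ⟨(k6.mono fun _ h => h.1).union
      ((to_countable _).image x), fun y hy => hy.elim (fun k => k7 y k.1) fun ⟨n, _, e⟩ =>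
        e ▸ (hx n).1.trans_le (hγ.le.trans k5.ge),
      fun _ _ _ _ _ _ _ _ _ _ _ => ⟨true, hT _ _ _, hT _ _ _⟩, k8, fun G hG =>
        ⟨(k9 G hG).1, (k9 G hG).2.1, fun F hF => by
          obtain ⟨τ, i1, i2, i3, i4⟩ := (k9 G hG).2.2 F hF
          exact ⟨τ, i1, i2, i3, fun y hy => ⟨Or.inl ⟨(i4 y hy).1,
            ((τ.ht_mem hy).trans (i1.trans k5)).symm ▸ hγ.ne'⟩, (i4 y hy).2⟩⟩⟩⟩
    have j2 : c'' ≤ c := ⟨k4.1, fun y hy => Or.inl ⟨k4.2.1 hy,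
      ((((hV b c).1 k1).2.1 y hy).trans_lt ha).ne⟩, fun y hy e => hy.elim
        (fun k => k4.2.2.1 y k.1 e) fun ⟨n, _, e'⟩ => absurd ((hx n).1.ge.trans (e' ▸ e)) ha.not_ge,
      k4.2.2.2⟩
    refine ⟨amal (ζ + 1) (g.cond b' c'') p, amal_le_right ((g.cond_mono j1 k1 k3 j2).trans k2), a,
      b', c'', j1, amal_le_left (g.cond_mem j1) p, hγ.le.trans k5.ge, fun n =>
        ⟨fun k => ⟨x n, Or.inr ⟨n, k, rfl⟩, hx n⟩, fun ⟨y, i1, i2, i3⟩ => ?_⟩⟩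
    obtain ⟨m, i4, rfl⟩ := i1.resolve_left fun k => k.2 i2
    rwa [← Nat.cast_injective ((hx m).2.symm.trans i3)]

end Pool.Agent.Ctry.Bridge

end MrgPart4

-- ======== part 5: formerly Pool.Agent.MP_77405c_lc.Line
section MrgPart5

/-! The tree of cuts of a line, and the selection of a Countryman suborder. -/

open Set

namespace Pool.Agent.Ctry.Line

variable {X : Type 1} [Preorder X] {lt : Om → Om → X → Prop} {p q r : X}

theorem lin_rev (h : Lin lt p) : Lin (fun a b => lt b a) p :=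
  ⟨fun a b r r' k k' => h.opn b a r r' k k', h.irr, fun q hq a b c k k' => h.trans q hq c b a k' k,
    fun q hq a b k => let ⟨q', k1, k2⟩ := h.total q hq a b k; ⟨q', k1, k2.symm⟩⟩

theorem lin_asymm (h : Lin lt p) (hq : q ≤ p) {a b : Om} (k : lt a b q) (k' : lt b a q) : False :=
  h.irr q hq a (h.trans q hq a b a k k')

/-- the order is decided on a countable initial segment -/
theorem exists_dec (hD : Dist (univ : Set X)) (h : Lin lt p) (hq : q ≤ p) (g : Om) :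
    ∃ q' ≤ q, ∀ a ≤ g, ∀ b ≤ g, a ≠ b → lt a b q' ∨ lt b a q' := by
  obtain ⟨q', -, k1, k2⟩ := hD.set ((ctble_Iic g).prod (ctble_Iic g)) (mem_univ q)
    (fun z r => z.1 ≠ z.2 → lt z.1 z.2 r ∨ lt z.2 z.1 r)
    (fun z _ r r' _ k k' k'' => (k' k'').imp (h.opn _ _ _ _ k) (h.opn _ _ _ _ k))
    fun z _ r _ k => by
      by_cases e : z.1 = z.2
      · exact ⟨r, trivial, le_rfl, fun k' => absurd e k'⟩
      · obtain ⟨r', k1, k2⟩ := h.total r (k.trans hq) _ _ e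
        exact ⟨r', trivial, k1, fun _ => k2⟩
  exact ⟨q', k1, fun a ha b hb => k2 (a, b) ⟨ha, hb⟩⟩

/-- `x` is the cut that `ν` makes in the initial segment of length `ht x` -/
def Cut (lt : Om → Om → X → Prop) (x : Seq) (ν : Om) (q : X) : Prop :=
  ∀ μ < ht x, (x.f μ = 1 ∧ lt μ ν q) ∨ (x.f μ = 0 ∧ lt ν μ q)

/-- the tree of cuts -/
def TC (lt : Om → Om → X → Prop) (x : Seq) (q : X) : Prop := ∃ ν, ht x ≤ ν ∧ Cut lt x ν q

theorem Cut.mono (h : Lin lt p) {x : Seq} {ν : Om} (k : Cut lt x ν q) (k' : r ≤ q) :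
    Cut lt x ν r := fun μ hμ =>
  (k μ hμ).imp (And.imp_right (h.opn _ _ _ _ k')) (And.imp_right (h.opn _ _ _ _ k'))

theorem tc_opn (h : Lin lt p) : Opn (TC lt) := fun _ _ _ k ⟨ν, k1, k2⟩ => ⟨ν, k1, k2.mono h k⟩

omit [Preorder X] in
theorem tc_dc : Dc (TC lt) := fun y q g ⟨ν, k1, k2⟩ =>
  ⟨ν, (ht_res y g).trans_le ((min_le_left _ _).trans k1), fun μ hμ => by
    have h := lt_min_iff.1 (ht_res y g ▸ hμ)
    rw [res_f _ h.2]
    exact k2 μ h.1⟩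

open Classical in
/-- the indicator sequence of a set, of length `g` -/
noncomputable def ind (g : Om) (S : Om → Prop) : Seq :=
  ⟨g, fun μ => if μ < g ∧ S μ then 1 else 0, fun _ h => if_neg fun k => k.1.not_ge h⟩

theorem ht_ind (g : Om) (S : Om → Prop) : ht (ind g S) = g := rfl

theorem ind_pos {g μ : Om} {S : Om → Prop} (h : μ < g) (h' : S μ) : (ind g S).f μ = 1 :=
  if_pos ⟨h, h'⟩

theorem ind_neg {g μ : Om} {S : Om → Prop} (h' : ¬ S μ) : (ind g S).f μ = 0 :=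
  if_neg fun k => h' k.2

theorem eq_ind {g : Om} {S : Om → Prop} {y : Seq} (h : ht y = g)
    (h' : ∀ μ < g, (y.f μ = 1 ∧ S μ) ∨ (y.f μ = 0 ∧ ¬ S μ)) : y = ind g S :=
  seq_ext h fun μ hμ => by
    rcases h' μ (h ▸ hμ) with k | k
    · rw [k.1, ind_pos (h ▸ hμ) k.2]
    · rw [k.1, ind_neg k.2]

theorem tc_unb (hD : Dist (univ : Set X)) (h : Lin lt p) : Unb p (TC lt) := fun q hq g => by
  obtain ⟨q', k1, k2⟩ := exists_dec hD h hq g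
  refine ⟨q', k1, ind g fun μ => lt μ g q', rfl, g, le_rfl, fun μ hμ => ?_⟩
  by_cases e : lt μ g q'
  · exact Or.inl ⟨ind_pos hμ e, e⟩
  · exact Or.inr ⟨ind_neg e, (k2 μ (le_of_lt hμ) g le_rfl (ne_of_lt hμ)).resolve_left e⟩

/-- along a coherent family, the positions with value `i` have a bounded cofinal part -/
theorem no_rec (hD : Dist (univ : Set X)) (h : Lin lt p) (hI : NoInc lt p) (hq : q ≤ p)
    {B : Seq → X → Prop} (hB : Opn B)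
    (hc : ∀ r ≤ q, ∀ x y a, B x r → B y r → a < ht x → a < ht y → x.f a = y.f a) (i : ℤ) :
    ∃ q' ≤ q, ∃ g₀, ∀ g, g₀ ≤ g → ∀ r ≤ q', ∀ y ν, B y r → g ≤ ν → ν < ht y → y.f ν = i →
      (∀ μ < g, y.f μ = i → lt μ ν r) → False := by
  have h1 : ¬ UnbO q fun a r => ∃ y, B y r ∧ a < ht y ∧ y.f a = i ∧
      ∀ μ < a, y.f μ = i → lt μ a r := fun k => hI q hq _
    (fun a r r' k ⟨y, k1, k2, k3, k4⟩ =>
      ⟨y, hB y r r' k k1, k2, k3, fun μ k5 k6 => h.opn _ _ _ _ k (k4 μ k5 k6)⟩) k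
    fun r hr a b hab ⟨y, k1, k2, k3, _⟩ ⟨y', k4, k5, _, k6⟩ =>
      k6 a hab ((hc r hr y' y a k4 k1 (hab.trans k5) k2).trans k3)
  unfold UnbO at h1
  push Not at h1
  obtain ⟨q', k1, g₀, k2⟩ := h1
  refine ⟨q', k1, g₀, fun g hg r hr y ν k3 k4 k5 k6 k7 => ?_⟩
  have hr' : r ≤ p := hr.trans (k1.trans hq)
  obtain ⟨r', k8, k9⟩ := exists_dec hD h hr' ν
  obtain ⟨a, ⟨a1, a2, a3, a4⟩, a5⟩ := wellFounded_lt.has_min
    {a | g ≤ a ∧ a ≤ ν ∧ y.f a = i ∧ ∀ μ < g, y.f μ = i → lt μ a r'}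
    ⟨ν, k4, le_rfl, k6, fun μ k k' => h.opn _ _ _ _ k8 (k7 μ k k')⟩
  obtain ⟨μ, m1, m2, m3⟩ := k2 r' (k8.trans hr) a (hg.trans a1) y (hB y r r' k8 k3)
    (a2.trans_lt k5) a3
  rcases lt_or_ge μ g with e | e
  · exact m3 (a4 μ e m2)
  refine a5 μ ⟨e, m1.le.trans a2, m2, fun μ' k k' => ?_⟩ m1
  exact (k9 μ' (k.le.trans k4) μ (m1.le.trans a2) (k.trans_le e).ne).resolve_right
    fun k'' => m3 (h.trans r' (k8.trans hr') _ _ _ k'' (a4 μ' k k'))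

theorem tc_nobr (hD : Dist (univ : Set X)) (h : Lin lt p) (hI : NoInc lt p)
    (hI' : NoInc (fun a b => lt b a) p) : NoBr p (TC lt) := fun q hq B h1 h2 h3 h4 h5 => by
  have hc : ∀ r ≤ q, ∀ x y a, B x r → B y r → a < ht x → a < ht y → x.f a = y.f a :=
    fun r hr x y a k1 k2 k3 k4 => by
      have e := h5 r hr _ _ (h2 x r (Order.succ a) k1) (h2 y r (Order.succ a) k2)
        (by rw [ht_res_of_le (Order.succ_le_of_lt k3), ht_res_of_le (Order.succ_le_of_lt k4)])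
      rw [← res_f x (Order.lt_succ a), e, res_f y (Order.lt_succ a)]
  obtain ⟨q1, k1, g1, k2⟩ := no_rec hD h hI hq h1 hc 1
  obtain ⟨q2, k3, g2, k4⟩ := no_rec hD (lin_rev h) hI' (k1.trans hq) h1
    (fun r hr => hc r (hr.trans k1)) 0
  obtain ⟨r, r1, y, y1, y2⟩ := h3 q2 (k3.trans k1) (max g1 g2)
  obtain ⟨ν, n1, n2⟩ := h4 r (r1.trans (k3.trans k1)) y y2
  obtain ⟨r', r2, y', y3, y4⟩ := h3 r (r1.trans (k3.trans k1)) (Order.succ ν)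
  have hr' : r' ≤ q := r2.trans (r1.trans (k3.trans k1))
  obtain ⟨ν', -, n4⟩ := h4 r' hr' y' y4
  have e1 : ν < ht y' := y3 ▸ Order.lt_succ ν
  have e2 : ∀ μ < max g1 g2, (y'.f μ = 1 ∧ lt μ ν r') ∨ (y'.f μ = 0 ∧ lt ν μ r') := fun μ hμ => by
    rw [hc r' hr' y' y μ y4 (h1 y r r' r2 y2) ((hμ.trans_le (y1 ▸ n1)).trans e1) (y1 ▸ hμ)]
    exact n2.mono h r2 μ (y1 ▸ hμ)
  rcases n4 ν e1 with e | e
  · exact k2 _ (le_max_left _ _) r' (r2.trans (r1.trans k3)) y' ν y4 (y1 ▸ n1) e1 e.1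
      fun μ k k' => (e2 μ k).elim And.right fun k'' => absurd (k'.symm.trans k''.1) one_ne_zero
  · exact k4 _ (le_max_right _ _) r' (r2.trans r1) y' ν y4 (y1 ▸ n1) e1 e.1
      fun μ k k' => (e2 μ k).elim (fun k'' => absurd (k''.1.symm.trans k') one_ne_zero) And.right

/-- `ν` is the least realizer of a proper gap in the initial segment of length `g` -/
structure Good (lt : Om → Om → X → Prop) (g ν : Om) (r : X) : Prop where
  sep : ∀ ν' < ν, g ≤ ν' → ∃ μ < g, (lt ν' μ r ∧ lt μ ν r) ∨ (lt ν μ r ∧ lt μ ν' r)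
  left : ∃ μ < g, lt μ ν r
  right : ∃ μ < g, lt ν μ r
  dense : ∀ a < g, ∀ b < g, lt ν a r ∨ lt b ν r ∨ ∃ d < g, lt a d r ∧ lt d b r

theorem Good.mono (h : Lin lt p) {g ν : Om} (k : Good lt g ν q) (k' : r ≤ q) : Good lt g ν r :=
  have o : ∀ {a b}, lt a b q → lt a b r := fun {a b} => h.opn a b q r k'
  ⟨fun ν' k1 k2 => let ⟨μ, k3, k4⟩ := k.sep ν' k1 k2; ⟨μ, k3, k4.imp (And.imp o o) (And.imp o o)⟩,
    k.left.imp fun _ => And.imp_right o, k.right.imp fun _ => And.imp_right o,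
    fun a ha b hb => (k.dense a ha b hb).imp o (Or.imp o
      (Exists.imp fun _ => And.imp_right (And.imp o o)))⟩

theorem Good.between (h : Lin lt p) (hr : r ≤ p) {g a b : Om} (ka : Good lt g a r)
    (kb : Good lt g b r) (ha : g ≤ a) (hb : g ≤ b) (k : lt a b r) :
    ∃ d < g, lt a d r ∧ lt d b r := by
  rcases lt_trichotomy a b with e | rfl | e
  · obtain ⟨μ, k1, k2⟩ := kb.sep a e ha
    exact ⟨μ, k1, k2.resolve_right fun k3 => lin_asymm h hr k (h.trans r hr _ _ _ k3.1 k3.2)⟩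
  · exact absurd k (h.irr r hr a)
  · obtain ⟨μ, k1, k2⟩ := ka.sep b e hb
    exact ⟨μ, k1, k2.resolve_left fun k3 => lin_asymm h hr k (h.trans r hr _ _ _ k3.1 k3.2)⟩

/-- uncountably many cuts give unboundedly many good points -/
theorem unb_good (hD : Dist (univ : Set X)) (h : Lin lt p) (hq : q ≤ p) {g : Om}
    (hn : ∀ q' ≤ q, ∀ W : Set Seq, W.Countable → ∃ r ≤ q', ∃ y, TC lt y r ∧ ht y = g ∧ y ∉ W) :
    UnbO q (Good lt g) := fun q' hq' g' => by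
  obtain ⟨q1, k1, k2⟩ := exists_dec hD h (hq'.trans hq) (max g g')
  obtain ⟨r, r1, y, ⟨ν₀, n1, n2⟩, rfl, y2⟩ := hn q1 (k1.trans hq') _
    ((((ctble_Iic (max g g')).image fun ν => ind g fun μ => lt μ ν q1).union
      ((ctble_Iio g).image fun a => ind g fun μ => μ = a ∨ lt μ a q1)).union
      ((Set.finite_singleton (ind g fun _ => True)).insert (ind g fun _ => False)).countable)
  simp only [mem_union, mem_image, mem_Iic, mem_Iio, mem_insert_iff, mem_singleton_iff, not_or,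
    not_exists, not_and] at y2
  obtain ⟨⟨y2, y3⟩, y4, y5⟩ := y2
  obtain ⟨r', r2, r3⟩ := exists_dec hD h (r1.trans (k1.trans (hq'.trans hq))) ν₀
  have hr' : r' ≤ p := r2.trans (r1.trans (k1.trans (hq'.trans hq)))
  have o : ∀ {a b}, lt a b q1 → lt a b r' := fun {a b} => h.opn a b q1 r' (r2.trans r1)
  obtain ⟨ν, ⟨m1, m2⟩, m3⟩ := wellFounded_lt.has_min {ν | ht y ≤ ν ∧ Cut lt y ν r'}
    ⟨ν₀, n1, n2.mono h r2⟩
  have m4 : ν ≤ ν₀ := not_lt.1 (m3 ν₀ ⟨n1, n2.mono h r2⟩)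
  refine ⟨r', r2.trans (r1.trans k1), ν, le_of_not_gt fun k => ?_, fun ν' e1 e2 => ?_, ?_, ?_,
    fun a ha b hb => ?_⟩
  · refine y2 ν (k.le.trans (le_max_right _ _)) (eq_ind rfl fun μ hμ => ?_).symm
    refine (m2 μ hμ).imp (And.imp_right fun e => ?_) (And.imp_right fun e e' => ?_)
    · exact (k2 μ (hμ.le.trans (le_max_left _ _)) ν (k.le.trans (le_max_right _ _))
        (hμ.trans_le m1).ne).resolve_right fun e' => lin_asymm h hr' e (o e')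
    · exact lin_asymm h hr' e (o e')
  · have e3 : ¬ Cut lt y ν' r' := fun k => m3 ν' ⟨e2, k⟩ e1
    unfold Cut at e3
    push Not at e3
    obtain ⟨μ, e4, e5, e6⟩ := e3
    have e7 := r3 μ (e4.le.trans n1) ν' (e1.le.trans m4) (e4.trans_le e2).ne
    exact ⟨μ, e4, (m2 μ e4).imp (fun k => ⟨e7.resolve_left (e5 k.1), k.2⟩)
      fun k => ⟨k.2, e7.resolve_right (e6 k.1)⟩⟩
  · by_contra hc
    exact y4 (eq_ind rfl fun μ hμ => Or.inr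
      ⟨((m2 μ hμ).resolve_left fun k => hc ⟨μ, hμ, k.2⟩).1, not_false⟩)
  · by_contra hc
    exact y5 (eq_ind rfl fun μ hμ => Or.inl
      ⟨((m2 μ hμ).resolve_right fun k => hc ⟨μ, hμ, k.2⟩).1, trivial⟩)
  · by_contra hc
    simp only [not_or] at hc
    obtain ⟨c1, c2, c3⟩ := hc
    have c4 : lt a ν r' := ((m2 a ha).resolve_right fun k => c1 k.2).2
    have c5 : lt ν b r' := ((m2 b hb).resolve_left fun k => c2 k.2).2
    refine y3 a ha (eq_ind rfl fun μ hμ => ?_).symm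
    refine (m2 μ hμ).imp (And.imp_right fun e => ?_) (And.imp_right fun e e' => ?_)
    · refine or_iff_not_imp_left.2 fun e' => ?_
      exact (k2 μ (hμ.le.trans (le_max_left _ _)) a (ha.le.trans (le_max_left _ _))
        e').resolve_right fun e'' => c3 ⟨μ, hμ, o e'', h.trans r' hr' _ _ _ e c5⟩
    · rcases e' with rfl | e'
      · exact c1 e
      · exact c1 (h.trans r' hr' _ _ _ e (o e'))

theorem tc_cl (hD : Dist (univ : Set X)) (h : Lin lt p) (hS : NoSep lt p) : CL p (TC lt) := by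
  intro q hq g
  by_contra hn
  push Not at hn
  have gd : ∀ {x r}, ¬ x < g → x < g ∨ Good lt g x r → Good lt g x r := fun k k' =>
    k'.resolve_left k
  refine hS q hq (fun ν r => ν < g ∨ Good lt g ν r) (Iio g) (ctble_Iio g)
    (fun ν r r' k k' => k'.imp_right fun k'' => k''.mono h k)
    (fun q' hq' g' => let ⟨r, k1, a, k2, k3⟩ := unb_good hD h hq hn q' hq' g'
      ⟨r, k1, a, k2, Or.inr k3⟩) (fun d hd => Or.inl hd)
    (fun r hr a x b ha hx hb k1 k2 => ⟨r, le_rfl, ?_⟩)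
    (fun r hr x b hx _ k => ⟨r, le_rfl, ?_⟩) fun r hr a x _ hx k => ⟨r, le_rfl, ?_⟩
  · have hr' := hr.trans hq
    by_cases e : x < g
    · exact ⟨x, e, k1, k2⟩
    by_cases ea : a < g
    · by_cases eb : b < g
      · rcases (gd e hx).dense a ea b eb with k | k | k
        · exact (lin_asymm h hr' k k1).elim
        · exact (lin_asymm h hr' k k2).elim
        · exact k
      · obtain ⟨d, k3, k4, k5⟩ := (gd e hx).between h hr' (gd eb hb) (not_lt.1 e) (not_lt.1 eb) k2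
        exact ⟨d, k3, h.trans r hr' _ _ _ k1 k4, k5⟩
    · obtain ⟨d, k3, k4, k5⟩ := (gd ea ha).between h hr' (gd e hx) (not_lt.1 ea) (not_lt.1 e) k1
      exact ⟨d, k3, k4, h.trans r hr' _ _ _ k5 k2⟩
  · by_cases e : x < g
    · exact ⟨x, e, k⟩
    · obtain ⟨d, k1, k2⟩ := (gd e hx).left
      exact ⟨d, k1, h.trans r (hr.trans hq) _ _ _ k2 k⟩
  · by_cases e : x < g
    · exact ⟨x, e, k⟩
    · obtain ⟨d, k1, k2⟩ := (gd e hx).right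
      exact ⟨d, k1, h.trans r (hr.trans hq) _ _ _ k k2⟩

theorem line : LineStmt := fun _ _ hD lt _ h h1 h2 h3 =>
  ⟨TC lt, tc_opn h, tc_dc, tc_unb hD h, tc_cl hD h h3, tc_nobr hD h h1 h2, fun _ _ k => k⟩

/-- one colour is unbounded below some condition -/
theorem exists_colour (hD : Dist (univ : Set X)) (C : Om → ℕ → X → Prop)
    (h : ∀ r ≤ p, ∀ b, ∃ r' ≤ r, ∃ n, C b n r') :
    ∃ q ≤ p, ∃ n, UnbO q fun b => C b n := by
  by_contra hn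
  unfold UnbO at hn
  push Not at hn
  obtain ⟨q, -, k1, k2⟩ := hD p trivial (fun n r => ∃ g, ∀ r' ≤ r, ∀ b, g ≤ b → ¬ C b n r')
    (fun n r r' _ k ⟨g, k'⟩ => ⟨g, fun r'' k'' => k' r'' (k''.trans k)⟩)
    fun n r _ k => let ⟨r', k1, k2⟩ := hn r k n; ⟨r', trivial, k1, k2⟩
  choose g hg using k2
  obtain ⟨b, hb⟩ := exists_bound (countable_range g)
  obtain ⟨r, k3, n, k4⟩ := h q k1 b
  exact hg n r k3 b (hb _ ⟨n, rfl⟩).le k4

theorem sel (h1 : ChiStmt) (h2 : SpecStmt) : SelStmt := by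
  intro X _ hD lt p h W e w1 w2 w3 w4
  obtain ⟨chi, hchi⟩ := h1
  obtain ⟨col, hcol⟩ := h2
  choose F f1 f2 f3 f4 using fun b : Om => exists_fnl (P := (univ : Set X))
    (fun r (z : T × Om) => W z.1 z.2 r ∧ b < ht z.1)
    fun r z r' _ k k' => ⟨w1 z.1 z.2 r r' k k'.1, k'.2⟩
  obtain ⟨q, hq, n, hn⟩ := exists_colour (p := p) hD
    (fun b n r => ∃ z, F b r z ∧ col (res z.1 (Order.succ b)) = n) fun r hr b => by
      obtain ⟨r1, k1, y, ν, k2, k3⟩ := w3 r hr (Order.succ b)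
      obtain ⟨r2, -, k4, z, k5⟩ := f4 b r1 trivial (y, ν) ⟨k3, Order.succ_le_iff.1 k2⟩
      exact ⟨r2, k4.trans k1, _, z, k5, rfl⟩
  let S : T → Om → X → Prop := fun y ν r =>
    ∃ b, F b r (y, ν) ∧ col (res y (Order.succ b)) = n
  have s1 : ∀ {y ν r r'}, r' ≤ r → S y ν r → S y ν r' := fun k ⟨b, k1, k2⟩ =>
    ⟨b, f2 b _ _ _ trivial k k1, k2⟩
  have s2 : ∀ r ≤ p, ∀ {y ν y' ν'}, S y ν r → S y' ν' r → lt ν ν' r →
      bif e then Lx y.1 y'.1 else Lx y'.1 y.1 := by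
    intro r hr y ν y' ν' ⟨b, k1, k2⟩ ⟨b', k3, k4⟩ k
    obtain ⟨-, a1, a2⟩ := f1 b r _ k1
    obtain ⟨-, a3, a4⟩ := f1 b' r _ k3
    have e1 := ht_res_of_le (Order.succ_le_of_lt a2)
    have e2 := ht_res_of_le (Order.succ_le_of_lt a4)
    have hc : ¬ Cp y y' := fun hc => by
      have c1 : Cp (res y' (Order.succ b')) (res y (Order.succ b)) :=
        Cp.cut (Or.symm (hc.cut _)) _
      have c2 : res y' (Order.succ b') = res y (Order.succ b) :=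
        c1.elim (fun c => hcol _ _ _ _ e2 e1 c (k4.trans k2.symm))
          fun c => (hcol _ _ _ _ e1 e2 c (k2.trans k4.symm)).symm
      obtain rfl : b = b' := Order.succ_injective (e1.symm.trans ((congrArg ht c2.symm).trans e2))
      obtain rfl : ν = ν' := congrArg Prod.snd (f3 b r _ _ k1 k3)
      exact h.irr r hr ν k
    have hx := lx_of_not_cp fun c => hc (T.cp_iff.2 c)
    cases e
    · refine hx.resolve_left fun c => ?_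
      obtain ⟨r', c1, c2⟩ := w4 r hr y y' ν ν' a1 a3 c
      exact lin_asymm h (c1.trans hr) c2 (h.opn _ _ _ _ c1 k)
    · refine hx.resolve_right fun c => ?_
      obtain ⟨r', c1, c2⟩ := w4 r hr y' y ν' ν a3 a1 c
      exact lin_asymm h (c1.trans hr) c2 (h.opn _ _ _ _ c1 k)
  refine ⟨q, hq, fun ν r => ∃ y, S y ν r,
    fun a b k r => ∃ y y', S y a r ∧ S y' b r ∧ chi y y' = k,
    fun ν r r' k ⟨y, k1⟩ => ⟨y, s1 k k1⟩,
    fun a b m r r' k ⟨y, y', k1, k2, k3⟩ => ⟨y, y', s1 k k1, s1 k k2, k3⟩, fun r hr g => ?_,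
    fun a b m r ⟨y, y', k1, k2, _⟩ => ⟨⟨y, k1⟩, y', k2⟩,
    fun r _ a b ⟨y, k1⟩ ⟨y', k2⟩ => ⟨r, le_rfl, _, y, y', k1, k2, rfl⟩,
    fun r hr a b c d m ⟨y1, y2, k1, k2, k3⟩ ⟨y3, y4, k4, k5, k6⟩ k7 k8 => ?_⟩
  · obtain ⟨r', k1, b, k2, z, k3, k4⟩ := hn r hr g
    obtain ⟨-, a1, a2⟩ := f1 b r' _ k3
    exact ⟨r', k1, z.2, k2.trans (a2.le.trans (w2 _ _ _ a1)), z.1, b, k3, k4⟩
  · have c1 := s2 r (hr.trans hq) k1 k4 k7
    have c2 := s2 r (hr.trans hq) k5 k2 k8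
    cases e
    · exact hchi y3 y4 y1 y2 (k6.trans k3.symm) c1 c2
    · exact hchi y1 y2 y3 y4 (k3.trans k6.symm) c1 c2

end Pool.Agent.Ctry.Line

end MrgPart5

-- ======== part 6: formerly Pool.Agent.MP_77405c_lc.Book
section MrgPart6

/-! Bookkeeping: the iteration that handles all names. -/

open Filter Set

namespace Pool.Agent.Ctry

namespace Book

theorem mk_U : Cardinal.mk U ≤ Cardinal.mk Ordinal.{0} := by
  have h : (⋃ o : Ordinal.{0}, (ZFSet.vonNeumann o : Set U)) = univ :=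
    eq_univ_of_forall fun x => mem_iUnion.2 (ZFSet.exists_mem_vonNeumann x)
  rw [← Cardinal.mk_univ, ← h]
  refine Cardinal.mk_iUnion_le_sum_mk.trans ((Cardinal.sum_le_sum _
    (fun _ => Cardinal.mk Ordinal.{0}) fun o => ?_).trans ?_)
  · rw [Cardinal.mk_ordinal]
    exact (ZFSet.cardinalMk_coe_sort (x := ZFSet.vonNeumann o)).trans_le
      (Cardinal.lift_lt_univ _).le
  · rw [Cardinal.sum_const', Cardinal.mul_eq_self (Cardinal.aleph0_le_mk _)]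

theorem exists_book {Y : Type 1} [Cd Y] [Nonempty Y] :
    ∃ f : Ordinal.{0} → Y, ∀ v ξ, ∃ ζ, ξ ≤ ζ ∧ f ζ = v := by
  obtain ⟨e⟩ := (Cardinal.le_def _ _).1 mk_U
  obtain ⟨F, hs⟩ : ∃ F : Ordinal.{0} → Y × Ordinal.{0}, Function.Surjective F :=
    ⟨_, Function.invFun_surjective (e.injective.comp (Cd.inj (X := Y × Ordinal.{0})))⟩
  refine ⟨fun ζ => (F ζ).1, fun v ξ => by_contra fun hn => not_small_ordinal.{0, 0}
    (small_of_surjective (f := fun ζ : Iio ξ => (F ζ).2) fun o => ?_)⟩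
  obtain ⟨ζ, h⟩ := hs (v, o)
  exact ⟨⟨ζ, lt_of_not_ge fun k => hn ⟨ζ, k, congrArg Prod.fst h⟩⟩, congrArg Prod.snd h⟩

/-- the open name generated by a code -/
def up {P Y : Type*} [LE P] [Cd P] [Cd Y] (t : U) (y : Y) (a : P) : Prop :=
  ∃ b, a ≤ b ∧ cd (y, b) ∈ t

theorem exists_dat (h2 : IsoStmt) (h3 : KStmt) : ∃ D : ℕ × U × U →
    ∀ (P : Type 1) [Preorder P] [Cd P], Dist (univ : Set P) → Dat P,
    ∀ (P : Type 1) [Preorder P] [Cd P] (h : Dist (univ : Set P)), (∀ v, Ax (D v P h)) ∧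
      (∀ t, IsoP (up t) (D (0, t, t) P h)) ∧ (∀ t t', KP (up t) (up t') (D (1, t, t') P h)) ∧
      ∀ p a b, (D (2, ∅, ∅) P h).V p a b true := by
  choose I i1 i2 using h2
  choose K k1 k2 using h3
  refine ⟨fun v P _ _ h => if v.1 = 0 then I P h (up v.2.1) else if v.1 = 1 then
    K P h (up v.2.1) (up v.2.2) else ⟨fun _ _ _ _ => True, (I P h fun _ _ => True).Leg⟩,
    fun P _ _ h => ⟨fun v => ?_, fun t => i2 P h _, fun t t' => k2 P h _ _, fun _ _ _ => trivial⟩⟩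
  dsimp only
  split_ifs
  · exact i1 P h _
  · exact k1 P h _ _
  · have a := i1 P h fun _ _ => True
    refine ⟨fun _ _ _ _ _ _ _ => trivial, fun _ _ _ _ _ _ _ _ _ _ => trivial, a.mono, a.tree,
      fun p Γ z j1 j2 => ?_, a.zero, a.new⟩
    obtain ⟨q, j3, x, w, j4, j5, j6, j7, j8, j9⟩ := a.split p Γ z j1 j2
    exact ⟨q, j3, x, w, j4, j5, j6, j7, j8, fun i l1 l2 => (j9 i l1 l2).imp
      (fun k => ⟨k.1, true, trivial⟩) fun k => ⟨k.1, true, trivial⟩⟩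

variable {P : Type 1} [Preorder P] [Cd P]

theorem val_mono {D : Dat P} (a : Ax D) {p q : P} {c : Pc} (h : q ≤ p) (hv : Val D p c) :
    Val D q c := by
  obtain ⟨h1, h2, h3, h4, h5⟩ := hv
  refine ⟨h1, h2, fun x hx y hy z hz w hw m j1 j2 => ?_, h4, fun g hg => ?_⟩
  · obtain ⟨e, j3, j4⟩ := h3 x hx y hy z hz w hw m j1 j2
    exact ⟨e, a.V_mono _ _ _ _ _ h j3, a.V_mono _ _ _ _ _ h j4⟩
  · obtain ⟨j1, j2, j3⟩ := h5 g hg
    refine ⟨j1, a.mono _ _ _ h j2, fun F hF => ?_⟩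
    obtain ⟨τ, j4, j5, j6⟩ := j3 F hF
    exact ⟨τ, j4, (a.tree _ _ j2).1 τ p q h j5, j6⟩

theorem small_can [Small.{0} P] : Small.{0} {z : P × Pc | ∀ g ∈ z.2.G, Can P g} := by
  obtain ⟨W, h1, -⟩ := exists_code (univ : Set (Tup × P))
  refine small_of_injective (β := P × Om × Set TT × W.powerset.powerset)
    (f := fun z => (z.1.1, z.1.2.α, z.1.2.u, ⟨z.1.2.G, ZFSet.mem_powerset.2 fun g hg =>
      ZFSet.mem_powerset.2 fun y hy => let ⟨w, e⟩ := z.2 g hg y hy; e ▸ (h1 w).2 trivial⟩)) ?_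
  rintro ⟨⟨p, a, u, G⟩, _⟩ ⟨⟨p', a', u', G'⟩, _⟩ h
  simpa using h

theorem up_code {X C : Type 1} [Preorder X] [Itr X] [Cd X] [Preorder C] (g : Gnr X C) {Y : Type}
    [Cd Y] (ξ : Ordinal.{0}) {R : Y → X → Prop} (h1 : Opn R) (h2 : ∀ x q, R x q → R x (rs q ξ)) :
    ∃ t : U, ∀ ζ, ξ ≤ ζ → (fun x (a : g.St ζ) => R x (g.ι a)) = up t := by
  have : Small.{0} {z : Y × X | z.2 ∈ PP X ξ ∧ R z.1 z.2} :=
    small_of_injective (β := Y × PP X ξ) (f := fun z => (z.1.1, ⟨z.1.2, z.2.1⟩)) (by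
      rintro ⟨⟨_, _⟩, _⟩ ⟨⟨_, _⟩, _⟩ h
      simpa using h)
  obtain ⟨t, ht, -⟩ := exists_code {z : Y × X | z.2 ∈ PP X ξ ∧ R z.1 z.2}
  refine ⟨t, fun ζ hζ => funext fun x => funext fun a => propext ⟨fun h => ?_, fun ⟨b, k1, k2⟩ => ?_⟩⟩
  · obtain ⟨b, hb⟩ := g.ι_range.1 (pp_mono (rs_mem (g.ι a) ξ) hζ)
    refine ⟨b, g.ι_le.1 (hb ▸ Itr.le_rs _ _), ?_⟩
    rw [cd_prod, ← g.ι_cd, hb]
    exact (ht (x, _)).2 ⟨rs_mem _ _, h2 _ _ h⟩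
  · rw [cd_prod, ← g.ι_cd] at k2
    exact h1 x _ _ (g.ι_le.2 k1) ((ht (x, _)).1 k2).2

end Book

open Book in
theorem book (h1 : ConcStmt) (h2 : IsoStmt) (h3 : KStmt) (h4 : SchStmt) (h5 : BridgeStmt)
    (h6 : IterStmt) : BookStmt := by
  obtain ⟨f, hf⟩ := exists_book (Y := ℕ × U × U)
  obtain ⟨D, hD⟩ := exists_dat h2 h3
  obtain ⟨X, i1, i2, i3, g, hg⟩ := h1 Pc
    (fun ζ P _ _ p c => (∃ h, Val (D (f ζ) P h) p c) ∨ (¬ Dist (univ : Set P) ∧ c = ⟨⊥, ∅, ∅⟩))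
    (fun ζ P _ _ p q c k => Or.imp_left fun ⟨h, k'⟩ => ⟨h, val_mono ((hD P h).1 _) k k'⟩)
    (fun ζ P _ _ p => ⟨⟨⊥, ∅, ∅⟩, (em _).imp (fun h => ⟨h, by simp [Val, OK]⟩) fun h => ⟨h, rfl⟩⟩)
    fun ζ P _ _ _ => by
      refine @small_subset _ _ _ (fun z hz => ?_) (small_can (P := P))
      rcases hz with ⟨_, k⟩ | ⟨-, k⟩
      · exact fun g hg => (k.2.2.2.2 g hg).1
      · simp [k]
  have hv : ∀ ζ (h : Dist (univ : Set (g.St ζ))) a c, g.Val a c ↔ Val (D (f ζ) _ h) a c :=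
    fun ζ h a c => (hg ζ a c).trans ⟨fun k => k.elim (fun k => k.2) fun k => absurd h k.1,
      fun k => Or.inl ⟨h, k⟩⟩
  have hd : ∀ η, Dist (PP X η) := h6 X (h5 X Pc fun ζ h => by
    rw [show g.Val = Val (D (f ζ) _ h) from funext fun a => funext fun c => propext (hv ζ h a c)]
    exact h4 _ h _ ((hD _ h).1 _))
  have hd' := fun ζ => g.dist_iff.2 (hd ζ)
  refine ⟨X, i1, i2, i3, g, hd, fun ξ R k1 k2 ξ' => ?_, fun ξ R R' k1 k2 k3 k4 ξ' => ?_, ?_⟩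
  · obtain ⟨t, ht⟩ := up_code g ξ k1 k2
    obtain ⟨ζ, j1, j2⟩ := hf (0, t, t) (max ξ ξ')
    refine ⟨ζ, (le_max_right _ _).trans j1, _, (hD _ (hd' ζ)).1 _, hv ζ (hd' ζ), ?_⟩
    rw [ht ζ ((le_max_left _ _).trans j1), j2]
    exact (hD _ _).2.1 t
  · obtain ⟨t, ht⟩ := up_code g ξ k1 k3
    obtain ⟨t', ht'⟩ := up_code g ξ k2 k4
    obtain ⟨ζ, j1, j2⟩ := hf (1, t, t') (max ξ ξ')
    refine ⟨ζ, (le_max_right _ _).trans j1, _, (hD _ (hd' ζ)).1 _, hv ζ (hd' ζ), ?_⟩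
    rw [ht ζ ((le_max_left _ _).trans j1), ht' ζ ((le_max_left _ _).trans j1), j2]
    exact (hD _ _).2.2.1 t t'
  · obtain ⟨ζ, -, j2⟩ := hf (2, ∅, ∅) 0
    exact ⟨ζ, _, (hD _ (hd' ζ)).1 _, hv ζ (hd' ζ), j2 ▸ (hD _ _).2.2.2⟩

end Pool.Agent.Ctry

end MrgPart6

-- ======== part 7: formerly Pool.Agent.MP_77405c_lc.Two
section MrgPart7

/-! Module TWO of PROJECT CTRY: two generic stages give a Countryman suborder. -/

open Set

namespace Pool.Agent.Ctry.Two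

variable {X : Type 1} [Preorder X] [Itr X] [Cd X] (g : Gnr X Pc) {ζ : Ordinal.{0}}

/-- the projection to a stage -/
noncomputable def pr (ζ : Ordinal.{0}) (r : X) : g.St ζ := (g.ι_range.1 (rs_mem r ζ)).choose

theorem ι_pr (r : X) : g.ι (pr g ζ r) = rs r ζ := (g.ι_range.1 (rs_mem r ζ)).choose_spec

theorem le_pr (r : X) : r ≤ g.ι (pr g ζ r) := (ι_pr g r).symm ▸ Itr.le_rs r ζ

variable {g}

theorem pr_le {r : X} {a : g.St ζ} (h : r ≤ g.ι a) : pr g ζ r ≤ a :=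
  g.ι_le.1 ((ι_pr g r).symm ▸ rs_le_of_le h (g.ι_mem a))

theorem pr_mono {r r' : X} (h : r ≤ r') : pr g ζ r ≤ pr g ζ r' := pr_le (h.trans (le_pr g r'))

/-- a condition of the stage below the projection is compatible with the condition -/
theorem lift {r : X} {a : g.St ζ} (h : a ≤ pr g ζ r) : ∃ r' ≤ r, r' ≤ g.ι a :=
  ⟨amal ζ (g.ι a) r, amal_le_right (ι_pr g r ▸ g.ι_le.2 h), amal_le_left (g.ι_mem a) r⟩

section

variable {Y : Type} [Tr Y] {Γ : Y → X → Prop} {a : g.St ζ}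

theorem opn_st {Y : Type} {Γ : Y → X → Prop} (h : Opn Γ) : Opn fun y (b : g.St ζ) => Γ y (g.ι b) :=
  fun y _ _ k => h y _ _ (g.ι_le.2 k)

theorem unb_st (hi : ∀ y q, Γ y q → Γ y (rs q ζ)) (h : Unb (g.ι a) Γ) :
    Unb a fun y b => Γ y (g.ι b) := fun q hq k => by
  obtain ⟨q', k1, y, k2, k3⟩ := h _ (g.ι_le.2 hq) k
  exact ⟨pr g ζ q', pr_le k1, y, k2, by simpa only [ι_pr] using hi y q' k3⟩

theorem cl_st (ho : Opn Γ) (h : CL (g.ι a) Γ) : CL a fun y b => Γ y (g.ι b) := fun q hq k => by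
  obtain ⟨q', k1, W, k2, k3⟩ := h _ (g.ι_le.2 hq) k
  refine ⟨pr g ζ q', pr_le k1, W, k2, fun r hr y k4 => ?_⟩
  obtain ⟨r', k5, k6⟩ := lift hr
  exact k3 r' k5 y (ho y _ _ k6 k4)

theorem nobr_st (ho : Opn Γ) (h : NoBr (g.ι a) Γ) : NoBr a fun y b => Γ y (g.ι b) := by
  intro q hq B b1 b2 b3 b4 b5
  refine h _ (g.ι_le.2 hq) (fun y r => B y (pr g ζ r)) (fun y _ _ k => b1 y _ _ (pr_mono k))
    (fun y _ k => b2 y _ k) (fun r hr k => ?_)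
    (fun r hr y k => ho y _ _ (le_pr g r) (b4 _ (pr_le hr) y k)) fun r hr => b5 _ (pr_le hr)
  obtain ⟨b, k1, y, k2, k3⟩ := b3 _ (pr_le hr) k
  obtain ⟨r', k4, k5⟩ := lift k1
  exact ⟨r', k4, y, k2, b1 y _ _ (pr_le k5) k3⟩

end

variable (g ζ) in
/-- `c` belongs to the generic filter of the stage -/
def In (c : Pc) (r : X) : Prop := ∃ a : g.St ζ, g.Val a c ∧ r ≤ g.cond a c

theorem In.mono {c : Pc} {r r' : X} (h : In g ζ c r) (k : r' ≤ r) : In g ζ c r' :=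
  let ⟨a, h1, h2⟩ := h; ⟨a, h1, k.trans h2⟩

theorem In.cut {c : Pc} {r : X} (h : In g ζ c r) : In g ζ c (rs r (ζ + 1)) :=
  let ⟨a, h1, h2⟩ := h; ⟨a, h1, rs_le_of_le h2 (g.cond_mem h1)⟩

theorem lift' {r : X} {a : g.St ζ} {c : Pc} (h : g.Val a c) (k : g.cond a c ≤ rs r (ζ + 1)) :
    ∃ r' ≤ r, r' ≤ g.cond a c :=
  ⟨amal (ζ + 1) (g.cond a c) r, amal_le_right k, amal_le_left (g.cond_mem h) r⟩

theorem cond_le {a : g.St ζ} {c : Pc} (h : g.Val a c) : g.cond a c ≤ g.ι a :=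
  g.rs_cond h ▸ Itr.le_rs _ ζ

theorem In.dir {c c' : Pc} {r : X} (h : In g ζ c r) (h' : In g ζ c' r) :
    ∃ r' ≤ r, ∃ d, d ≤ c ∧ d ≤ c' ∧ In g ζ d r' := by
  obtain ⟨a, h1, h2⟩ := h
  obtain ⟨a', h3, h4⟩ := h'
  obtain ⟨b, -, d, k1, k2, k3, k4⟩ := g.dir (pr g ζ r) r h1 h3 h2 h4 (ι_pr g r).le
  obtain ⟨r', k5, k6⟩ := lift' k3 k4
  exact ⟨r', k5, d, k1, k2, b, k3, k6⟩

variable (g ζ) in
/-- the generic set of nodes -/
def Fu (x : TT) (r : X) : Prop := ∃ c, In g ζ c r ∧ x ∈ c.u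

theorem fu_opn : Opn (Fu g ζ) := fun _ _ _ k ⟨c, h1, h2⟩ => ⟨c, h1.mono k, h2⟩

/-- pairs of generic nodes with the same meet get a common value -/
theorem common {D : Dat (g.St ζ)} (hA : Ax D) (hV : ∀ a c, g.Val a c ↔ Val D a c) {r : X}
    {x x' y y' : TT} {w : Seq} (h1 : Fu g ζ x r) (h2 : Fu g ζ x' r) (h3 : Fu g ζ y r)
    (h4 : Fu g ζ y' r) (s1 : Sp x.pi.1 x'.pi.1 w) (s2 : Sp y.pi.1 y'.pi.1 w) :
    ∃ r' ≤ r, ∃ e, D.V (pr g ζ r') x x' e ∧ D.V (pr g ζ r') y y' e := by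
  obtain ⟨c1, i1, m1⟩ := h1
  obtain ⟨c2, i2, m2⟩ := h2
  obtain ⟨c3, i3, m3⟩ := h3
  obtain ⟨c4, i4, m4⟩ := h4
  obtain ⟨r1, k1, d1, l1, l2, j1⟩ := i1.dir i2
  obtain ⟨r2, k2, d2, l3, l4, j2⟩ := (i3.mono k1).dir (i4.mono k1)
  obtain ⟨r3, k3, d3, l5, l6, a, j3, j4⟩ := (j1.mono k2).dir j2
  obtain ⟨e, v1, v2⟩ := ((hV a d3).1 j3).2.2.1 x (l5.2.1 (l1.2.1 m1)) x' (l5.2.1 (l2.2.1 m2))
    y (l6.2.1 (l3.2.1 m3)) y' (l6.2.1 (l4.2.1 m4)) w s1 s2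
  have k4 : pr g ζ r3 ≤ a := pr_le (j4.trans (cond_le j3))
  exact ⟨r3, k3.trans (k2.trans k1), e, hA.V_mono _ _ _ _ _ k4 v1, hA.V_mono _ _ _ _ _ k4 v2⟩

/-- a legitimate promise of single nodes can be kept by the generic -/
theorem generic (h3 : ExtStmt) (h4 : CombStmt) (hD : Dist (univ : Set (g.St ζ)))
    {D : Dat (g.St ζ)} (hA : Ax D) (hV : ∀ a c, g.Val a c ↔ Val D a c) {a : g.St ζ}
    {Γ : Tup → g.St ζ → Prop} (hL : D.Leg a Γ) (h1 : ∀ τ, ∀ r ≤ a, Γ τ r → ∃ x, τ.l = [x]) :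
    ∃ p ∈ PP X (ζ + 1), p ≤ g.ι a ∧ ∀ r ≤ p, ∀ h : Om, ∃ r' ≤ r, ∃ τ : Tup, h ≤ ht τ ∧
      Γ τ (pr g ζ r') ∧ ∀ x ∈ τ.l, Fu g ζ x r' := by
  have : Small.{0} {z : Tup × g.St ζ | Γ z.1 z.2} := small_subset (subset_univ _)
  obtain ⟨u, u1, u2⟩ := exists_code {z : Tup × g.St ζ | Γ z.1 z.2}
  have e : nm u = Γ := funext fun τ => funext fun b => propext (u1 (τ, b))
  obtain ⟨t1, -, t3, -⟩ := hA.tree a Γ hL
  obtain ⟨a1, k1, z, -, k2⟩ := t3 a le_rfl ⊥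
  obtain ⟨x, hx⟩ := h1 z a1 k1 k2
  obtain ⟨a2, k3, c1, -, k4, k5⟩ := h4 _ hD D hA a1 ⟨ht z, {x}, ∅⟩ u z
    ⟨countable_singleton x, fun y hy => (z.ht_mem (by rw [hx, hy]; simp)).le,
      fun _ i1 _ i2 _ _ _ _ w s _ => by
        rw [i1, i2] at s
        exact (s.asymm s).elim, by simp, fun _ h => (ZFSet.notMem_empty _ h).elim⟩
    (fun y hy => let ⟨z, _, h⟩ := u2 y hy; ⟨z, h⟩) (e ▸ hA.mono _ _ _ k1 hL) (e ▸ k2) rfl
    (by simp [Inj, hx]) (by simp [hx])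
  have v1 := (hV a2 c1).2 k4
  refine ⟨g.cond a2 c1, g.cond_mem v1, (cond_le v1).trans (g.ι_le.2 (k3.trans k1)),
    fun r hr h => ?_⟩
  obtain ⟨b, -, c, l1, -, l2, l3⟩ := g.dir (pr g ζ r) r v1 v1 hr hr (ι_pr g r).le
  obtain ⟨h', l4⟩ := exists_gt (max c.α h)
  obtain ⟨b', l5, c', l6, l7, l8⟩ := h3 _ hD D hA b c h' ((hV b c).1 l2)
    ((le_max_left _ _).trans_lt l4)
  have v2 := (hV b' c').2 l8
  obtain ⟨r', l9, l10⟩ := lift' (r := r) v2 ((g.cond_mono v2 l2 l5 l6).trans l3)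
  obtain ⟨τ, m1, m2, -, m3⟩ := (l8.2.2.2.2 u (l6.2.2.2 (l1.2.2.2 k5))).2.2 ∅ finite_empty
  exact ⟨r', l9, τ, by rw [m1, l7]; exact (le_max_right _ _).trans l4.le,
    t1 τ _ _ (pr_le (l10.trans (cond_le v2))) (e ▸ m2), fun y hy => ⟨c', ⟨b', v2, l10⟩, (m3 y hy).1⟩⟩

omit [Itr X] [Cd X] in
/-- the lexicographic order of cuts is the order of the line -/
theorem lt_of_lx {lt : Om → Om → X → Prop} {p r : X} (hl : Lin lt p) (hr : r ≤ p) {s s' : Seq}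
    {ν ν' : Om} (h : ∀ μ < ht s, (s.f μ = 1 ∧ lt μ ν r) ∨ (s.f μ = 0 ∧ lt ν μ r))
    (h' : ∀ μ < ht s', (s'.f μ = 1 ∧ lt μ ν' r) ∨ (s'.f μ = 0 ∧ lt ν' μ r)) (k : Lx s s') :
    lt ν ν' r := by
  obtain ⟨w, k⟩ := k
  have k1 := k.lt
  rcases h _ k.ht_lt.1 with ⟨e1, l1⟩ | ⟨e1, l1⟩ <;> rcases h' _ k.ht_lt.2 with ⟨e2, l2⟩ | ⟨e2, l2⟩
  · omega
  · omega
  · exact hl.trans r hr _ _ _ l1 l2
  · omega

omit [Cd X] in
/-- an unbounded tree name reflects to a stage -/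
theorem reflect (hR : Refl X) {T' : Seq → X → Prop} {p : X} (hu : Unb p T') :
    ∃ ξ, p ∈ PP X ξ ∧ Unb p fun x q => T' x (rs q ξ) := by
  obtain ⟨ξ0, h0⟩ := exists_mem_PP p
  obtain ⟨ξ, k1, k2⟩ := hR (fun h q => (∃ y, ht y = h ∧ T' y q) ∨ ¬ Cmp univ q p) (fun h q _ => by
    by_cases hc : Cmp univ q p
    · obtain ⟨c, -, k1, k2⟩ := hc
      obtain ⟨w, k3, k4⟩ := hu c k2 h
      exact ⟨w, trivial, k3.trans k1, Or.inl k4⟩
    · exact ⟨q, trivial, le_rfl, Or.inr hc⟩) ξ0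
  refine ⟨ξ, pp_mono h0 k1, fun q hq h => ?_⟩
  obtain ⟨w, k3, k4, k5⟩ := k2 h _ (rs_mem q ξ)
  obtain ⟨y, k6, k7⟩ := k5.resolve_right fun k => k ⟨w, trivial, le_rfl,
    k4.trans (rs_le_of_le hq (pp_mono h0 k1))⟩
  exact ⟨amal ξ w q, amal_le_right k4, y, k6, by simpa only [rs_amal k3] using k7⟩

theorem two (h1 : LineStmt) (h2 : SelStmt) (h3 : ExtStmt) (h4 : CombStmt) : TwoStmt := by
  intro X _ _ _ g hD hU hR hB lt p l1 l2 l3 l4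
  obtain ⟨T', t1, t2, t3, t4, t5, t6⟩ := h1 X hU lt p l1 l2 l3 l4
  obtain ⟨ξ, p1, p2⟩ := reflect hR t3
  let S : Seq → X → Prop := fun x q => T' x (rs q ξ)
  have s1 : Opn S := fun x _ _ k => t1 x _ _ (Itr.rs_mono ξ k)
  have s2 : ∀ x q, S x q → T' x q := fun x q => t1 x _ _ (Itr.le_rs q ξ)
  have s3 : ∀ η, ξ ≤ η → ∀ x q, S x q → S x (rs q η) := fun η k x q h => by
    simpa only [S, rs_rs_le q k] using h
  obtain ⟨ζ, z1, D, d1, d2, d3, d4⟩ := hB.1 ξ S s1 (s3 ξ le_rfl) ξ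
  obtain ⟨a, rfl⟩ := g.ι_range.1 (pp_mono p1 z1)
  obtain ⟨Γ, g1, g2⟩ := d4 a (opn_st s1) (fun x _ k => t2 x _ k)
    (cl_st s1 fun q hq k => let ⟨q', k1, W, k2, k3⟩ := t4 q hq k
      ⟨q', k1, W, k2, fun r hr y k4 => k3 r hr y (s2 y r k4)⟩)
    (nobr_st s1 fun q hq B b1 b2 b3 b4 => t5 q hq B b1 b2 b3 fun r hr y k => s2 y r (b4 r hr y k))
    (unb_st (s3 ζ z1) p2)
  obtain ⟨p', q1, q2, q3⟩ := generic h3 h4 (g.dist_iff.2 (hD ζ)) d1 d2 g1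
    fun τ r _ k => let ⟨x, k1, _⟩ := g2 τ r k; ⟨x, k1⟩
  let F : TT → X → Prop := fun x r => Fu g ζ x r ∧ S x.rho r
  have f1 : Opn F := fun x _ _ k h => ⟨fu_opn x _ _ k h.1, s1 _ _ _ k h.2⟩
  have f2 : ∀ η, ζ + 1 ≤ η → ∀ x q, F x q → F x (rs q η) := fun η k x q ⟨⟨c, k1, k2⟩, k3⟩ =>
    ⟨⟨c, k1.cut.mono (rs_anti q k), k2⟩, s3 η (z1.trans ((lt_add_one ζ).le.trans k)) _ q k3⟩
  let Ub : T → X → Prop := fun y r => ∃ x, F x r ∧ Below y x.pi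
  let K : T → X → Prop := fun w r => ∃ x x', F x r ∧ F x' r ∧ Sp x.pi.1 x'.pi.1 w.1 ∧ Lx x.rho x'.rho
  have u1 : Opn Ub := fun y _ _ k ⟨x, k1, k2⟩ => ⟨x, f1 x _ _ k k1, k2⟩
  have u2 : ∀ η, ζ + 1 ≤ η → ∀ x q, Ub x q → Ub x (rs q η) := fun η k y q ⟨x, k1, k2⟩ =>
    ⟨x, f2 η k x q k1, k2⟩
  have c1 : Opn K := fun y _ _ k ⟨x, x', k1, k2, k3⟩ => ⟨x, x', f1 x _ _ k k1, f1 x' _ _ k k2, k3⟩
  have c2 : ∀ η, ζ + 1 ≤ η → ∀ x q, K x q → K x (rs q η) := fun η k y q ⟨x, x', k1, k2, k3⟩ =>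
    ⟨x, x', f2 η k x q k1, f2 η k x' q k2, k3⟩
  obtain ⟨η, y1, E, e1, e2, e3⟩ := hB.2.1 (ζ + 1) Ub K u1 c1 (u2 _ le_rfl) (c2 _ le_rfl) (ζ + 1)
  obtain ⟨b, rfl⟩ := g.ι_range.1 (pp_mono q1 y1)
  obtain ⟨b', b1, e, e4, Δ, e5, e6⟩ := e3 b (opn_st u1)
    (fun y _ k ⟨x, k1, k2⟩ => ⟨x, k1, (below_res y k).trans k2⟩) (opn_st c1)
    (unb_st (u2 η y1) fun r hr h => by
      obtain ⟨r', k1, τ, k2, k3, k4⟩ := q3 r hr h
      obtain ⟨x, k5, k6⟩ := g2 τ _ k3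
      have k7 : x ∈ τ.l := by simp [k5]
      exact ⟨r', k1, res x.pi h, ht_res_of_le (k2.trans_eq (τ.ht_mem k7).symm), x,
        ⟨k4 x k7, s1 _ _ _ (le_pr g r') k6⟩, below_res _ _⟩)
  obtain ⟨p'', -, r2, r3⟩ := generic h3 h4 (g.dist_iff.2 (hD η)) e1 e2 e5
    fun τ r k1 k => let ⟨x, k1, _⟩ := e6 τ r k1 k; ⟨x, k1⟩
  have hp : p'' ≤ g.ι a := r2.trans ((g.ι_le.2 b1).trans q2)
  have l5 : Lin lt p'' := ⟨l1.opn, fun q k => l1.irr q (k.trans hp),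
    fun q k => l1.trans q (k.trans hp), fun q k => l1.total q (k.trans hp)⟩
  obtain ⟨q, k1, k2⟩ := h2 X hU lt p'' l5 (fun y ν r => (∃ x, Fu g η x r ∧ x.pi = y) ∧
    ∃ x, F x r ∧ Below y x.pi ∧ ht x.rho ≤ ν ∧
      ∀ μ < ht x.rho, (x.rho.f μ = 1 ∧ lt μ ν r) ∨ (x.rho.f μ = 0 ∧ lt ν μ r)) e
    (fun y ν _ _ k ⟨⟨x, k1, k2⟩, x', k3, k4, k5, k6⟩ => ⟨⟨x, fu_opn x _ _ k k1, k2⟩, x',
      f1 x' _ _ k k3, k4, k5, fun μ hμ => (k6 μ hμ).imp (fun h => ⟨h.1, l1.opn _ _ _ _ k h.2⟩)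
        fun h => ⟨h.1, l1.opn _ _ _ _ k h.2⟩⟩)
    (fun y ν r ⟨_, x, _, k1, k2, _⟩ => k1.ht_le.trans (x.h.ge.trans k2))
    (fun r hr h => by
      obtain ⟨r', k1, τ, k2, k3, k4⟩ := r3 r hr h
      obtain ⟨x, k5, b'', k6, x', k7, k8⟩ := e6 τ _ (pr_le (k1.trans (hr.trans r2))) k3
      have k9 : x ∈ τ.l := by simp [k5]
      obtain ⟨r'', m1, m2⟩ := lift k6
      have m3 := f1 x' _ _ m2 k7
      obtain ⟨ν, m4⟩ := t6 _ _ (s2 _ _ m3.2)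
      exact ⟨r'', m1.trans k1, x.pi, ν, k2.trans_eq (τ.ht_mem k9).symm,
        ⟨x, fu_opn x _ _ m1 (k4 x k9), rfl⟩, x', m3, k8, m4⟩)
    fun r hr y y' ν ν' ⟨⟨z, k1, k2⟩, x, k3, k4, _, k5⟩ ⟨⟨z', m1, m2⟩, x', m3, m4, _, m5⟩ ⟨w, hw⟩ => by
      obtain ⟨w, rfl⟩ := hw.exists_T
      have w1 : Sp z.pi.1 z'.pi.1 w.1 := by rwa [k2, m2]
      have w2 : Sp x.pi.1 x'.pi.1 w.1 := hw.ext (T.below_iff.1 k4) (T.below_iff.1 m4)
      obtain ⟨r1, n1, e', n2, -⟩ := common e1 e2 k1 m1 k1 m1 w1 w1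
      have n3 := e4 _ (pr_le (n1.trans (hr.trans r2))) z z' e' w n2 w1
      refine ⟨r, le_rfl, ?_⟩
      cases e
      · obtain ⟨r2, n4, e0, n5, -⟩ := common d1 d2 k3.1 m3.1 k3.1 m3.1 w2 w2
        have n6 := d3 _ _ _ _ n5
        cases e0
        · exact lt_of_lx l5 hr m5 k5 n6
        · refine (n3 _ le_rfl ?_).elim
          simp only [ι_pr]
          exact c2 η y1 w r1 ⟨x, x', f1 x _ _ n1 k3, f1 x' _ _ n1 m3, w2, n6⟩
      · obtain ⟨v, v', n4, n5, n6, n7⟩ := c1 w _ _ (le_pr g r1) n3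
        obtain ⟨r2, -, e0, n8, n9⟩ := common d1 d2 (fu_opn x _ _ n1 k3.1) (fu_opn x' _ _ n1 m3.1)
          n4.1 n5.1 w2 n6
        cases e0
        · exact (n7.asymm (d3 _ _ _ _ n9)).elim
        · exact lt_of_lx l5 hr k5 m5 (d3 _ _ _ _ n8)
  exact ⟨q, k1.trans hp, k2⟩

end Pool.Agent.Ctry.Two

end MrgPart7

-- ======== part 8: formerly Pool.Agent.MP_77405c_lc.Link1
section MrgPart8

/-! The link modules OM1, CHF and CTRY. -/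

open Set

namespace Pool.Agent.Ctry.Fc.Link1

open Fml

variable {X : Type 1} [Preorder X] [OrderTop X] {p q : X}

omit [OrderTop X] in
/-- countably many open predicates are decided simultaneously -/
theorem decide_all (hD : Dist (univ : Set X)) (H : ℕ → X → Prop)
    (hH : ∀ n q q', q' ≤ q → H n q → H n q') (p : X) :
    ∃ q ≤ p, ∀ n, H n q ∨ ∀ r ≤ q, ¬ H n r := by
  obtain ⟨q, -, k1, k2⟩ := hD p trivial (fun n q => H n q ∨ ∀ r ≤ q, ¬ H n r)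
    (fun n q q' _ k h => h.imp (hH n q q' k) fun h r hr => h r (hr.trans k)) fun n q _ _ => by
      by_cases h : ∃ r ≤ q, H n r
      · exact let ⟨r, h1, h2⟩ := h; ⟨r, trivial, h1, Or.inl h2⟩
      · exact ⟨q, trivial, le_rfl, Or.inr fun r h1 h2 => h ⟨r, h1, h2⟩⟩
  exact ⟨q, k1, k2⟩

/-- a set containing unboundedly many points of an injective sequence is uncountable -/
theorem unc (hD : Dist (univ : Set X)) {x : Om → Nm X} {A : Om → X → Prop} {C : Nm X}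
    (hx : ∀ a b, ∀ q ≤ p, fE (x a) (x b) q → a = b) (hA : UnbO p A)
    (hC : ∀ a, ∀ q ≤ p, A a q → fM (x a) C q) : Fo (neg (ctble om C)) p := by
  intro q hq h
  obtain ⟨r, hr, f, h1, h2⟩ := forces_ex.1 h q le_rfl
  obtain ⟨r1, k1, k2⟩ := decide_all hD (fun n t => ∃ a, Fo (app f (nn n) (x a)) t)
    (fun _ _ _ k ⟨a, h⟩ => ⟨a, h.mono k⟩) r
  have hp : r1 ≤ p := k1.trans (le_trans hr hq)
  have uniq : ∀ n a b, ∀ t ≤ r1, Fo (app f (nn n) (x a)) t → Fo (app f (nn n) (x b)) t → a = b :=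
    fun n a b t ht e1 e2 => hx a b t (ht.trans hp) (func_eq (Fo.mono h1 (ht.trans k1)) e1 e2)
  obtain ⟨b, hb⟩ := exists_bound (s := ⋃ n, {a | Fo (app f (nn n) (x a)) r1})
    (countable_iUnion fun n => Set.Subsingleton.countable fun a ha a' ha' =>
      uniq n a a' r1 le_rfl ha ha')
  obtain ⟨r2, k3, a, k4, k5⟩ := hA r1 hp b
  obtain ⟨r3, k6, n, k7⟩ := exIn_om (cong_app1 f (x a))
    (forces_allIn.1 h2 (x a) r2 (k3.trans k1) (hC a r2 (k3.trans hp) k5))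
  rcases k2 n with ⟨a', k8⟩ | k8
  · have := uniq n a a' r3 (k6.trans k3) k7 (k8.mono (k6.trans k3))
    exact (hb a' (mem_iUnion.2 ⟨n, k8⟩)).not_ge (this ▸ k4)
  · exact k8 r3 (k6.trans k3) ⟨a, k7⟩

theorem or_left {a b : Fml (Nm X)} (h : Fo a p) : Fo (or a b) p :=
  forces_or.2 fun q hq => ⟨q, le_rfl, Or.inl (h.mono hq)⟩

theorem or_right {a b : Fml (Nm X)} (h : Fo b p) : Fo (or a b) p :=
  forces_or.2 fun q hq => ⟨q, le_rfl, Or.inr (h.mono hq)⟩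

theorem om1 : Om1Stmt := by
  intro X _ _ hD p
  refine ⟨fun x y => forces_imp.2 fun q _ h1 => forces_imp.2 fun q' hq' h2 => ?_,
    fun x y => forces_imp.2 fun q _ h1 => forces_imp.2 fun q' hq' h2 => ?_,
    unc hD (x := ordN) (A := fun _ _ => True) (fun _ _ _ _ h => ordN_inj h)
      (fun q _ g => ⟨q, le_rfl, g, le_rfl, trivial⟩) fun a _ _ _ => ordN_mem_oN a,
    forces_allIn.2 fun x q _ h => ?_⟩
  · refine mem_oN.2 fun r hr => ?_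
    obtain ⟨r1, k1, b, k2⟩ := mem_oN.1 h2 r hr
    obtain ⟨r2, k3, c, -, k4⟩ := mem_ordN.1
      (fM.right (fM.mono h1 (k1.trans (le_trans hr hq'))) k2.symm) r1 le_rfl
    exact ⟨r2, k3.trans k1, c, k4⟩
  · refine Forces.dense fun r hr => ?_
    obtain ⟨r1, k1, b, k2⟩ := mem_oN.1 h1 r (le_trans hr hq')
    obtain ⟨r2, k3, c, k4⟩ := mem_oN.1 h2 r1 (k1.trans hr)
    have k5 := k2.mono k3
    refine ⟨r2, k3.trans k1, ?_⟩
    rcases lt_trichotomy b c with h | rfl | h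
    · exact or_left (fM.right (fM.left (ordN_mem_of_lt h) k5) k4)
    · exact or_right (or_left (k5.symm.trans k4))
    · exact or_right (or_right (fM.right (fM.left (ordN_mem_of_lt h) k4) k5))
  · refine Forces.dense fun r hr => ?_
    obtain ⟨r1, k1, b, k2⟩ := mem_oN.1 h r hr
    have := (ctble_Iio b).to_subtype
    obtain ⟨e, he⟩ := exists_injective_nat (Iio b)
    refine ⟨r1, k1, forces_ex_of (relN (ULift.{1} (Iio b)) (fun i => nn (e i.down))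
      (fun i => ordN i.down.1) fun _ => ⊤) ⟨func_rel fun i j t _ _ _ h1 => ⟨t, le_rfl, ?_⟩,
      forces_allIn.2 fun y t ht h1 => Forces.dense fun t' ht' => ?_⟩⟩
    · rw [he (nn_inj h1)]
      exact fE.rfl
    · obtain ⟨t1, j1, c, j2, j3⟩ := mem_ordN.1 (fM.right h1 (k2.mono ht).symm) t' ht'
      exact ⟨t1, j1, exIn_om_of (e ⟨c, j2⟩) (app_congr (app_rel_of (I := ULift.{1} (Iio b))
        (c := fun _ => ⊤) ⟨⟨c, j2⟩⟩ le_top) fE.rfl fE.rfl j3)⟩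

/-- the check name of a set of natural numbers -/
def sN (s : ℕ → Prop) : Nm X := .mk (ULift.{1} {n // s n}) (fun i => nn i.down.1) fun _ => ⊤

theorem mem_sN {s : ℕ → Prop} {z : Nm X} :
    fM z (sN s) p ↔ ∀ q ≤ p, ∃ r ≤ q, ∃ n, s n ∧ fE (nn n) z r := by
  refine fMem_mk_iff.trans (forall₂_congr fun q _ => exists_congr fun r => and_congr_right
    fun _ => ?_)
  constructor
  · rintro ⟨i, -, h⟩
    exact ⟨i.down.1, i.down.2, h⟩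
  · rintro ⟨n, hn, h⟩
    exact ⟨⟨⟨n, hn⟩⟩, htop _, h⟩

theorem chf : ChFStmt := by
  intro X _ _ hD ⟨R, h1, h2, h3⟩ p
  refine forces_ex_of (relN {z : Om × (ℕ → Prop) × X // R z.1 z.2.1 z.2.2}
    (fun i => ordN i.1.1) (fun i => sN i.1.2.1) fun i => i.1.2.2)
    ⟨func_rel fun i j t _ k1 k2 k3 => ⟨t, le_rfl, ?_⟩,
      fun x => forces_imp.2 fun q _ hx => Forces.dense fun r hr => ?_⟩
  · have e : i.1.2.1 = j.1.2.1 :=
      h2 j.1.1 _ _ t (ordN_inj k3 ▸ h1 _ _ _ _ k1 i.2) (h1 _ _ _ _ k2 j.2)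
    rw [e]
    exact fE.rfl
  · obtain ⟨r1, k1, k2⟩ := decide_all hD (fun n t => fM (nn n) x t) (fun _ _ _ k h => h.mono k) r
    obtain ⟨r2, k3, a, k4⟩ := h3 (fun n => fM (nn n) x r1) r1
    have k5 : fE (sN fun n => fM (nn n) x r1) x r1 := by
      refine fEq_of_ext fun z t ht => ⟨fun h => fMem_dense fun t' ht' => ?_,
        fun h => mem_sN.2 fun t' ht' => ?_⟩
      · obtain ⟨t1, j1, n, j2, j3⟩ := mem_sN.1 h t' ht'
        exact ⟨t1, j1, fM.left (j2.mono (j1.trans (le_trans ht' ht))) j3⟩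
      · have j0 : t' ≤ r1 := le_trans ht' ht
        obtain ⟨t1, j1, n, j2⟩ := mem_om
          (forces_sub.1 hx z t' (j0.trans (k1.trans hr)) (fM.mono h ht'))
        exact ⟨t1, j1, n, (k2 n).resolve_right fun k =>
          k t1 (j1.trans j0) (fM.left (fM.mono h (j1.trans ht')) j2.symm), j2⟩
    exact ⟨r2, k3.trans k1, forces_exIn_of (ordN a) (ordN_mem_oN a) (app_congr
      (app_rel_of (I := {z : Om × (ℕ → Prop) × X // R z.1 z.2.1 z.2.2}) (c := fun i => i.1.2.2)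
        ⟨(a, _, r2), k4⟩ le_rfl) fE.rfl fE.rfl (k5.mono k3))⟩

theorem ctry : CtryStmt := by
  intro X _ _ hD L r p x hL hx hlin ⟨q, hq, A, col, h1, h2, h3, h4, h5, h6⟩
  let C : Nm X := .mk {z : Om × X // A z.1 z.2} (fun i => x i.1.1) fun i => i.1.2
  have memC : ∀ a t, A a t → fM (x a) C t := fun a t h =>
    fMem_mk (A := fun i : {z : Om × X // A z.1 z.2} => x i.1.1) (c := fun i => i.1.2)
      ⟨(a, t), h⟩ (le_refl t)
  have ofC : ∀ z t, fM z C t → ∃ t' ≤ t, ∃ a, A a t' ∧ fE (x a) z t' := fun z t h => by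
    obtain ⟨t', k1, i, k2, k3⟩ := fMem_mk_iff.1 h t (le_refl t)
    exact ⟨t', k1, i.1.1, h1 _ _ _ k2 i.2, k3⟩
  let K : ℕ → Nm X := fun n => relN {z : Om × Om × X // col z.1 z.2.1 n z.2.2}
    (fun i => x i.1.1) (fun i => x i.1.2.1) fun i => i.1.2.2
  have ofK : ∀ n y z t, Fo (app (K n) y z) t →
      ∃ t' ≤ t, ∃ a b, col a b n t' ∧ fE (x a) y t' ∧ fE (x b) z t' := fun n y z t h => by
    obtain ⟨t', k1, i, k2, k3⟩ := app_rel.1 h t le_rfl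
    exact ⟨t', k1, i.1.1, i.1.2.1, h2 _ _ _ _ _ k2 i.2, k3⟩
  have tri : ∀ t ≤ q, ∀ a b, ∃ t' ≤ t,
      a = b ∨ Fo (app r (x a) (x b)) t' ∨ Fo (app r (x b) (x a)) t' := fun t ht a b => by
    by_cases e : a = b
    · exact ⟨t, le_rfl, Or.inl e⟩
    · exact let ⟨t', k1, k2⟩ := hlin.total t (ht.trans hq) a b e; ⟨t', k1, Or.inr k2⟩
  have le : ∀ {a b y z t}, fE (x a) y t → fE (x b) z t → a = b ∨ Fo (app r (x a) (x b)) t →
      Fo (leq r y z) t := fun k1 k2 k => by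
    rcases k with rfl | k
    · exact or_left (k1.symm.trans k2)
    · exact or_right (app_congr k fE.rfl k1 k2)
  refine ⟨q, hq, C, forces_sub.2 fun z t ht h => fMem_dense fun t' ht' => ?_,
    unc hD (fun a b t ht => hx a b t (ht.trans hq)) h3 fun a t _ => memC a t,
    forces_ex_of (relN (ULift.{1} ℕ) (fun i => nn i.down) (fun i => K i.down) fun _ => ⊤)
      ⟨func_rel fun i j t _ _ _ k => ⟨t, le_rfl, ?_⟩,
      fun n K' => forces_imp.2 fun t0 ht0 _ => forces_imp.2 fun t ht h => Forces.dense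
        fun t' ht' => ?_,
      fun y z => forces_imp.2 fun t0 ht0 hy => forces_imp.2 fun t ht hz => Forces.dense
        fun t' ht' => ?_⟩⟩
  · obtain ⟨t1, k1, a, -, k2⟩ := ofC z t' (fM.mono h ht')
    exact ⟨t1, k1, fM.left ((hL a).mono (k1.trans (le_trans ht' (le_trans ht hq)))) k2⟩
  · rw [nn_inj k]
    exact fE.rfl
  · obtain ⟨t1, k1, i, -, -, k2⟩ := app_rel.1 h t' ht'
    have k0 : t1 ≤ q := k1.trans (le_trans ht' (le_trans ht ht0))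
    refine ⟨t1, k1, fun y z y' z' => forces_imp.2 fun u hu e1 => forces_imp.2 fun u' hu' e2 =>
      Forces.dense fun v hv => ?_, fun y z => forces_imp.2 fun u hu e1 =>
      Forces.dense fun v hv => ?_⟩
    · have v0 : v ≤ t1 := le_trans hv (le_trans hu' hu)
      obtain ⟨v1, j1, a, b, c1, a1, b1⟩ := ofK i.down y z v
        (app_congr (Fo.mono e1 (le_trans hv hu')) (k2.mono v0).symm fE.rfl fE.rfl)
      obtain ⟨v2, j2, c, d, c2, a2, b2⟩ := ofK i.down y' z' v1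
        (app_congr (Fo.mono e2 (j1.trans hv)) (k2.mono (j1.trans v0)).symm fE.rfl fE.rfl)
      have w2 : v2 ≤ q := j2.trans (j1.trans (v0.trans k0))
      obtain ⟨v3, j3, e3⟩ := tri v2 w2 a c
      obtain ⟨v4, j4, e4⟩ := tri v3 (j3.trans w2) b d
      have j5 := j4.trans j3
      have a1' := a1.mono (j5.trans j2)
      have b1' := b1.mono (j5.trans j2)
      have a2' := a2.mono j5
      have b2' := b2.mono j5
      have c1' := h2 _ _ _ _ _ (j5.trans j2) c1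
      have c2' := h2 _ _ _ _ _ j5 c2
      refine ⟨v4, j5.trans (j2.trans j1), ?_⟩
      rcases e3 with e3 | e3 | e3 <;> rcases e4 with e4 | e4 | e4
      · exact or_left ⟨le a1' a2' (Or.inl e3), le b1' b2' (Or.inl e4)⟩
      · exact or_left ⟨le a1' a2' (Or.inl e3), le b1' b2' (Or.inr e4)⟩
      · exact or_right ⟨le a2' a1' (Or.inl e3.symm), le b2' b1' (Or.inr e4)⟩
      · exact or_left ⟨le a1' a2' (Or.inr (e3.mono j4)), le b1' b2' (Or.inl e4)⟩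
      · exact or_left ⟨le a1' a2' (Or.inr (e3.mono j4)), le b1' b2' (Or.inr e4)⟩
      · exact (h6 v4 (j5.trans w2) a b c d _ c1' c2' (e3.mono j4) e4).elim
      · exact or_right ⟨le a2' a1' (Or.inr (e3.mono j4)), le b2' b1' (Or.inl e4.symm)⟩
      · exact (h6 v4 (j5.trans w2) c d a b _ c2' c1' (e3.mono j4) e4).elim
      · exact or_right ⟨le a2' a1' (Or.inr (e3.mono j4)), le b2' b1' (Or.inr e4)⟩
    · obtain ⟨v1, j1, a, b, c1, a1, b1⟩ := ofK i.down y z v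
        (app_congr (Fo.mono e1 hv) (k2.mono (le_trans hv hu)).symm fE.rfl fE.rfl)
      exact ⟨v1, j1, fM.left (memC a v1 (h4 a b _ v1 c1).1) a1,
        fM.left (memC b v1 (h4 a b _ v1 c1).2) b1⟩
  · obtain ⟨t1, k1, a, a1, a2⟩ := ofC y t' (fM.mono hy (le_trans ht' ht))
    obtain ⟨t2, k2, b, b1, b2⟩ := ofC z t1 (fM.mono hz (k1.trans ht'))
    obtain ⟨t3, k3, n, k4⟩ := h5 t2 (k2.trans (k1.trans (le_trans ht' (le_trans ht ht0)))) a b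
      (h1 _ _ _ k2 a1) b1
    refine ⟨t3, k3.trans (k2.trans k1), forces_ex_of (nn n) (forces_ex_of (K n)
      ⟨nn_mem_om n, app_rel_of (I := ULift.{1} ℕ) (c := fun _ => ⊤) (f := fun i => nn i.down)
        (g := fun i => K i.down) ⟨n⟩ le_top, app_congr
        (app_rel_of (I := {z : Om × Om × X // col z.1 z.2.1 n z.2.2}) (c := fun i => i.1.2.2)
          ⟨(a, b, t3), k4⟩ le_rfl) fE.rfl (a2.mono (k3.trans k2)) (b2.mono k3)⟩)⟩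

end Pool.Agent.Ctry.Fc.Link1

end MrgPart8

-- ======== part 9: formerly Pool.Agent.MP_77405c_lc.Link2
section MrgPart9

/-! From a forced Aronszajn line to the name free hypotheses. -/

open Set

namespace Pool.Agent.Ctry.Fc.Link2

open Fml

variable {X : Type 1} [Preorder X] [OrderTop X] {p q : X}

theorem om_rec {σ : Type*} (Φ : ∀ a : Om, (Iio a → σ) → σ → Prop) (h : ∀ a f, ∃ s, Φ a f s) :
    ∃ F : Om → σ, ∀ a, Φ a (fun b => F b) (F a) := by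
  choose g hg using h
  let F : Om → σ := (wellFounded_lt (α := Om)).fix fun a ih => g a fun b => ih b.1 b.2
  have e : ∀ a, F a = g a fun b => F b := fun a => WellFounded.fix_eq _ _ a
  exact ⟨F, fun a => e a ▸ hg a _⟩

theorem ctble_of {ι : Type} [Countable ι] (x : ι → Nm X) {y : Nm X}
    (h : ∀ z, ∀ q ≤ p, fM z y q → ∃ r ≤ q, ∃ i, fE (x i) z r) : Fo (ctble om y) p := by
  obtain ⟨e, he⟩ := exists_injective_nat ι
  refine forces_ex_of (relN (ULift.{1} ι) (fun i => nn (e i.down)) (fun i => x i.down) fun _ => ⊤)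
    ⟨func_rel fun i j q _ _ _ k => ⟨q, le_rfl, by rw [he (nn_inj k)]; exact fE.rfl⟩,
      forces_allIn.2 fun z q hq hz => Forces.dense fun r hr => ?_⟩
  obtain ⟨s, k1, i, k2⟩ := h z r (le_trans hr hq) (fM.mono hz hr)
  exact ⟨s, k1, exIn_om_of (e i) (app_congr (app_rel_of (⟨i⟩ : ULift.{1} ι) le_top) fE.rfl fE.rfl k2)⟩

theorem not_ctble (hD : Dist (univ : Set X)) {x : Om → Nm X}
    (hx : ∀ a b, ∀ q ≤ p, fE (x a) (x b) q → a = b) {A : Om → X → Prop} (hA : UnbO p A) {y : Nm X}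
    (h : ∀ a, ∀ q ≤ p, A a q → fM (x a) y q) : Fo (neg (ctble om y)) p := by
  intro q hq hc
  obtain ⟨q1, k1, f, k2, k3⟩ := forces_ex.1 hc q le_rfl
  obtain ⟨r, -, k4, k5⟩ := hD q1 trivial (fun n r => (∃ a, Fo (app f (nn n) (x a)) r) ∨
    ∀ r' ≤ r, ∀ a, ¬ Fo (app f (nn n) (x a)) r') (fun n r r' _ k j => j.imp
      (fun ⟨a, j⟩ => ⟨a, j.mono k⟩) fun j s hs => j s (hs.trans k)) fun n r _ _ => by
    by_cases k : ∃ r' ≤ r, ∃ a, Fo (app f (nn n) (x a)) r'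
    · exact let ⟨r', j1, j2⟩ := k; ⟨r', trivial, j1, Or.inl j2⟩
    · exact ⟨r, trivial, le_rfl, Or.inr fun r' j1 a j2 => k ⟨r', j1, a, j2⟩⟩
  have : ∀ n, ∃ b, ∀ r' ≤ r, ∀ a, Fo (app f (nn n) (x a)) r' → a = b := fun n => by
    rcases k5 n with ⟨b, j⟩ | j
    · exact ⟨b, fun r' j1 a j2 => hx a b r' (j1.trans (k4.trans (le_trans k1 hq)))
        (func_eq (Fo.mono k2 (j1.trans k4)) j2 (j.mono j1))⟩
    · exact ⟨⊥, fun r' j1 a j2 => absurd j2 (j r' j1 a)⟩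
  choose b hb using this
  obtain ⟨g, hg⟩ := exists_bound (countable_range b)
  have k6 := k4.trans (le_trans k1 hq)
  obtain ⟨r', j1, a, j2, j3⟩ := hA r k6 g
  obtain ⟨s, j4, n, j5⟩ := exIn_om (cong_app1 f (x a))
    (forces_allIn.1 k3 _ r' (j1.trans k4) (h a r' (j1.trans k6) j3))
  exact (hg _ ⟨n, rfl⟩).not_ge (hb n s (j4.trans j1) a j5 ▸ j2)

theorem exists_pts {L : Nm X} (h : Fo (neg (ctble om L)) p) :
    ∃ x : Om → Nm X, (∀ a, fM (x a) L p) ∧ ∀ a b, ∀ q ≤ p, fE (x a) (x b) q → a = b := by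
  obtain ⟨x, hx⟩ := om_rec (fun a (f : Iio a → Nm X) y => fM y L p ∧ ∀ b, ∀ q ≤ p, ¬ fE (f b) y q)
    fun a f => by
      have := (ctble_Iio a).to_subtype
      let Y : Nm X := .mk (ULift.{1} (Iio a)) (fun i => f i.down) fun _ => ⊤
      obtain ⟨y, hy⟩ := max_principle (le := cle X) (fun z => and (mem z L) (neg (mem z Y)))
        fun p x y k j => ⟨fM.left j.1 k, fun q hq j' => j.2 q hq (fM.left j' (fE.mono k hq).symm)⟩
      have k : Fo (and (mem y L) (neg (mem y Y))) p := Forces.dense fun q hq => by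
        by_contra hn
        refine h q hq (ctble_of f fun z r hr hz => ?_)
        by_contra hn'
        refine hn ⟨r, hr, hy r z ⟨hz, fun s hs k => ?_⟩⟩
        obtain ⟨t, k1, i, -, k2⟩ := fMem_mk_iff.1 k s le_rfl
        exact hn' ⟨t, le_trans k1 hs, i.down, k2⟩
      exact ⟨y, k.1, fun b q hq j => k.2 q hq (fM.left (fMem_mk (⟨b⟩ : ULift.{1} (Iio a)) le_top) j)⟩
  refine ⟨x, fun a => (hx a).1, fun a b q hq k => ?_⟩
  rcases lt_trichotomy a b with e | e | e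
  · exact absurd k ((hx b).2 ⟨a, e⟩ q hq)
  · exact e
  · exact absurd k.symm ((hx a).2 ⟨b, e⟩ q hq)

theorem exists_enum (hD : Dist (univ : Set X)) {x : Om → Nm X} {L : Nm X} (hx : ∀ a, fM (x a) L p)
    {A : Om → X → Prop} (h1 : Opn A) (h2 : UnbO p A) : ∃ f : Nm X, Fo (func f) p ∧
      Fo (allIn oN fun a => exIn L fun z => app f a z) p ∧ ∀ a b z w, ∀ r, fM a b r →
        Fo (app f a z) r → Fo (app f b w) r → ∃ r' ≤ r, ∃ c d, c < d ∧ A c r' ∧ A d r' ∧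
          fE (x c) z r' ∧ fE (x d) w r' := by
  obtain ⟨N, hN⟩ := om_rec (fun i (f : Iio i → X → Om → Prop) (N : X → Om → Prop) =>
    (∀ r a, N r a → A a r ∧ ∀ j, ∃ b < a, ∃ s, r ≤ s ∧ f j s b) ∧ (∀ r a, ∀ r' ≤ r, N r a → N r' a) ∧
    (∀ r a b, N r a → N r b → a = b) ∧
    ∀ r a, (A a r ∧ ∀ j, ∃ b < a, ∃ s, r ≤ s ∧ f j s b) → ∃ r' ≤ r, ∃ a', N r' a') fun i f => by
      obtain ⟨N, k1, k2, k3, k4⟩ := exists_fnl (P := univ)
        (fun r a => A a r ∧ ∀ j, ∃ b < a, ∃ s, r ≤ s ∧ f j s b) fun r a r' _ k j =>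
          ⟨h1 _ _ _ k j.1, fun i => let ⟨b, j1, s, j2, j3⟩ := j.2 i; ⟨b, j1, s, k.trans j2, j3⟩⟩
      exact ⟨N, fun r a k => (k1 r a k).2, fun r a r' => k2 r a r' trivial, k3, fun r a k =>
        let ⟨r', _, j⟩ := k4 r trivial a k; ⟨r', j⟩⟩
  have dn : ∀ i, ∀ r ≤ p, ∃ r' ≤ r, ∃ a, N i r' a := fun i => by
    induction i using WellFoundedLT.induction with
    | _ i ih =>
    intro r hr
    obtain ⟨s, -, k1, k2⟩ := hD.set (ctble_Iio i) (p := r) trivial (fun j s => ∃ b, N j s b)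
      (fun j _ s s' _ k ⟨b, k'⟩ => ⟨b, (hN j).2.1 _ _ _ k k'⟩) fun j hj s _ hs =>
        let ⟨s', k⟩ := ih j hj s (hs.trans hr); ⟨s', trivial, k⟩
    choose b hb using fun j : Iio i => k2 j.1 j.2
    have := (ctble_Iio i).to_subtype
    obtain ⟨g, hg⟩ := exists_bound (countable_range b)
    obtain ⟨t, k3, a, k4, k5⟩ := h2 s (k1.trans hr) g
    obtain ⟨t', k6, k7⟩ := (hN i).2.2.2 t a
      ⟨k5, fun j => ⟨b j, (hg _ ⟨j, rfl⟩).trans_le k4, s, k3, hb j⟩⟩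
    exact ⟨t', k6.trans (k3.trans k1), k7⟩
  let I := {z : Om × Om × X // N z.1 z.2.2 z.2.1}
  refine ⟨relN I (fun z => ordN z.1.1) (fun z => x z.1.2.1) fun z => z.1.2.2,
    func_rel fun ⟨⟨i, a, s⟩, k1⟩ ⟨⟨j, b, t⟩, k2⟩ q _ k3 k4 k5 => ⟨q, le_rfl, ?_⟩,
    forces_allIn.2 fun z q hq hz => Forces.dense fun r hr => ?_, fun a b z w r k1 k2 k3 => ?_⟩
  · obtain rfl : i = j := ordN_inj k5
    obtain rfl : a = b := (hN i).2.2.1 q _ _ ((hN i).2.1 _ _ _ k3 k1) ((hN i).2.1 _ _ _ k4 k2)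
    exact fE.rfl
  · obtain ⟨s, k1, i, k2⟩ := mem_oN.1 hz r hr
    obtain ⟨t, k3, a, k4⟩ := dn i s (k1.trans (le_trans hr hq))
    exact ⟨t, k3.trans k1, forces_exIn_of (x a) ((hx a).mono (k3.trans (k1.trans (le_trans hr hq))))
      (app_congr (app_rel_of (⟨(i, a, t), k4⟩ : I) le_rfl) fE.rfl (k2.mono k3) fE.rfl)⟩
  · obtain ⟨s, j1, ⟨⟨i, c, s'⟩, j2⟩, j3, j4, j5⟩ := app_rel.1 k2 r le_rfl
    obtain ⟨t, j6, ⟨⟨j, d, t'⟩, j7⟩, j8, j9, j10⟩ := app_rel.1 k3 s j1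
    have j11 : i < j := ordN_mem_ordN.1 (((k1.mono (j6.trans j1)).left (j4.mono j6).symm).right j9.symm)
    have j12 := (hN i).2.1 _ _ _ (j6.trans j3) j2
    obtain ⟨j13, j14⟩ := (hN j).1 _ _ ((hN j).2.1 _ _ _ j8 j7)
    obtain ⟨b, j15, u, j16, j17⟩ := j14 ⟨i, j11⟩
    obtain rfl : b = c := (hN i).2.2.1 t _ _ ((hN i).2.1 _ _ _ j16 j17) j12
    exact ⟨t, j6.trans j1, b, d, j15, ((hN i).1 _ _ j12).1, j13, j5.mono j6, j10⟩

theorem aron : AronStmt := by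
  intro X _ _ hD L r p ⟨⟨l1, l2, l3⟩, h2, h3, h4, h5⟩
  obtain ⟨x, hx, hi⟩ := exists_pts h2
  refine ⟨x, hx, hi, ⟨fun a b s t k j => j.mono k, fun q hq a => forces_allIn.1 l1 _ p le_rfl
    (hx a) q hq, fun q hq a b c k1 k2 => ?_, fun q hq a b k => ?_⟩, fun q hq A k1 k2 k3 => ?_,
    fun q hq A k1 k2 k3 => ?_, fun q hq A D k0 k1 k2 k3 k4 k5 k6 => ?_⟩
  · exact forces_imp.1 (forces_imp.1 (forces_imp.1 (forces_imp.1 (forces_imp.1 (l2 _ _ _) q hq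
      ((hx a).mono hq)) q le_rfl ((hx b).mono hq)) q le_rfl ((hx c).mono hq)) q le_rfl k1) q le_rfl k2
  · obtain ⟨s, j1, j2 | j2⟩ := forces_or.1 (forces_imp.1 (forces_imp.1 (l3 _ _) p le_rfl (hx a))
      p le_rfl (hx b)) q hq
    · exact ⟨s, j1, Or.inl j2⟩
    · obtain ⟨t, j3, j4 | j4⟩ := forces_or.1 j2 s le_rfl
      · exact absurd (hi a b t (le_trans j3 (le_trans j1 hq)) j4) k
      · exact ⟨t, le_trans j3 j1, Or.inr j4⟩
  · obtain ⟨f, j1, j2, j3⟩ := exists_enum hD (fun a => (hx a).mono hq) k1 k2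
    refine h3 q hq (forces_ex_of f ⟨j1, j2, fun a b z w => forces_imp.2 fun s1 m1 n1 =>
      forces_imp.2 fun s2 m2 _ => forces_imp.2 fun s3 m3 n3 => forces_imp.2 fun s4 m4 n4 =>
        Forces.dense fun s hs => ?_⟩)
    have m5 : s ≤ s3 := le_trans hs m4
    have m6 : s ≤ s1 := m5.trans (le_trans m3 m2)
    obtain ⟨t, i1, c, d, i2, i3, i4, i5, i6⟩ := j3 a b z w s (fM.mono n1 m6) (Fo.mono n3 m5)
      (Fo.mono n4 hs)
    exact ⟨t, i1, app_congr (k3 t (i1.trans (m6.trans m1)) c d i2 i3 i4) fE.rfl i5 i6⟩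
  · obtain ⟨f, j1, j2, j3⟩ := exists_enum hD (fun a => (hx a).mono hq) k1 k2
    refine h4 q hq (forces_ex_of f ⟨j1, j2, fun a b z w => forces_imp.2 fun s1 m1 n1 =>
      forces_imp.2 fun s2 m2 _ => forces_imp.2 fun s3 m3 n3 => forces_imp.2 fun s4 m4 n4 =>
        Forces.dense fun s hs => ?_⟩)
    have m5 : s ≤ s3 := le_trans hs m4
    have m6 : s ≤ s1 := m5.trans (le_trans m3 m2)
    obtain ⟨t, i1, c, d, i2, i3, i4, i5, i6⟩ := j3 a b z w s (fM.mono n1 m6) (Fo.mono n3 m5)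
      (Fo.mono n4 hs)
    exact ⟨t, i1, app_congr (k3 t (i1.trans (m6.trans m1)) c d i2 i3 i4) fE.rfl i6 i5⟩
  · let Y : Nm X := .mk {z : Om × X // A z.1 z.2} (fun z => x z.1.1) fun z => z.1.2
    let Z : Nm X := .mk (ULift.{1} D) (fun d => x d.down.1) fun _ => ⊤
    have y1 : ∀ a s, A a s → fM (x a) Y s := fun a s k =>
      fMem_mk (⟨(a, s), k⟩ : {z : Om × X // A z.1 z.2}) le_rfl
    have y2 : ∀ {z s}, fM z Y s → ∀ s' ≤ s, ∃ t ≤ s', ∃ a, A a t ∧ fE (x a) z t := fun h s' hs =>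
      let ⟨t, j1, i, j2, j3⟩ := fMem_mk_iff.1 h s' hs; ⟨t, j1, i.1.1, k1 _ _ _ j2 i.2, j3⟩
    have z1 : ∀ d ∈ D, ∀ s, fM (x d) Z s := fun d k s => fMem_mk (⟨⟨d, k⟩⟩ : ULift.{1} D) le_top
    have := k0.to_subtype
    refine forces_imp.1 (forces_imp.1 (h5 Y) q hq (forces_sub.2 fun z s hs hz =>
      fMem_dense fun t k => ?_)) q le_rfl (not_ctble hD (fun a b s hs => hi a b s (hs.trans hq)) k2
        fun a s _ => y1 a s) q le_rfl (forces_ex_of Z ⟨forces_sub.2 fun z s hs hz =>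
          fMem_dense fun t k => ?_, ctble_of (fun d : D => x d) fun z s _ hz => ?_,
          fun a z b => forces_imp.2 fun s1 m1 n1 => forces_imp.2 fun s2 m2 n2 =>
            forces_imp.2 fun s3 m3 n3 => forces_imp.2 fun s4 m4 n4 => forces_imp.2 fun s5 m5 n5 =>
              forces_exIn.2 fun s hs => ?_,
          fun z b => forces_imp.2 fun s1 m1 n1 => forces_imp.2 fun s2 m2 n2 =>
            forces_imp.2 fun s3 m3 n3 => forces_exIn.2 fun s hs => ?_,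
          fun a z => forces_imp.2 fun s1 m1 n1 => forces_imp.2 fun s2 m2 n2 =>
            forces_imp.2 fun s3 m3 n3 => forces_exIn.2 fun s hs => ?_⟩)
    · obtain ⟨u, j1, a, -, j2⟩ := y2 hz t k
      exact ⟨u, j1, ((hx a).mono (j1.trans (le_trans k (le_trans hs hq)))).left j2⟩
    · obtain ⟨u, j1, d, -, j2⟩ := fMem_mk_iff.1 hz t k
      exact ⟨u, j1, (y1 _ u (k1 _ _ _ (le_trans j1 (le_trans k hs)) (k3 _ d.down.2))).left j2⟩
    · obtain ⟨u, j1, d, -, j2⟩ := fMem_mk_iff.1 hz s le_rfl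
      exact ⟨u, j1, d.down, j2⟩
    · have e4 : s ≤ s4 := le_trans hs m5
      have e3 : s ≤ s3 := e4.trans m4
      have e2 : s ≤ s2 := e3.trans m3
      have e1 : s ≤ s1 := e2.trans m2
      obtain ⟨t1, i1, a', i2, i3⟩ := y2 n1 s e1
      obtain ⟨t2, i4, z', i5, i6⟩ := y2 n2 t1 (i1.trans e2)
      obtain ⟨t3, i7, b', i8, i9⟩ := y2 n3 t2 (i4.trans (i1.trans e3))
      have e : t3 ≤ s := i7.trans (i4.trans i1)
      have i3' := i3.mono (i7.trans i4)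
      obtain ⟨t, i10, d, i11, i12, i13⟩ := k4 t3 (e.trans (e1.trans m1)) a' z' b'
        (k1 _ _ _ (i7.trans i4) i2) (k1 _ _ _ i7 i5) i8
        (app_congr (Fo.mono n4 (e.trans e4)) fE.rfl i3'.symm (i6.mono i7).symm)
        (app_congr (Fo.mono n5 (e.trans hs)) fE.rfl (i6.mono i7).symm i9.symm)
      exact ⟨t, i10.trans e, x d, z1 d i11 t, app_congr i12 fE.rfl (i3'.mono i10) fE.rfl,
        app_congr i13 fE.rfl fE.rfl (i9.mono i10)⟩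
    · have e2 : s ≤ s2 := le_trans hs m3
      have e1 : s ≤ s1 := e2.trans m2
      obtain ⟨t1, i1, z', i2, i3⟩ := y2 n1 s e1
      obtain ⟨t2, i4, b', i5, i6⟩ := y2 n2 t1 (i1.trans e2)
      have e : t2 ≤ s := i4.trans i1
      obtain ⟨t, i10, d, i11, i12⟩ := k5 t2 (e.trans (e1.trans m1)) z' b' (k1 _ _ _ i4 i2) i5
        (app_congr (Fo.mono n3 (e.trans hs)) fE.rfl (i3.mono i4).symm i6.symm)
      exact ⟨t, i10.trans e, x d, z1 d i11 t, app_congr i12 fE.rfl fE.rfl (i6.mono i10)⟩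
    · have e2 : s ≤ s2 := le_trans hs m3
      have e1 : s ≤ s1 := e2.trans m2
      obtain ⟨t1, i1, a', i2, i3⟩ := y2 n1 s e1
      obtain ⟨t2, i4, z', i5, i6⟩ := y2 n2 t1 (i1.trans e2)
      have e : t2 ≤ s := i4.trans i1
      obtain ⟨t, i10, d, i11, i12⟩ := k6 t2 (e.trans (e1.trans m1)) a' z' (k1 _ _ _ i4 i2) i5
        (app_congr (Fo.mono n3 (e.trans hs)) fE.rfl (i3.mono i4).symm i6.symm)
      exact ⟨t, i10.trans e, x d, z1 d i11 t,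
        app_congr i12 fE.rfl (i3.mono (i10.trans i4)) fE.rfl⟩

end Pool.Agent.Ctry.Fc.Link2

end MrgPart9

-- marker of a merged file
example : 731051 + 871165 = 731051 + 871165 := rfl
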