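import Pool.Agent.MP_77405c_lc.Spec

/-! The concrete countable support iteration along the ordinals. -/

open Filter Set

namespace Pool.Agent.Ctry.Conc

/-- countably supported functions from the ordinals to the sets -/
def F0 : Type 1 := {p : Ordinal.{0} → U // {z | p z ≠ ∅}.Countable}

theorem graph_ctble (p : F0) : {w : Ordinal.{0} × U | w.2 ≠ ∅ ∧ p.1 w.1 = w.2}.Countable :=
  (p.2.image fun z => (z, p.1 z)).mono fun w hw => by
    exact ⟨w.1, fun h => hw.1 (hw.2.symm.trans h), Prod.ext rfl hw.2⟩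

noncomputable instance : Cd F0 := ⟨fun p => (exists_code_ctble (graph_ctble p)).choose,
  fun p q h => by
    have h1 := (exists_code_ctble (graph_ctble p)).choose_spec.2
    have h2 := (exists_code_ctble (graph_ctble q)).choose_spec.2
    dsimp only at h
    rw [h] at h1
    refine Subtype.ext (funext fun z => ?_)
    by_cases hp : p.1 z = ∅
    · by_contra hq
      exact hq ((h1 (z, q.1 z)).1 ((h2 _).2 ⟨fun k => hq (hp.trans k.symm), rfl⟩)).2
    · exact ((h2 (z, p.1 z)).1 ((h1 _).2 ⟨hp, rfl⟩)).2.symm⟩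

/-- the preorder generated by a relation -/
@[reducible] def pre (S : Set F0) (r : F0 → F0 → Prop) : Preorder S where
  le a b := Relation.ReflTransGen (fun a b : S => r a.1 b.1) a b
  le_refl _ := .refl
  le_trans _ _ _ := .trans

variable {C : Type 1} [Preorder C] [Cd C]
  (Φ : Ordinal.{0} → ∀ (P : Type 1) [Preorder P] [Cd P], P → C → Prop)

/-- `y` codes a functional set of valid pairs -/
def Ok (z : Ordinal.{0}) (S : Set F0) (r : F0 → F0 → Prop) (y : U) : Prop :=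
  (∀ x ∈ y, ∃ (a : S) (c : C), cd (a.1, c) = x ∧ @Φ z S (pre S r) _ a c) ∧
  ∀ (a a' : F0) (c c' : C), cd (a, c) ∈ y → cd (a', c') ∈ y → ∀ b ∈ S, r b a → r b a' → c = c'

variable (C) in
/-- the order at one coordinate -/
def Le (z : Ordinal.{0}) (S : Set F0) (r : F0 → F0 → Prop) (p q : F0) : Prop :=
  ∀ (b : F0) (d : C), cd (b, d) ∈ q.1 z → ∀ a ∈ S, r a p → r a b →
    ∃ a' ∈ S, r a' a ∧ ∃ (b' : F0) (d' : C), cd (b', d') ∈ p.1 z ∧ r a' b' ∧ d' ≤ d

/-- the recursion -/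
noncomputable def W (z : Ordinal.{0}) : (U → Prop) × (F0 → F0 → Prop) :=
  (Ok Φ z {p | (∀ e, p.1 e ≠ ∅ → e < z) ∧ ∀ e (_ : e < z), (W e).1 (p.1 e)}
      fun p q => ∀ e (_ : e < z), (W e).2 p q,
    Le C z {p | (∀ e, p.1 e ≠ ∅ → e < z) ∧ ∀ e (_ : e < z), (W e).1 (p.1 e)}
      fun p q => ∀ e (_ : e < z), (W e).2 p q)
termination_by z

/-- the conditions of stage `z` -/
def P (z : Ordinal.{0}) : Set F0 :=
  {p | (∀ e, p.1 e ≠ ∅ → e < z) ∧ ∀ e (_ : e < z), (W Φ e).1 (p.1 e)}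

/-- the order of stage `z` -/
def le (z : Ordinal.{0}) (p q : F0) : Prop := ∀ e (_ : e < z), (W Φ e).2 p q

theorem W_eq (z : Ordinal.{0}) :
    W Φ z = (Ok Φ z (P Φ z) (le Φ z), Le C z (P Φ z) (le Φ z)) := by
  rw [W]; rfl

theorem W1 (z : Ordinal.{0}) (y : U) : (W Φ z).1 y ↔ Ok Φ z (P Φ z) (le Φ z) y := by rw [W_eq]

theorem W2 (z : Ordinal.{0}) (p q : F0) : (W Φ z).2 p q ↔ Le C z (P Φ z) (le Φ z) p q := by
  rw [W_eq]

theorem le_rfl' (z : Ordinal.{0}) (p : F0) : le Φ z p p := by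
  induction z using WellFoundedLT.induction generalizing p with
  | _ z ih => exact fun e he => (W2 Φ e p p).2 fun b d h a ha _ k =>
      ⟨a, ha, ih e he a, b, d, h, k, le_rfl⟩

variable {Φ}

theorem W2_of_sub {z : Ordinal.{0}} {p q : F0} (h : q.1 z ⊆ p.1 z) : (W Φ z).2 p q :=
  (W2 Φ z p q).2 fun b d k a ha _ k' => ⟨a, ha, le_rfl' Φ z a, b, d, h k, k', le_rfl⟩

theorem W2_of_empty {z : Ordinal.{0}} {p q : F0} (h : q.1 z = ∅) : (W Φ z).2 p q :=
  W2_of_sub (by rw [h]; exact ZFSet.empty_subset _)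

theorem le_trans' {z : Ordinal.{0}} {p q r : F0} (h : le Φ z p q) (h' : le Φ z q r) :
    le Φ z p r := by
  induction z using WellFoundedLT.induction generalizing p q r with
  | _ z ih =>
    refine fun e he => (W2 Φ e p r).2 fun b d k a ha k1 k2 => ?_
    obtain ⟨a', ha', k3, b', d', k4, k5, k6⟩ := (W2 Φ e q r).1 (h' e he) b d k a ha
      (ih e he k1 fun e' he' => h e' (he'.trans he)) k2
    obtain ⟨a'', ha'', k7, b'', d'', k8, k9, k10⟩ := (W2 Φ e p q).1 (h e he) b' d' k4 a' ha'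
      (ih e he k3 k1) k5
    exact ⟨a'', ha'', ih e he k7 k3, b'', d'', k8, k9, k10.trans k6⟩

theorem W2_congr {z : Ordinal.{0}} {p q p' q' : F0} (h : (W Φ z).2 p q)
    (hp : ∀ e ≤ z, p'.1 e = p.1 e) (hq : q'.1 z = q.1 z) : (W Φ z).2 p' q' := by
  refine (W2 Φ z p' q').2 fun b d k a ha k1 k2 => ?_
  rw [hp z le_rfl]
  exact (W2 Φ z p q).1 h b d (hq ▸ k) a ha
    (le_trans' k1 fun e he => W2_of_sub (by rw [hp e he.le])) k2

theorem ok_empty (z : Ordinal.{0}) : (W Φ z).1 ∅ :=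
  (W1 Φ z ∅).2 ⟨fun _ h => absurd h (ZFSet.notMem_empty _),
    fun _ _ _ _ h => absurd h (ZFSet.notMem_empty _)⟩

variable (Φ) in
/-- the stages as types -/
def St (z : Ordinal.{0}) : Type 1 := P Φ z

noncomputable instance (z : Ordinal.{0}) : Preorder (St Φ z) := pre (P Φ z) (le Φ z)

noncomputable instance (z : Ordinal.{0}) : Cd (St Φ z) := inferInstanceAs (Cd (P Φ z))

theorem St_le {z : Ordinal.{0}} {a b : St Φ z} : a ≤ b ↔ le Φ z a.1 b.1 := by
  refine ⟨fun h => ?_, fun h => Relation.ReflTransGen.single h⟩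
  induction h with
  | refl => exact le_rfl' Φ z _
  | tail _ h ih => exact le_trans' ih h

variable (Φ) in
/-- the conditions of the iteration -/
def X : Type 1 := {p : F0 // ∀ e, (W Φ e).1 (p.1 e)}

instance : Preorder (X Φ) where
  le p q := ∀ e, (W Φ e).2 p.1 q.1
  le_refl _ _ := W2_of_sub fun _ h => h
  le_trans _ _ _ h h' e := le_trans' (z := e + 1) (fun e _ => h e) (fun e _ => h' e) e (lt_add_one e)

noncomputable instance : Cd (X Φ) := inferInstanceAs (Cd {p : F0 // ∀ e, (W Φ e).1 (p.1 e)})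

/-- the value of a condition at a coordinate -/
def X.v (p : X Φ) (e : Ordinal.{0}) : U := p.1.1 e

theorem X.ext {p q : X Φ} (h : ∀ e, p.v e = q.v e) : p = q := Subtype.ext (Subtype.ext (funext h))

/-- amalgamation -/
noncomputable def am (ξ : Ordinal.{0}) (q r : X Φ) : X Φ :=
  ⟨⟨fun e => if e < ξ then q.v e else r.v e, (q.1.2.union r.1.2).mono fun e he => by
      by_cases h : e < ξ
      · exact Or.inl fun k => he ((if_pos h).trans k)
      · exact Or.inr fun k => he ((if_neg h).trans k)⟩,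
    fun e => by
      by_cases h : e < ξ
      · simp only [if_pos h]
        exact q.2 e
      · simp only [if_neg h]
        exact r.2 e⟩

/-- the trivial condition -/
def top : X Φ := ⟨⟨fun _ => ∅, by simp⟩, fun e => ok_empty e⟩

theorem am_v (ξ : Ordinal.{0}) (q r : X Φ) (e : Ordinal.{0}) :
    (am ξ q r).v e = if e < ξ then q.v e else r.v e := rfl

theorem top_v (e : Ordinal.{0}) : (top : X Φ).v e = ∅ := rfl

/-- restriction -/
noncomputable def rs0 (p : X Φ) (ξ : Ordinal.{0}) : X Φ := am ξ p top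

theorem rs0_v (p : X Φ) (ξ e : Ordinal.{0}) : (rs0 p ξ).v e = if e < ξ then p.v e else ∅ := rfl

theorem am_lt {ξ e : Ordinal.{0}} (q r : X Φ) (h : e < ξ) : (am ξ q r).v e = q.v e := if_pos h

theorem am_ge {ξ e : Ordinal.{0}} (q r : X Φ) (h : ¬ e < ξ) : (am ξ q r).v e = r.v e := if_neg h

theorem rs0_eq_iff {p : X Φ} {ξ : Ordinal.{0}} : rs0 p ξ = p ↔ ∀ e, p.v e ≠ ∅ → e < ξ := by
  refine ⟨fun h e he => ?_, fun h => X.ext fun e => ?_⟩
  · by_contra hc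
    exact he (by rw [← h]; exact am_ge _ _ hc)
  · by_cases he : e < ξ
    · exact am_lt _ _ he
    · rw [rs0, am_ge _ _ he]
      by_contra hc
      exact he (h e fun k => hc k.symm)

theorem le_rs0_iff {a p : X Φ} {ξ : Ordinal.{0}} : a ≤ rs0 p ξ ↔ le Φ ξ a.1 p.1 := by
  refine ⟨fun h e he => W2_congr (h e) (fun _ _ => rfl) (am_lt p top he).symm, fun h e => ?_⟩
  by_cases he : e < ξ
  · exact W2_congr (h e he) (fun _ _ => rfl) (am_lt p top he)
  · exact W2_of_empty (am_ge p top he)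

theorem rs0_le_iff {a p : X Φ} {ξ : Ordinal.{0}} : rs0 a ξ ≤ rs0 p ξ ↔ le Φ ξ a.1 p.1 := by
  rw [le_rs0_iff]
  exact ⟨fun h e he => W2_congr (h e he) (fun e' k => (am_lt a top (k.trans_lt he)).symm) rfl,
    fun h e he => W2_congr (h e he) (fun e' k => am_lt a top (k.trans_lt he)) rfl⟩

/-- the embedding of the stages -/
def io {z : Ordinal.{0}} (a : St Φ z) : X Φ := ⟨a.1, fun e => by
  by_cases h : e < z
  · exact a.2.2 e h
  · rw [show a.1.1 e = ∅ from by_contra fun k => h (a.2.1 e k)]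
    exact ok_empty e⟩

theorem rs0_io {z : Ordinal.{0}} (a : St Φ z) : rs0 (io a) z = io a := rs0_eq_iff.2 a.2.1

theorem io_le_iff {z : Ordinal.{0}} {p : X Φ} {a : St Φ z} : p ≤ io a ↔ le Φ z p.1 a.1 := by
  rw [← rs0_io, le_rs0_iff]; rfl

theorem io_le {z : Ordinal.{0}} {a b : St Φ z} : io a ≤ io b ↔ a ≤ b := io_le_iff.trans St_le.symm

theorem exists_io {z : Ordinal.{0}} {p : X Φ} (h : rs0 p z = p) : ∃ a : St Φ z, io a = p :=
  ⟨⟨p.1, rs0_eq_iff.1 h, fun e _ => p.2 e⟩, rfl⟩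

/-- membership of a pair in a coordinate -/
def Mem {z : Ordinal.{0}} (y : U) (a : St Φ z) (c : C) : Prop := cd (a.1, c) ∈ y

theorem mem_val {z : Ordinal.{0}} {p : X Φ} {b : F0} {d : C} (h : cd (b, d) ∈ p.v z) :
    ∃ a : St Φ z, a.1 = b ∧ Φ z (St Φ z) a d := by
  obtain ⟨a, c, h1, h2⟩ := ((W1 Φ z _).1 (p.2 z)).1 _ h
  obtain ⟨rfl, rfl⟩ := Prod.mk.inj (Cd.inj h1)
  exact ⟨a, rfl, h2⟩

theorem Mem.val {z : Ordinal.{0}} {p : X Φ} {b : St Φ z} {d : C} (h : Mem (p.v z) b d) :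
    Φ z (St Φ z) b d := by
  obtain ⟨a, h1, h2⟩ := mem_val h
  rwa [show a = b from Subtype.ext h1] at h2

theorem Mem.fnl {z : Ordinal.{0}} {p : X Φ} {a b b' : St Φ z} {d d' : C} (h : Mem (p.v z) b d)
    (h' : Mem (p.v z) b' d') (k : a ≤ b) (k' : a ≤ b') : d = d' :=
  ((W1 Φ z _).1 (p.2 z)).2 _ _ _ _ h h' a.1 a.2 (St_le.1 k) (St_le.1 k')

theorem W2_iff {z : Ordinal.{0}} {p q : X Φ} : (W Φ z).2 p.1 q.1 ↔
    ∀ (b : St Φ z) d, Mem (q.v z) b d → ∀ a : St Φ z, io a ≤ rs0 p z → a ≤ b →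
      ∃ a' ≤ a, ∃ (b' : St Φ z) (d' : C), Mem (p.v z) b' d' ∧ a' ≤ b' ∧ d' ≤ d := by
  rw [W2]
  refine ⟨fun h b d k a k1 k2 => ?_, fun h b d k a ha k1 k2 => ?_⟩
  · obtain ⟨a', ha', k3, b', d', k4, k5, k6⟩ := h b.1 d k a.1 a.2 (le_rs0_iff.1 k1) (St_le.1 k2)
    obtain ⟨b', rfl, -⟩ := mem_val k4
    exact ⟨⟨a', ha'⟩, St_le.2 k3, b', d', k4, St_le.2 k5, k6⟩
  · obtain ⟨b, rfl, -⟩ := mem_val k
    obtain ⟨a', k3, b', d', k4, k5, k6⟩ := h b d k ⟨a, ha⟩ (le_rs0_iff.2 k1) (St_le.2 k2)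
    exact ⟨a'.1, a'.2, St_le.1 k3, b'.1, d', k4, St_le.1 k5, k6⟩

/-- the condition with a single coordinate -/
noncomputable def one (z : Ordinal.{0}) (y : U) (h : (W Φ z).1 y) : X Φ :=
  ⟨⟨fun e => if e = z then y else ∅, (countable_singleton z).mono fun e he => by
      by_contra k
      exact he (if_neg k)⟩,
    fun e => by
      by_cases k : e = z
      · subst k
        simpa only [if_pos] using h
      · simpa only [if_neg k] using ok_empty e⟩

theorem one_v {z : Ordinal.{0}} {y : U} (h : (W Φ z).1 y) : (one z y h).v z = y := if_pos rfl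

theorem one_v' {z e : Ordinal.{0}} {y : U} (h : (W Φ z).1 y) (k : e ≠ z) : (one z y h).v e = ∅ :=
  if_neg k

theorem exists_ok {z : Ordinal.{0}} (s : Set (St Φ z × C)) [Small.{0} s]
    (h1 : ∀ w ∈ s, Φ z (St Φ z) w.1 w.2)
    (h2 : ∀ w ∈ s, ∀ w' ∈ s, ∀ a ≤ w.1, a ≤ w'.1 → w.2 = w'.2) :
    ∃ y, (W Φ z).1 y ∧ ∀ a c, Mem y a c ↔ (a, c) ∈ s := by
  obtain ⟨y, k1, k2⟩ := exists_code s
  refine ⟨y, (W1 Φ z y).2 ⟨fun x hx => ?_, fun a a' c c' k k' b hb j j' => ?_⟩,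
    fun a c => k1 (a, c)⟩
  · obtain ⟨w, hw, rfl⟩ := k2 x hx
    exact ⟨w.1, w.2, rfl, h1 w hw⟩
  · obtain ⟨w, hw, e⟩ := k2 _ k
    obtain ⟨w', hw', e'⟩ := k2 _ k'
    obtain ⟨rfl, rfl⟩ := Prod.mk.inj (Cd.inj (show cd (w.1.1, w.2) = cd (a, c) from e))
    obtain ⟨rfl, rfl⟩ := Prod.mk.inj (Cd.inj (show cd (w'.1.1, w'.2) = cd (a', c') from e'))
    exact h2 w hw w' hw' ⟨b, hb⟩ (St_le.2 j) (St_le.2 j')

theorem am_le {ξ : Ordinal.{0}} {q r : X Φ} (h : rs0 q ξ ≤ rs0 r ξ) : am ξ q r ≤ r := fun e => by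
  by_cases he : e < ξ
  · exact W2_congr (rs0_le_iff.1 h e he) (fun e' k => am_lt q r (k.trans_lt he)) rfl
  · exact W2_of_sub (le_of_eq (am_ge q r he).symm)

theorem le_am {ξ : Ordinal.{0}} {q r r' : X Φ} (h : r' ≤ rs0 q ξ) (h' : r' ≤ r) :
    r' ≤ am ξ q r := fun e => by
  by_cases he : e < ξ
  · exact W2_congr (le_rs0_iff.1 h e he) (fun _ _ => rfl) (am_lt q r he)
  · exact W2_congr (h' e) (fun _ _ => rfl) (am_ge q r he)

theorem le_rs0 (p : X Φ) (ξ : Ordinal.{0}) : p ≤ rs0 p ξ := le_rs0_iff.2 (le_rfl' Φ ξ _)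

theorem rs0_am_le {ξ η : Ordinal.{0}} (q r : X Φ) (h : η ≤ ξ) : rs0 (am ξ q r) η = rs0 q η :=
  X.ext fun e => by
    simp only [rs0_v, am_v]
    split_ifs with h1 h2
    exacts [rfl, absurd (h1.trans_le h) h2, rfl]

theorem rs0_am_ge {ξ η : Ordinal.{0}} (q r : X Φ) (h : ξ ≤ η) :
    rs0 (am ξ q r) η = am ξ q (rs0 r η) :=
  X.ext fun e => by
    simp only [rs0_v, am_v]
    split_ifs with h1 h2 h2
    exacts [rfl, rfl, absurd (h2.trans_le h) h1, rfl]

theorem rs0_rs0 (p : X Φ) (η ξ : Ordinal.{0}) : rs0 (rs0 p η) ξ = rs0 p (min η ξ) :=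
  X.ext fun e => by
    simp only [rs0_v, lt_min_iff]
    by_cases h1 : e < ξ <;> by_cases h2 : e < η <;> simp [h1, h2]

theorem reg (ξ : Ordinal.{0}) (r p : X Φ) (h : rs0 r ξ ≤ rs0 p ξ)
    (h' : ∀ q, rs0 q ξ = q → q ≤ rs0 r ξ → ∃ q', rs0 q' ξ = q' ∧ q' ≤ q ∧ am ξ q' r ≤ p) :
    r ≤ p := fun e => by
  by_cases he : e < ξ
  · exact rs0_le_iff.1 h e he
  have he' := not_lt.1 he
  refine W2_iff.2 fun b d k a k1 k2 => ?_
  obtain ⟨q', j1, j2, j3⟩ := h' (rs0 (io a) ξ) (by rw [rs0_rs0, min_self])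
    (rs0_le_iff.2 fun e' k => le_rs0_iff.1 k1 e' (k.trans_le he'))
  obtain ⟨a1, ha1⟩ := exists_io (z := e) (p := am ξ q' (io a)) (by rw [rs0_am_ge _ _ he', rs0_io])
  have j4 : io a1 ≤ io a := ha1 ▸ am_le (j1.symm ▸ j2)
  obtain ⟨a', k3, b', d', k4, k5⟩ := W2_iff.1 (j3 e) b d k a1 (by
    rw [rs0_am_ge _ _ he']
    refine le_am ?_ (j4.trans k1)
    rw [ha1, ← rs0_am_le q' (io a) le_rfl]
    exact le_rs0 _ _) ((io_le.1 j4).trans k2)
  exact ⟨a', k3.trans (io_le.1 j4), b', d', am_ge q' r he ▸ k4, k5⟩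

theorem lim (γ : ℕ → Ordinal.{0}) (q : ℕ → X Φ) (hγ : Monotone γ)
    (h2 : ∀ n, rs0 (q (n + 1)) (γ n) = q n) (h1 : ∀ n, rs0 (q n) (γ n) = q n) :
    ∃ r : X Φ, (∀ n, rs0 r (γ n) = q n) ∧ ∀ ζ, r.v ζ ≠ ∅ → ∃ n, ζ < γ n := by
  classical
  have key : ∀ n m e, n ≤ m → e < γ n → (q m).v e = (q n).v e := fun n m e h he => by
    induction h with
    | refl => rfl
    | @step m h ih => rw [← ih, ← h2 m, rs0, am_lt _ _ (he.trans_le (hγ h))]
  let r : X Φ := ⟨⟨fun e => if h : ∃ n, e < γ n then (q h.choose).v e else ∅,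
      (countable_iUnion fun n => (q n).1.2).mono fun e he => by
        by_cases h : ∃ n, e < γ n
        · exact mem_iUnion.2 ⟨h.choose, fun k => he ((dif_pos h).trans k)⟩
        · exact absurd (dif_neg h) he⟩,
    fun e => by
      by_cases h : ∃ n, e < γ n
      · simp only [dif_pos h]
        exact (q h.choose).2 e
      · simpa only [dif_neg h] using ok_empty e⟩
  refine ⟨r, fun n => X.ext fun e => ?_, fun ζ h => by_contra fun k => h (dif_neg k)⟩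
  by_cases he : e < γ n
  · have h : ∃ n, e < γ n := ⟨n, he⟩
    rw [rs0, am_lt _ _ he, show r.v e = (q h.choose).v e from dif_pos h,
      ← key _ _ e (le_max_left n h.choose) he, ← key _ _ e (le_max_right n h.choose) h.choose_spec]
  · rw [← h1 n, rs0, rs0, am_ge _ _ he, am_ge _ _ he]

section

variable (hs : ∀ ζ (P : Type 1) [Preorder P] [Cd P], Small.{0} P →
  Small.{0} {z : P × C | Φ ζ P z.1 z.2})

include hs

theorem small_St (z : Ordinal.{0}) : Small.{0} (St Φ z) := by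
  induction z using WellFoundedLT.induction with
  | _ z ih =>
    have : ∀ e : Iio z, Small.{0} {w : St Φ e.1 × C | Φ e.1 _ w.1 w.2} := fun e =>
      hs _ _ (ih e.1 e.2)
    refine small_of_injective (β := ∀ e : Iio z, Set {w : St Φ e.1 × C | Φ e.1 _ w.1 w.2})
      (f := fun a e => {w | Mem ((io a).v e.1) w.1.1 w.1.2}) fun a b h => ?_
    have key : ∀ a b : St Φ z, ∀ e : Iio z, (∀ w : {w : St Φ e.1 × C | Φ e.1 _ w.1 w.2},
        Mem ((io a).v e.1) w.1.1 w.1.2 → Mem ((io b).v e.1) w.1.1 w.1.2) →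
        (io a).v e.1 ⊆ (io b).v e.1 := fun a b e k x hx => by
      obtain ⟨a', c, rfl, k1⟩ := ((W1 Φ e.1 _).1 ((io a).2 e.1)).1 x hx
      exact k ⟨(a', c), k1⟩ hx
    refine Subtype.ext (Subtype.ext (funext fun e => ?_))
    by_cases he : e < z
    · have := Set.ext_iff.1 (congrFun h ⟨e, he⟩)
      exact ZFSet.ext fun x => ⟨fun k => key a b ⟨e, he⟩ (fun w => (this w).1) k,
        fun k => key b a ⟨e, he⟩ (fun w => (this w).2) k⟩
    · rw [show a.1.1 e = ∅ from by_contra fun k => he (a.2.1 e k),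
        show b.1.1 e = ∅ from by_contra fun k => he (b.2.1 e k)]

theorem small_PP (z : Ordinal.{0}) : Small.{0} {p : X Φ | rs0 p z = p} := by
  have := small_St hs z
  exact small_of_surjective (f := fun a : St Φ z => (⟨io a, rs0_io a⟩ : {p : X Φ | rs0 p z = p}))
    fun p => let ⟨a, ha⟩ := exists_io p.2; ⟨a, Subtype.ext ha⟩

theorem mix (hm : ∀ ζ (P : Type 1) [Preorder P] [Cd P] (p q : P) c, q ≤ p → Φ ζ P p c → Φ ζ P q c)
    (ζ : Ordinal.{0}) (A : X Φ → X Φ → Prop)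
    (h1 : ∀ a r, A a r → rs0 a ζ = a ∧ rs0 r (ζ + 1) = r ∧ a ≤ rs0 r ζ)
    (h2 : ∀ a r a', rs0 a' ζ = a' → a' ≤ a → A a r → A a' r)
    (h3 : ∀ a r r', A a r → A a r' → r = r') :
    ∃ w, rs0 w (ζ + 1) = w ∧ ∀ a r, A a r → am ζ a w ≤ r := by
  let s : Set (St Φ ζ × C) := {w | ∃ r b, A (io w.1) r ∧ Mem (r.v ζ) b w.2 ∧ w.1 ≤ b}
  have k1 : ∀ w ∈ s, Φ ζ (St Φ ζ) w.1 w.2 := fun w ⟨r, b, _, j1, j2⟩ => hm _ _ _ _ _ j2 j1.val
  have := hs ζ _ (small_St hs ζ)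
  have : Small.{0} s := small_subset (s := {z : St Φ ζ × C | Φ ζ _ z.1 z.2}) k1
  obtain ⟨y, k2, k3⟩ := exists_ok s k1 fun w ⟨r, b, j1, j2, j3⟩ w' ⟨r', b', j4, j5, j6⟩ a j7 j8 => by
    obtain rfl := h3 _ _ _ (h2 _ _ _ (rs0_io a) (io_le.2 j7) j1) (h2 _ _ _ (rs0_io a) (io_le.2 j8) j4)
    exact j2.fnl j5 (j7.trans j3) (j8.trans j6)
  refine ⟨one ζ y k2, rs0_eq_iff.2 fun e he => ?_, fun a r h e => ?_⟩
  · rw [show e = ζ from by_contra fun k => he (one_v' k2 k)]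
    exact lt_add_one ζ
  obtain ⟨j1, j2, j3⟩ := h1 a r h
  rcases lt_trichotomy e ζ with he | rfl | he
  · exact W2_congr (le_rs0_iff.1 j3 e he) (fun e' k => am_lt _ _ (k.trans_lt he)) rfl
  · refine W2_iff.2 fun b d k a1 j4 j5 => ⟨a1, le_rfl, a1, d, ?_, le_rfl, le_rfl⟩
    rw [rs0_am_le _ _ le_rfl, j1] at j4
    rw [am_ge _ _ (lt_irrefl e), one_v]
    exact (k3 a1 d).2 ⟨r, b, h2 _ _ _ (rs0_io a1) j4 h, k, j5⟩
  · exact W2_of_empty (by_contra fun k => (Order.add_one_le_of_lt he).not_gt (rs0_eq_iff.1 j2 e k))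

end

theorem ok_single {z : Ordinal.{0}} {a : St Φ z} {c : C} (h : Φ z (St Φ z) a c) :
    (W Φ z).1 {cd (a.1, c)} :=
  (W1 Φ z _).2 ⟨fun _ hx => ⟨a, c, (ZFSet.mem_singleton.1 hx).symm, h⟩,
    fun _ _ _ _ k k' _ _ _ _ => (Prod.mk.inj (Cd.inj (ZFSet.mem_singleton.1 k))).2.trans
      (Prod.mk.inj (Cd.inj (ZFSet.mem_singleton.1 k'))).2.symm⟩

open Classical in
/-- the condition of the next stage given by a valid pair -/
noncomputable def cond {z : Ordinal.{0}} (a : St Φ z) (c : C) : X Φ :=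
  if h : Φ z (St Φ z) a c then am z (io a) (one z _ (ok_single h)) else top

section

variable {z : Ordinal.{0}} {a : St Φ z} {c : C} (h : Φ z (St Φ z) a c)

include h

theorem cond_eq : cond a c = am z (io a) (one z _ (ok_single h)) := dif_pos h

theorem mem_cond {b : St Φ z} {d : C} : Mem ((cond a c).v z) b d ↔ b = a ∧ d = c := by
  rw [cond_eq h, am_ge _ _ (lt_irrefl z), one_v, Mem, ZFSet.mem_singleton]
  exact ⟨fun k => ⟨Subtype.ext (Prod.mk.inj (Cd.inj k)).1, (Prod.mk.inj (Cd.inj k)).2⟩,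
    fun ⟨k, k'⟩ => by rw [k, k']⟩

theorem rs0_cond : rs0 (cond a c) z = io a := by rw [cond_eq h, rs0_am_le _ _ le_rfl, rs0_io]

theorem cond_mem : rs0 (cond a c) (z + 1) = cond a c := rs0_eq_iff.2 fun e he => by
  rcases lt_trichotomy e z with k | rfl | k
  · exact k.trans (lt_add_one z)
  · exact lt_add_one e
  · exact absurd (by rw [cond_eq h, am_ge _ _ k.le.not_gt, one_v' _ k.ne']) he

theorem cond_le {p : X Φ} (h1 : io a ≤ rs0 p z)
    (h2 : ∀ (b : St Φ z) d, Mem (p.v z) b d → ∀ a' ≤ a, a' ≤ b → c ≤ d) :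
    cond a c ≤ rs0 p (z + 1) := le_rs0_iff.2 fun e he => by
  rcases (Order.lt_add_one_iff.1 he).lt_or_eq with k | rfl
  · exact rs0_le_iff.1 ((rs0_cond h).symm ▸ h1) e k
  · refine W2_iff.2 fun b d k a1 j1 j2 => ?_
    rw [rs0_cond h, io_le] at j1
    exact ⟨a1, le_rfl, a, c, (mem_cond h).2 ⟨rfl, rfl⟩, j1, h2 b d k a1 j1 j2⟩

theorem of_le_cond {p : X Φ} (h1 : p ≤ cond a c) {q : St Φ z} (h2 : io q ≤ rs0 p z) :
    ∃ a' ≤ q, ∃ (b : St Φ z) (d : C), Mem (p.v z) b d ∧ a' ≤ b ∧ d ≤ c :=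
  W2_iff.1 (h1 z) a c ((mem_cond h).2 ⟨rfl, rfl⟩) q h2
    (io_le.1 (h2.trans (rs0_cond h ▸ rs0_le_iff.2 fun e _ => h1 e)))

end

theorem conc : ConcStmt := by
  intro C _ _ Φ hm hn hs
  let i : Itr (X Φ) :=
    { rs := rs0
      amal := am
      supp := fun p => {e | p.v e ≠ ∅}
      ne := ⟨top⟩
      le_rs := le_rs0
      rs_mono := fun _ h => rs0_le_iff.2 fun e _ => h e
      rs_rs := rs0_rs0
      rs_zero := fun p q => X.ext fun e => by simp [rs0_v]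
      rs_amal_le := rs0_am_le
      rs_amal_ge := rs0_am_ge
      amal_amal := fun a q r h => X.ext fun e => by
        simp only [am_v]
        split_ifs with h1 h2
        exacts [rfl, absurd (h2.trans_le h) h1, rfl]
      amal_le := am_le
      le_amal := le_am
      reg := reg
      supp_ctble := fun p => p.1.2
      le_of_supp := fun r p h e => by
        by_cases he : p.v e = ∅
        · exact W2_of_empty he
        · exact rs0_le_iff.1 (h e he) e (lt_add_one e)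
      rs_eq_iff := fun _ _ => rs0_eq_iff
      lim := fun γ q h1 h2 h3 => lim γ q h1 h3 h2
      mix := mix hs hm
      small := small_PP hs }
  refine ⟨X Φ, inferInstance, i, inferInstance,
    { St := St Φ
      ι := io
      ι_le := io_le
      ι_range := ⟨exists_io, fun ⟨a, h⟩ => h ▸ rs0_io a⟩
      ι_cd := fun _ => rfl
      Val := fun {ζ} a c => Φ ζ (St Φ ζ) a c
      small_val := fun ζ => hs ζ _ (small_St hs ζ)
      cond := cond
      cond_mem := cond_mem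
      rs_cond := rs0_cond
      cond_mono := fun {ζ a a' c c'} h h' k k' => ?_
      exists_cond := fun {ζ} q p h => ?_
      dir := fun {ζ} q a₁ a₂ c₁ c₂ p h1 h2 h3 h4 h5 => ?_
      cond_triv := fun {ζ a c} p h1 h2 h3 => ?_ }, fun _ _ _ => Iff.rfl⟩
  · rw [← cond_mem h']
    exact cond_le h ((rs0_cond h').symm ▸ io_le.2 k) fun b d j _ _ _ => ((mem_cond h').1 j).2 ▸ k'
  · by_cases hc : ∃ (b : St Φ ζ) (d : C), Mem (p.v ζ) b d ∧ ∃ a ≤ q, a ≤ b
    · obtain ⟨b, d, k1, a, k2, k3⟩ := hc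
      have k4 := hm _ _ _ _ _ k3 k1.val
      exact ⟨a, k2, d, k4, cond_le k4 ((io_le.2 k2).trans h)
        fun b' d' j a' j1 j2 => (k1.fnl j (j1.trans k3) j2).le⟩
    · obtain ⟨c, k⟩ := hn ζ (St Φ ζ) q
      exact ⟨q, le_rfl, c, k, cond_le k h fun b d j a' j1 j2 => absurd ⟨b, d, j, a', j1, j2⟩ hc⟩
  · obtain ⟨a', k1, b, d, k2, k3, k4⟩ := of_le_cond h1 h3 h5
    obtain ⟨a, j1, b', d', j2, j3, j4⟩ := of_le_cond h2 h4 ((io_le.2 k1).trans h5)
    obtain rfl := k2.fnl j2 (j1.trans k3) j3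
    have k5 := hm _ _ _ _ _ j3 j2.val
    exact ⟨a, j1.trans k1, d, k4, j4, k5, cond_le k5 ((io_le.2 (j1.trans k1)).trans h5)
      fun b'' d'' j a'' i1 i2 => (j2.fnl j (i1.trans j3) i2).le⟩
  · refine cond_le h2 h3 fun b d j => ?_
    rw [Mem, show p.v ζ = ∅ from not_not.1 h1] at j
    exact absurd j (ZFSet.notMem_empty _)

end Pool.Agent.Ctry.Conc
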