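import Mathlib.ModelTheory.Graph

/-! Models of ZFC: structures `(M, E)`, where `E a b` is read as `a ∈ b`, and the notions of the
problem read inside such a structure. -/

open FirstOrder

namespace Pool.Agent.Ctry


variable {M : Type 2} (E : M → M → Prop)

/-- `x ⊆ y` -/
def ISub (x y : M) : Prop := ∀ z, E z x → E z y

/-- `w` is inductive -/
def IInd (w : M) : Prop :=
  (∃ e, E e w ∧ ∀ z, ¬ E z e) ∧ ∀ x, E x w → ∃ y, E y w ∧ ∀ z, E z y ↔ E z x ∨ z = x

/-- `w = ω` -/
def IOmega (w : M) : Prop := IInd E w ∧ ∀ z, IInd E z → ISub E w z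

/-- `z = {a, b}` -/
def IPair (a b z : M) : Prop := ∀ t, E t z ↔ t = a ∨ t = b

/-- the Kuratowski pair `(a, b)` belongs to `s` -/
def IApp (s a b : M) : Prop :=
  ∃ z, E z s ∧ ∃ u v, IPair E a a u ∧ IPair E a b v ∧ IPair E u v z

/-- `(M, E)` as a first-order structure for the language with one binary relation -/
@[reducible] def relStr : Language.graph.Structure M where
  RelMap | .adj => fun v => E (v 0) (v 1)

/-- truth of a first-order formula in `(M, E)` -/
def Holds (φ : Language.graph.Formula ℕ) (v : ℕ → M) : Prop :=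
  @Language.Formula.Realize _ _ (relStr E) _ φ v

/-- `(M, E)` is a model of ZFC -/
structure ZFC : Prop where
  ext : ∀ x y, ISub E x y → ISub E y x → x = y
  found : ∀ x a, E a x → ∃ y, E y x ∧ ∀ z, E z y → ¬ E z x
  pair : ∀ a b, ∃ y, E a y ∧ E b y
  union : ∀ x, ∃ y, ∀ a b, E a b → E b x → E a y
  power : ∀ x, ∃ y, ∀ z, ISub E z x → E z y
  inf : ∃ w, IInd E w
  sep : ∀ φ v x, ∃ y, ∀ z, E z y ↔ E z x ∧ Holds E φ (Function.update v 0 z)
  coll : ∀ φ v x,
    (∀ a, E a x → ∃ b, Holds E φ (Function.update (Function.update v 0 a) 1 b)) →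
      ∃ y, ∀ a, E a x → ∃ b, E b y ∧ Holds E φ (Function.update (Function.update v 0 a) 1 b)
  choice : ∀ x, (∀ y z a, E y x → E z x → E a y → E a z → y = z) →
    ∃ c, ∀ y a, E y x → E a y → ∃ b, E b y ∧ E b c ∧ ∀ b', E b' y → E b' c → b' = b

/-- `f` is a function: at most one value at each argument -/
def IFunc (f : M) : Prop := ∀ a b b', IApp E f a b → IApp E f a b' → b = b'

/-- `x` is countable: it is covered by the values of a function at elements of `w = ω` -/
def ICtble (w x : M) : Prop := ∃ f, IFunc E f ∧ ∀ y, E y x → ∃ n, E n w ∧ IApp E f n y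

/-- `o = ω₁`: an uncountable ordinal all of whose elements are countable -/
def IOmega1 (w o : M) : Prop :=
  (∀ x y, E x y → E y o → E x o) ∧ (∀ x y, E x o → E y o → E x y ∨ x = y ∨ E y x) ∧
    ¬ ICtble E w o ∧ ∀ x, E x o → ICtble E w x

/-- the continuum hypothesis: every subset of `ω` is a value of one function at some `a ∈ ω₁` -/
def ICH (w o : M) : Prop := ∃ f, IFunc E f ∧ ∀ x, ISub E x w → ∃ a, E a o ∧ IApp E f a x

/-- `r` is a strict linear order on `L` -/
def ILin (L r : M) : Prop :=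
  (∀ x, E x L → ¬ IApp E r x x) ∧
    (∀ x y z, E x L → E y L → E z L → IApp E r x y → IApp E r y z → IApp E r x z) ∧
    ∀ x y, E x L → E y L → IApp E r x y ∨ x = y ∨ IApp E r y x

/-- there is a strictly increasing map from the ordinal `o` into `(L, r)` -/
def IInc (o L r : M) : Prop := ∃ f, IFunc E f ∧ (∀ a, E a o → ∃ x, E x L ∧ IApp E f a x) ∧
  ∀ a b x y, E a b → E b o → IApp E f a x → IApp E f b y → IApp E r x y

/-- there is a strictly decreasing map from the ordinal `o` into `(L, r)` -/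
def IDec (o L r : M) : Prop := ∃ f, IFunc E f ∧ (∀ a, E a o → ∃ x, E x L ∧ IApp E f a x) ∧
  ∀ a b x y, E a b → E b o → IApp E f a x → IApp E f b y → IApp E r y x

/-- the suborder `(X, r)` is separable in its order topology: a countable `D ⊆ X` meets every
nonempty open interval and every nonempty open ray of `X` -/
def ISep (w X r : M) : Prop := ∃ D, ISub E D X ∧ ICtble E w D ∧
  (∀ a x b, E a X → E x X → E b X → IApp E r a x → IApp E r x b →
    ∃ d, E d D ∧ IApp E r a d ∧ IApp E r d b) ∧
  (∀ x b, E x X → E b X → IApp E r x b → ∃ d, E d D ∧ IApp E r d b) ∧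
  ∀ a x, E a X → E x X → IApp E r a x → ∃ d, E d D ∧ IApp E r a d

/-- `(L, r)` is an Aronszajn line -/
def IAron (w o L r : M) : Prop := ILin E L r ∧ ¬ ICtble E w L ∧ ¬ IInc E o L r ∧ ¬ IDec E o L r ∧
  ∀ X, ISub E X L → ¬ ICtble E w X → ¬ ISep E w X r

/-- `x ≤ y` for the strict order `r` -/
def ILe (r x y : M) : Prop := x = y ∨ IApp E r x y

/-- the set of pairs `K` is a chain in the coordinatewise order -/
def IChain (r K : M) : Prop := ∀ x y x' y', IApp E K x y → IApp E K x' y' →
  (ILe E r x x' ∧ ILe E r y y') ∨ (ILe E r x' x ∧ ILe E r y' y)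

/-- `(C, r)` is a Countryman line: uncountable, and `C × C` is the union of a sequence of chains -/
def ICtry (w C r : M) : Prop := ¬ ICtble E w C ∧ ∃ s, IFunc E s ∧
  (∀ n K, E n w → IApp E s n K → IChain E r K ∧ ∀ x y, IApp E K x y → E x C ∧ E y C) ∧
  ∀ x y, E x C → E y C → ∃ n K, E n w ∧ IApp E s n K ∧ IApp E K x y

end Pool.Agent.Ctry
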