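import Pool.Agent.MP_77405c_lc.Spec

/-! The forcing adding a homogeneous subtree: a maximal invariant family of null pairs. -/

open Set

namespace Pool.Agent.Ctry.Kf

/-- names for subsets of `T` -/
abbrev Nm (P : Type 1) : Type 1 := T → P → Prop

variable {P : Type 1}

/-- inclusion of names -/
def In (R Z : Nm P) : Prop := ∀ y r, R y r → Z y r

theorem In.refl (R : Nm P) : In R R := fun _ _ h => h

theorem In.trans {R Z W : Nm P} (h : In R Z) (h' : In Z W) : In R W := fun y r k => h' y r (h y r k)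

/-- translation of a name -/
def sh (d : G) (Z : Nm P) : Nm P := fun y => Z (y.add d)

theorem sh_sh (d d' : G) (Z : Nm P) : sh d' (sh d Z) = sh (d' + d) Z :=
  funext fun y => congrArg Z (y.add_add d' d)

theorem sh_zero (Z : Nm P) : sh 0 Z = Z := funext fun y => congrArg Z y.add_zero

variable [Preorder P]

theorem unb_mono {Y : Type} [Tr Y] {Γ : Y → P → Prop} {p q : P} (h : Unb p Γ) (k : q ≤ p) :
    Unb q Γ := fun r hr => h r (hr.trans k)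

theorem prn_mono {Y : Type} [Tr Y] {Γ : Y → P → Prop} {p q : P} (h : Prn p Γ) (k : q ≤ p) :
    Prn q Γ := fun r hr => h r (hr.trans k)

theorem cl_T (p : P) (Z : Nm P) : CL p Z := fun q _ g =>
  ⟨q, le_rfl, _, T.ctble_level g, fun _ _ _ _ h => h⟩

/-- a name that some condition forces to be an uncountable subtree -/
def Tre (R : Nm P) : Prop := Opn R ∧ Dc R ∧ ∃ q, Unb q R

theorem Tre.sh {R : Nm P} (h : Tre R) (d : G) : Tre (sh d R) :=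
  ⟨fun _ => h.1 _, fun y p g k => by
    have := h.2.1 _ p g k
    rwa [T.res_add] at this, by
    obtain ⟨q, hq⟩ := h.2.2
    refine ⟨q, fun r hr g => ?_⟩
    obtain ⟨r', k1, y, k2, k3⟩ := hq r hr g
    exact ⟨r', k1, y.add (-d), k2, by
      rw [Kf.sh, T.add_add, neg_add_cancel, T.add_zero]; exact k3⟩⟩

/-- the splitting nodes of `R` in `C` are covered by the second entries of `l` -/
def Cov (R C : Nm P) (l : List (Nm P × Nm P)) : Prop := ∀ (x y w : T) r, R x r → R y r →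
  Sp x.1 y.1 w.1 → C w r → ∃ r' ≤ r, ∃ z ∈ l, z.2 w r'

/-- `C` is null on `R` by finitely many members of `J` -/
def Nul (J : Set (Nm P × Nm P)) (R C : Nm P) : Prop :=
  ∃ l, (∀ z ∈ l, z ∈ J ∧ In R z.1) ∧ Cov R C l

/-- invariant and consistent families -/
def Fine (J : Set (Nm P × Nm P)) : Prop := (∀ z ∈ J, ∀ d, (sh d z.1, sh d z.2) ∈ J) ∧
  ∀ R, Tre R → ¬ Nul J R fun _ _ => True

theorem exists_max (hB : ∀ p : P, NoBr p fun (_ : T) _ => True) :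
    ∃ J : Set (Nm P × Nm P), Maximal Fine J := by
  refine zorn_subset {J | Fine J} fun c hc hch => ⟨⋃₀ c, ⟨?_, ?_⟩, fun s hs => subset_sUnion_of_mem hs⟩
  · rintro z ⟨J, h1, h2⟩ d
    exact ⟨J, h1, (hc h1).1 z h2 d⟩
  rintro R hR ⟨l, h1, h2⟩
  have key : ∀ l : List (Nm P × Nm P), (∀ z ∈ l, z ∈ ⋃₀ c) → l = [] ∨ ∃ J ∈ c, ∀ z ∈ l, z ∈ J := by
    intro l
    induction l with
    | nil => exact fun _ => Or.inl rfl
    | cons z l ih =>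
      intro h
      obtain ⟨J, k1, k2⟩ := h z (by simp)
      rcases ih fun z hz => h z (by simp [hz]) with rfl | ⟨J', k3, k4⟩
      · exact Or.inr ⟨J, k1, by simpa using k2⟩
      · rcases hch.total k1 k3 with e | e
        · exact Or.inr ⟨J', k3, List.forall_mem_cons.2 ⟨e k2, k4⟩⟩
        · exact Or.inr ⟨J, k1, List.forall_mem_cons.2 ⟨k2, fun z hz => e (k4 z hz)⟩⟩
  rcases key l fun z hz => (h1 z hz).1 with rfl | ⟨J, k1, k2⟩
  · obtain ⟨q, hq⟩ := hR.2.2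
    refine hB q q le_rfl R hR.1 hR.2.1 hq (fun _ _ _ _ => trivial) fun r _ x y k1 k2 k3 => ?_
    by_contra hn
    rcases lx_of_ne (fun e => hn (T.ext e)) k3 with ⟨w, e⟩ | ⟨w, e⟩
    · obtain ⟨w, rfl⟩ := e.exists_T
      simpa using h2 x y w r k1 k2 e trivial
    · obtain ⟨w, rfl⟩ := e.exists_T
      simpa using h2 y x w r k2 k1 e trivial
  · exact (hc k1).2 R hR ⟨l, fun z hz => ⟨k2 z hz, (h1 z hz).2⟩, h2⟩

variable {J : Set (Nm P × Nm P)} {Z C R : Nm P} {p q : P}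

theorem Nul.sh (hJ : Fine J) (h : Nul J R C) (d : G) : Nul J (sh d R) (sh d C) := by
  obtain ⟨l, h1, h2⟩ := h
  refine ⟨l.map fun z => (Kf.sh d z.1, Kf.sh d z.2), fun z hz => ?_, fun x y w r k1 k2 k3 k4 => ?_⟩
  · obtain ⟨z, k, rfl⟩ := List.mem_map.1 hz
    exact ⟨hJ.1 z (h1 z k).1 d, fun y => (h1 z k).2 _⟩
  · obtain ⟨r', k5, z, k6, k7⟩ := h2 _ _ _ r k1 k2 (T.sp_add k3 d) k4
    exact ⟨r', k5, _, List.mem_map_of_mem k6, k7⟩

/-- a pair that is hereditarily somewhere null is in the family -/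
theorem master (hJ : Maximal Fine J)
    (h : ∀ R, Tre R → In R Z → ∃ R', Tre R' ∧ In R' R ∧ Nul J R' C) : (Z, C) ∈ J := by
  let J' : Set (Nm P × Nm P) :=
    {z | ∀ R, Tre R → In R z.1 → ∃ R', Tre R' ∧ In R' R ∧ Nul J R' z.2}
  have h1 : J ⊆ J' := fun z hz R k1 k2 => ⟨R, k1, In.refl R, [z], by simpa using ⟨hz, k2⟩,
    fun x y w r _ _ _ k => ⟨r, le_rfl, z, by simp, k⟩⟩
  refine hJ.2 (y := J') ⟨fun z hz d R k1 k2 => ?_, ?_⟩ h1 h
  · obtain ⟨R', k3, k4, k5⟩ := hz _ (k1.sh (-d)) fun y r k => by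
      have : z.1 ((y.add (-d)).add d) r := k2 _ r k
      rwa [T.add_add, neg_add_cancel, T.add_zero] at this
    refine ⟨_, k3.sh d, fun y r k => ?_, k5.sh hJ.1 d⟩
    have : R ((y.add d).add (-d)) r := k4 _ r k
    rwa [T.add_add, add_neg_cancel, T.add_zero] at this
  rintro R hR ⟨l', k1, k2⟩
  have key : ∀ l' : List (Nm P × Nm P), (∀ z ∈ l', z ∈ J' ∧ In R z.1) → ∃ R', Tre R' ∧ In R' R ∧
      ∃ l, (∀ z ∈ l, z ∈ J ∧ In R' z.1) ∧ ∀ z' ∈ l', Cov R' z'.2 l := by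
    intro l'
    induction l' with
    | nil => exact fun _ => ⟨R, hR, In.refl R, [], by simp, by simp⟩
    | cons z l' ih =>
      intro h
      obtain ⟨R', a1, a2, l, a3, a4⟩ := ih fun z hz => h z (by simp [hz])
      obtain ⟨b1, b2⟩ := h z (by simp)
      obtain ⟨R'', c1, c2, l'', c3, c4⟩ := b1 R' a1 (a2.trans b2)
      refine ⟨R'', c1, c2.trans a2, l ++ l'', List.forall_mem_append.2
        ⟨fun z hz => ⟨(a3 z hz).1, c2.trans (a3 z hz).2⟩, c3⟩, List.forall_mem_cons.2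
        ⟨fun x y w r e1 e2 e3 e4 => ?_, fun z' hz' x y w r e1 e2 e3 e4 => ?_⟩⟩
      · obtain ⟨r', e5, z, e6, e7⟩ := c4 x y w r e1 e2 e3 e4
        exact ⟨r', e5, z, List.mem_append_right _ e6, e7⟩
      · obtain ⟨r', e5, z, e6, e7⟩ := a4 z' hz' x y w r (c2 _ _ e1) (c2 _ _ e2) e3 e4
        exact ⟨r', e5, z, List.mem_append_left _ e6, e7⟩
  obtain ⟨R', a1, a2, l, a3, a4⟩ := key l' k1
  refine hJ.1.2 R' a1 ⟨l, a3, fun x y w r e1 e2 e3 _ => ?_⟩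
  obtain ⟨r', e4, z, e5, e6⟩ := k2 x y w r (a2 _ _ e1) (a2 _ _ e2) e3 trivial
  obtain ⟨r'', e7, e8⟩ := a4 z e5 x y w r' (a1.1 _ _ _ e4 e1) (a1.1 _ _ _ e4 e2) e3 e6
  exact ⟨r'', e7.trans e4, e8⟩

theorem mem_of_nul (hJ : Maximal Fine J) (h : Nul J Z C) : (Z, C) ∈ J :=
  let ⟨l, h1, h2⟩ := h
  master hJ fun R k1 k2 => ⟨R, k1, In.refl R, l, fun z hz => ⟨(h1 z hz).1, k2.trans (h1 z hz).2⟩,
    fun x y w r e1 e2 => h2 x y w r (k2 _ _ e1) (k2 _ _ e2)⟩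

/-- the orbit of a pair outside the family makes the family inconsistent -/
theorem orbit (hJ : Maximal Fine J) (h : (Z, C) ∉ J) : ∃ R, Tre R ∧ ∃ (l : List (Nm P × Nm P))
    (ds : List G), (∃ d, d ∈ ds) ∧ (∀ z ∈ l, z ∈ J ∧ In R z.1) ∧ (∀ d ∈ ds, In R (sh d Z)) ∧
      ∀ (x y w : T) r, R x r → R y r → Sp x.1 y.1 w.1 →
        ∃ r' ≤ r, (∃ z ∈ l, z.2 w r') ∨ ∃ d ∈ ds, C (w.add d) r' := by
  let J' : Set (Nm P × Nm P) := {z | z ∈ J ∨ ∃ d, z = (sh d Z, sh d C)}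
  have h1 : ¬ ∀ R, Tre R → ¬ Nul J' R fun _ _ => True := fun k => h (hJ.2 (y := J') ⟨?_, k⟩
    (fun z hz => Or.inl hz) (Or.inr ⟨0, by rw [sh_zero, sh_zero]⟩))
  swap
  · rintro z (hz | ⟨d, rfl⟩) d'
    · exact Or.inl (hJ.1.1 z hz d')
    · exact Or.inr ⟨d' + d, by rw [sh_sh, sh_sh]⟩
  push Not at h1
  obtain ⟨R, hR, l', k1, k2⟩ := h1
  have key : ∀ l' : List (Nm P × Nm P), (∀ z ∈ l', z ∈ J' ∧ In R z.1) →
      ∃ (l : List (Nm P × Nm P)) (ds : List G), (∀ z ∈ l, z ∈ J ∧ In R z.1) ∧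
        (∀ d ∈ ds, In R (sh d Z)) ∧ ∀ z ∈ l', z ∈ l ∨ ∃ d ∈ ds, z.2 = sh d C := by
    intro l'
    induction l' with
    | nil => exact fun _ => ⟨[], [], by simp, by simp, by simp⟩
    | cons z l' ih =>
      intro h
      obtain ⟨l, ds, a1, a2, a3⟩ := ih fun z hz => h z (by simp [hz])
      obtain ⟨b1 | ⟨d, rfl⟩, b2⟩ := h z (by simp)
      · exact ⟨z :: l, ds, List.forall_mem_cons.2 ⟨⟨b1, b2⟩, a1⟩, a2, List.forall_mem_cons.2
          ⟨Or.inl (by simp), fun z hz => (a3 z hz).imp_left (List.mem_cons_of_mem _)⟩⟩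
      · exact ⟨l, d :: ds, a1, List.forall_mem_cons.2 ⟨b2, a2⟩, List.forall_mem_cons.2
          ⟨Or.inr ⟨d, by simp, rfl⟩, fun z hz => (a3 z hz).imp_right
            fun ⟨d', c1, c2⟩ => ⟨d', List.mem_cons_of_mem _ c1, c2⟩⟩⟩
  obtain ⟨l, ds, a1, a2, a3⟩ := key l' k1
  have a4 : ∀ (x y w : T) r, R x r → R y r → Sp x.1 y.1 w.1 →
      ∃ r' ≤ r, (∃ z ∈ l, z.2 w r') ∨ ∃ d ∈ ds, C (w.add d) r' := fun x y w r e1 e2 e3 => by
    obtain ⟨r', e4, z, e5, e6⟩ := k2 x y w r e1 e2 e3 trivial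
    exact ⟨r', e4, (a3 z e5).imp (fun k => ⟨z, k, e6⟩) fun ⟨d, c1, c2⟩ => ⟨d, c1, by
      rw [c2] at e6; exact e6⟩⟩
  refine ⟨R, hR, l, ds, by_contra fun hn => hJ.1.2 R hR ⟨l, a1, fun x y w r e1 e2 e3 _ => ?_⟩,
    a1, a2, a4⟩
  obtain ⟨r', e4, e5⟩ := a4 x y w r e1 e2 e3
  exact ⟨r', e4, e5.resolve_right fun ⟨d, c, _⟩ => hn ⟨d, c⟩⟩

variable (J) in
/-- `C` is positive on every subtree of `Z` -/
def Pos (Z C : Nm P) : Prop := ∀ R, Tre R → In R Z → (R, C) ∉ J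

theorem Pos.mono (h : Pos J Z C) (k : In R Z) : Pos J R C := fun R' k1 k2 => h R' k1 (k2.trans k)

/-- a pruned tree on which `C` is positive -/
def PT (J : Set (Nm P × Nm P)) (p : P) (Z C : Nm P) : Prop :=
  Opn Z ∧ Dc Z ∧ Unb p Z ∧ Prn p Z ∧ Pos J Z C

theorem exists_pt (h1 : PruneStmt) (hD : Dist (univ : Set P)) (k1 : Opn Z) (k2 : Dc Z)
    (k3 : Unb p Z) (k4 : Pos J Z C) : ∃ Z', In Z' Z ∧ PT J p Z' C :=
  let ⟨Z', a1, a2, a3, a4, a5⟩ := h1 P hD T Z p k1 k2 (cl_T p Z) k3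
  ⟨Z', a3, a1, a2, a4, a5, k4.mono a3⟩

theorem exists_pos (h1 : PruneStmt) (hD : Dist (univ : Set P)) (hJ : Maximal Fine J)
    (h : (Z, C) ∉ J) (hp : ∀ y r, Z y r → r ≤ p) : ∃ r ≤ p, ∃ Z', In Z' Z ∧ PT J r Z' C := by
  have k : ¬ ∀ R, Tre R → In R Z → ∃ R', Tre R' ∧ In R' R ∧ Nul J R' C := fun k => h (master hJ k)
  push Not at k
  obtain ⟨R, ⟨k1, k2, q, k3⟩, k4, k5⟩ := k
  obtain ⟨r, r1, y, -, r2⟩ := k3 q le_rfl ⊥
  obtain ⟨Z', a1, a2⟩ := exists_pt (J := J) (C := C) h1 hD k1 k2 (unb_mono k3 r1)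
    fun R' b1 b2 b3 => k5 R' b1 b2 ⟨[(R', C)], by simpa using ⟨b3, In.refl R'⟩,
      fun x y w r _ _ _ k => ⟨r, le_rfl, (R', C), by simp, k⟩⟩
  exact ⟨r, hp y r (k4 y r r2), Z', a1.trans k4, a2⟩

/-- the part of a pruned tree comparable with a node -/
theorem tre_cone (h : PT J p Z C) {t : T} (ht' : Z t p) :
    Tre fun y r => Z y r ∧ Cp t y ∧ r ≤ p :=
  ⟨fun y r r' k k' => ⟨h.1 y r r' k k'.1, k'.2.1, k.trans k'.2.2⟩,
    fun y r g k => ⟨h.2.1 y r g k.1, k.2.1.cut g, k.2.2⟩, p, fun r hr g => by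
      rcases le_total g (ht t) with e | e
      · exact ⟨r, le_rfl, res t g, ht_res_of_le e, h.2.1 t r g (h.1 t p r hr ht'),
          Or.inr (below_res t g), hr⟩
      · obtain ⟨r', k1, y, k2, k3, k4⟩ := h.2.2.2.1 r hr t (h.1 t p r hr ht') g e
        exact ⟨r', k1, y, k2, k4, Or.inl k3, k1.trans hr⟩⟩

/-! ### tuples of translates -/

/-- a translate paired with the zero sequence -/
noncomputable def ent (t : T) (d : G) : TT := ⟨t.add d, ⟨ht t, fun _ => 0, fun _ _ => rfl⟩, rfl⟩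

theorem res_ent (t : T) (d : G) (g : Om) : res (ent t d) g = ent (res t g) d :=
  TT.ext (T.res_add t d g) (Seq.ext rfl (funext fun _ => ite_self _))

theorem ent_add (t : T) (d d' : G) : ent (t.add d) d' = ent t (d + d') :=
  TT.ext (T.add_add t d d') rfl

/-- the tuple of translates of a node -/
noncomputable def tup (t : T) (s : List G) : Tup := ⟨t, s.map (ent t), fun x hx => by
  obtain ⟨d, -, rfl⟩ := List.mem_map.1 hx
  rfl⟩

theorem res_tup (t : T) (s : List G) (g : Om) : res (tup t s) g = tup (res t g) s :=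
  Fam.ext rfl (by simp [Fam.res_l, tup, res_ent])

theorem below_tup {t t' : T} (h : Below t t') (s : List G) : Below (tup t s) (tup t' s) :=
  (res_tup t' s _).trans (congrArg (tup · s) h)

theorem tup_app (t : T) (d : G) (s s' : List G) :
    (tup t s).app (tup (t.add d) s') = tup t (s ++ s'.map (d + ·)) :=
  Fam.ext (Fam.app_base _ _) (by
    rw [Fam.app_l (show ht (tup (t.add d) s') = ht (tup t s) from rfl)]
    simp [tup, ent_add])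

/-- the family of tuples at finitely many translates -/
noncomputable def fam (t : T) (ds s : List G) : Fam Tup :=
  ⟨t, ds.map fun d => tup (t.add d) s, fun x hx => by
    obtain ⟨d, -, rfl⟩ := List.mem_map.1 hx
    rfl⟩

theorem res_fam (t : T) (ds s : List G) (g : Om) : res (fam t ds s) g = fam (res t g) ds s :=
  Fam.ext rfl (by simp [Fam.res_l, fam, res_tup, T.res_add])

/-- all translates are in `K` -/
def Ks (K : Nm P) (s : List G) : Nm P := fun w r => ∀ d ∈ s, K (w.add d) r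

/-- the promise given by a tree and a list of translations -/
def prm (Z : Nm P) (s : List G) (τ : Tup) (r : P) : Prop := Z τ.base r ∧ τ = tup τ.base s

/-- the data of the forcing -/
def dat (J : Set (Nm P × Nm P)) (K : Nm P) : Dat P where
  V r a b _ := ∀ w : T, Sp a.pi.1 b.pi.1 w.1 → K w r
  Leg p Γ := ∃ s Z, PT J p Z (Ks K s) ∧ Γ = prm Z s

variable {K : Nm P}

theorem ax_tree {s : List G} (h : PT J p Z C) : Opn (prm Z s) ∧ Dc (prm Z s) ∧ Unb p (prm Z s) ∧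
    Prn p (prm Z s) ∧ CL p (prm Z s) := by
  refine ⟨fun τ r r' k k' => ⟨h.1 _ r r' k k'.1, k'.2⟩, fun τ r g k => ⟨h.2.1 _ r g k.1, ?_⟩,
    fun r hr g => ?_, fun r hr τ k g hg => ?_, fun r _ g => ⟨r, le_rfl, _,
      (T.ctble_level g).image (tup · s), fun _ _ τ k e => ⟨τ.base, e, k.2.symm⟩⟩⟩
  · rw [Fam.res_base, ← res_tup, ← k.2]
  · obtain ⟨r', k1, y, k2, k3⟩ := h.2.2.1 r hr g
    exact ⟨r', k1, tup y s, k2, k3, rfl⟩
  · obtain ⟨r', k1, y, k2, k3, k4⟩ := h.2.2.2.1 r hr _ k.1 g hg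
    exact ⟨r', k1, tup y s, k2, by rw [k.2]; exact below_tup k3 s, k4, rfl⟩

theorem ax_split (hJ : Maximal Fine J) {s : List G} (h : PT J p Z (Ks K s)) {t : T} (k : Z t p) :
    ∃ q ≤ p, ∃ x y : T, Z x q ∧ Z y q ∧ ht x = ht y ∧ Below t x ∧ Below t y ∧
      ∃ w : T, Sp x.1 y.1 w.1 ∧ Ks K s w q := by
  have h1 : ¬ Cov (fun y r => Z y r ∧ Cp t y ∧ r ≤ p) (Ks K s) [] := fun c =>
    h.2.2.2.2 _ (tre_cone h k) (fun _ _ k => k.1) (mem_of_nul hJ ⟨[], by simp, c⟩)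
  unfold Cov at h1
  push Not at h1
  obtain ⟨x, y, w, r, ⟨a1, a2, a3⟩, ⟨b1, b2, -⟩, c1, c2, -⟩ := h1
  have n : ¬ Cp x y := fun c => c1.not_cp (T.cp_iff.1 c)
  have key : ∀ {x y : T}, Cp t x → Cp t y → ¬ Cp x y → Below t x := fun {x y} e1 e2 e3 =>
    e1.resolve_right fun e => e3 (e2.elim (fun e' => Or.inl (e.trans e')) fun e' =>
      (le_total (ht x) (ht y)).imp (e.of_le e') (e'.of_le e))
  have d1 := key a2 b2 n
  have d2 := key b2 a2 fun c => n c.symm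
  have e1 : ht t ≤ min (ht x) (ht y) := le_min d1.ht_le d2.ht_le
  have e2 : ht w.1 < min (ht x) (ht y) := lt_min c1.ht_lt.1 c1.ht_lt.2
  exact ⟨r, a3, res x (min (ht x) (ht y)), res y (min (ht x) (ht y)), h.2.1 _ _ _ a1,
    h.2.1 _ _ _ b1, by rw [ht_res_of_le (min_le_left _ _), ht_res_of_le (min_le_right _ _)],
    d1.res_of e1, d2.res_of e1, w, c1.cut e2 e2, c2⟩

theorem ax_new (h1 : PruneStmt) (hD : Dist (univ : Set P)) (hJ : Maximal Fine J) (hK : Opn K)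
    {s₂ : List G} {Z₂ : Nm P} (h : PT J p Z₂ (Ks K s₂)) {t₂ : T} (k : Z₂ t₂ p) :
    ∃ q ≤ p, ∃ (m : ℕ) (R : Fam Tup → P → Prop), Opn R ∧ Dc R ∧ Unb q R ∧
      (∀ ρ r, R ρ r → ρ.l.length = m ∧ ∀ τ ∈ ρ.l, prm Z₂ s₂ τ r ∧ Cp (tup t₂ s₂) τ) ∧
      ∀ (d : G) (Y : ℕ → Tup → P → Prop), (∀ k, Opn (Y k) ∧ Dc (Y k)) → ∀ r ≤ q, ∀ Γ',
        (dat J K).Leg r Γ' → Sub r Γ' (Lnk R d Y) →
          ∃ r' ≤ r, ∃ k < m, ∃ Γ'', (dat J K).Leg r' Γ'' ∧ Sub r' Γ'' (Y k) := by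
  obtain ⟨R₀, ⟨a1, a2, q₀, a3⟩, l, ds, ⟨d₁, a4⟩, a5, a6, a7⟩ :=
    orbit hJ (h.2.2.2.2 _ (tre_cone h k) fun _ _ k => k.1)
  obtain ⟨q, q1, y, -, q2⟩ := a3 q₀ le_rfl ⊥
  refine ⟨q, (a6 d₁ a4 y q q2).2.2, ds.length, fun ρ r => R₀ ρ.base r ∧ ρ = fam ρ.base ds s₂,
    fun ρ r r' e e' => ⟨a1 _ r r' e e'.1, e'.2⟩, fun ρ r g e => ⟨a2 _ r g e.1, ?_⟩,
    fun r hr g => ?_, fun ρ r e => ?_, ?_⟩
  · rw [Fam.res_base, ← res_fam, ← e.2]
  · obtain ⟨r', k1, y, k2, k3⟩ := a3 r (hr.trans q1) g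
    exact ⟨r', k1, fam y ds s₂, k2, k3, rfl⟩
  · rw [e.2]
    refine ⟨List.length_map _, fun τ hτ => ?_⟩
    obtain ⟨d, k1, rfl⟩ := List.mem_map.1 hτ
    obtain ⟨k2, k3, -⟩ := a6 d k1 _ r e.1
    exact ⟨⟨k2, rfl⟩, k3.imp (below_tup · s₂) (below_tup · s₂)⟩
  rintro d₀ Y hY r - _ ⟨s, Z, b1, rfl⟩ b2
  let S : G → List G := fun d => s ++ s₂.map (d₀ + d + ·)
  let R₁ : Nm P := fun t r₁ => r₁ ≤ r ∧ Z t r₁ ∧ R₀ (t.add d₀) r₁ ∧
    ∀ k (h : k < ds.length), Y k (tup t (S ds[k])) r₁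
  have c1 : Tre R₁ := ⟨fun t r₁ r₂ e ⟨e1, e2, e3, e4⟩ => ⟨e.trans e1, b1.1 _ _ _ e e2,
    a1 _ _ _ e e3, fun k hk => (hY k).1 _ _ _ e (e4 k hk)⟩,
    fun t r₁ g ⟨e1, e2, e3, e4⟩ => ⟨e1, b1.2.1 _ _ _ e2, T.res_add t d₀ g ▸ a2 _ _ g e3,
      fun k hk => res_tup t _ g ▸ (hY k).2 _ _ g (e4 k hk)⟩, r, fun r₁ e g => by
      obtain ⟨r₂, e1, t, e2, e3⟩ := b1.2.2.1 r₁ e g
      obtain ⟨r₃, e4, ρ, ⟨e5, e6⟩, e7, e8⟩ := b2 r₂ (e1.trans e) (tup t s) ⟨e3, rfl⟩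
      have e9 : ρ.base = t.add d₀ := e7
      rw [e9] at e5 e6
      subst e6
      refine ⟨r₃, e4.trans e1, t, e2, e4.trans (e1.trans e), b1.1 _ _ _ e4 e3, e5, fun k hk => ?_⟩
      have := e8 k (by simpa [fam] using hk)
      simp only [fam, List.getElem_map, T.add_add, tup_app] at this
      exact this⟩
  by_contra hn
  have c2 : ∀ d ∈ ds, (R₁, Ks K (S d)) ∈ J := fun d hd => by_contra fun c => by
    obtain ⟨k, hk, rfl⟩ := List.getElem_of_mem hd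
    obtain ⟨r', e1, Z', e2, e3⟩ := exists_pos (p := r) h1 hD hJ c fun _ _ e => e.1
    refine hn ⟨r', e1, k, hk, _, ⟨_, Z', e3, rfl⟩, fun r'' _ τ e => ⟨r'', le_rfl, ?_⟩⟩
    rw [e.2]
    exact (e2 _ _ e.1).2.2.2 k hk
  refine b1.2.2.2.2 R₁ c1 (fun _ _ e => e.2.1) (mem_of_nul hJ
    ⟨(ds.map fun d => (R₁, Ks K (S d))) ++ l.map fun z => (sh d₀ z.1, sh d₀ z.2),
      List.forall_mem_append.2 ⟨fun z hz => ?_, fun z hz => ?_⟩, fun x y w r₁ e1 e2 e3 e4 => ?_⟩)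
  · obtain ⟨d, hd, rfl⟩ := List.mem_map.1 hz
    exact ⟨c2 d hd, In.refl _⟩
  · obtain ⟨z', hz', rfl⟩ := List.mem_map.1 hz
    exact ⟨hJ.1.1 z' (a5 z' hz').1 d₀, fun t r₁ e => (a5 z' hz').2 _ _ e.2.2.1⟩
  · obtain ⟨r₂, e5, ⟨z, e6, e7⟩ | ⟨d, e6, e7⟩⟩ :=
      a7 _ _ _ r₁ e1.2.2.1 e2.2.2.1 (T.sp_add e3 d₀)
    · exact ⟨r₂, e5, _, List.mem_append_right _ (List.mem_map_of_mem e6), e7⟩
    · refine ⟨r₂, e5, _, List.mem_append_left _ (List.mem_map_of_mem e6),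
        List.forall_mem_append.2 ⟨fun d' e8 => hK _ _ _ e5 (e4 d' e8), fun d' e8 => ?_⟩⟩
      obtain ⟨d', e9, rfl⟩ := List.mem_map.1 e8
      have := e7 d' e9
      rwa [T.add_add, T.add_add, ← add_assoc] at this

theorem ax (h1 : PruneStmt) (hD : Dist (univ : Set P)) (hJ : Maximal Fine J) (hK : Opn K) :
    Ax (dat J K) where
  V_mono _ _ _ _ _ k k' w e := hK _ _ _ k (k' w e)
  V_ext _ a _ _ _ _ k := fun ⟨w₀, e⟩ k1 k2 w e' => by
    obtain ⟨w₀, rfl⟩ := e.exists_T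
    rw [T.ext (e'.unique (e.ext (T.below_iff.1 k1.pi) (T.below_iff.1 k2.pi)))]
    exact k w₀ e
  mono _ _ _ k := fun ⟨s, Z, h, e⟩ =>
    ⟨s, Z, ⟨h.1, h.2.1, unb_mono h.2.2.1 k, prn_mono h.2.2.2.1 k, h.2.2.2.2⟩, e⟩
  tree _ _ := fun ⟨_, _, h, e⟩ => e ▸ ax_tree h
  split p Γ z := by
    rintro ⟨s, Z, h, rfl⟩ k
    obtain ⟨q, k1, x, y, k2, k3, k4, k5, k6, w, k7, k8⟩ := ax_split hJ h k.1
    refine ⟨q, k1, tup x s, tup y s, ⟨k2, rfl⟩, ⟨k3, rfl⟩, k4, by rw [k.2]; exact below_tup k5 s,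
      by rw [k.2]; exact below_tup k6 s, fun i i1 i2 => ?_⟩
    have i3 : i < s.length := by simpa [tup] using i1
    have e := T.sp_add k7 s[i]
    simp only [tup, List.getElem_map]
    refine Or.inl ⟨⟨_, e⟩, true, fun w' e' => ?_⟩
    rw [T.ext (e'.unique e)]
    exact k8 _ (List.getElem_mem i3)
  zero p Γ k1 k2 k3 := by
    obtain ⟨Z, a1, a2⟩ := exists_pt (J := J) (C := Ks K []) (p := p)
      (Z := fun t q => Γ (tup t []) q) h1 hD (fun _ => k1 _)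
      (fun t q g k => (res_tup t [] g ▸ k2 _ q g k : Γ (tup (res t g) []) q)) (fun q hq g => by
        obtain ⟨r, e1, τ, e2, e3, e4⟩ := k3 q hq g
        have e5 : τ = tup τ.base [] := Fam.ext rfl e4
        exact ⟨r, e1, τ.base, e2, (e5 ▸ e3 : Γ (tup τ.base []) r)⟩)
      fun R b1 _ b3 => hJ.1.2 R b1 ⟨[(R, Ks K [])], by simpa using ⟨b3, In.refl R⟩,
        fun x y w r _ _ _ _ => ⟨r, le_rfl, (R, Ks K []), by simp, by simp [Ks]⟩⟩
    exact ⟨p, le_rfl, _, ⟨[], Z, a2, rfl⟩, fun q _ τ k =>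
      ⟨q, le_rfl, by rw [k.2]; exact a1 _ _ k.1⟩⟩
  new p Γ a := by
    rintro ⟨s, Z, h, rfl⟩ k
    rw [k.2]
    exact ax_new h1 hD hJ hK h k.1

/-- `K` is forced to be positive on a subtree of `Ub` -/
def PosAt (J : Set (Nm P × Nm P)) (Ub K : Nm P) (r : P) : Prop :=
  ∃ Z, In Z Ub ∧ Opn Z ∧ Dc Z ∧ Unb r Z ∧ Pos J Z K

/-- `K` or its complement, whichever is positive -/
def Kst (J : Set (Nm P × Nm P)) (Ub K : Nm P) : Nm P := fun w r =>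
  (PosAt J Ub K r ∧ ∀ r' ≤ r, K w r') ∨ ((∀ r' ≤ r, ¬ PosAt J Ub K r') ∧ ∀ r' ≤ r, ¬ K w r')

variable {Ub : Nm P}

theorem PosAt.mono (h : PosAt J Ub K p) (k : q ≤ p) : PosAt J Ub K q :=
  let ⟨Z, h1, h2, h3, h4, h5⟩ := h
  ⟨Z, h1, h2, h3, unb_mono h4 k, h5⟩

theorem kst_opn : Opn (Kst J Ub K) := fun _ _ _ k => Or.imp
  (And.imp (·.mono k) fun h r hr => h r (hr.trans k))
  (And.imp (fun h r hr => h r (hr.trans k)) fun h r hr => h r (hr.trans k))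

omit [Preorder P] in
theorem ks_zero {w : T} (h : K w p) : Ks K [0] w p := fun d hd => by
  rw [List.mem_singleton.1 hd, T.add_zero]; exact h

theorem kp (h1 : PruneStmt) (hD : Dist (univ : Set P)) (hJ : Maximal Fine J) :
    KP Ub K (dat J (Kst J Ub K)) := by
  intro p k1 k2 k3 k4
  have fin : ∀ q Z, In Z Ub → Opn Z → Dc Z → Unb q Z →
      Pos J (fun y r => Z y r ∧ r ≤ q) (Ks (Kst J Ub K) [0]) →
      ∃ Γ, (dat J (Kst J Ub K)).Leg q Γ ∧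
        ∀ τ, ∀ r ≤ q, Γ τ r → ∃ x, τ.l = [x] ∧ ∃ r' ≤ r, Ub x.pi r' := fun q Z a1 a2 a3 a4 a5 => by
    obtain ⟨Z', b1, b2⟩ := exists_pt (p := q) h1 hD
      (fun y r r' e e' => ⟨a2 y r r' e e'.1, e.trans e'.2⟩) (fun y r g e => ⟨a3 y r g e.1, e.2⟩)
      (fun r hr g => let ⟨r', e1, y, e2, e3⟩ := a4 r hr g; ⟨r', e1, y, e2, e3, e1.trans hr⟩) a5
    refine ⟨_, ⟨[0], Z', b2, rfl⟩, fun τ r _ e => ⟨ent τ.base 0, congrArg Fam.l e.2, r, le_rfl, ?_⟩⟩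
    rw [show (ent τ.base 0).pi = τ.base from T.add_zero _]
    exact a1 _ _ (b1 _ _ e.1).1
  by_cases hP : ∃ q ≤ p, PosAt J Ub K q
  · obtain ⟨q, hq, hP⟩ := hP
    refine ⟨q, hq, true, fun r hr a b e' w c1 c2 => ?_, ?_⟩
    · exact ((c1 w c2).resolve_right fun c => c.1 r le_rfl (hP.mono hr)).2 r le_rfl
    obtain ⟨Z, a1, a2, a3, a4, a5⟩ := id hP
    refine fin q Z a1 a2 a3 a4 fun R b1 b2 b3 => a5 R b1 (fun y r e => (b2 y r e).1)
      (mem_of_nul hJ ⟨[(R, _)], List.forall_mem_singleton.2 ⟨b3, In.refl R⟩,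
        fun x y w r e1 _ _ e4 => ⟨r, le_rfl, _, List.mem_singleton_self _, ks_zero ?_⟩⟩)
    exact Or.inl ⟨hP.mono (b2 x r e1).2, fun r' e => k3 w r r' e e4⟩
  · refine ⟨p, le_rfl, false, fun r hr a b e' w c1 c2 => ?_, ?_⟩
    · exact ((c1 w c2).resolve_left fun c => hP ⟨r, hr, c.1⟩).2
    have a1 : (fun y r => Ub y r ∧ r ≤ p, K) ∈ J := by_contra fun c => by
      obtain ⟨r, e1, Z, e2, e3⟩ := exists_pos (p := p) h1 hD hJ c fun _ _ e => e.2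
      exact hP ⟨r, e1, Z, fun y r e => (e2 y r e).1, e3.1, e3.2.1, e3.2.2.1, e3.2.2.2.2⟩
    refine fin p Ub (In.refl _) k1 k2 k4 fun R b1 b2 b3 => hJ.1.2 R b1
      ⟨[(R, _), (_, K)], List.forall_mem_cons.2 ⟨⟨b3, In.refl R⟩,
        List.forall_mem_singleton.2 ⟨a1, b2⟩⟩, fun x y w r e1 _ _ _ => ?_⟩
    by_cases c : ∃ r' ≤ r, K w r'
    · obtain ⟨r', c1, c2⟩ := c
      exact ⟨r', c1, _, List.mem_cons_of_mem _ (List.mem_singleton_self _), c2⟩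
    · exact ⟨r, le_rfl, _, List.mem_cons_self, ks_zero (Or.inr
        ⟨fun r' e e' => hP ⟨r', e.trans (b2 x r e1).2, e'⟩, fun r' e e' => c ⟨r', e, e'⟩⟩)⟩

theorem kf (h1 : PruneStmt) (h2 : BrStmt) : KStmt := fun P _ hD Ub K =>
  let ⟨J, hJ⟩ := exists_max (h2 P hD)
  ⟨dat J (Kst J Ub K), ax h1 hD hJ kst_opn, kp h1 hD hJ⟩

end Pool.Agent.Ctry.Kf
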