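import Pool.Agent.MP_77405c_lc.Defs
import Pool.Agent.MP_77405c_lc.Force

/-! From a forcing notion in `Type 1` to a model of ZFC in which all forced sentences are true
(universe lifted copy of the library of helper77). -/

open FirstOrder Filter

namespace Pool.Agent.Ctry.Fc


open Fml

/-- truth of a formula in a structure -/
def Sat {M : Type 2} (E : M → M → Prop) : Fml M → Prop
  | .mem x y => E x y
  | .eq x y => x = y
  | .neg a => ¬ Sat E a
  | .and a b => Sat E a ∧ Sat E b
  | .all f => ∀ x, Sat E (f x)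

section

variable {M : Type 2} {E : M → M → Prop} {a b : Fml M} {f : M → Fml M} {x y z : M}

theorem sat_mem : Sat E (mem x y) ↔ E x y := Iff.rfl
theorem sat_eq : Sat E (eq x y) ↔ x = y := Iff.rfl
theorem sat_neg : Sat E (neg a) ↔ ¬ Sat E a := Iff.rfl
theorem sat_and : Sat E (and a b) ↔ Sat E a ∧ Sat E b := Iff.rfl
theorem sat_all : Sat E (all f) ↔ ∀ x, Sat E (f x) := Iff.rfl
theorem sat_imp : Sat E (imp a b) ↔ (Sat E a → Sat E b) := by simp [imp, Sat]
theorem sat_or : Sat E (or a b) ↔ Sat E a ∨ Sat E b := by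
  rw [Fml.or, sat_imp, sat_neg, or_iff_not_imp_left]
theorem sat_iff : Sat E (iff a b) ↔ (Sat E a ↔ Sat E b) := by
  rw [Fml.iff, sat_and, sat_imp, sat_imp]
  exact iff_def.symm
theorem sat_ex : Sat E (ex f) ↔ ∃ x, Sat E (f x) := by simp [ex, Sat]
theorem sat_allIn : Sat E (allIn y f) ↔ ∀ x, E x y → Sat E (f x) := by
  simp only [allIn, sat_all, sat_imp, sat_mem]
theorem sat_exIn : Sat E (exIn y f) ↔ ∃ x, E x y ∧ Sat E (f x) := by
  simp only [exIn, sat_ex, sat_and, sat_mem]
theorem sat_sub : Sat E (sub x y) ↔ ISub E x y := by simp only [sub, sat_allIn, sat_mem, ISub]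
theorem sat_ind : Sat E (ind x) ↔ IInd E x := by
  simp only [ind, emp, IInd, sat_and, sat_exIn, sat_allIn, sat_all, sat_neg, sat_mem, sat_iff,
    sat_or, sat_eq]
theorem sat_omega : Sat E (omega x) ↔ IOmega E x := by
  simp only [omega, IOmega, sat_and, sat_ind, sat_all, sat_imp, sat_sub]
theorem sat_pair : Sat E (pair x y z) ↔ IPair E x y z := by
  simp only [pair, IPair, sat_all, sat_iff, sat_mem, sat_or, sat_eq]
theorem sat_app : Sat E (app x y z) ↔ IApp E x y z := by
  simp only [app, IApp, sat_exIn, sat_ex, sat_and, sat_pair]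

end

/-- two formulas have the same shape, with related variables -/
inductive Par {V W : Type 2} (R : V → W → Prop) : Fml V → Fml W → Prop
  | mem {a b : V} {a' b' : W} : R a a' → R b b' → Par R (mem a b) (mem a' b')
  | eq {a b : V} {a' b' : W} : R a a' → R b b' → Par R (eq a b) (eq a' b')
  | neg {a : Fml V} {b : Fml W} : Par R a b → Par R (neg a) (neg b)
  | and {a b : Fml V} {a' b' : Fml W} : Par R a a' → Par R b b' → Par R (and a b) (and a' b')
  | all {f : V → Fml V} {g : W → Fml W} :
      (∀ x y, R x y → Par R (f x) (g y)) → Par R (all f) (all g)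

section

variable {V W : Type 2} {R : V → W → Prop} {a b c : V} {a' b' c' : W}

theorem par_sub (h1 : R a a') (h2 : R b b') : Par R (sub a b) (sub a' b') := by
  repeat' first | assumption | constructor | intro _ _ _
theorem par_ind (h1 : R a a') : Par R (ind a) (ind a') := by
  repeat' first | assumption | constructor | intro _ _ _
theorem par_omega (h1 : R a a') : Par R (omega a) (omega a') := by
  repeat' first | assumption | constructor | intro _ _ _
theorem par_app (h1 : R a a') (h2 : R b b') (h3 : R c c') : Par R (app a b c) (app a' b' c') := by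
  repeat' first | assumption | constructor | intro _ _ _

theorem Par.sim {R : V → V → Prop} (hR : ∀ x, R x x) {φ ψ : Fml V} (h : Par R φ ψ) :
    Sim R φ ψ := by
  induction h with
  | mem h1 h2 => exact .mem h1 h2
  | eq h1 h2 => exact .eq h1 h2
  | neg _ ih => exact .neg ih
  | and _ _ ih1 ih2 => exact .and ih1 ih2
  | all _ ih => exact .all fun x => ih x x (hR x)

end

/-- the value of a term -/
def tv {α : Type} {V : Type 2} (w : α → V) : Language.graph.Term α → V
  | .var k => w k
  | .func f _ => Empty.elim f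

/-- the atomic formula given by a relation symbol -/
def relF {V : Type 2} : ∀ {l : ℕ}, Language.graph.Relations l → (Fin l → V) → Fml V
  | _, .adj, w => mem (w 0) (w 1)

/-- translation of first-order formulas -/
def toF {α : Type} {V : Type 2} :
    ∀ {l : ℕ}, Language.graph.BoundedFormula α l → (α → V) → (Fin l → V) → Fml V
  | _, .falsum, _, _ => neg (all fun x => eq x x)
  | _, .equal t₁ t₂, w, xs => eq (tv (Sum.elim w xs) t₁) (tv (Sum.elim w xs) t₂)
  | _, .rel R ts, w, xs => relF R fun i => tv (Sum.elim w xs) (ts i)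
  | _, .imp f₁ f₂, w, xs => imp (toF f₁ w xs) (toF f₂ w xs)
  | _, .all f, w, xs => all fun x => toF f w (Fin.snoc xs x)

theorem par_tv {α : Type} {V W : Type 2} {R : V → W → Prop} {w : α → V} {w' : α → W}
    (h : ∀ a, R (w a) (w' a)) (t : Language.graph.Term α) : R (tv w t) (tv w' t) := by
  cases t with
  | var k => exact h k
  | func f _ => exact Empty.elim f

theorem par_toF {α : Type} {V W : Type 2} {R : V → W → Prop} {l : ℕ}
    (φ : Language.graph.BoundedFormula α l) {w : α → V} {w' : α → W} {xs : Fin l → V}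
    {xs' : Fin l → W} (h : ∀ a, R (w a) (w' a)) (h' : ∀ i, R (xs i) (xs' i)) :
    Par R (toF φ w xs) (toF φ w' xs') := by
  induction φ with
  | falsum => exact .neg (.all fun _ _ h => .eq h h)
  | equal t₁ t₂ =>
    exact .eq (par_tv (by rintro (a | i); exacts [h a, h' i]) _)
      (par_tv (by rintro (a | i); exacts [h a, h' i]) _)
  | rel r ts =>
    cases r
    exact .mem (par_tv (by rintro (a | i); exacts [h a, h' i]) _)
      (par_tv (by rintro (a | i); exacts [h a, h' i]) _)
  | imp f₁ f₂ ih₁ ih₂ => exact .neg (.and (ih₁ h') (.neg (ih₂ h')))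
  | all f ih =>
    refine .all fun x y hxy => ih fun i => ?_
    induction i using Fin.lastCases with
    | last => simpa using hxy
    | cast i => simpa using h' i

theorem tv_eq {α : Type} {M : Type 2} (E : M → M → Prop) (w : α → M)
    (t : Language.graph.Term α) : tv w t = @Language.Term.realize _ _ (relStr E) _ w t := by
  cases t with
  | var k => rfl
  | func f _ => exact Empty.elim f

theorem sat_toF {α : Type} {M : Type 2} {E : M → M → Prop} {l : ℕ}
    (φ : Language.graph.BoundedFormula α l) (w : α → M) (xs : Fin l → M) :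
    Sat E (toF φ w xs) ↔ @Language.BoundedFormula.Realize _ _ (relStr E) _ _ φ w xs := by
  induction φ with
  | falsum => exact iff_of_false (fun h => h fun _ => rfl) id
  | equal t₁ t₂ => rw [toF, sat_eq, tv_eq E, tv_eq E]; rfl
  | rel r ts =>
    cases r
    rw [toF, relF, sat_mem, tv_eq E, tv_eq E]
    rfl
  | imp f₁ f₂ ih₁ ih₂ => exact sat_imp.trans (imp_congr (ih₁ xs) (ih₂ xs))
  | all f ih => exact forall_congr' fun x => ih _

/-- a first-order formula with two distinguished variables -/
def fo2 {V : Type 2} (φ : Language.graph.Formula ℕ) (v : ℕ → V) (a b : V) : Fml V :=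
  toF φ (Function.update (Function.update v 0 a) 1 b) default

/-- a first-order formula with a distinguished variable -/
def fo1 {V : Type 2} (φ : Language.graph.Formula ℕ) (v : ℕ → V) (a : V) : Fml V :=
  toF φ (Function.update v 0 a) default

theorem sat_fo1 {M : Type 2} {E : M → M → Prop} {φ : Language.graph.Formula ℕ} {v : ℕ → M}
    {a : M} : Sat E (fo1 φ v a) ↔ Holds E φ (Function.update v 0 a) := sat_toF φ _ _

theorem sat_fo2 {M : Type 2} {E : M → M → Prop} {φ : Language.graph.Formula ℕ} {v : ℕ → M}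
    {a b : M} : Sat E (fo2 φ v a b) ↔ Holds E φ (Function.update (Function.update v 0 a) 1 b) :=
  sat_toF φ _ _

theorem par_upd {V W : Type 2} {R : V → W → Prop} {v : ℕ → V} {v' : ℕ → W} {a : V} {a' : W}
    (h : ∀ i, R (v i) (v' i)) (h' : R a a') (n i : ℕ) :
    R (Function.update v n a i) (Function.update v' n a' i) := by
  by_cases hi : i = n
  · simpa [hi] using h'
  · simpa [hi] using h i

theorem par_fo1 {V W : Type 2} {R : V → W → Prop} {φ : Language.graph.Formula ℕ} {v : ℕ → V}
    {v' : ℕ → W} {a : V} {a' : W} (h : ∀ i, R (v i) (v' i)) (h' : R a a') :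
    Par R (fo1 φ v a) (fo1 φ v' a') := par_toF φ (par_upd h h' 0) fun i => i.elim0

theorem par_fo2 {V W : Type 2} {R : V → W → Prop} {φ : Language.graph.Formula ℕ} {v : ℕ → V}
    {v' : ℕ → W} {a b : V} {a' b' : W} (h : ∀ i, R (v i) (v' i)) (h' : R a a') (h'' : R b b') :
    Par R (fo2 φ v a b) (fo2 φ v' a' b') :=
  par_toF φ (par_upd (par_upd h h' 0) h'' 1) fun i => i.elim0

variable {P : Type 1} {le : P → P → Prop}

/-- the index type of a name -/
def nI : Name P → Type 1
  | .mk I _ _ => I

/-- the elements of a name -/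
def nA : (x : Name P) → nI x → Name P
  | .mk _ A _ => A

/-- the conditions of a name -/
def nc : (x : Name P) → nI x → P
  | .mk _ _ c => c

theorem mem_iff {x z : Name P} {p : P} : fMem le z x p ↔
    ∀ q, le q p → ∃ r, le r q ∧ ∃ j, le r (nc x j) ∧ fEq le (nA x j) z r := by
  cases x
  rfl

variable [Pre le]

theorem Par.fo {φ ψ : Fml (Name P)} {p : P} (h : Par (fun a b => fEq le a b p) φ ψ)
    (h' : Forces le φ p) : Forces le ψ p :=
  ((h.sim fun x => fEq_refl x p).forces p (lrefl p)).1 h'

/-- the maximum principle -/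
theorem max_principle (f : Name P → Fml (Name P))
    (hf : ∀ p x y, fEq le x y p → Forces le (f x) p → Forces le (f y) p) :
    ∃ y, ∀ p x, Forces le (f x) p → Forces le (f y) p := by
  classical
  have h0 : ∀ p, ∃ y, (∃ x, Forces le (f x) p) → Forces le (f y) p := fun p => by
    by_cases h : ∃ x, Forces le (f x) p
    · exact let ⟨x, hx⟩ := h; ⟨x, fun _ => hx⟩
    · exact ⟨.mk PEmpty PEmpty.elim PEmpty.elim, fun h' => absurd h' h⟩
  choose y hy using h0
  let good : P → P → Prop := fun p q => le q p ∧ Forces le (f (y p)) p ∧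
    ∀ p', WellOrderingRel p' p → Forces le (f (y p')) p' → ∀ r, le r q → ¬ le r p'
  let J := {z : Σ p : P, nI (y p) × P // good z.1 z.2.2 ∧ le z.2.2 (nc _ z.2.1)}
  have key : ∀ p q, good p q →
      fEq le (y p) (.mk J (fun z => nA _ z.1.2.1) fun z => z.1.2.2) q := fun p q h =>
    fEq_of_ext fun z r hr => ⟨fun hz s hs => by
      obtain ⟨u, hu, j, h1, h2⟩ := mem_iff.1 hz s hs
      have h3 : le u q := ltrans hu (ltrans hs hr)
      exact ⟨u, hu, ⟨⟨p, j, u⟩, ⟨ltrans h3 h.1, h.2.1, fun p' k1 k2 r k3 =>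
        h.2.2 p' k1 k2 r (ltrans k3 h3)⟩, h1⟩, lrefl u, h2⟩, fun hz => mem_iff.2 fun s hs => by
      obtain ⟨u, hu, ⟨⟨p', j, v⟩, h1, h2⟩, h3, h4⟩ := hz s hs
      have h5 : le u q := ltrans hu (ltrans hs hr)
      obtain rfl : p' = p := by
        rcases trichotomous_of WellOrderingRel p' p with k | k | k
        · exact absurd (ltrans h3 h1.1) (h.2.2 p' k h1.2.1 u h5)
        · exact k
        · exact absurd (ltrans h5 h.1) (h1.2.2 p k h.2.1 u h3)
      exact ⟨u, hu, j, ltrans h3 h2, h4⟩⟩
  refine ⟨.mk J (fun z => nA _ z.1.2.1) fun z => z.1.2.2, fun p x h => Forces.dense fun q hq => ?_⟩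
  have hne : {p' | Forces le (f (y p')) p' ∧ ∃ r, le r q ∧ le r p'}.Nonempty :=
    ⟨p, hy p ⟨x, h⟩, q, lrefl q, hq⟩
  obtain ⟨p', ⟨h1, r, h2, h3⟩, h4⟩ := (WellOrderingRel.isWellOrder (α := P)).wf.has_min _ hne
  exact ⟨r, h2, hf r _ _ (key p' r ⟨h3, h1, fun p'' k1 k2 s k3 k4 =>
    h4 p'' ⟨k2, s, ltrans k3 h2, k4⟩ k1⟩) (h1.mono h3)⟩

theorem mem_self (x : Name P) (i : nI x) {p : P} (h : le p (nc x i)) : fMem le (nA x i) x p :=
  mem_iff.2 fun q hq => ⟨q, lrefl q, i, ltrans hq h, fEq_refl _ _⟩

theorem forces_found (x a : Name P) (p : P) (h : fMem le a x p) :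
    Forces le (exIn x fun y => allIn y fun z => neg (mem z x)) p := by
  induction a generalizing p with
  | mk I A c ih =>
    refine Forces.dense fun q hq => ?_
    by_cases hc : ∃ r, le r q ∧ ∃ i, fMem le (A i) x r
    · obtain ⟨r, hr, i, hi⟩ := hc
      exact ⟨r, hr, ih i r hi⟩
    · refine ⟨q, lrefl q, forces_exIn_of _ (fMem_mono hq h) (forces_allIn.2
        fun z r hr hz s hs hs' => ?_)⟩
      obtain ⟨u, hu, i, -, h1⟩ := hz s hs
      exact hc ⟨u, ltrans hu (ltrans hs hr), i, fMem_congr_left (fEq_symm h1) (fMem_mono hu hs')⟩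

theorem forces_choice (x : Name P) : ∃ c, ∀ p, Forces le (all fun y => all fun z => all fun a =>
    imp (mem y x) (imp (mem z x) (imp (mem a y) (imp (mem a z) (eq y z))))) p →
      ∀ y a, fMem le y x p → fMem le a y p → Forces le (exIn y fun b => and (mem b c)
        (all fun b' => imp (mem b' y) (imp (mem b' c) (eq b' b)))) p := by
  let K := Σ i : nI x, nI (nA x i)
  let B : K → Name P := fun k => nA _ k.2
  let J := {z : nI x × K × P // fMem le (nA x z.1) x z.2.2 ∧ fMem le (B z.2.1) (nA x z.1) z.2.2 ∧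
    ∀ k, WellOrderingRel k z.2.1 → ∀ r, le r z.2.2 → ¬ fMem le (B k) (nA x z.1) r}
  refine ⟨.mk J (fun z => B z.1.2.1) fun z => z.1.2.2, fun p hp y a hy ha =>
    Forces.dense fun q hq => ?_⟩
  obtain ⟨q1, h1, i, h2, h3⟩ := mem_iff.1 hy q hq
  have hne : {k | ∃ r, le r q1 ∧ fMem le (B k) (nA x i) r}.Nonempty := by
    obtain ⟨r, hr, j, h4, -⟩ := mem_iff.1
      (fMem_congr_right (fEq_symm h3) (fMem_mono (ltrans h1 hq) ha)) q1 (lrefl q1)
    exact ⟨⟨i, j⟩, r, hr, mem_self _ j h4⟩
  obtain ⟨k, ⟨r, h4, h5⟩, h6⟩ := (WellOrderingRel.isWellOrder (α := K)).wf.has_min _ hne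
  refine ⟨r, ltrans h4 h1, forces_exIn_of (B k) (fMem_congr_right (fEq_mono h4 h3) h5)
    ⟨fMem_mk (I := J) ⟨(i, k, r), mem_self x i (ltrans h4 h2), h5, fun k' h7 s hs h8 =>
      h6 k' ⟨s, ltrans hs h4, h8⟩ h7⟩ (lrefl r), fun b' => forces_imp.2 fun s hs e1 =>
      forces_imp.2 fun u hu e2 => fEq_dense fun v hv => ?_⟩⟩
  obtain ⟨w, e3, ⟨⟨i', k', r0⟩, e4, e5, e6⟩, e7, e8⟩ := e2 v hv
  have e9 : le w r := ltrans e3 (ltrans hv (ltrans hu hs))
  have e10 : le w q1 := ltrans e9 h4
  have e11 : fMem le (B k') (nA x i) w := fMem_congr_right (fEq_symm (fEq_mono e10 h3))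
    (fMem_congr_left (fEq_symm e8) (fMem_mono (ltrans e3 (ltrans hv hu)) e1))
  have e12 : fEq le (nA x i) (nA x i') w := forces_imp.1 (forces_imp.1 (forces_imp.1
    (forces_imp.1 (hp (nA x i) (nA x i') (B k')) w (ltrans e10 (ltrans h1 hq))
    (mem_self x i (ltrans e10 h2))) w (lrefl w) (fMem_mono e7 e4)) w (lrefl w) e11) w (lrefl w)
    (fMem_mono e7 e5)
  obtain rfl : k' = k := by
    rcases trichotomous_of WellOrderingRel k' k with h | h | h
    · exact absurd h (h6 k' ⟨w, e10, e11⟩)
    · exact h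
    · exact absurd (fMem_congr_right e12 (fMem_mono e9 h5)) (e6 k h w e7)
  exact ⟨w, e3, fEq_symm e8⟩

/-- an ultrafilter on the set of conditions containing all dense open sets -/
structure Gen (le : P → P → Prop) where
  U : Ultrafilter P
  dense : ∀ D : P → Prop, (∀ p q, le q p → D p → D q) → (∀ p, ∃ q, le q p ∧ D q) →
    ∀ᶠ p in U, D p

theorem exists_gen [Nonempty P] : Nonempty (Gen le) := by
  let F : Filter P :=
    { sets := {S | ∃ D : P → Prop, (∀ p q, le q p → D p → D q) ∧ (∀ p, ∃ q, le q p ∧ D q) ∧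
        ∀ p, D p → p ∈ S}
      univ_sets := ⟨fun _ => True, fun _ _ _ _ => trivial, fun p => ⟨p, lrefl p, trivial⟩,
        fun _ _ => trivial⟩
      sets_of_superset := fun ⟨D, h1, h2, h3⟩ h => ⟨D, h1, h2, fun p hp => h (h3 p hp)⟩
      inter_sets := fun ⟨D, h1, h2, h3⟩ ⟨D', k1, k2, k3⟩ => ⟨fun p => D p ∧ D' p,
        fun p q h h' => ⟨h1 p q h h'.1, k1 p q h h'.2⟩, fun p => by
          obtain ⟨q, e1, e2⟩ := h2 p
          obtain ⟨r, e3, e4⟩ := k2 q
          exact ⟨r, ltrans e3 e1, h1 q r e3 e2, e4⟩, fun p h => ⟨h3 p h.1, k3 p h.2⟩⟩ }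
  have : F.NeBot := ⟨fun h => by
    obtain ⟨D, -, h2, h3⟩ : ∅ ∈ F := empty_mem_iff_bot.2 h
    obtain ⟨q, -, h4⟩ := h2 (Classical.arbitrary P)
    exact h3 q h4⟩
  exact ⟨⟨Ultrafilter.of F, fun D h1 h2 => Ultrafilter.of_le F ⟨D, h1, h2, fun _ h => h⟩⟩⟩

namespace Gen

variable (G : Gen le)

/-- equality modulo the ultrafilter -/
def setoid : Setoid (Name P) where
  r x y := ∀ᶠ p in G.U, fEq le x y p
  iseqv := ⟨fun x => .of_forall (fEq_refl x), fun h => h.mono fun _ => fEq_symm,
    fun h1 h2 => (h1.and h2).mono fun _ h => fEq_trans h.1 h.2⟩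

/-- the quotient model -/
def N : Type 2 := Quotient G.setoid

/-- the class of a name -/
def cl (x : Name P) : G.N := Quotient.mk G.setoid x

theorem cl_surj (w : G.N) : ∃ x, G.cl x = w := Quotient.exists_rep w

/-- membership in the quotient model -/
def E : G.N → G.N → Prop :=
  Quotient.lift₂ (fun x y => ∀ᶠ p in G.U, fMem le x y p) fun _ _ _ _ h1 h2 => propext
    ⟨fun h => (h.and (h1.and h2)).mono fun _ k =>
      fMem_congr_right k.2.2 (fMem_congr_left k.2.1 k.1),
    fun h => (h.and (h1.and h2)).mono fun _ k =>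
      fMem_congr_right (fEq_symm k.2.2) (fMem_congr_left (fEq_symm k.2.1) k.1)⟩

theorem los {φ : Fml (Name P)} {ψ : Fml G.N} (h : Par (fun a m => G.cl a = m) φ ψ)
    (h' : ∀ p, Par (fun a b => fEq le a b p) φ φ) :
    (∀ᶠ p in G.U, Forces le φ p) ↔ Sat G.E ψ := by
  induction h with
  | mem h1 h2 => subst h1 h2; rfl
  | eq h1 h2 => subst h1 h2; exact (Quotient.eq (r := G.setoid)).symm
  | @neg a b _ ih =>
    refine Iff.trans ⟨fun k1 k2 => ?_, fun k => ?_⟩
      (not_congr (ih fun p => by cases h' p; assumption))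
    · obtain ⟨p, k3, k4⟩ := (k1.and k2).exists
      exact k3 p (lrefl p) k4
    · exact (Ultrafilter.eventually_or.1 (G.dense (fun p => Forces le a p ∨ Forces le (neg a) p)
        (fun p q h h' => h'.imp (Forces.mono h) (Forces.mono h)) (forces_decide a))).resolve_left k
  | and _ _ ih1 ih2 =>
    exact eventually_and.trans (and_congr (ih1 fun p => by cases h' p; assumption)
      (ih2 fun p => by cases h' p; assumption))
  | @all f g _ ih =>
    have h1 : ∀ p x y, fEq le x y p → Par (fun a b => fEq le a b p) (f x) (f y) := fun p => by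
      cases h' p
      assumption
    replace ih := fun x => ih x _ rfl fun p => h1 p x x (fEq_refl x p)
    refine ⟨fun k m => ?_, fun k => ?_⟩
    · obtain ⟨x, rfl⟩ := G.cl_surj m
      exact (ih x).1 (k.mono fun p hp => hp x)
    · obtain ⟨y, hy⟩ := max_principle (le := le) (fun x => neg (f x))
        fun p x y h => (h1 p x y h).neg.fo
      refine ((ih y).2 (k _)).mono fun p hp x => by_contra fun hn => ?_
      obtain ⟨q, hq, h2⟩ := not_forces hn
      exact hy q x h2 q (lrefl q) (hp.mono hq)

/-- forced statements are true in the quotient -/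
theorem sat_of_forces {α : Type} (Φ : ∀ {V : Type 2}, (α → V) → Fml V)
    (hΦ : ∀ (V W : Type 2) (R : V → W → Prop) (v : α → V) (w : α → W), (∀ a, R (v a) (w a)) →
      Par R (Φ v) (Φ w)) (h : ∀ v p, Forces le (Φ v) p) (w : α → G.N) : Sat G.E (Φ w) := by
  choose s hs using G.cl_surj
  exact (G.los (φ := Φ fun a => s (w a)) (hΦ _ _ _ _ _ fun a => hs _)
    fun p => hΦ _ _ _ _ _ fun a => fEq_refl _ p).1 (.of_forall (h _))

theorem sat_of_forces0 (Φ : ∀ {V : Type 2}, Fml V)
    (hΦ : ∀ (V W : Type 2) (R : V → W → Prop), Par R Φ Φ) (h : ∀ p, Forces le Φ p) :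
    Sat G.E Φ :=
  (G.los (hΦ _ _ _) fun _ => hΦ _ _ _).1 (.of_forall h)

theorem zfc {t : P} (ht : ∀ p, le p t) : ZFC G.E where
  ext := by
    simpa only [sat_all, sat_imp, sat_sub, sat_eq] using G.sat_of_forces0
      (all fun x => all fun y => imp (sub x y) (imp (sub y x) (eq x y)))
      (fun _ _ _ => by repeat' first | assumption | constructor | intro _ _ _)
      fun p x y => forces_imp.2 fun q _ h1 => forces_imp.2 fun r hr h2 => fEq_of_ext
        fun z s hs => ⟨forces_sub.1 h1 z s (ltrans hs hr), forces_sub.1 h2 z s hs⟩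
  found := by
    simpa only [sat_all, sat_imp, sat_mem, sat_exIn, sat_allIn, sat_neg] using G.sat_of_forces0
      (all fun x => all fun a => imp (mem a x) (exIn x fun y => allIn y fun z => neg (mem z x)))
      (fun _ _ _ => by repeat' first | assumption | constructor | intro _ _ _)
      fun p x a => forces_imp.2 fun q _ => forces_found x a q
  pair := by
    simpa only [sat_all, sat_ex, sat_and, sat_mem] using G.sat_of_forces0
      (all fun a => all fun b => ex fun y => and (mem a y) (mem b y))
      (fun _ _ _ => by repeat' first | assumption | constructor | intro _ _ _)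
      fun p a b => forces_ex_of (.mk (ULift.{1} Bool) (fun i => cond i.down a b) fun _ => t)
        ⟨fMem_mk (A := fun i : ULift.{1} Bool => cond i.down a b) ⟨true⟩ (ht p),
          fMem_mk (A := fun i : ULift.{1} Bool => cond i.down a b) ⟨false⟩ (ht p)⟩
  union := by
    simpa only [sat_all, sat_ex, sat_imp, sat_mem] using G.sat_of_forces0
      (all fun x => ex fun y => all fun a => all fun b => imp (mem a b) (imp (mem b x) (mem a y)))
      (fun _ _ _ => by repeat' first | assumption | constructor | intro _ _ _)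
      fun p x => forces_ex_of (.mk (Σ i : nI x, nI (nA x i)) (fun k => nA _ k.2) fun _ => t)
        fun a b => forces_imp.2 fun q _ h1 => forces_imp.2 fun r hr h2 s hs => by
          obtain ⟨u, hu, i, -, h3⟩ := mem_iff.1 h2 s hs
          obtain ⟨v, hv, j, -, h4⟩ := mem_iff.1 (fMem_congr_right (fEq_symm h3)
            (fMem_mono (ltrans hu (ltrans hs hr)) h1)) u (lrefl u)
          exact ⟨v, ltrans hv hu, ⟨i, j⟩, ht v, h4⟩
  power := by
    simpa only [sat_all, sat_ex, sat_imp, sat_mem, sat_sub] using G.sat_of_forces0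
      (all fun x => ex fun y => all fun z => imp (sub z x) (mem z y))
      (fun _ _ _ => by repeat' first | assumption | constructor | intro _ _ _)
      fun p x => forces_ex_of (.mk (nI x → P → Prop) (fun S => .mk {z : nI x × P // S z.1 z.2}
        (fun z => nA x z.1.1) fun z => z.1.2) fun _ => t)
        fun z => forces_imp.2 fun q _ h r hr => ⟨r, lrefl r, fun i s => fMem le (nA x i) z s,
          ht r, fEq_of_ext fun w s hs => ⟨fun k => fMem_dense fun u hu => by
            obtain ⟨v, hv, j, k1, k2⟩ := k u hu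
            exact ⟨v, hv, fMem_congr_left k2 (fMem_mono k1 j.2)⟩, fun k u hu => by
            obtain ⟨v, hv, j, -, k2⟩ := mem_iff.1 (forces_sub.1 h w s (ltrans hs hr) k) u hu
            exact ⟨v, hv, ⟨(j, v), fMem_congr_left (fEq_symm k2) (fMem_mono (ltrans hv hu) k)⟩,
              lrefl v, k2⟩⟩⟩
  inf := by
    simpa only [sat_ex, sat_ind] using G.sat_of_forces0 (ex ind)
      (fun _ _ _ => by repeat' first | assumption | constructor | intro _ _ _)
      fun p => forces_ex_of _ (forces_omega ht p).1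
  sep φ v := by
    simpa only [sat_all, sat_ex, sat_iff, sat_mem, sat_and, sat_fo1] using G.sat_of_forces
      (fun v => all fun x => ex fun y => all fun z => iff (mem z y) (and (mem z x) (fo1 φ v z)))
      (fun _ _ _ _ _ h => by
        repeat' first | assumption | apply par_fo1 h | constructor | intro _ _ _)
      (fun v p x => forces_ex_of (.mk {z : nI x × P // fMem le (nA x z.1) x z.2 ∧
        Forces le (fo1 φ v (nA x z.1)) z.2} (fun z => nA x z.1.1) fun z => z.1.2)
        fun z => forces_iff.2 fun q _ => ⟨fun k => Forces.dense fun r hr => by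
          obtain ⟨s, hs, j, k1, k2⟩ := k r hr
          exact ⟨s, hs, fMem_congr_left k2 (fMem_mono k1 j.2.1),
            (par_fo1 (fun _ => fEq_refl _ _) k2).fo (j.2.2.mono k1)⟩, fun k r hr => by
          obtain ⟨s, hs, j, k1, k2⟩ := mem_iff.1 k.1 r hr
          exact ⟨s, hs, ⟨(j, s), mem_self x j k1, (par_fo1 (fun _ => fEq_refl _ _)
            (fEq_symm k2)).fo (Forces.mono (ltrans hs hr) k.2)⟩, lrefl s, k2⟩⟩) v
  coll φ v x h := by
    have : ∃ y, ∀ a b, G.E a x → Holds G.E φ (Function.update (Function.update v 0 a) 1 b) →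
        ∃ b', G.E b' y ∧ Holds G.E φ (Function.update (Function.update v 0 a) 1 b') := by
      revert x
      simpa only [sat_all, sat_ex, sat_imp, sat_mem, sat_exIn, sat_fo2] using
        fun x _ => G.sat_of_forces (fun v => all fun x => ex fun y => all fun a => all fun b =>
          imp (mem a x) (imp (fo2 φ v a b) (exIn y fun b' => fo2 φ v a b')))
        (fun _ _ _ _ _ h => by
          repeat' first | assumption | apply par_fo2 h | constructor | intro _ _ _)
        (fun v p x => by
          choose y hy using fun i => max_principle (le := le) (fo2 φ v (nA x i))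
            fun p _ _ h => (par_fo2 (fun _ => fEq_refl _ _) (fEq_refl _ _) h).fo
          refine forces_ex_of (.mk (nI x) y fun _ => t) fun a b => forces_imp.2 fun q _ h1 =>
            forces_imp.2 fun r hr h2 => Forces.dense fun s hs => ?_
          obtain ⟨u, hu, i, -, h3⟩ := mem_iff.1 h1 s (ltrans hs hr)
          exact ⟨u, hu, forces_exIn_of (y i) (fMem_mk i (ht u))
            ((par_fo2 (fun _ => fEq_refl _ _) h3 (fEq_refl _ _)).fo (hy i u b
            ((par_fo2 (fun _ => fEq_refl _ _) (fEq_symm h3) (fEq_refl _ _)).fo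
              (h2.mono (ltrans hu hs)))))⟩) v x
    obtain ⟨y, hy⟩ := this
    exact ⟨y, fun a ha => let ⟨b, hb⟩ := h a ha; hy a b ha hb⟩
  choice := by
    simpa only [sat_all, sat_ex, sat_imp, sat_mem, sat_exIn, sat_and, sat_eq] using
      G.sat_of_forces0 (all fun x => imp (all fun y => all fun z => all fun a =>
        imp (mem y x) (imp (mem z x) (imp (mem a y) (imp (mem a z) (eq y z)))))
        (ex fun c => all fun y => all fun a => imp (mem y x) (imp (mem a y)
          (exIn y fun b => and (mem b c)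
            (all fun b' => imp (mem b' y) (imp (mem b' c) (eq b' b)))))))
      (fun _ _ _ => by repeat' first | assumption | constructor | intro _ _ _)
      fun p x => forces_imp.2 fun q _ h => let ⟨c, hc⟩ := forces_choice (le := le) x
        forces_ex_of c fun y a => forces_imp.2 fun r hr h1 => forces_imp.2 fun s hs h2 =>
          hc s (h.mono (ltrans hs hr)) y a (fMem_mono hs h1) h2

end Gen

/-- a sentence forced by every condition holds in some model of ZFC -/
theorem exists_model {t : P} (ht : ∀ p, le p t) (Φ : ∀ {V : Type 2}, Fml V)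
    (hΦ : ∀ (V W : Type 2) (R : V → W → Prop), Par R Φ Φ) (h : ∀ p, Forces le Φ p) :
    ∃ (M : Type 2) (E : M → M → Prop), ZFC E ∧ Sat E Φ := by
  have : Nonempty P := ⟨t⟩
  obtain ⟨G⟩ := exists_gen (le := le)
  exact ⟨G.N, G.E, G.zfc ht, G.sat_of_forces0 Φ hΦ h⟩

end Pool.Agent.Ctry.Fc
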