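import Mathlib.Algebra.Order.Archimedean.Basic
import Mathlib.Order.Filter.AtTopBot.Basic
import Mathlib.CategoryTheory.Countable
import Mathlib.Algebra.Order.Ring.Star
import Pool.Agent.MP_77405c_lc.Spec

/-! Weak properness and finite completeness of the promise forcings. -/

open Filter Set

namespace Pool.Agent.Ctry.Sch

variable {P : Type 1} [Preorder P] [Cd P] [Small.{0} P] {D : Dat P}

omit [Preorder P] in
theorem exists_nm {Y : Type} [Cd Y] (Γ : Y → P → Prop) :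
    ∃ g : U, nm g = Γ ∧ ∀ y ∈ g, ∃ z : Y × P, cd z = y := by
  obtain ⟨u, h1, h2⟩ := exists_code {z : Y × P | Γ z.1 z.2}
  exact ⟨u, funext fun y => funext fun p => propext (h1 (y, p)),
    fun y hy => let ⟨z, _, h⟩ := h2 y hy; ⟨z, h⟩⟩

/-- the code of a name -/
noncomputable def cn {Y : Type} [Cd Y] (Γ : Y → P → Prop) : U := (exists_nm Γ).choose

omit [Preorder P] in
theorem nm_cn {Y : Type} [Cd Y] (Γ : Y → P → Prop) : nm (cn Γ) = Γ := (exists_nm Γ).choose_spec.1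

omit [Preorder P] in
theorem can_cn (Γ : Tup → P → Prop) : Can P (cn Γ) := (exists_nm Γ).choose_spec.2

omit [Small.{0} P] in
theorem val_mono (hD : Ax D) {p q : P} {c : Pc} (h : Val D p c) (hq : q ≤ p) : Val D q c := by
  obtain ⟨h1, h2, h3, h4, h5⟩ := h
  refine ⟨h1, h2, fun a ha b hb c hc d hd w k1 k2 => ?_, h4, fun g hg => ?_⟩
  · obtain ⟨e, k3, k4⟩ := h3 a ha b hb c hc d hd w k1 k2
    exact ⟨e, hD.V_mono _ _ _ _ _ hq k3, hD.V_mono _ _ _ _ _ hq k4⟩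
  · obtain ⟨k1, k2, k3⟩ := h5 g hg
    refine ⟨k1, hD.mono _ _ _ hq k2, fun F hF => ?_⟩
    obtain ⟨τ, j1, j2, j3⟩ := k3 F hF
    exact ⟨τ, j1, (hD.tree _ _ k2).1 _ _ _ hq j2, j3⟩

theorem inj_up {σ : Tup} {g g' : Om} (h : Inj (res σ g)) (hg : g ≤ g') : Inj (res σ g') := by
  have : (res σ g).l.map TT.pi = ((res σ g').l.map TT.pi).map (res · g) := by
    simp only [Fam.res_l, List.map_map]
    exact List.map_congr_left fun x _ => (res_res_of_le x.pi hg).symm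
  rw [Inj, this] at h
  exact List.Nodup.of_map _ h

theorem run {σ ι : Type*} [Countable ι] [Nonempty ι] (Inv : σ → Prop) (Le : σ → σ → Prop)
    (Done : ι → σ → σ → Prop) (s₀ : σ) (h0 : Inv s₀)
    (hs : ∀ i s, Inv s → ∃ s', Inv s' ∧ Le s' s ∧ Done i s s') :
    ∃ f : ℕ → σ, f 0 = s₀ ∧ (∀ n, Inv (f n) ∧ Le (f (n + 1)) (f n)) ∧
      ∀ i n, ∃ m, n ≤ m ∧ Done i (f m) (f (m + 1)) := by
  obtain ⟨e, he⟩ := exists_surjective_nat ι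
  obtain ⟨f, h1, h2⟩ := rec_choice (fun _ => Inv)
    (fun n s s' => Le s' s ∧ Done (e n.unpair.1) s s') s₀ h0 fun n s h => hs _ s h
  refine ⟨f, h1, fun n => ⟨(h2 n).1, (h2 n).2.1⟩, fun i n => ?_⟩
  obtain ⟨k, rfl⟩ := he i
  exact ⟨Nat.pair k n, Nat.right_le_pair k n, by simpa using (h2 (Nat.pair k n)).2.2⟩

variable (D)

/-- the name coded by `y` contains a legitimate promise -/
def HL (y : U) (a : P) : Prop := ∃ Γ', D.Leg a Γ' ∧ Sub a Γ' (nm y)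

/-- good tuples -/
def Good (a : P) (M : U) (σ : Tup) : Prop := (∀ g < del M, cd (res σ g) ∈ M) ∧
  ∀ y ∈ M, Opn (nm y : Tup → P → Prop) → Dc (nm y : Tup → P → Prop) →
    (∀ g < del M, nm y (res σ g) a) → HL D y a

/-- dense sets of pairs -/
def Den (u : U) : Prop := ∀ p c, Val D p c → ∃ p' ≤ p, ∃ c' ≤ c, Val D p' c' ∧ cd (p', c') ∈ u

/-- `c` with all of `A` is below a member of every dense set in the models of `B` -/
def Gn (A : List P) (c : Pc) (B : U) : Prop := ∀ M ∈ B, ∀ u ∈ M, Den D u →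
  ∃ h c', cd (h, c') ∈ u ∧ cd h ∈ M ∧ cd c' ∈ M ∧ c ≤ c' ∧ ∀ a ∈ A, a ≤ h

/-- the output of the main induction -/
def Out (x : (U × Ordinal.{0} × U × U) × List P × Pc × Tup) (z : U × Pc) : Prop :=
  z.1 ⊆ x.1.2.2.1 ∧ Rk x.1.1 x.1.2.1 z.1 x.1.2.2.2 ∧ z.2 ≤ x.2.2.1 ∧ (∀ a ∈ x.2.1, Val D a z.2) ∧
    z.2.α = ht x.2.2.2 ∧ (∀ y ∈ x.2.2.2.l, y ∈ z.2.u) ∧ Gn D x.2.1 z.2 z.1

/-- a witness for meeting a dense set along a tuple -/
def Wit (x : U × Om × Pc) (τ : Tup) (w : P) (z : P × Pc) : Prop :=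
  Val D w z.2 ∧ w ≤ z.1 ∧ (Den D x.1 → cd z ∈ x.1) ∧ x.2.1 ≤ z.2.α ∧ z.2 ≤ x.2.2 ∧
    z.2.α ≤ ht τ ∧ ∀ y ∈ (res τ z.2.α).l, y ∈ z.2.u

/-- the failure tree -/
def Fail (x : (U × Om × Pc) × Tup) (τ : Tup) (r : P) : Prop :=
  Cp x.2 τ ∧ ∀ r' ≤ r, ∀ z, ¬ Wit D x.1 τ r' z

/-- the conclusion of the requirement `new` -/
def NewC (x : U × Tup) (q : P) (z : ℕ × U) : Prop :=
  Opn (nm z.2 : Fam Tup → P → Prop) ∧ Dc (nm z.2 : Fam Tup → P → Prop) ∧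
    Unb q (nm z.2 : Fam Tup → P → Prop) ∧
    (∀ (ρ : Fam Tup) (r : P), nm z.2 ρ r → ρ.l.length = z.1 ∧ ∀ τ ∈ ρ.l, nm x.1 τ r ∧ Cp x.2 τ) ∧
    ∀ (d : G) (Y : ℕ → Tup → P → Prop), (∀ k, Opn (Y k) ∧ Dc (Y k)) → ∀ r ≤ q, ∀ Γ', D.Leg r Γ' →
      Sub r Γ' (Lnk (nm z.2) d Y) → ∃ r' ≤ r, ∃ k < z.1, ∃ Γ'', D.Leg r' Γ'' ∧ Sub r' Γ'' (Y k)

/-- the names coded by a list -/
def Yf (ys : List U) (k : ℕ) (τ : Tup) (r : P) : Prop := ∀ h : k < ys.length, nm ys[k] τ r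

/-- the closure properties of the models -/
structure QQ (M : U) : Prop where
  m0 : Mod0 M
  dl : ∀ a : Om, cd a ∈ M ↔ a < del M
  delf : ∀ N ∈ M, cd (del N) ∈ M
  restr : ∀ x ∈ M, ∀ B' ∈ M, B'.sep (x ∈ ·) ∈ M
  lev : ∀ g : Om, cd g ∈ M → ∀ t ∈ {t : T | ht t = g}, cd t ∈ M
  grp : ∀ l : List Om, cd l ∈ M → ∀ d ∈ {d : G | ∀ x ∈ d.support, x ∈ l}, cd d ∈ M
  cu : ∀ c : Pc, cd c ∈ M → c.u.Countable → ∀ x ∈ c.u, cd x ∈ M
  suc : ∀ g : Om, cd g ∈ M → cd (Order.succ g) ∈ M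
  cNm : Cap univ (fun (z : U × Tup) (w : P) (_ : Unit) =>
    nm z.1 z.2 w ∨ ∀ w' ≤ w, ¬ nm z.1 z.2 w') M
  cHL : Cap univ (fun (y : U) (w : P) (_ : Unit) => HL D y w ∨ ∀ w' ≤ w, ¬ HL D y w') M
  cDec : Cap univ (psiDec (univ : Set P)) M
  cUnb : Cap univ (fun (y : U) (w : P) (g : Om) => Unb w (fun τ : Tup => fun q => nm y τ q ∧ τ.l = []) ∨
    ∀ w' ≤ w, ∀ τ : Tup, ht τ = g → nm y τ w' → τ.l ≠ []) M
  cCL : CapB univ (fun (z : U × Om) (w : P) (W : U) => (W : Set U).Countable ∧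
    ∀ r ≤ w, ∀ τ : Tup, nm z.1 τ r → ht τ = z.2 → cd τ ∈ W) M
  cNew : CapB univ (NewC D) M
  cR : CapB univ (fun (z : U × Om) (w : P) (ρ : Fam Tup) => ht ρ = z.2 ∧ nm z.1 ρ w) M
  cWit : Cap univ (fun (x : (U × Om × Pc) × Tup) (w : P) (z : P × Pc) =>
    Wit D x.1 x.2 w z ∨ ∀ r' ≤ w, ∀ z, ¬ Wit D x.1 x.2 r' z) M
  sepG : ∀ z : U × P × Tup, cd z ∈ M → (z.1.sep fun M' => Good D z.2.1 M' z.2.2) ∈ M
  lnk : ∀ z : U × G × List U, cd z ∈ M → cn (Lnk (P := P) (nm z.1) z.2.1 (Yf z.2.2)) ∈ M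
  fail : ∀ x, cd x ∈ M → cn (Fail D x) ∈ M
  out : El (Out D) M

theorem ev_QQ : ∀ᶠ M in club, QQ D M := by
  have h1 : ∀ l : List Om, {d : G | ∀ x ∈ d.support, x ∈ l}.Countable := fun l => by
    have : Finite {x // x ∈ l} := List.finite_toSet l
    refine (countable_range fun e : {x // x ∈ l} →₀ ℤ => e.mapDomain (↑)).mono fun d hd =>
      mem_range.2 ⟨d.subtypeDomain (· ∈ l), ?_⟩
    ext x
    by_cases hx : x ∈ l
    · exact Finsupp.mapDomain_apply Subtype.val_injective (d.subtypeDomain _) ⟨x, hx⟩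
    · rw [Finsupp.mapDomain_of_notMem_range _ _ (by simpa using hx)]
      exact (Finsupp.notMem_support_iff.1 fun k => hx (hd x k)).symm
  have h2 : ∀ᶠ M in club, ∀ c : Pc, cd c ∈ M → c.u.Countable → ∀ x ∈ c.u, cd x ∈ M :=
    ev_diag fun c => by
      by_cases h : c.u.Countable
      · have := h.to_subtype
        exact (ev_ctble fun y : c.u => ev_const y.1).mono fun N h _ y hy => h ⟨y, hy⟩
      · exact .of_forall fun _ k => absurd k h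
  have H := Eventually.of_forall (f := club) fun M => QQ.mk (D := D) (M := M)
  replace H := (ev_fun Order.succ).mp (h2.mp ((ev_set _ h1).mp
    ((ev_set _ T.ctble_level).mp (ev_restrict.mp ((ev_fun del).mp (ev_del.mp (ev_mod0.mp H)))))))
  replace H := Eventually.mp (ev_cap univ _) (Eventually.mp (ev_cap univ _)
    (Eventually.mp (ev_cap univ _) (Eventually.mp (ev_cap univ _) H)))
  replace H := Eventually.mp (ev_cap univ _) (Eventually.mp (ev_capB univ _)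
    (Eventually.mp (ev_capB univ _) (Eventually.mp (ev_capB univ _) H)))
  exact (ev_el _).mp ((ev_fun fun x => cn (Fail D x)).mp ((ev_fun
    fun z : U × G × List U => cn (Lnk (P := P) (nm z.1) z.2.1 (Yf z.2.2))).mp ((ev_fun
      fun z : U × P × Tup => z.1.sep fun M' => Good D z.2.1 M' z.2.2).mp H)))

variable {D} {M N : U} {a a' : P} {σ : Tup}

theorem QQ.del_le (h : QQ D M) (h' : QQ D N) (hs : M ⊆ N) : del M ≤ del N :=
  le_of_forall_lt fun g hg => (h'.dl g).1 (hs ((h.dl g).2 hg))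

theorem QQ.del_lt (h' : QQ D N) (hs : M ∈ N) : del M < del N := (h'.dl _).1 (h'.delf M hs)

theorem QQ.pc (h : QQ D M) {c : Pc} (hc : cd c ∈ M) : c.α < del M ∧ c.G ∈ M := by
  have : cd (c.α, c.u, c.G) ∈ M := hc
  rw [h.m0.prod, h.m0.prod] at this
  exact ⟨(h.dl _).1 this.1, this.2.2⟩

omit [Small.{0} P] in
theorem HL.mono (hD : Ax D) {y : U} (h : HL D y a) (h' : a' ≤ a) : HL D y a' :=
  let ⟨Γ, h1, h2⟩ := h
  ⟨Γ, hD.mono _ _ _ h' h1, fun q hq => h2 q (hq.trans h')⟩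

theorem QQ.hl (hM : QQ D M) (ha : TG univ a M) {y : U} (hy : y ∈ M) (h : HL D y a')
    (h' : a' ≤ a) : ∃ w, cd w ∈ M ∧ a ≤ w ∧ HL D y w := by
  obtain ⟨w, -, k1, k2, _, -, k3⟩ := ha.use0 hM.cHL hy fun q _ => by
    by_cases k : ∃ w ≤ q, HL D y w
    · exact let ⟨w, k1, k2⟩ := k; ⟨w, trivial, k1, (), Or.inl k2⟩
    · exact ⟨q, trivial, le_rfl, (), Or.inr fun w k1 k2 => k ⟨w, k1, k2⟩⟩
  exact ⟨w, k1, k2, k3.resolve_right fun k => k a' (h'.trans k2) h⟩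

theorem Good.tr (hD : Ax D) (hM : QQ D M) (ha : TG univ a M) (ha' : TG univ a' M)
    (l1 : LB univ M a a') (l2 : LB univ M a' a) (h : Good D a M σ) : Good D a' M σ := by
  refine ⟨h.1, fun y hy h1 h2 h3 => ?_⟩
  obtain ⟨w, k1, k2, k3⟩ := hM.hl ha hy (h.2 y hy h1 h2 fun g hg => by
    obtain ⟨w, -, k1, k2, _, -, k3⟩ := ha'.use0 hM.cNm (y := (y, res σ g))
      (hM.m0.prod.2 ⟨hy, h.1 g hg⟩) fun q _ => by
        by_cases k : ∃ w ≤ q, nm y (res σ g) w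
        · exact let ⟨w, k1, k2⟩ := k; ⟨w, trivial, k1, (), Or.inl k2⟩
        · exact ⟨q, trivial, le_rfl, (), Or.inr fun w k1 k2 => k ⟨w, k1, k2⟩⟩
    exact h1 _ _ _ (l1 w trivial k1 k2) (k3.resolve_right fun k => k a' k2 (h3 g hg))) le_rfl
  exact k3.mono hD (l2 w trivial k1 k2)

omit [Small.{0} P] in
theorem good_res {g : Om} (hg : del M ≤ g) : Good D a M (res σ g) ↔ Good D a M σ := by
  have : ∀ g' < del M, res (res σ g) g' = res σ g' := fun g' h => res_res_of_le σ (h.le.trans hg)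
  refine and_congr (forall₂_congr fun g' h => by rw [this g' h])
    (forall₂_congr fun y _ => imp_congr_right fun _ => imp_congr_right fun _ => imp_congr_left
      (forall₂_congr fun g' h => by rw [this g' h]))

theorem good_nil (hD : Ax D) (hM : QQ D M) (ha : TG univ a M) (h1 : del M ≤ ht σ) (h2 : σ.l = []) :
    Good D a M σ := by
  have e : ∀ g, (res σ g).l = [] := fun g => by rw [Fam.res_l, h2]; rfl
  refine ⟨fun g hg => hM.m0.fam.2 ⟨hM.lev g ((hM.dl g).2 hg) _ (ht_res_of_le (hg.le.trans h1)),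
    by simp [e]⟩, fun y hy k1 k2 k3 => ?_⟩
  obtain ⟨w, -, -, j2, g, j3, j4⟩ := ha.use0 hM.cUnb hy fun q _ => by
    by_cases k : Unb q (fun τ : Tup => fun q => nm y τ q ∧ τ.l = [])
    · exact ⟨q, trivial, le_rfl, ⊥, Or.inl k⟩
    · simp only [Unb, not_forall] at k
      obtain ⟨w, j1, g, j2⟩ := k
      exact ⟨w, trivial, j1, g, Or.inr fun w' j3 τ j4 j5 j6 => j2 ⟨w', j3, τ, j4, j5, j6⟩⟩
  have hg := (hM.dl g).1 j3
  have j5 := j4.resolve_right fun k => k a j2 _ (ht_res_of_le (hg.le.trans h1)) (k3 g hg) (e g)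
  obtain ⟨q, j6, j7⟩ := hD.zero a _ k1 k2 fun q hq => j5 q (hq.trans j2)
  obtain ⟨w', -, j8, j9⟩ := hM.hl ha hy j7 j6
  exact j9.mono hD j8

/-- states of the construction -/
structure St (P : Type 1) where
  h : P
  c : Pc
  σ : Tup
  B : U

variable (D) in
/-- the invariant of the construction -/
structure Inv (S : U) (β : Ordinal.{0}) (B N : U) (a : P) (s : St P) : Prop where
  hN : cd s.h ∈ N
  cN : cd s.c ∈ N
  le : a ≤ s.h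
  val : Val D s.h s.c
  ht : ht s.σ = del N
  mem : ∀ x ∈ (res s.σ s.c.α).l, x ∈ s.c.u
  inj : Inj (res s.σ s.c.α)
  sub : s.B ⊆ B
  rk : Rk S β s.B N
  good : ∀ M ∈ s.B, Good D a M s.σ

variable {S B N' : U} {β : Ordinal.{0}} {s : St P}

theorem stepA (h1 : ExtStmt) (h2 : CombStmt) (hP : Dist (univ : Set P)) (hD : Ax D) (hN : QQ D N)
    (ha : TG univ a N) (hs : Inv D S β B N a s) {u : U} (hu : u ∈ N) {g : Om} (hg : g < del N) :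
    ∃ s', Inv D S β B N a s' ∧ (s'.c ≤ s.c ∧ s.σ.l ⊆ s'.σ.l) ∧ g ≤ s'.c.α ∧
      (Den D u → ∃ h, cd (h, s'.c) ∈ u ∧ cd h ∈ N ∧ a ≤ h) := by
  have hα := (hN.pc hs.cN).1
  have hG := hs.good N hs.rk.mem
  have hx : cd (u, g, s.c) ∈ N := hN.m0.prod.2 ⟨hu, hN.m0.prod.2 ⟨(hN.dl g).2 hg, hs.cN⟩⟩
  have wm : ∀ {x τ w w' z}, Wit D x τ w z → w' ≤ w → Wit D x τ w' z := fun h k =>
    ⟨val_mono hD h.1 k, k.trans h.2.1, h.2.2⟩
  by_cases H : ∀ g' < del N, Fail D ((u, g, s.c), res s.σ s.c.α) (res s.σ g') a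
  · exfalso
    obtain ⟨Γ, k1, k2⟩ := hG.2 _ (hN.fail ((u, g, s.c), res s.σ s.c.α)
      (hN.m0.prod.2 ⟨hx, hG.1 _ hα⟩)) (by
        rw [nm_cn]; exact fun τ p q k h => ⟨h.1, fun r k' => h.2 r (k'.trans k)⟩) (by
        rw [nm_cn]
        refine fun τ p g' h => ⟨h.1.cut g', fun r k z ⟨j1, j2, j3, j4, j5, j6, j7⟩ => ?_⟩
        rw [ht_res, le_min_iff] at j6
        exact h.2 r k z ⟨j1, j2, j3, j4, j5, j6.1, by rwa [res_res_of_le _ j6.2] at j7⟩)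
      (by rw [nm_cn]; exact H)
    rw [nm_cn] at k2
    obtain ⟨t1, -, t3, -⟩ := hD.tree _ _ k1
    obtain ⟨p1, j1, z, j2, j3⟩ := t3 a le_rfl s.c.α
    obtain ⟨p1', j4, j5, -⟩ := k2 p1 j1 z j3
    have j6 : ht (res s.σ s.c.α) = s.c.α := ht_res_of_le (hα.le.trans hs.ht.ge)
    obtain rfl : res s.σ s.c.α = z := (j5.below (j6.trans j2.symm).le).eq (j6.trans j2.symm).ge
    have j7 := j4.trans j1
    obtain ⟨p2, l1, c2, l2, l3, l4⟩ := h2 P hP D hD p1' s.c (cn Γ) _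
      (val_mono hD hs.val (j7.trans hs.le)) (can_cn Γ) (by rw [nm_cn]; exact hD.mono _ _ _ j7 k1)
      (by rw [nm_cn]; exact t1 _ _ _ j4 j3) j2 hs.inj hs.mem
    obtain ⟨g1, l5⟩ := exists_gt (max c2.α g)
    obtain ⟨p3, l6, c3, l7, l8, l9⟩ := h1 P hP D hD p2 c2 g1 l3 (max_lt_iff.1 l5).1
    obtain ⟨p4, m1, c4, m2, m3, m4⟩ : ∃ p4 ≤ p3, ∃ c4 ≤ c3, Val D p4 c4 ∧
        (Den D u → cd (p4, c4) ∈ u) := by
      by_cases hd : Den D u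
      · exact let ⟨p4, m1, c4, m2, m3, m4⟩ := hd p3 c3 l9; ⟨p4, m1, c4, m2, m3, fun _ => m4⟩
      · exact ⟨p3, le_rfl, c3, le_rfl, l9, fun h => absurd h hd⟩
    obtain ⟨τ, m5, m6, -, m7⟩ := (m3.2.2.2.2 _ ((m2.trans l7).2.2.2 l4)).2.2 ∅ finite_empty
    rw [nm_cn] at m6
    obtain ⟨p5, m8, -, m9⟩ := k2 p4 (m1.trans (l6.trans (l1.trans j7))) τ m6
    refine m9 p5 le_rfl (p4, c4) ⟨val_mono hD m3 m8, m8, m4, ?_, m2.trans (l7.trans l2), m5.ge, ?_⟩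
    · exact (l8 ▸ (max_lt_iff.1 l5).2.le : g ≤ c3.α).trans m2.1
    · rw [res_of_le m5.le]
      exact fun y hy => (m7 y hy).1
  · simp only [not_forall] at H
    obtain ⟨g', hg', H⟩ := H
    obtain ⟨w, -, k1, k2, z, k3, k4⟩ := ha.use0 hN.cWit (y := ((u, g, s.c), res s.σ g'))
      (hN.m0.prod.2 ⟨hx, hG.1 _ hg'⟩) fun q _ => by
        by_cases k : ∃ w ≤ q, ∃ z, Wit D (u, g, s.c) (res s.σ g') w z
        · exact let ⟨w, k1, z, k2⟩ := k; ⟨w, trivial, k1, z, Or.inl k2⟩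
        · exact ⟨q, trivial, le_rfl, (q, s.c), Or.inr fun w k1 z k2 => k ⟨w, k1, z, k2⟩⟩
    obtain ⟨j1, j2, j3, j4, j5, j6, j7⟩ := k4.resolve_right fun k => H
      ⟨Cp.cut (Or.inl (below_res _ _)) g', fun r hr => k r (hr.trans k2)⟩
    rw [ht_res, le_min_iff] at j6
    rw [res_res_of_le _ j6.2] at j7
    have k5 := hN.m0.prod.1 (show cd (z.1, z.2) ∈ N from k3)
    exact ⟨⟨w, z.2, s.σ, s.B⟩, ⟨k1, k5.2, k2, j1, hs.ht, j7, inj_up hs.inj j5.1, hs.sub, hs.rk,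
      hs.good⟩, ⟨j5, fun _ h => h⟩, j4, fun hd => ⟨z.1, j3 hd, k5.1, k2.trans j2⟩⟩

theorem QQ.app (hM : QQ D M) {x y : Tup} (hx : cd x ∈ M) (hy : cd y ∈ M) : cd (x.app y) ∈ M := by
  by_cases h : ht y = ht x
  · refine hM.m0.fam.2 ⟨by rw [Fam.app_base]; exact (hM.m0.fam.1 hx).1, fun z hz => ?_⟩
    rw [Fam.app_l h, List.mem_append] at hz
    exact hz.elim ((hM.m0.fam.1 hx).2 z) ((hM.m0.fam.1 hy).2 z)
  · rwa [Fam.app, dif_neg h]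

theorem QQ.exists_add (hN : QQ D N) {s t : T} (h : ht s = ht t) (h' : ht s = del N) :
    ∃ d : G, cd d ∈ N ∧ s.add d = t := by
  classical
  obtain ⟨d, rfl⟩ := T.exists_add h
  refine ⟨d.filter (· < del N), hN.grp (d.support.filter (· < del N)).toList
    (hN.m0.list.2 fun x hx => (hN.dl x).2 (by simp at hx; exact hx.2)) _ fun x hx => by
      simpa using hx, T.ext' rfl fun x hx => ?_⟩
  rw [s.add_f _ hx, s.add_f _ hx, Finsupp.filter_apply_pos (· < del N) _ (show x < del N from h' ▸ hx)]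

/-- one of the extended tuples is good -/
theorem good_app (hD : Ax D) (hM : QQ D M) (ha : TG univ a M) (hG : Good D a M σ) {x : U × Tup}
    {w : P} {z : ℕ × U} {ρ : Fam Tup} {d : G} (hw : NewC D x w z) (haw : a ≤ w) (hz : z.2 ∈ M)
    (hd : cd d ∈ M) (hρ : nm z.2 ρ a) (hb : σ.base.add d = ρ.base)
    (h1 : ∀ k : Fin ρ.l.length, ∀ g < del M, cd (res (σ.app ρ.l[k]) g) ∈ M) :
    ∃ k : Fin ρ.l.length, Good D a M (σ.app ρ.l[k]) := by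
  by_contra hn
  have : ∀ k : Fin ρ.l.length, ∃ y ∈ M, Opn (nm y : Tup → P → Prop) ∧ Dc (nm y : Tup → P → Prop) ∧
      (∀ g < del M, nm y (res (σ.app ρ.l[k]) g) a) ∧ ¬ HL D y a := fun k => by
    by_contra hc
    exact hn ⟨k, h1 k, fun y j1 j2 j3 j4 => by_contra fun j5 => hc ⟨y, j1, j2, j3, j4, j5⟩⟩
  choose y y1 y2 y3 y4 y5 using this
  obtain ⟨n1, n2, -, n4, n5⟩ := hw
  have hY : ∀ k, Opn (Yf (P := P) (List.ofFn y) k) ∧ Dc (Yf (P := P) (List.ofFn y) k) := fun k =>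
    ⟨fun τ p q j1 j2 h => by
      have := j2 h
      rw [List.getElem_ofFn] at this ⊢
      exact y2 _ _ _ _ j1 this, fun τ p g j2 h => by
      have := j2 h
      rw [List.getElem_ofFn] at this ⊢
      exact y3 _ _ _ _ this⟩
  have key : ∀ (τ : Tup) (ρ' : Fam Tup) (p : P) (g : Om), nm z.2 ρ' p → ρ'.base = τ.base.add d →
      (∀ k (h : k < ρ'.l.length), Yf (List.ofFn y) k (res (τ.app ρ'.l[k]) g) p) →
      Lnk (nm z.2) d (Yf (List.ofFn y)) (res τ g) p := fun τ ρ' p g j1 j2 j3 => by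
    refine ⟨res ρ' g, n2 _ _ _ j1, by rw [Fam.res_base, j2, T.res_add, Fam.res_base], fun k h => ?_⟩
    have h' : k < ρ'.l.length := by simpa [Fam.res_l] using h
    have := j3 k h'
    rw [Fam.res_app (by rw [ρ'.ht_mem (List.getElem_mem h'), ← Fam.ht_base, j2]; rfl)] at this
    simpa only [Fam.res_l, List.getElem_map] using this
  obtain ⟨Γ, k1, k2⟩ := hG.2 _ (hM.lnk (z.2, d, List.ofFn y) (hM.m0.prod.2 ⟨hz, hM.m0.prod.2
    ⟨hd, hM.m0.list.2 (by simpa [List.mem_ofFn', cd_U] using y1)⟩⟩)) (by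
      rw [nm_cn]
      exact fun τ p q j ⟨ρ', j1, j2, j3⟩ =>
        ⟨ρ', n1 _ _ _ j j1, j2, fun k h => (hY k).1 _ _ _ j (j3 k h)⟩) (by
      rw [nm_cn]
      exact fun τ p g ⟨ρ', j1, j2, j3⟩ => key τ ρ' p g j1 j2 fun k h => (hY k).2 _ _ _ (j3 k h)) (by
      rw [nm_cn]
      refine fun g hg => key σ ρ a g hρ hb.symm fun k h h' => ?_
      rw [List.getElem_ofFn]
      exact y4 ⟨k, h⟩ g hg)
  rw [nm_cn] at k2
  obtain ⟨r, j1, k, j2, Γ', j3, j4⟩ := n5 d _ hY a haw Γ k1 k2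
  rw [← (n4 ρ a hρ).1] at j2
  obtain ⟨w', -, j5, j6⟩ := hM.hl ha (y1 ⟨k, j2⟩) (a' := r) ⟨Γ', j3, fun q hq τ j => by
    obtain ⟨q', j5, j6⟩ := j4 q hq τ j
    have := j6 (by simpa using j2)
    rw [List.getElem_ofFn] at this
    exact ⟨q', j5, this⟩⟩ j1
  exact y5 _ (j6.mono hD j5)

theorem good_dec (hP : Dist (univ : Set P)) (hD : Ax D) (hN : QQ D N) (hM : QQ D M) (h : M ∈ N)
    (ha : TG univ a N) : ∃ b, cd b ∈ N ∧ a ≤ b ∧ Dec univ b M ∧ ∀ M' ⊆ M, QQ D M' → TG univ a M' →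
      TG univ b M' ∧ ∀ σ, Good D b M' (res σ (del M)) ↔ Good D a M' σ := by
  obtain ⟨b, -, k1, k2, k3⟩ := ha.exists_dec hP hN.cDec h hM.m0.ctble
  refine ⟨b, k1, k2, k3, fun M' j1 j2 j3 => ?_⟩
  have j4 := k3.tg j1 j3.gen ⟨a, trivial, k2, le_rfl⟩
  have j5 : LB univ M' b a := (k3.lb trivial k2).anti j1
  exact ⟨j4, fun σ => (good_res (j2.del_le hM j1)).trans
    ⟨Good.tr hD j2 j4 j3 j5 (LB.of_le k2), Good.tr hD j2 j3 j4 (LB.of_le k2) j5⟩⟩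

theorem stepB (hP : Dist (univ : Set P)) (hD : Ax D) (hB : ∀ M ∈ B, QQ D M) (hN' : QQ D N')
    (hNN : N ∈ N') (ha : ∀ M ∈ B, TG univ a M) (ha' : ∀ M ∈ B, TG univ a' M) (ht' : TG univ a' N')
    (l1 : LB univ N a a') (l2 : LB univ N a' a) (hs : Inv D S β B N a s) {g : U} (hg : g ∈ s.c.G)
    (F : List T) : ∃ s', Inv D S β B N a s' ∧ (s'.c ≤ s.c ∧ s.σ.l ⊆ s'.σ.l) ∧
      ∃ τ : Tup, ht τ = del N ∧ nm g τ a' ∧ Inj τ ∧ ∀ x ∈ τ.l, x ∈ s'.σ.l ∧ x.pi ∉ F := by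
  have hN := hB N (hs.sub hs.rk.mem)
  have hα := (hN.pc hs.cN).1
  obtain ⟨v1, -, -, v4, v5⟩ := hs.val
  have gN : g ∈ N := hN.m0.sub _ (hN.pc hs.cN).2 v4 hg
  obtain ⟨-, v6, v7⟩ := v5 g hg
  obtain ⟨t1, t2, -, -, t5⟩ := hD.tree _ _ v6
  obtain ⟨z, z1, z2, z3, z4⟩ := v7 _ (List.finite_toSet
    (F.map (res · s.c.α) ++ (res s.σ s.c.α).l.map TT.pi))
  have zN : cd z ∈ N := hN.m0.fam.2 ⟨hN.lev _ ((hN.dl _).2 hα) _ z1,
    fun x hx => hN.cu _ hs.cN v1 x (z4 x hx).1⟩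
  have hah := l2 _ trivial hs.hN hs.le
  obtain ⟨w, -, w1, w2, y, w3, w4⟩ := (ha' N (hs.sub hs.rk.mem)).use hN.cNew trivial (y := (g, z))
    (hN.m0.prod.2 ⟨gN, zN⟩) hs.hN hah fun q _ hq => by
      obtain ⟨q', j1, m, R, j2⟩ := hD.new q _ z (hD.mono _ _ _ hq v6) (t1 _ _ _ hq z2)
      exact ⟨q', trivial, j1, (m, cn R), by simpa only [NewC, nm_cn] using j2⟩
  have yN : y.2 ∈ N := (hN.m0.prod.1 (show cd (y.1, y.2) ∈ N from w3)).2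
  have hsub := hN'.m0.sub' hN.m0 hNN
  obtain ⟨w', -, -, j1, ρ, -, j2, j3⟩ := ht'.use hN'.cR trivial (y := (y.2, del N))
    (hN'.m0.prod.2 ⟨hsub yN, hN'.delf N hNN⟩) (hsub w1) w2 fun q _ hq =>
      let ⟨q', j1, j2⟩ := w4.2.2.1 q hq (del N); ⟨q', trivial, j1, j2⟩
  have hρ : nm y.2 ρ a' := w4.1 _ _ _ j1 j3
  obtain ⟨d, dN, hd⟩ := hN.exists_add (s := s.σ.base) (t := ρ.base) (hs.ht.trans j2.symm) hs.ht
  have xN : cd (g, s.h, y.2, d) ∈ N :=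
    hN.m0.prod.2 ⟨gN, hN.m0.prod.2 ⟨hs.hN, hN.m0.prod.2 ⟨yN, dN⟩⟩⟩
  have hB1 : ∀ M ∈ s.B.sep (cd (g, s.h, y.2, d) ∈ ·), M ∈ s.B ∧ g ∈ M ∧ cd s.h ∈ M ∧ y.2 ∈ M ∧
      cd d ∈ M := fun M hM => by
    obtain ⟨k1, k2⟩ := ZFSet.mem_sep.1 hM
    have := (hB M (hs.sub k1)).m0
    rw [this.prod, this.prod, this.prod] at k2
    exact ⟨k1, k2⟩
  have hτ : ∀ k : Fin ρ.l.length, ht ρ.l[k] = del N ∧ nm g ρ.l[k] a' ∧ Cp z ρ.l[k] := fun k =>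
    ⟨(ρ.ht_mem (List.getElem_mem _)).trans j2, (w4.2.2.2.1 ρ a' hρ).2 _ (List.getElem_mem _)⟩
  have tr : ∀ M ∈ s.B, ∀ σ, Good D a M σ ↔ Good D a' M σ := fun M hM σ =>
    have k := hs.sub hM
    have k' := hs.rk.sub hM
    ⟨Good.tr hD (hB M k) (ha M k) (ha' M k) (l1.anti k') (l2.anti k'),
      Good.tr hD (hB M k) (ha' M k) (ha M k) (l2.anti k') (l1.anti k')⟩
  have c1 : ∀ M ∈ s.B.sep (cd (g, s.h, y.2, d) ∈ ·), ∀ k : Fin ρ.l.length, ∀ g' < del M,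
      cd (res (s.σ.app ρ.l[k]) g') ∈ M := fun M hM k g' hg' => by
    obtain ⟨k1, k2, k3, -⟩ := hB1 M hM
    have hM' := hB M (hs.sub k1)
    rw [Fam.res_app ((hτ k).1.trans hs.ht.symm)]
    refine hM'.app ((hs.good M k1).1 g' hg') ?_
    obtain ⟨w, -, -, k4, W, k5, k6, k7⟩ := (ha' M (hs.sub k1)).use hM'.cCL trivial (y := (g, g'))
      (hM'.m0.prod.2 ⟨k2, (hM'.dl _).2 hg'⟩) k3 hah fun q _ hq => by
        obtain ⟨q', j1, W, j2, j3⟩ := t5 q hq g'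
        obtain ⟨W', j4, j5⟩ := exists_code_ctble j2
        exact ⟨q', trivial, j1, W', j4, fun r hr τ j6 j7 => (j5 τ).2 (j3 r hr τ j6 j7)⟩
    exact hM'.m0.sub W k5 k6 (k7 a' k4 _ (t2 _ _ _ (hτ k).2.1) (ht_res_of_le (hg'.le.trans
      ((hM'.del_le hN (hs.rk.sub k1)).trans (hτ k).1.ge))))
  obtain ⟨k, hk⟩ := (hs.rk.restrict xN (fun M hM => (hB M (hs.sub hM)).m0)
    fun M hM B' k1 k2 => (hB M (hs.sub hM)).restr _ k2 B' k1).add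
    (fun (k : Fin ρ.l.length) M => Good D a' M (s.σ.app ρ.l[k]))
    (fun M hM => (hB M (hs.sub (hB1 M hM).1)).m0) (fun M hM => by
      obtain ⟨k1, -, -, k2, k3⟩ := hB1 M hM
      exact good_app hD (hB M (hs.sub k1)) (ha' M (hs.sub k1)) ((tr M k1 _).1 (hs.good M k1)) w4 w2
        k2 k3 hρ hd (c1 M hM)) (fun k M hM H => ⟨c1 M hM k, fun y hy j1 j2 j3 => by
      obtain ⟨M', k1, k2, k3, k4⟩ := H y hy
      exact k4.2 y k3 j1 j2 fun g' hg' => j3 g' (hg'.trans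
        ((hB M (hs.sub (hB1 M hM).1)).del_lt k2))⟩) fun k M hM N1 hN1 B1 k1 k2 k3 k4 => by
      have hM' := hB M (hs.sub (hB1 M hM).1)
      obtain ⟨b, b1, -, -, b2⟩ := good_dec hP hD hM' (hB N1 (hs.sub (hB1 N1 hN1).1)) k2
        (ha' M (hs.sub (hB1 M hM).1))
      convert hM'.sepG (B1, b, res (s.σ.app ρ.l[k]) (del N1)) (hM'.m0.prod.2 ⟨k1, hM'.m0.prod.2
        ⟨b1, c1 M hM k _ (hM'.del_lt k2)⟩⟩) using 1
      ext M'
      simp only [ZFSet.mem_sep]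
      exact and_congr_right fun k5 => have k6 := hs.sub (hB1 M' (k3 k5)).1
        ((b2 M' (k4 M' k5) (hB M' k6) (ha' M' k6)).2 _).symm
  obtain ⟨τ1, τ2, τ3⟩ := hτ k
  have e1 : res ρ.l[k] s.c.α = z := z1 ▸ τ3.below (by rw [z1, τ1]; exact hα.le)
  have e2 : (res (s.σ.app ρ.l[k]) s.c.α).l = (res s.σ s.c.α).l ++ z.l := by
    rw [Fam.res_app (τ1.trans hs.ht.symm), e1, Fam.app_l (by
      rw [z1, ht_res_of_le (hα.le.trans hs.ht.ge)])]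
  have e3 := Fam.app_l (τ1.trans hs.ht.symm)
  refine ⟨⟨s.h, s.c, s.σ.app ρ.l[k], (s.B.sep (cd (g, s.h, y.2, d) ∈ ·)).sep fun M =>
    Good D a' M (s.σ.app ρ.l[k])⟩, ⟨hs.hN, hs.cN, hs.le, hs.val, (Fam.ht_app _ _).trans hs.ht,
    fun x hx => ?_, ?_, fun M hM => ?_, hk, fun M hM => ?_⟩,
    ⟨le_rfl, e3 ▸ List.subset_append_left _ _⟩, ρ.l[k], τ1, τ2, ?_, fun x hx =>
      ⟨e3 ▸ List.mem_append_right _ hx, fun k' => ?_⟩⟩
  · exact (List.mem_append.1 (e2 ▸ hx)).elim (hs.mem x) fun h => (z4 x h).1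
  · rw [Inj, e2, List.map_append]
    refine List.nodup_append.2 ⟨hs.inj, z3, fun t k1 t' k2 e => ?_⟩
    obtain ⟨x, k3, rfl⟩ := List.mem_map.1 k2
    exact (z4 x k3).2 (List.mem_append_right _ (e ▸ k1))
  · dsimp only at hM
    have k1 := ZFSet.mem_sep.1 hM
    exact hs.sub (hB1 M k1.1).1
  · dsimp only at hM
    have k1 := ZFSet.mem_sep.1 hM
    exact (tr M (hB1 M k1.1).1 _).2 k1.2
  · rw [← res_ht ρ.l[k]]
    exact inj_up (e1 ▸ z3) (hα.le.trans τ1.ge)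
  · exact (z4 (res x s.c.α) (e1 ▸ List.mem_map_of_mem hx)).2
      (List.mem_append_left _ (List.mem_map_of_mem (f := (res · s.c.α)) k'))

variable (D) in
/-- the statement proved by induction on the rank -/
def SS (β : Ordinal.{0}) : Prop := ∀ (S B N N' : U) (A : List P) (a : P) (s : St P),
  (S : Set U).Countable → S ∈ N → (∀ M ∈ B, QQ D M) → QQ D N' → N ∈ N' → a ∈ A →
  (∀ a ∈ A, TG univ a N' ∧ (∀ M ∈ B, TG univ a M) ∧ ∀ a' ∈ A, LB univ N a a') →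
  Inv D S β B N a s → ∃ z, Out D ((S, β, B, N), A, s.c, s.σ) z

theorem stepP (hP : Dist (univ : Set P)) (hD : Ax D) (hB : ∀ M ∈ B, QQ D M)
    (hS : (S : Set U).Countable) (hSN : S ∈ N) (ha : ∀ M ∈ B, TG univ a M)
    (hs : Inv D S β B N a s) {β' : Ordinal.{0}} (ih : SS D β') (h1 : β' < β) (h2 : cd β' ∈ S)
    {x : U} (hx : x ∈ N) : ∃ s', Inv D S β B N a s' ∧ (s'.c ≤ s.c ∧ s.σ.l ⊆ s'.σ.l) ∧
      ∃ z : U × U, z.1 ∈ N ∧ z.2 ∈ N ∧ x ∈ z.1 ∧ z.2 ⊆ B ∧ Rk S β' z.2 z.1 ∧ Gn D [a] s'.c z.2 := by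
  have hN := hB N (hs.sub hs.rk.mem)
  obtain ⟨M, B1, k1, k2, k3, k4, k5⟩ := hs.rk.wit h1 h2 (x := cd (x, S, s.h, s.c))
    (hN.m0.prod.2 ⟨hx, hN.m0.prod.2 ⟨hSN, hN.m0.prod.2 ⟨hs.hN, hs.cN⟩⟩⟩)
  have hB1 : ∀ M' ∈ B1, M' ∈ B := fun M' h => hs.sub (k4 h)
  have hM := hB M (hB1 M k5.mem)
  rw [hM.m0.prod, hM.m0.prod, hM.m0.prod] at k3
  obtain ⟨N2, B2, k6, -, k7, k8, k9⟩ := hs.rk.wit h1 h2 k1
  have k10 := hs.sub (k8 k9.mem)
  have hN2 := hB N2 k10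
  have aN := ha N (hs.sub hs.rk.mem)
  obtain ⟨b, -, b1, b2, b3⟩ := aN.exists_dec hP hN.cDec k6 hN2.m0.ctble
  have hMN := hN2.m0.sub' hM.m0 k7
  have b4 : ∀ M' ∈ B, M' ⊆ N2 → TG univ b M' := fun M' j1 j2 =>
    b3.tg j2 (ha M' j1).gen ⟨a, trivial, b2, le_rfl⟩
  have hδ := hN.del_lt k1
  have hα := (hM.pc k3.2.2.2).1
  have e : res (res s.σ (del M)) s.c.α = res s.σ s.c.α := res_res_of_le _ hα.le
  have b5 : b ≤ s.h := b3.le trivial (hMN k3.2.2.1) ⟨a, trivial, b2, hs.le⟩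
  obtain ⟨z, z1, z2, z3, z4, z5, z6, z7, z8⟩ := hN.out ((S, β', B1, M), [b], s.c, res s.σ (del M))
    (by
      simp only [hN.m0.prod, hN.m0.list, List.forall_mem_singleton]
      exact ⟨⟨hSN, hN.m0.sub S hSN hS h2, k2, k1⟩, b1, hs.cN, (hs.good N hs.rk.mem).1 _ hδ⟩)
    (ih S B1 M N2 [b] b ⟨s.h, s.c, res s.σ (del M), B1⟩ hS k3.2.1 (fun M' h => hB M' (hB1 M' h)) hN2
      k7 (by simp) (by
        simp only [List.forall_mem_singleton]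
        exact ⟨b4 N2 k10 fun _ h => h, fun M' h => b4 M' (hB1 M' h) fun _ j => hMN (k5.sub h j),
          LB.of_le le_rfl⟩) ⟨k3.2.2.1, k3.2.2.2, b5, hs.val, ht_res_of_le (hδ.le.trans hs.ht.ge),
        e ▸ hs.mem, e ▸ hs.inj, fun _ h => h, k5, fun M' h => by
          have j1 := hB1 M' h
          have j2 : M' ⊆ N2 := fun _ j => hMN (k5.sub h j)
          exact (good_res ((hB M' j1).del_le hM (k5.sub h))).2 (Good.tr hD (hB M' j1) (ha M' j1)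
            (b4 M' j1 j2) (LB.of_le b2) ((b3.lb trivial b2).anti j2) (hs.good M' (k4 h)))⟩)
  have z9 := hN.m0.prod.1 (show cd (z.1, z.2) ∈ N from z1)
  have z10 : z.2.α = del M := z6.trans (ht_res_of_le (hδ.le.trans hs.ht.ge))
  refine ⟨⟨b, z.2, s.σ, s.B⟩, ⟨b1, z9.2, b2, z5 b (by simp), hs.ht, z10 ▸ z7,
    inj_up hs.inj z4.1, hs.sub, hs.rk, hs.good⟩, ⟨z4, fun _ h => h⟩, (M, z.1), k1, z9.1, k3.1,
    fun _ h => hB1 _ (z2 h), z3, fun M' j1 u j2 j3 => ?_⟩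
  obtain ⟨h, c', j4, j5, j6, j7, j8⟩ := z8 M' j1 u j2 j3
  exact ⟨h, c', j4, j5, j6, j7, by simpa using b2.trans (j8 b (by simp))⟩

theorem ss (h1 : ExtStmt) (h2 : CombStmt) (hP : Dist (univ : Set P)) (hD : Ax D) (β : Ordinal.{0}) :
    SS D β := by
  induction β using WellFoundedLT.induction with
  | _ β ih =>
  intro S B N N' A a s hS hSN hB hN' hNN haA hA hs
  have hNB := hs.sub hs.rk.mem
  have hN := hB N hNB
  let I1 := {x : U × Om // x.1 ∈ N ∧ x.2 < del N}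
  let I2 := {x : Ordinal.{0} × U // x.1 < β ∧ cd x.1 ∈ S ∧ x.2 ∈ N}
  let I3 := {x : P × U × List T // x.1 ∈ A ∧ x.2.1 ∈ N ∧ ∀ t ∈ x.2.2, ht t = del N}
  have c1 : Countable I1 := (hN.m0.ctble.prod (ctble_Iio (del N))).to_subtype
  have c2 : Countable I2 := (((hS.preimage (Cd.inj (X := Ordinal.{0}))).prod hN.m0.ctble).mono
    (s₁ := {x : Ordinal.{0} × U | x.1 < β ∧ cd x.1 ∈ S ∧ x.2 ∈ N}) fun _ h => h.2).to_subtype
  have c3 : Countable I3 := by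
    have := (T.ctble_level (del N)).to_subtype
    have k : {l : List T | ∀ t ∈ l, ht t = del N}.Countable :=
      (countable_range fun l : List {t : T | ht t = del N} => l.map Subtype.val).mono fun l hl =>
        mem_range.2 ⟨l.attachWith _ hl, by simp⟩
    exact ((List.finite_toSet A).countable.prod (hN.m0.ctble.prod k)).to_subtype
  have : Nonempty (I1 ⊕ I2 ⊕ I3) := ⟨.inl ⟨(∅, s.c.α), hN.m0.emp, (hN.pc hs.cN).1⟩⟩
  obtain ⟨f, f0, f1, f2⟩ := run (ι := I1 ⊕ I2 ⊕ I3) (Inv D S β B N a)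
    (fun s' s => s'.c ≤ s.c ∧ s.σ.l ⊆ s'.σ.l) (fun i s s' => match i with
      | .inl x => x.1.2 ≤ s'.c.α ∧ (Den D x.1.1 → ∃ h, cd (h, s'.c) ∈ x.1.1 ∧ cd h ∈ N ∧ a ≤ h)
      | .inr (.inl x) => ∃ z : U × U, z.1 ∈ N ∧ z.2 ∈ N ∧ x.1.2 ∈ z.1 ∧ z.2 ⊆ B ∧
          Rk S x.1.1 z.2 z.1 ∧ Gn D [a] s'.c z.2
      | .inr (.inr x) => x.1.2.1 ∈ s.c.G → ∃ τ : Tup, ht τ = del N ∧ nm x.1.2.1 τ x.1.1 ∧ Inj τ ∧
          ∀ y ∈ τ.l, y ∈ s'.σ.l ∧ y.pi ∉ x.1.2.2) s hs (by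
      rintro (x | x | x) s hs
      · exact stepA h1 h2 hP hD hN ((hA a haA).2.1 N hNB) hs x.2.1 x.2.2
      · exact stepP hP hD hB hS hSN (hA a haA).2.1 hs (ih _ x.2.1) x.2.1 x.2.2.1 x.2.2.2
      · by_cases hg : x.1.2.1 ∈ s.c.G
        · obtain ⟨s', k1, k2, k3⟩ := stepB hP hD hB hN' hNN (hA a haA).2.1 (hA _ x.2.1).2.1
            (hA _ x.2.1).1 ((hA a haA).2.2 _ x.2.1) ((hA _ x.2.1).2.2 a haA) hs hg x.1.2.2
          exact ⟨s', k1, k2, fun _ => k3⟩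
        · exact ⟨s, hs, ⟨le_rfl, fun _ h => h⟩, fun h => absurd h hg⟩)
  have m1 : Antitone fun n => (f n).c := antitone_nat_of_succ_le fun n => (f1 n).2.1
  have m2 : ∀ {n m}, n ≤ m → (f n).σ.l ⊆ (f m).σ.l := fun {n m} h => by
    induction h with
    | refl => exact fun _ h => h
    | step _ ih => exact fun _ h => (f1 _).2.2 (ih h)
  have hα : ∀ n, (f n).c.α < del N := fun n => (hN.pc (f1 n).1.cN).1
  have cof : ∀ g < del N, ∀ n, ∃ m, n ≤ m ∧ g ≤ (f m).c.α := fun g hg n =>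
    let ⟨m, k1, k2, _⟩ := f2 (.inl ⟨(∅, g), hN.m0.emp, hg⟩) n; ⟨m + 1, k1.trans m.le_succ, k2⟩
  let c : Pc := ⟨del N, (⋃ n, (f n).c.u) ∪ ⋃ n, {x | x ∈ (f n).σ.l}, ZFSet.iUnion fun n => (f n).c.G⟩
  have top : ∀ n, ∀ x ∈ (f n).σ.l, ht x = del N := fun n x hx =>
    ((f n).σ.ht_mem hx).trans (f1 n).1.ht
  have cle : ∀ n, c ≤ (f n).c := fun n => ⟨(hα n).le, fun x hx => Or.inl (mem_iUnion.2 ⟨n, hx⟩),
    fun x hx k => by
      rcases hx with hx | hx <;> obtain ⟨m, hm⟩ := mem_iUnion.1 hx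
      · rcases le_total m n with e | e
        · exact (m1 e).2.1 hm
        · exact (m1 e).2.2.1 x hm k
      · exact absurd (top m x hm ▸ k) (hα n).not_ge,
    ZFSet.subset_iUnion (fun n => (f n).c.G) n⟩
  have ale : ∀ a' ∈ A, ∀ h, cd h ∈ N → a ≤ h → a' ≤ h := fun a' k h k1 k2 =>
    (hA a' k).2.2 a haA h trivial k1 k2
  choose mm _ z z1 z2 z3 z4 z5 z6 using fun x : I2 => f2 (.inr (.inl x)) 0
  refine ⟨(insert N (ZFSet.iUnion fun x => (z x).2), c), fun M hM => ?_,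
    rk_iff.2 ⟨ZFSet.mem_insert _ _, fun M hM => ?_, fun β' k1 k2 x k3 => ?_⟩, f0 ▸ cle 0,
    fun a' ha' => ⟨?_, ?_, ?_, ?_, fun g hg => ?_⟩, hs.ht.symm,
    fun y hy => Or.inr (mem_iUnion.2 ⟨0, f0 ▸ hy⟩), fun M hM u hu hd => ?_⟩
  · rcases ZFSet.mem_insert_iff.1 hM with rfl | hM
    · exact hNB
    · exact let ⟨x, hx⟩ := ZFSet.mem_iUnion.1 hM; z4 x hx
  · rcases ZFSet.mem_insert_iff.1 hM with rfl | hM
    · exact fun _ h => h
    · obtain ⟨x, hx⟩ := ZFSet.mem_iUnion.1 hM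
      exact fun _ h => hN.m0.sub' (hB _ (z4 x (z5 x).mem)).m0 (z1 x) ((z5 x).sub hx h)
  · let i : I2 := ⟨(β', x), k1, k2, k3⟩
    exact ⟨_, _, z1 i, z2 i, z3 i, fun M hM => ZFSet.mem_insert_of_mem _
      (ZFSet.mem_iUnion.2 ⟨i, hM⟩), z5 i⟩
  · exact (countable_iUnion fun n => (f1 n).1.val.1).union
      (countable_iUnion fun n => (List.finite_toSet _).countable)
  · rintro x (hx | hx) <;> obtain ⟨m, hm⟩ := mem_iUnion.1 hx
    · exact ((f1 m).1.val.2.1 x hm).trans (hα m).le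
    · exact (top m x hm).le
  · have key : ∀ x ∈ c.u, ht x ≤ del N ∧ ∀ᶠ m in atTop, res x (f m).c.α ∈ (f m).c.u := by
      rintro x (hx | hx) <;> obtain ⟨m, hm⟩ := mem_iUnion.1 hx
      · refine ⟨((f1 m).1.val.2.1 x hm).trans (hα m).le, eventually_atTop.2 ⟨m, fun k hk => ?_⟩⟩
        rw [res_of_le (((f1 m).1.val.2.1 x hm).trans (m1 hk).1)]
        exact (m1 hk).2.1 hm
      · exact ⟨(top m x hm).le, eventually_atTop.2 ⟨m, fun k hk =>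
          (f1 k).1.mem _ (List.mem_map_of_mem (f := (res · _)) (m2 hk hm))⟩⟩
    intro x1 k1 x2 k2 x3 k3 x4 k4 w k5 k6
    have k7 : ht w < del N := k5.ht_lt.1.trans_le (key x1 k1).1
    obtain ⟨g, k8, k9⟩ : ∃ g, ht w < g ∧ g < del N :=
      ⟨_, Order.lt_succ _, (hN.dl _).1 (hN.suc _ ((hN.dl _).2 k7))⟩
    obtain ⟨n, -, k10⟩ := cof g k9 0
    obtain ⟨m, j1, j2, j3, j4, j5⟩ := ((eventually_ge_atTop n).and ((key x1 k1).2.and
      ((key x2 k2).2.and ((key x3 k3).2.and (key x4 k4).2)))).exists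
    have j6 : ht w < (f m).c.α := k8.trans_le (k10.trans (m1 j1).1)
    obtain ⟨e, j7, j8⟩ := (f1 m).1.val.2.2.1 _ j2 _ j3 _ j4 _ j5 w (k5.cut j6 j6) (k6.cut j6 j6)
    have j9 := ale a' ha' _ (f1 m).1.hN (f1 m).1.le
    exact ⟨e, hD.V_ext _ _ _ _ _ _ (hD.V_mono _ _ _ _ _ j9 j7) ⟨w, k5.cut j6 j6⟩ (below_res _ _)
      (below_res _ _), hD.V_ext _ _ _ _ _ _ (hD.V_mono _ _ _ _ _ j9 j8) ⟨w, k6.cut j6 j6⟩
      (below_res _ _) (below_res _ _)⟩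
  · change ((ZFSet.iUnion fun n => (f n).c.G : U) : Set U).Countable
    rw [ZFSet.coe_iUnion]
    exact countable_iUnion fun n => (f1 n).1.val.2.2.2.1
  · obtain ⟨n, hn⟩ := ZFSet.mem_iUnion.1 hg
    obtain ⟨k1, k2, -⟩ := (f1 n).1.val.2.2.2.2 g hn
    refine ⟨k1, hD.mono _ _ _ (ale a' ha' _ (f1 n).1.hN (f1 n).1.le) k2, fun F hF => ?_⟩
    obtain ⟨m, k3, k4⟩ := f2 (.inr (.inr ⟨(a', g, (hF.inter_of_left {t | ht t = del N}).toFinset.toList),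
      ha', hN.m0.sub _ (hN.pc (f1 n).1.cN).2 (f1 n).1.val.2.2.2.1 hn, fun t h => by
        simp only [Finset.mem_toList, Finite.mem_toFinset] at h
        exact h.2⟩)) n
    obtain ⟨τ, k5, k6, k7, k8⟩ := k4 ((m1 k3).2.2.2 hn)
    refine ⟨τ, k5, k6, k7, fun x hx => ⟨Or.inr (mem_iUnion.2 ⟨_, (k8 x hx).1⟩), fun k9 => (k8 x hx).2 ?_⟩⟩
    simp only [Finset.mem_toList, Finite.mem_toFinset]
    exact ⟨k9, (τ.ht_mem hx).trans k5⟩
  · rcases ZFSet.mem_insert_iff.1 hM with rfl | hM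
    · obtain ⟨m, -, -, k⟩ := f2 (.inl ⟨(u, s.c.α), hu, (hN.pc hs.cN).1⟩) 0
      obtain ⟨h, k1, k2, k3⟩ := k hd
      exact ⟨h, _, k1, k2, (f1 _).1.cN, cle _, fun a' ha' => ale a' ha' h k2 k3⟩
    · obtain ⟨x, hx⟩ := ZFSet.mem_iUnion.1 hM
      obtain ⟨h, c', k1, k2, k3, k4, k5⟩ := z6 x M hx u hu hd
      exact ⟨h, c', k1, k2, k3, (cle _).trans k4, fun a' ha' => ale a' ha' h
        (hN.m0.sub' (hB _ (z4 x (z5 x).mem)).m0 (z1 x) ((z5 x).sub hx k2)) (k5 a (by simp))⟩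

theorem sch (h1 : ExtStmt) (h2 : CombStmt) : SchStmt := by
  intro P _ _ _ hP D hD
  refine ⟨QQ D, ev_QQ D, fun S β B N N' A h₀ c₀ hS hSN hr hB hN' hNN hne hA k1 k2 k3 => ?_⟩
  obtain ⟨a, ha⟩ := List.exists_mem_of_ne_nil A hne
  obtain ⟨t, ht'⟩ := T.exists_ht (del N)
  obtain ⟨z, z1, z2, z3, z4, -, -, z5⟩ := ss h1 h2 hP hD β S B N N' A a
    ⟨h₀, c₀, ⟨t, [], by simp⟩, B⟩ hS hSN hB hN' hNN ha
    (fun a h => ⟨(hA a h).1, (hA a h).2.1, (hA a h).2.2.2⟩)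
    ⟨k1, k2, (hA a ha).2.2.1, k3, ht', by simp [Fam.res_l], by simp [Inj, Fam.res_l],
      fun _ h => h, hr, fun M hM => good_nil hD (hB M hM) ((hA a ha).2.1 M hM)
        (((hB M hM).del_le (hB N hr.mem) (hr.sub hM)).trans ht'.ge) rfl⟩
  exact ⟨z.1, z1, z2, z.2, z3, z4, z5⟩

end Pool.Agent.Ctry.Sch
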